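import Pool.Agent.BPN.T.SignE

/-!
# Detection of operations (project BPN, module T/SignC)

`KK M m`: the simplicial set of `m`-cocycles on simplices, with its universal cocycle.
-/

namespace BPN

open CategoryTheory SSet Simplicial Opposite GSp

/-- The simplicial set of cocycles on simplices. -/
def KK (M : Type) [AddCommGroup M] (m : ℕ) : SSet.{0} where
  obj := fun a => {x : ((⦋m⦌ : SimplexCategory) ⟶ a.unop) → M //
    (∀ τ : (⦋m⦌ : SimplexCategory) ⟶ a.unop, ¬ Function.Injective τ.toOrderHom → x τ = 0) ∧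
    ∀ g : (⦋m + 1⦌ : SimplexCategory) ⟶ a.unop, ∑ i ∈ Finset.range (m + 2),
      (-1 : ℤ) ^ i • x (opm (dl i) (dl_strictMono i).monotone (dl_bd i rfl) ≫ g) = 0}
  map := fun φ => TypeCat.ofHom (fun x => ⟨fun τ => x.1 (τ ≫ φ.unop), fun τ hτ =>
      x.2.1 _ (fun h => hτ (by
        intro u v huv
        apply h
        change φ.unop.toOrderHom (τ.toOrderHom u) = φ.unop.toOrderHom (τ.toOrderHom v)
        rw [huv])), fun g => by
      have := x.2.2 (g ≫ φ.unop)
      simpa only [Category.assoc] using this⟩)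
  map_id := fun a => by
    ext x τ
    exact congrArg x.1 (Category.comp_id τ)
  map_comp := fun φ ψ => by
    ext x τ
    exact congrArg x.1 (Category.assoc τ ψ.unop φ.unop).symm

variable {M : Type} [AddCommGroup M]

theorem KK_map {m : ℕ} {f : ℕ → ℕ} (hf : Monotone f) {a b : ℕ} (hb : ∀ i, i ≤ a → f i ≤ b)
    (x : (KK M m).obj (op ⦋b⦌)) (τ : (⦋m⦌ : SimplexCategory) ⟶ ⦋a⦌) :
    (opr (KK M m) f hf hb x).1 τ = x.1 (τ ≫ opm f hf hb) := rfl

/-- The universal cocycle. -/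
def KK.uc (M : Type) [AddCommGroup M] (m : ℕ) : CoZ (KK M m) M m :=
  ⟨fun x => x.1 (𝟙 _), ⟨fun i a h hi τ => by
    subst h
    change τ.1 (𝟙 _ ≫ opm (sg i) (sg_mono i) (sg_bd i rfl hi)) = 0
    rw [Category.id_comp]
    refine τ.2.1 _ fun hinj => ?_
    have h1 : (opm (sg i) (sg_mono i) (sg_bd i rfl hi)).toOrderHom ⟨i, by
        simp only; omega⟩ =
        (opm (sg i) (sg_mono i) (sg_bd i rfl hi)).toOrderHom ⟨i + 1, by
          simp only; omega⟩ := by
      refine Fin.ext ?_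
      change sg i i = sg i (i + 1)
      unfold sg
      rw [if_pos le_rfl, if_neg (by omega)]
      rfl
    have h2 := congrArg Fin.val (hinj h1)
    simp at h2, fun σ => by
    refine Eq.trans ?_ (σ.2.2 (𝟙 _))
    refine Finset.sum_congr rfl fun i _ => ?_
    congr 1⟩⟩

/-- Extension of a simplicial operator to all natural numbers. -/
def exn {n a : ℕ} (τ : (⦋n⦌ : SimplexCategory) ⟶ ⦋a⦌) (i : ℕ) : ℕ :=
  if h : i ≤ n then (τ.toOrderHom ⟨i, Nat.lt_succ_of_le h⟩ : Fin (a + 1)).1 else i + a - n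

theorem exn_le {n a : ℕ} (τ : (⦋n⦌ : SimplexCategory) ⟶ ⦋a⦌) {i : ℕ} (h : i ≤ n) :
    exn τ i = (τ.toOrderHom ⟨i, Nat.lt_succ_of_le h⟩ : Fin (a + 1)).1 := dif_pos h

theorem exn_le_a {n a : ℕ} (τ : (⦋n⦌ : SimplexCategory) ⟶ ⦋a⦌) {i : ℕ} (h : i ≤ n) :
    exn τ i ≤ a := by
  rw [exn_le τ h]
  exact Nat.lt_succ_iff.mp (Fin.isLt _)

theorem exn_gt {n a : ℕ} (τ : (⦋n⦌ : SimplexCategory) ⟶ ⦋a⦌) {i : ℕ} (h : n < i) :
    exn τ i = i + a - n := dif_neg (by omega)

theorem exn_mono {n a : ℕ} (τ : (⦋n⦌ : SimplexCategory) ⟶ ⦋a⦌) : Monotone (exn τ) := by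
  intro i j hij
  by_cases hj : j ≤ n
  · rw [exn_le τ hj, exn_le τ (hij.trans hj)]
    exact τ.toOrderHom.monotone hij
  · rw [exn_gt τ (not_le.mp hj)]
    by_cases hi : i ≤ n
    · have := exn_le_a τ hi
      omega
    · rw [exn_gt τ (not_le.mp hi)]
      omega

theorem exn_comp {n a b : ℕ} (τ : (⦋n⦌ : SimplexCategory) ⟶ ⦋a⦌) {f : ℕ → ℕ} (hf : Monotone f)
    (hb : ∀ i, i ≤ a → f i ≤ b) {i : ℕ} (h : i ≤ n) : exn (τ ≫ opm f hf hb) i = f (exn τ i) := by
  rw [exn_le _ h, exn_le _ h]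
  rfl

theorem exn_opm {n a b : ℕ} {f : ℕ → ℕ} (hf : Monotone f) (hb : ∀ i, i ≤ n → f i ≤ a)
    (g : (⦋a⦌ : SimplexCategory) ⟶ ⦋b⦌) {i : ℕ} (h : i ≤ n) :
    exn (opm f hf hb ≫ g) i = exn g (f i) := by
  rw [exn_le _ h, exn_le _ (hb i h)]
  rfl

/-- The tail condition. -/
def Tl (m a : ℕ) (y : (ℕ → ℕ) → M) : Prop := ∀ f, y f ≠ 0 → ∀ i, m < i → f i + m = i + a

theorem xof_norm {m a : ℕ} {q : ℤ} {y : (ℕ → ℕ) → M} (hy : y ∈ EMG M 0 q)
    (τ : (⦋m⦌ : SimplexCategory) ⟶ ⦋a⦌) (hτ : ¬ Function.Injective τ.toOrderHom) :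
    y (exn τ) = 0 := by
  by_contra hne
  have h1 := (hy.1 _ hne).1
  refine hτ fun u v huv => ?_
  have h2 : exn τ u.1 = exn τ v.1 := by
    rw [exn_le τ (Nat.lt_succ_iff.mp u.2), exn_le τ (Nat.lt_succ_iff.mp v.2)]
    exact congrArg Fin.val huv
  exact Fin.ext (h1.injective h2)

theorem xof_coc {m a : ℕ} {q : ℤ} (hq : q = a - m) {y : (ℕ → ℕ) → M} (hy : y ∈ EMG M 0 q)
    (hT : Tl m a y) (g : (⦋m + 1⦌ : SimplexCategory) ⟶ ⦋a⦌) :
    ∑ i ∈ Finset.range (m + 2),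
      (-1 : ℤ) ^ i • y (exn (opm (dl i) (dl_strictMono i).monotone (dl_bd i rfl) ≫ g)) = 0 := by
  obtain ⟨K₀, hK⟩ := hy.2.2 (exn g) (exn_mono g) ⟨m + 2, fun i hi => by
    rw [exn_gt g (by omega)]
    omega⟩
  have h1 := hK (m + 2 + K₀) (by omega)
  rw [Finset.sum_range_add, Finset.sum_eq_zero (s := Finset.range K₀) (fun i _ => by
    have h2 : y (exn g ∘ dl (m + 2 + i)) = 0 := by
      by_contra hne
      have h3 := hT _ hne (m + 1) (by omega)
      simp only [Function.comp_apply, dl] at h3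
      rw [if_pos (by omega)] at h3
      have h4 := exn_le_a g (le_refl (m + 1))
      omega
    rw [h2, smul_zero]), add_zero] at h1
  rw [← h1]
  refine Finset.sum_congr rfl fun i hi => ?_
  congr 2
  funext x
  by_cases hx : x ≤ m
  · rw [exn_opm _ _ _ hx]
    rfl
  · rw [exn_gt _ (by omega)]
    simp only [Function.comp_apply, dl]
    have := Finset.mem_range.mp hi
    rw [if_neg (by omega), exn_gt _ (by omega)]
    omega

/-- The cocycle on a simplex given by an element of the spectrum. -/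
def xof {m a : ℕ} {q : ℤ} (hq : q = a - m) (y : (EM M 0).G q) (hT : Tl m a y.1) :
    (KK M m).obj (op ⦋a⦌) :=
  ⟨fun τ => y.1 (exn τ), fun τ hτ => xof_norm y.2 τ hτ, fun g => xof_coc hq y.2 hT g⟩

theorem pull_xof {m a : ℕ} {q : ℤ} (hq : q = a - m) (y : (EM M 0).G q) (hT : Tl m a y.1)
    (hq' : q - 0 = (a : ℤ) - m) : pull (KK.uc M m) (xof hq y hT) hq' = y := by
  refine Subtype.ext (funext fun f => ?_)
  change pullFun (KK.uc M m).1 (xof hq y hT) hq' f = y.1 f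
  unfold pullFun
  split_ifs with h
  · change y.1 (exn (𝟙 _ ≫ opm f h.1.monotone (pull_bd hq' h.1 h.2))) = y.1 f
    refine congrArg y.1 (funext fun x => ?_)
    by_cases hx : x ≤ m
    · rw [Category.id_comp, exn_le _ hx]
      rfl
    · rw [exn_gt _ (by omega)]
      have := h.2 x (by omega)
      omega
  · by_contra hne
    have h1 := hT f (Ne.symm hne)
    refine h ⟨(y.2.1 f (Ne.symm hne)).1, fun i hi => ?_⟩
    have := h1 i hi
    omega

theorem Tl.d {m a a' : ℕ} (h : a' + 1 = a) {y : (ℕ → ℕ) → M} (hT : Tl m a y) {i : ℕ}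
    (hi : i ≤ a) : Tl m a' (fun f => y (dl i ∘ f)) := by
  intro f hf t ht
  have h1 := hT _ hf t ht
  simp only [Function.comp_apply, dl] at h1
  split_ifs at h1 <;> omega

theorem fc_xof {m a a' : ℕ} (h : a' + 1 = a) {q q' : ℤ} (hq : q = a - m) (hq' : q' = a' - m)
    (hqq : q' + 1 = q) (y : (EM M 0).G q) (hT : Tl m a y.1) {i : ℕ} (hi : i ≤ a) :
    fc (KK M m) i h (xof hq y hT) = xof hq' ((EM M 0).d i hqq y) (hT.d h hi) := by
  refine Subtype.ext (funext fun τ => ?_)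
  change y.1 (exn (τ ≫ opm (dl i) (dl_strictMono i).monotone (dl_bd i h))) = y.1 (dl i ∘ exn τ)
  refine congrArg y.1 (funext fun x => ?_)
  by_cases hx : x ≤ m
  · rw [exn_le _ hx, Function.comp_apply, exn_le _ hx]
    rfl
  · rw [exn_gt _ (by omega), Function.comp_apply, exn_gt _ (by omega)]
    unfold dl
    rw [if_neg (by omega)]
    omega

theorem xof_zero {m l' : ℕ} {q : ℤ} (hl' : 1 ≤ l') (hq : q = l' - m)
    (hT : Tl m l' ((0 : (EM M 0).G q)).1) {e : (KK M m).obj (op ⦋l'⦌) → M}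
    (he : e ∈ CoC (KK M m) M l') : e (xof hq 0 hT) = 0 := by
  obtain ⟨l'', rfl⟩ : ∃ l'', l' = l'' + 1 := ⟨l' - 1, by omega⟩
  have h0 : (KK M m).obj (op ⦋l''⦌) := ⟨fun _ => 0, fun _ _ => rfl, fun _ => by simp⟩
  have h1 := he 0 l'' rfl (Nat.zero_le _)
    (⟨fun _ => 0, fun _ _ => rfl, fun _ => by simp⟩ : (KK M m).obj (op ⦋l''⦌))
  rw [← h1]
  congr 1

theorem Tl.of_bdd {m k D : ℕ} {y : (ℕ → ℕ) → M} (hy : y ∈ EMG M 0 (k : ℤ)) (hD : Sgn.Bdd y D)
    (hm : D ≤ m) : Tl m (m + k) y := by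
  intro f hf i hi
  obtain ⟨hs, N, hN⟩ := hy.1 f hf
  have h1 : D ≤ f D := hs.le_apply
  have h2 := Sgn.hit_all hs (rfl : f D = f D) (fun v hv => hD f hf v (h1.trans hv))
  have h3 := h2 N
  have h4 := hN (D + N) (by omega)
  have h5 := h2 (i - D)
  rw [show D + (i - D) = i by omega] at h5
  push_cast at h4
  omega

namespace Sgn

variable {k : Type} [Field k] {T : Type} {x₀ : T} {W : Type} [AddCommGroup W] [Module k W]

theorem lift_congr {F G : T → W} (z : Fr k T x₀) (h : ∀ x ∈ z.support, F x.1 = G x.1) :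
    Fr.lift (k := k) (x₀ := x₀) F z = Fr.lift (k := k) (x₀ := x₀) G z := by
  simp only [Fr.lift, Finsupp.linearCombination_apply]
  exact Finsupp.sum_congr (fun x hx => by rw [h x hx])

theorem lift_sum (s : Finset ℕ) (c : ℕ → ℤ) (G : ℕ → T → W) (z : Fr k T x₀) :
    Fr.lift (k := k) (x₀ := x₀) (fun y => ∑ i ∈ s, c i • G i y) z =
      ∑ i ∈ s, c i • Fr.lift (k := k) (x₀ := x₀) (G i) z := by
  simp only [Fr.lift, Finsupp.linearCombination_apply, Finsupp.sum, Finset.smul_sum]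
  rw [Finset.sum_comm]
  exact Finset.sum_congr rfl fun x _ => Finset.sum_congr rfl fun y _ => smul_comm _ _ _

end Sgn

/-- Detection, stronger form: large degrees are enough. -/
theorem op_detect_large {p : ℕ} [Fact p.Prime] {k : ℕ} (a : Op p k) (m₀ : ℕ)
    (h : ∀ (X : SSet.{0}) (m l : ℕ) (hl : m + k = l) (c : CoZ X (ZMod p) m), m₀ ≤ m →
      IsBd (act a hl c)) : a.Null := by
  classical
  refine (LSp.null_iff (k := ZMod p) (EM (ZMod p) 0).U k a).mpr fun z hz => ?_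
  rw [lin_id]
  have hD : ∀ x : {x : (EM (ZMod p) 0).G (k : ℤ) // x ≠ 0}, ∃ D : ℕ, Sgn.Bdd x.1.1 D :=
    fun x => x.1.2.2.1
  choose D hD using hD
  obtain ⟨m, hm, hm2, hm0⟩ : ∃ m : ℕ, (∀ x ∈ Finsupp.support
      (show {x : (EM (ZMod p) 0).G (k : ℤ) // x ≠ 0} →₀ ZMod p from z), D x ≤ m) ∧ 2 ≤ m ∧
      m₀ ≤ m :=
    ⟨(Finsupp.support (show {x : (EM (ZMod p) 0).G (k : ℤ) // x ≠ 0} →₀ ZMod p from z)).sup D +
      m₀ + 2, fun x hx => by have := Finset.le_sup (f := D) hx; omega, by omega, by omega⟩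
  have hT : ∀ x ∈ Finsupp.support
      (show {x : (EM (ZMod p) 0).G (k : ℤ) // x ≠ 0} →₀ ZMod p from z), Tl m (m + k) x.1.1 :=
    fun x hx => Tl.of_bdd x.1.2 (hD x) (hm x hx)
  have hq : (k : ℤ) = ((m + k : ℕ) : ℤ) - m := by push_cast; ring
  have hq0 : (k : ℤ) - 0 = ((m + k : ℕ) : ℤ) - m := by push_cast; ring
  have hval : ∀ (y : (EM (ZMod p) 0).G (k : ℤ)) (hy : Tl m (m + k) y.1), (a.f k y).1 id =
      act a rfl (KK.uc (ZMod p) m) (xof hq y hy) := by
    intro y hy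
    unfold act
    rw [pull_xof hq y hy hq0]
  rcases h (KK (ZMod p) m) m (m + k) rfl (KK.uc (ZMod p) m) hm0 with h0 | ⟨l', hl', e, he, hae⟩
  · refine (Sgn.lift_congr (G := fun _ => 0) _ fun x hx => ?_).trans ?_
    · rw [hval x.1 (hT x hx), h0]
      rfl
    · simp [Fr.lift, Finsupp.linearCombination_apply]
  · have hq' : (k : ℤ) - 1 = (l' : ℤ) - m := by
      have : (l' : ℤ) + 1 = ((m + k : ℕ) : ℤ) := by rw [← hl']; push_cast; ring
      push_cast at this
      omega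
    have hqq : (k : ℤ) - 1 + 1 = k := by omega
    let E : (EM (ZMod p) 0).G ((k : ℤ) - 1) → ZMod p := fun y =>
      if hy : Tl m l' y.1 then e (xof hq' y hy) else 0
    have hE : ∀ y (hy : Tl m l' y.1), E y = e (xof hq' y hy) := fun y hy => dif_pos hy
    have hE0 : E 0 = 0 := by
      simp only [E]
      split_ifs with hy
      · exact xof_zero (by omega) hq' hy he
      · rfl
    refine (Sgn.lift_congr (G := fun y => ∑ i ∈ Finset.range (m + k + 1), (-1 : ℤ) ^ i •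
      E ((EM (ZMod p) 0).d i hqq y)) _ fun x hx => ?_).trans ?_
    · rw [hval x.1 (hT x hx), hae]
      unfold cobd
      refine Finset.sum_congr rfl fun i hi => ?_
      have hi' : i ≤ m + k := by have := Finset.mem_range.mp hi; omega
      congr 1
      rw [fc_xof hl' hq hq' hqq x.1 (hT x hx) hi']
      exact (hE _ _).symm
    · rw [Sgn.lift_sum (k := ZMod p) (x₀ := (0 : (EM (ZMod p) 0).G (k : ℤ)))
        (Finset.range (m + k + 1)) (fun i => (-1 : ℤ) ^ i)
        (fun i y => E ((EM (ZMod p) 0).d i hqq y))]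
      refine Finset.sum_eq_zero fun i _ => ?_
      have h1 := Sgn.lift_d (k := ZMod p) hqq i E hE0 z
      have h2 : (lin (ZMod p) (EM (ZMod p) 0).U).d i hqq z = 0 := hz i hqq
      rw [h2] at h1
      have h3 := h1.trans (LinearMap.map_zero (Fr.lift (k := ZMod p)
        (x₀ := (0 : (EM (ZMod p) 0).G ((k : ℤ) - 1))) E))
      exact (congrArg ((-1 : ℤ) ^ i • ·) h3).trans (smul_zero _)

/-- (S3) Detection: an operation between mod `p` Eilenberg-MacLane spectra which sends every cocycle of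
every simplicial set to a coboundary is nullhomotopic. -/
theorem op_detect {p : ℕ} [Fact p.Prime] {k : ℕ} (a : Op p k)
    (h : ∀ (X : SSet.{0}) (m l : ℕ) (hl : m + k = l) (c : CoZ X (ZMod p) m),
      IsBd (act a hl c)) : a.Null :=
  op_detect_large a 0 fun X m l hl c _ => h X m l hl c

end BPN
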