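import Pool.Agent.BPN.T.SignB
import Pool.Agent.BPN.T.SignC

/-!
# The sign lemma (project BPN, module T/Sign)

Looping an operation of degree `k` between mod `p` Eilenberg-MacLane spectra agrees with its shift up to
the sign `(-1)^k`.

* `RelBd`, `act_add_rel` (S1): `T/SignA`;
* `act_cobd_rel` (S2): `T/SignB`;
* `op_detect` (S3), `op_detect_large`: `T/SignC`;
* `sign_lemma`: `T/SignD`, `T/SignE` (a direct proof on cycles of the linearisation which does not use
  (S1), (S2), (S3)).
-/
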