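import Pool.Agent.BPN.L.CE
import Pool.Agent.BPN.L.LEM

/-!
# The Koszul layers (project BPN, module T/Def)

`Mon n s` : monomials of degree `s` in `v_0, .., v_n`; `mdeg p I` : the stem of `v^I`;
`KS p n s k` : the product of the `EM (ZMod p) (mdeg p I + k)` over `I : Mon n s`;
`qm Q s k : KS s k → KS (s + 1) (k + 1)` : the Koszul map `∑ v_i Q_i`.
-/

namespace BPN

open GSp

/-- Monomials of degree `s` in `v_0, .., v_n`. -/
abbrev Mon (n s : ℕ) : Type := {I : Fin (n + 1) → ℕ // ∑ i, I i = s}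

instance (n s : ℕ) : Finite (Mon n s) := by
  have hle : ∀ (I : Mon n s) (i : Fin (n + 1)), I.1 i < s + 1 := fun I i =>
    Nat.lt_succ_of_le (le_trans (Finset.single_le_sum (f := I.1) (fun _ _ => Nat.zero_le _)
      (Finset.mem_univ i)) I.2.le)
  exact Finite.of_injective (fun (I : Mon n s) (i : Fin (n + 1)) =>
    (⟨I.1 i, hle I i⟩ : Fin (s + 1))) (fun I J h => Subtype.ext (funext fun i => by
      have := congrFun h i
      exact congrArg Fin.val this))

noncomputable instance (n s : ℕ) : Fintype (Mon n s) := Fintype.ofFinite _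

theorem sum_update_add {m : ℕ} (I : Fin m → ℕ) (i : Fin m) (a : ℕ) :
    (∑ j, Function.update I i a j) + I i = a + ∑ j, I j := by
  have h := Finset.sum_update_of_mem (Finset.mem_univ i) I a
  have h0 := Finset.sum_update_of_mem (Finset.mem_univ i) I (I i)
  rw [Function.update_eq_self] at h0
  rw [h, h0]
  omega

/-- `I + ε_i`. -/
def Mon.succ {n s : ℕ} (I : Mon n s) (i : Fin (n + 1)) : Mon n (s + 1) :=
  ⟨Function.update I.1 i (I.1 i + 1), by
    have h := sum_update_add I.1 i (I.1 i + 1)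
    have h2 := I.2
    omega⟩

/-- `J - ε_i`, for `0 < J_i`. -/
def Mon.pred {n s : ℕ} (J : Mon n (s + 1)) (i : Fin (n + 1)) (h : 0 < J.1 i) : Mon n s :=
  ⟨Function.update J.1 i (J.1 i - 1), by
    have h1 := sum_update_add J.1 i (J.1 i - 1)
    have h2 := J.2
    omega⟩

theorem Mon.succ_pred {n s : ℕ} (J : Mon n (s + 1)) (i : Fin (n + 1)) (h : 0 < J.1 i) :
    (J.pred i h).succ i = J := by
  refine Subtype.ext ?_
  simp only [Mon.succ, Mon.pred, Function.update_self, Function.update_idem]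
  rw [Nat.sub_add_cancel h, Function.update_eq_self]

theorem Mon.pred_succ {n s : ℕ} (I : Mon n s) (i : Fin (n + 1)) (h : 0 < (I.succ i).1 i) :
    (I.succ i).pred i h = I := by
  refine Subtype.ext ?_
  simp [Mon.succ, Mon.pred]

/-- The stem of the monomial `v^I`. -/
def mdeg (p : ℕ) {n : ℕ} (I : Fin (n + 1) → ℕ) : ℤ :=
  ∑ i, (I i : ℤ) * (2 * ((p : ℤ) ^ (i : ℕ) - 1))

theorem mdeg_succ (p : ℕ) {n s : ℕ} (I : Mon n s) (i : Fin (n + 1)) :
    mdeg p (I.succ i).1 = mdeg p I.1 + 2 * ((p : ℤ) ^ (i : ℕ) - 1) := by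
  have h : ∀ j, ((I.succ i).1 j : ℤ) * (2 * ((p : ℤ) ^ (j : ℕ) - 1)) =
      (I.1 j : ℤ) * (2 * ((p : ℤ) ^ (j : ℕ) - 1)) +
        (if j = i then 2 * ((p : ℤ) ^ (j : ℕ) - 1) else 0) := by
    intro j
    by_cases hj : j = i
    · subst hj; simp [Mon.succ]; ring
    · simp [Mon.succ, hj]
  unfold mdeg
  rw [Finset.sum_congr rfl (fun j _ => h j), Finset.sum_add_distrib, Finset.sum_ite_eq' _ i]
  simp

theorem mdeg_pred (p : ℕ) {n s : ℕ} (J : Mon n (s + 1)) (i : Fin (n + 1)) (h : 0 < J.1 i) :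
    mdeg p J.1 = mdeg p (J.pred i h).1 + 2 * ((p : ℤ) ^ (i : ℕ) - 1) := by
  rw [← mdeg_succ, Mon.succ_pred]

/-- `mdeg` is even. -/
theorem mdeg_even (p : ℕ) {n : ℕ} (I : Fin (n + 1) → ℕ) : Even (mdeg p I) := by
  unfold mdeg
  refine Finset.even_sum _ fun i _ => ?_
  exact (even_two_mul _).mul_left _

theorem deg_cast (p : ℕ) [Fact p.Prime] (i : ℕ) :
    ((2 * p ^ i - 1 : ℕ) : ℤ) = 2 * (p : ℤ) ^ i - 1 := by
  have h : 0 < p ^ i := Nat.pos_of_ne_zero (pow_ne_zero _ (Fact.out : p.Prime).ne_zero)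
  rw [Nat.cast_sub (by omega)]
  push_cast
  ring

instance {k : Type} [Field k] (X : PSp) (L : LSp k) : AddCommGroup (Map X L.toG) :=
  { (inferInstance : AddGroup (Map X L.toG)) with
    add_comm := fun a b => Map.ext2 fun q x => add_comm (a.f q x : L.V q) (b.f q x) }

section layers

variable (p n : ℕ) [Fact p.Prime]

/-- The layer `HF_p ⊗ P_s`, shifted by `k`, as a linear spectrum. -/
noncomputable def KL (s : ℕ) (k : ℤ) : LSp (ZMod p) :=
  LSp.pi (fun I : Mon n s => EML (ZMod p) (ZMod p) (mdeg p I.1 + k))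

/-- The layer as a group spectrum. -/
noncomputable abbrev KS (s : ℕ) (k : ℤ) : GSp := (KL p n s k).toG

variable {p n}

/-- The projection of a layer to a factor. -/
noncomputable def KS.pr {s : ℕ} {k : ℤ} (I : Mon n s) :
    Map (KS p n s k).U (EM (ZMod p) (mdeg p I.1 + k)) :=
  Map.ofHom (LSp.piProj (fun I : Mon n s => EML (ZMod p) (ZMod p) (mdeg p I.1 + k)) I).toG

open Classical in
/-- The inclusion of a factor. -/
noncomputable def KS.inj {s : ℕ} {k : ℤ} (I : Mon n s) :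
    Map (EM (ZMod p) (mdeg p I.1 + k)).U (KS p n s k) :=
  Map.ofHom (LSp.piIn (fun I : Mon n s => EML (ZMod p) (ZMod p) (mdeg p I.1 + k)) I).toG

/-- The Koszul map `∑ v_i Q_i : KS s k → KS (s + 1) (k + 1)`. -/
noncomputable def qm (Q : ∀ i : Fin (n + 1), Op p (2 * p ^ (i : ℕ) - 1)) (s : ℕ) (k : ℤ) :
    Map (KS p n s k).U (KS p n (s + 1) (k + 1)) :=
  LSp.toPi (L := fun J : Mon n (s + 1) => EML (ZMod p) (ZMod p) (mdeg p J.1 + (k + 1)))
    (fun J => ∑ i : Fin (n + 1), if h : 0 < J.1 i then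
      (Map.comp (Map.sh (n' := mdeg p (J.pred i h).1 + k) (m' := mdeg p J.1 + (k + 1)) (Q i) (by
        rw [mdeg_pred p J i h, deg_cast]; ring)) (KS.pr (J.pred i h)) :
          Map (KS p n s k).U (EML (ZMod p) (ZMod p) (mdeg p J.1 + (k + 1))).toG) else 0)

/-- The isomorphism of a layer with the loops of the shifted layer. -/
noncomputable def KS.toOm (s : ℕ) {k l : ℤ} (h : k + 1 = l) : Hom (KS p n s k) (KS p n s l).Om where
  f := fun q =>
    { toFun := fun c => ⟨fun I => (((EM.toOm (ZMod p) (show mdeg p I.1 + k + 1 = mdeg p I.1 + l by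
          omega)).f q (c I)).1 : (EM (ZMod p) (mdeg p I.1 + l)).G (q + 1)), by
          refine funext fun I => ?_
          exact ((EM.toOm (ZMod p) (show mdeg p I.1 + k + 1 = mdeg p I.1 + l by
            omega)).f q (c I)).2⟩
      map_zero' := by
        refine Subtype.ext (funext fun I => ?_)
        exact congrArg Subtype.val (map_zero ((EM.toOm (ZMod p)
          (show mdeg p I.1 + k + 1 = mdeg p I.1 + l by omega)).f q))
      map_add' := fun x y => by
        refine Subtype.ext (funext fun I => ?_)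
        exact congrArg Subtype.val (map_add ((EM.toOm (ZMod p)
          (show mdeg p I.1 + k + 1 = mdeg p I.1 + l by omega)).f q) (x I) (y I)) }
  map_d := fun i q r h' x => by
    refine Subtype.ext (funext fun I => ?_)
    exact congrArg Subtype.val ((EM.toOm (ZMod p)
          (show mdeg p I.1 + k + 1 = mdeg p I.1 + l by omega)).map_d i h' (x I))
  map_s := fun i q r h' x => by
    refine Subtype.ext (funext fun I => ?_)
    exact congrArg Subtype.val ((EM.toOm (ZMod p)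
          (show mdeg p I.1 + k + 1 = mdeg p I.1 + l by omega)).map_s i h' (x I))

theorem KS.toOm_apply (s : ℕ) {k l : ℤ} (h : k + 1 = l) (q : ℤ) (c : (KS p n s k).G q)
    (I : Mon n s) : (((KS.toOm s h).f q c).1 : (KS p n s l).G (q + 1)) I =
      (((EM.toOm (ZMod p) (show mdeg p I.1 + k + 1 = mdeg p I.1 + l by omega)).f q (c I)).1 :
        (EM (ZMod p) (mdeg p I.1 + l)).G (q + 1)) := rfl

theorem KS.toOm_bijective (s : ℕ) {k l : ℤ} (h : k + 1 = l) (q : ℤ) :
    Function.Bijective ((KS.toOm (p := p) (n := n) s h).f q) := by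
  constructor
  · intro x y hxy
    refine funext fun I => ?_
    refine (EM.toOm_bijective (M := ZMod p)
      (show mdeg p I.1 + k + 1 = mdeg p I.1 + l by omega) q).1 (Subtype.ext ?_)
    have h1 : ((KS.toOm s h).f q x).1 = ((KS.toOm s h).f q y).1 := congrArg Subtype.val hxy
    exact congrFun h1 I
  · intro y
    have hy : ∀ I : Mon n s, (EM (ZMod p) (mdeg p I.1 + l)).d 0 rfl
        ((y.1 : (KS p n s l).G (q + 1)) I) = 0 := fun I => congrFun y.2 I
    choose c hc using fun I : Mon n s => (EM.toOm_bijective (M := ZMod p)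
      (show mdeg p I.1 + k + 1 = mdeg p I.1 + l by omega) q).2
        ⟨(y.1 : (KS p n s l).G (q + 1)) I, hy I⟩
    refine ⟨c, Subtype.ext (funext fun I => ?_)⟩
    exact congrArg Subtype.val (hc I)

theorem KS.toOm_we (s : ℕ) {k l : ℤ} (h : k + 1 = l) :
    (Map.ofHom (KS.toOm (p := p) (n := n) s h)).WE := by
  refine (we_iff _ fun q => (KS.toOm_bijective s h q).2).mpr ?_
  intro q z hz
  have h0 : z = 0 := by
    refine Subtype.ext ((KS.toOm_bijective s h q).1 ?_)
    exact z.2.trans (map_zero _).symm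
  rw [h0]
  exact zero_mem _

theorem KS.sbb (s : ℕ) (k : ℤ) : (KS p n s k).SBB := by
  obtain ⟨m, hm⟩ : ∃ m : ℤ, ∀ I : Mon n s, m ≤ mdeg p I.1 + k := by
    obtain ⟨m, hm⟩ := (Set.finite_range fun I : Mon n s => mdeg p I.1 + k).bddBelow
    exact ⟨m, fun I => hm ⟨I, rfl⟩⟩
  refine ⟨m, fun q hq x => funext fun I => ?_⟩
  exact EM.below (ZMod p) _ q (lt_of_lt_of_le hq (hm I)) (x I)

end layers

/-! ### The cohomology hypothesis -/

/-- `H^*(Y; F_p) = A / A (Q_0, .., Q_n)`, generated by `u`. -/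
structure IsCyc {p n : ℕ} (Q : ∀ i : Fin (n + 1), Op p (2 * p ^ (i : ℕ) - 1)) (Y : GSp)
    (u : Map Y.U (EM (ZMod p) 0)) : Prop where
  gen : ∀ (k : ℤ) (x : Map Y.U (EM (ZMod p) k)),
    ∃ a : Map (EM (ZMod p) 0).U (EM (ZMod p) k), HC.mk (Map.comp a u) = HC.mk x
  rel : ∀ (k : ℤ) (a : Map (EM (ZMod p) 0).U (EM (ZMod p) k)), (Map.comp a u).Null ↔
    ∃ b : ∀ i : Fin (n + 1), Map (EM (ZMod p) (2 * p ^ (i : ℕ) - 1 : ℕ)).U (EM (ZMod p) k),
      HC.mk a = ∑ i, HC.mk (Map.comp (b i) (Q i))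

end BPN
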