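import Pool.Agent.BPN.L.LEM

/-!
# The sign lemma, direct proof (project BPN, module T/SignD)

For a cycle `z = ∑ λ_s [c_s]` of `lin (EM i)` of degree `j` consider the two cycles `sh z`, `toOm z` of
`lin (EM (i + 1))` of degree `j + 1`.  For large `b` with `b ≡ j - i` mod 2 there are elements `θ c` of
`EM (i + 1)` of degree `j + 2` with `d_0 (θ c) = sh c`, `d_{b + 1} (θ c) = toOm c` and all other
faces natural in `c`, so a functional on the homology satisfies `φ (sh z) = (-1)^b φ (toOm z)`.
-/

namespace BPN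

open GSp

namespace Sgn

variable {M : Type} [AddCommGroup M]

/-- `c` is supported on functions which hit all values `≥ b`. -/
def Bdd (c : (ℕ → ℕ) → M) (b : ℕ) : Prop := ∀ f, c f ≠ 0 → ∀ v, b ≤ v → ∃ i, f i = v

open Classical in
/-- The element `θ c`. -/
noncomputable def th (b : ℕ) (c : (ℕ → ℕ) → M) (f : ℕ → ℕ) : M :=
  if StrictMono f then
    (if 0 < f 0 then c (fun x => f x - 1)
     else if ∀ x, f x ≠ b + 1 then c (fun x => sg b (f (x + 1) - 1)) else 0)
  else 0

theorem th_pos {b : ℕ} {c : (ℕ → ℕ) → M} {f : ℕ → ℕ} (hf : StrictMono f) (h0 : 0 < f 0) :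
    th b c f = c (fun x => f x - 1) := by
  unfold th
  rw [if_pos hf, if_pos h0]

theorem th_zero {b : ℕ} {c : (ℕ → ℕ) → M} {f : ℕ → ℕ} (hf : StrictMono f) (h0 : f 0 = 0)
    (h : ∀ x, f x ≠ b + 1) : th b c f = c (fun x => sg b (f (x + 1) - 1)) := by
  unfold th
  rw [if_pos hf, if_neg (by omega), if_pos h]

theorem th_hit {b : ℕ} {c : (ℕ → ℕ) → M} {f : ℕ → ℕ} (h0 : f 0 = 0)
    (x : ℕ) (h : f x = b + 1) : th b c f = 0 := by
  unfold th
  by_cases hf : StrictMono f
  · rw [if_pos hf, if_neg (by omega), if_neg (fun h' => h' x h)]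
  · rw [if_neg hf]

theorem th_not {b : ℕ} {c : (ℕ → ℕ) → M} {f : ℕ → ℕ} (hf : ¬ StrictMono f) : th b c f = 0 :=
  if_neg hf

theorem hit_all {h : ℕ → ℕ} (hh : StrictMono h) {t b : ℕ} (ht : h t = b)
    (hall : ∀ v, b ≤ v → ∃ i, h i = v) : ∀ x, h (t + x) = b + x := by
  intro x
  induction x with
  | zero => exact ht
  | succ x ih =>
    obtain ⟨i, hi⟩ := hall (b + (x + 1)) (by omega)
    have h1 : t + x < i := by
      by_contra hn
      have := hh.monotone (not_lt.mp hn)
      omega
    have h2 : h (t + (x + 1)) ≤ h i := hh.monotone (by omega)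
    have h3 : h (t + x) < h (t + (x + 1)) := hh (by omega)
    omega

theorem th_mem {n q n' r : ℤ} (hn : n + 1 = n') (hr : q + 2 = r) {c : (ℕ → ℕ) → M} {b : ℕ}
    (hc : c ∈ EMG M n q) (hb : Bdd c b) (hk : Even (q - n - b)) : th b c ∈ EMG M n' r := by
  have hsm : ∀ f, th b c f ≠ 0 → StrictMono f := fun f hf => by
    by_contra h
    exact hf (th_not h)
  refine ⟨fun f hf => ?_, ⟨b + 3, fun f hf v hv => ?_⟩, fun g hg hs => ?_⟩
  · have hs := hsm f hf
    refine ⟨hs, ?_⟩
    rcases Nat.eq_zero_or_pos (f 0) with h0 | h0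
    · by_cases hh : ∀ x, f x ≠ b + 1
      · rw [th_zero hs h0 hh] at hf
        obtain ⟨-, N, hN⟩ := hc.1 _ hf
        refine ⟨N + b + (q - n).natAbs + 2, fun i hi => ?_⟩
        obtain ⟨i, rfl⟩ : ∃ i', i = i' + 1 := ⟨i - 1, by omega⟩
        have h1 := hN i (by omega)
        simp only [sg] at h1
        split_ifs at h1 <;> push_cast at * <;> omega
      · push Not at hh
        obtain ⟨x, hx⟩ := hh
        exact absurd (th_hit h0 x hx) hf
    · rw [th_pos hs h0] at hf
      obtain ⟨-, N, hN⟩ := hc.1 _ hf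
      refine ⟨N, fun i hi => ?_⟩
      have h1 : ((f i - 1 : ℕ) : ℤ) = i + (q - n) := hN i hi
      have h2 : f 0 ≤ f i := hs.monotone (Nat.zero_le i)
      omega
  · have hs := hsm f hf
    rcases Nat.eq_zero_or_pos (f 0) with h0 | h0
    · by_cases hh : ∀ x, f x ≠ b + 1
      · rw [th_zero hs h0 hh] at hf
        obtain ⟨i, hi⟩ := hb _ hf (v - 2) (by omega)
        refine ⟨i + 1, ?_⟩
        simp only [sg] at hi
        split_ifs at hi <;> omega
      · push Not at hh
        obtain ⟨x, hx⟩ := hh
        exact absurd (th_hit h0 x hx) hf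
    · rw [th_pos hs h0] at hf
      obtain ⟨i, hi⟩ := hb _ hf (v - 1) (by omega)
      have h2 : f 0 ≤ f i := hs.monotone (Nat.zero_le i)
      exact ⟨i, by omega⟩
  · by_cases hgs : StrictMono g
    swap
    · exact EMG.auto hsm hg hgs
    obtain ⟨N, hN⟩ := hs
    rcases Nat.eq_zero_or_pos (g 0) with h0 | h0
    swap
    · have h1 : ∀ x, 0 < g x := fun x => lt_of_lt_of_le h0 (hgs.monotone (Nat.zero_le x))
      obtain ⟨K, hK⟩ := hc.2.2 (fun x => g x - 1) (fun x y hxy => Nat.sub_le_sub_right (hg hxy) 1)
        ⟨N, fun i hi => by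
          have := hN i hi
          have := h1 i
          simp only
          omega⟩
      refine ⟨K, fun T hT => ?_⟩
      rw [← hK T hT]
      refine Finset.sum_congr rfl fun i _ => ?_
      rw [th_pos (hgs.comp (dl_strictMono i)) (h1 _)]
      rfl
    have h1 : ∀ x, 0 < g (x + 1) := fun x => by
      have : g 0 < g (x + 1) := hgs (Nat.succ_pos x)
      omega
    obtain ⟨g2, hg2⟩ : ∃ g2 : ℕ → ℕ, g2 = fun x => g (x + 1) - 1 := ⟨_, rfl⟩
    have hg2' : ∀ x, g2 x + 1 = g (x + 1) := fun x => by
      rw [hg2]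
      have := h1 x
      simp only
      omega
    have hg2s : StrictMono g2 := fun x y hxy => by
      have h2 := hg2' x
      have h3 := hg2' y
      have h4 : g (x + 1) < g (y + 1) := hgs (by omega)
      omega
    have key0 : th b c (g ∘ dl 0) = c g2 := by
      rw [th_pos (hgs.comp (dl_strictMono 0)) (by
        have := h1 0
        simpa [dl] using this)]
      congr 1
      rw [hg2]
      funext x
      simp [dl]
    have keyS : ∀ i, (∀ x, (g ∘ dl (i + 1)) x ≠ b + 1) →
        th b c (g ∘ dl (i + 1)) = c ((sg b ∘ g2) ∘ dl i) := by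
      intro i hi
      rw [th_zero (hgs.comp (dl_strictMono _)) (by simp [dl, h0]) hi]
      congr 1
      funext x
      have h2 : dl (i + 1) (x + 1) = dl i x + 1 := by unfold dl; split_ifs <;> omega
      simp only [Function.comp_apply, h2]
      rw [← hg2']
      rfl
    have hN2 : ∀ i, N ≤ i → (g2 i : ℤ) = i + (q - n) := by
      intro i hi
      have h2 := hN (i + 1) (by omega)
      have h3 := hg2' i
      push_cast at h2
      omega
    by_cases hh : ∀ x, g x ≠ b + 1
    · obtain ⟨K, hK⟩ := hc.2.2 (sg b ∘ g2) ((sg_mono b).comp hg2s.monotone)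
        (Shift.sg (l := q - n) ⟨N, hN2⟩ (by omega))
      refine ⟨K + 1, fun T hT => ?_⟩
      obtain ⟨T, rfl⟩ : ∃ T', T = T' + 1 := ⟨T - 1, by omega⟩
      rw [Finset.sum_range_succ', key0]
      have h2 : c g2 = 0 := by
        by_contra hne
        obtain ⟨i, hi⟩ := hb _ hne b le_rfl
        have h3 := hg2' i
        exact hh (i + 1) (by omega)
      rw [h2, smul_zero, add_zero, ← neg_zero, ← hK T (by omega), ← Finset.sum_neg_distrib]
      refine Finset.sum_congr rfl fun i _ => ?_
      rw [keyS i (fun x => hh _), pow_succ, mul_neg_one, neg_smul]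
    · push Not at hh
      obtain ⟨t, ht⟩ := hh
      obtain ⟨t, rfl⟩ : ∃ t', t = t' + 1 := ⟨t - 1, by
        rcases Nat.eq_zero_or_pos t with h2 | h2
        · subst h2; omega
        · omega⟩
      have htb : g2 t = b := by
        have := hg2' t
        omega
      obtain ⟨u, hu⟩ : ∃ u : ℕ → ℕ, u = (sg b ∘ g2) ∘ dl t := ⟨_, rfl⟩
      have hlt : ∀ x, x < t → u x = g2 x := by
        intro x hx
        have h2 : g2 x < g2 t := hg2s hx
        rw [hu]
        simp only [Function.comp_apply, sg, dl]
        rw [if_pos hx, if_pos (by omega)]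
      have hge : ∀ x, t ≤ x → u x + 1 = g2 (x + 1) := by
        intro x hx
        have h2 : g2 t < g2 (x + 1) := hg2s (by omega)
        rw [hu]
        simp only [Function.comp_apply, sg, dl]
        rw [if_neg (show ¬ x < t by omega), if_neg (by omega)]
        omega
      have hclaim : (c g2 ≠ 0 ∨ c u ≠ 0) → ∀ x, g2 (t + x) = b + x := by
        rintro (h2 | h2)
        · exact hit_all hg2s htb (hb _ h2)
        · have h3 := (hc.1 _ h2).1
          have h4 : u t = b := by
            obtain ⟨i, hi⟩ := hb _ h2 b le_rfl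
            have h5 : t ≤ i := by
              by_contra hn
              have h6 := hlt i (by omega)
              have h7 : g2 i < g2 t := hg2s (by omega)
              omega
            have h8 : u t ≤ u i := h3.monotone h5
            have h9 := hge t le_rfl
            have h10 : g2 t < g2 (t + 1) := hg2s (by omega)
            omega
          have h5 := hit_all h3 h4 (hb _ h2)
          intro x
          rcases Nat.eq_zero_or_pos x with h6 | h6
          · subst h6
            exact htb
          · obtain ⟨x, rfl⟩ : ∃ x', x = x' + 1 := ⟨x - 1, by omega⟩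
            have h7 := h5 x
            have h8 := hge (t + x) (by omega)
            rw [← add_assoc]
            omega
      have hsum : ∀ T, t < T → ∑ i ∈ Finset.range (T + 1), (-1 : ℤ) ^ i • th b c (g ∘ dl i) =
          (-1 : ℤ) ^ (t + 1) • c u + c g2 := by
        intro T hT
        rw [Finset.sum_range_succ', key0, pow_zero, one_smul]
        congr 1
        rw [Finset.sum_eq_single t]
        · rw [keyS t, hu]
          intro x hx
          have h2 : dl (t + 1) x = t + 1 := hgs.injective (hx.trans ht.symm)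
          unfold dl at h2
          split_ifs at h2 <;> omega
        · intro i _ hi
          rw [th_hit (by simp [dl, h0]) (if t < i then t + 1 else t) (by
            rw [Function.comp_apply, ← ht]
            congr 1
            unfold dl
            split_ifs <;> omega), smul_zero]
        · intro hn
          exact absurd (Finset.mem_range.mpr hT) hn
      refine ⟨t + 2, fun T hT => ?_⟩
      obtain ⟨T, rfl⟩ : ∃ T', T = T' + 1 := ⟨T - 1, by omega⟩
      rw [hsum T (by omega)]
      by_cases h2 : c g2 ≠ 0 ∨ c u ≠ 0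
      · have h3 := hclaim h2
        have h4 : u = g2 := by
          funext x
          rcases lt_or_ge x t with hx | hx
          · exact hlt x hx
          · have h5 := hge x hx
            obtain ⟨y, rfl⟩ : ∃ y, x = t + y := ⟨x - t, by omega⟩
            have h6 := h3 y
            have h7 := h3 (y + 1)
            rw [← add_assoc] at h7
            omega
        have h5 : (t : ℤ) = b - (q - n) := by
          have h6 := h3 N
          have h7 := hN2 (t + N) (by omega)
          push_cast at h7
          omega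
        have h8 : Even t := by
          have h9 : Even (t : ℤ) := by
            rw [h5]
            have := hk.neg
            rwa [neg_sub] at this
          exact_mod_cast h9
        rw [h4, pow_succ, h8.neg_one_pow]
        simp
      · push Not at h2
        rw [h2.1, h2.2, smul_zero, add_zero]

theorem th_d0 {n q : ℤ} {c : (ℕ → ℕ) → M} {b : ℕ} (hc : c ∈ EMG M n q) (f : ℕ → ℕ) :
    th b c (dl 0 ∘ f) = c f := by
  by_cases hf : StrictMono f
  · rw [th_pos ((dl_strictMono 0).comp hf) (by simp [dl])]
    congr 1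
  · have h1 : ¬ StrictMono (dl 0 ∘ f) := fun h => hf fun x y hxy => by
      have := h hxy
      simpa [dl] using this
    rw [th_not h1]
    by_contra hne
    exact hf (hc.1 _ (Ne.symm hne)).1

theorem not_strict_dl {f : ℕ → ℕ} (hf : ¬ StrictMono f) (x : ℕ) : ¬ StrictMono (dl x ∘ f) :=
  fun h => hf fun _ _ hij => (dl_strictMono x).lt_iff_lt.mp (h hij)

theorem th_db {n q : ℤ} {c : (ℕ → ℕ) → M} {b : ℕ} (hc : c ∈ EMG M n q) (hb : Bdd c b)
    (f : ℕ → ℕ) : th b c (dl (b + 1) ∘ f) =
      if f 0 = 0 ∧ 0 < f 1 then c (fun i => f (i + 1) - 1) else 0 := by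
  by_cases hf : StrictMono f
  swap
  · rw [th_not (not_strict_dl hf _)]
    split_ifs with h0
    · by_contra hne
      have h1 := (hc.1 _ (Ne.symm hne)).1
      refine hf (strictMono_nat_of_lt_succ fun x => ?_)
      rcases Nat.eq_zero_or_pos x with hx | hx
      · subst hx
        rw [h0.1]
        exact h0.2
      · obtain ⟨x, rfl⟩ : ∃ x', x = x' + 1 := ⟨x - 1, by omega⟩
        have h2 := h1 (Nat.lt_succ_self x)
        simp only [Nat.succ_eq_add_one] at h2
        omega
    · rfl
  have hs := (dl_strictMono (b + 1)).comp hf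
  rcases Nat.eq_zero_or_pos (f 0) with h0 | h0
  · have h1 : f 0 < f 1 := hf Nat.zero_lt_one
    rw [if_pos ⟨h0, by omega⟩, th_zero hs (by simp [dl, h0]) (by
      intro x
      simp only [Function.comp_apply, dl]
      split_ifs <;> omega)]
    congr 1
    funext x
    simp only [Function.comp_apply, sg, dl]
    split_ifs <;> omega
  · rw [if_neg (by omega), th_pos hs (by
      simp only [Function.comp_apply, dl]
      split_ifs <;> omega)]
    by_contra hne
    obtain ⟨i, hi⟩ := hb _ hne b le_rfl
    have h1 : f 0 ≤ f i := hf.monotone (Nat.zero_le i)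
    simp only [Function.comp_apply, dl] at hi
    split_ifs at hi <;> omega

theorem th_dx {c : (ℕ → ℕ) → M} {b x : ℕ} (hx : x ≤ b) (f : ℕ → ℕ) :
    th (b + 1) c (dl (x + 1) ∘ f) = th b (fun f => c (dl x ∘ f)) f := by
  by_cases hf : StrictMono f
  swap
  · rw [th_not hf, th_not (not_strict_dl hf _)]
  have hs := (dl_strictMono (x + 1)).comp hf
  rcases Nat.eq_zero_or_pos (f 0) with h0 | h0
  · by_cases hh : ∀ y, f y ≠ b + 1
    · rw [th_zero hf h0 hh, th_zero hs (by simp [dl, h0]) (by
        intro y
        have := hh y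
        simp only [Function.comp_apply, dl]
        split_ifs <;> omega)]
      congr 1
      funext y
      have h1 : 0 < f (y + 1) := by
        have : f 0 < f (y + 1) := hf (Nat.succ_pos y)
        omega
      simp only [Function.comp_apply, sg, dl]
      split_ifs <;> omega
    · push Not at hh
      obtain ⟨y, hy⟩ := hh
      rw [th_hit h0 y hy, th_hit (by simp [dl, h0]) y (by
        simp only [Function.comp_apply, dl, hy]
        split_ifs <;> omega)]
  · rw [th_pos hf h0, th_pos hs (by
      simp only [Function.comp_apply, dl]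
      split_ifs <;> omega)]
    congr 1
    funext y
    have h1 : f 0 ≤ f y := hf.monotone (Nat.zero_le y)
    simp only [Function.comp_apply, dl]
    split_ifs <;> omega

theorem th_big {c : (ℕ → ℕ) → M} {b x : ℕ} (hb : Bdd c b) (hx : b + 1 < x) (f : ℕ → ℕ) :
    th b c (dl x ∘ f) = 0 := by
  by_cases hf : StrictMono f
  swap
  · rw [th_not (not_strict_dl hf _)]
  have hs := (dl_strictMono x).comp hf
  rcases Nat.eq_zero_or_pos (f 0) with h0 | h0
  · by_cases hh : ∀ y, f y ≠ b + 1
    · rw [th_zero hs (by simp only [Function.comp_apply, dl]; split_ifs <;> omega) (by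
        intro y
        have := hh y
        simp only [Function.comp_apply, dl]
        split_ifs <;> omega)]
      by_contra hne
      obtain ⟨i, hi⟩ := hb _ hne (if x = b + 2 then b else x - 2) (by split_ifs <;> omega)
      have h2 := hh (i + 1)
      have h1 : 0 < f (i + 1) := by
        have : f 0 < f (i + 1) := hf (Nat.succ_pos i)
        omega
      simp only [Function.comp_apply, dl, sg] at hi
      split_ifs at hi <;> omega
    · push Not at hh
      obtain ⟨y, hy⟩ := hh
      rw [th_hit (by simp only [Function.comp_apply, dl]; split_ifs <;> omega) y (by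
        simp only [Function.comp_apply, dl, hy]
        split_ifs <;> omega)]
  · rw [th_pos hs (by
      simp only [Function.comp_apply, dl]
      split_ifs <;> omega)]
    by_contra hne
    obtain ⟨i, hi⟩ := hb _ hne (x - 1) (by omega)
    simp only [Function.comp_apply, dl] at hi
    split_ifs at hi
    all_goals omega

theorem Bdd.mono {c : (ℕ → ℕ) → M} {b b' : ℕ} (h : Bdd c b) (hb : b ≤ b') : Bdd c b' :=
  fun f hf v hv => h f hf v (le_trans hb hv)

theorem Bdd.dx {c : (ℕ → ℕ) → M} {b x : ℕ} (h : Bdd c (b + 1)) (hx : x ≤ b) :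
    Bdd (fun f => c (dl x ∘ f)) b := by
  intro f hf v hv
  obtain ⟨i, hi⟩ := h _ hf (v + 1) (by omega)
  refine ⟨i, ?_⟩
  simp only [Function.comp_apply, dl] at hi
  split_ifs at hi <;> omega

open Classical in
/-- `θ c` as an element. -/
noncomputable def Th {n n' q r : ℤ} (hn : n + 1 = n') (hr : q + 2 = r) (b : ℕ)
    (c : (EM M n).G q) : (EM M n').G r :=
  if h : Bdd c.1 b ∧ Even (q - n - b) then ⟨th b c.1, th_mem hn hr c.2 h.1 h.2⟩ else 0

/-- The shift of an element. -/
def shE {n n' q m : ℤ} (hn : n + 1 = n') (hm : q + 1 = m) (c : (EM M n).G q) : (EM M n').G m :=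
  ⟨c.1, EMG.cast_mem (by omega) c.2⟩

/-- `toOm` as an element of the target. -/
noncomputable def toE {n n' q m : ℤ} (hn : n + 1 = n') (hm : q + 1 = m) (c : (EM M n).G q) :
    (EM M n').G m :=
  ⟨fun f => if f 0 = 0 ∧ 0 < f 1 then c.1 (fun i => f (i + 1) - 1) else 0, by
    subst hm
    exact ((EM.toOm M hn).f q c).1.2⟩

variable {M' : Type} [AddCommGroup M']

theorem key {n n' q q' m r : ℤ} (hn : n + 1 = n') (hm : q + 1 = m) (hr : q + 2 = r)
    (hq : q' + 1 = q) (hr' : m + 1 = r) (hq' : q' + 2 = m) {m' : ℤ} (hm' : m' = m)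
    (a : Map (EM M n').U (EM M' m')) {b : ℕ} (c : (EM M n).G q) (hb : Bdd c.1 (b + 1))
    (hk : Even (q - n - (b + 1 : ℕ))) :
    (a.f m (shE hn hm c)).1 id + ((-1 : ℤ) ^ (b + 2) • (a.f m (toE hn hm c)).1 id +
      ∑ x ∈ Finset.range (b + 1), (-1 : ℤ) ^ (x + 1) •
        (a.f m (Th hn hq' b ((EM M n).d x hq c))).1 id) = 0 := by
  subst hm'
  have hW : Th hn hr (b + 1) c = ⟨th (b + 1) c.1, th_mem hn hr c.2 hb hk⟩ := dif_pos ⟨hb, hk⟩
  obtain ⟨K₀, hK⟩ := EM.map_coc a hr' (Th hn hr (b + 1) c)
  have h1 := hK (b + 3 + K₀) (by omega)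
  rw [Finset.sum_range_add, Finset.sum_eq_zero (s := Finset.range K₀) (fun x _ => by
    have h2 : (EM M n').d (b + 3 + x) hr' (Th hn hr (b + 1) c) = 0 := by
      rw [hW]
      exact Subtype.ext (funext fun f => th_big hb (by omega) f)
    have h3 : (EM M n').U.d (b + 3 + x) hr' (Th hn hr (b + 1) c) = (EM M n').U.pt m' := h2
    rw [h3, a.map_pt]
    exact smul_zero _), add_zero, Finset.sum_range_succ, Finset.sum_range_succ'] at h1
  have h4 : (EM M n').U.d 0 hr' (Th hn hr (b + 1) c) = shE hn hm c := by
    rw [hW]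
    exact Subtype.ext (funext fun f => th_d0 c.2 f)
  have h5 : (EM M n').U.d (b + 2) hr' (Th hn hr (b + 1) c) = toE hn hm c := by
    rw [hW]
    exact Subtype.ext (funext fun f => th_db c.2 hb f)
  have h6 : ∀ x, x ≤ b → (EM M n').U.d (x + 1) hr' (Th hn hr (b + 1) c) =
      Th hn hq' b ((EM M n).d x hq c) := by
    intro x hx
    have h7 : Th hn hq' b ((EM M n).d x hq c) = ⟨th b ((EM M n).d x hq c).1,
        th_mem hn hq' ((EM M n).d x hq c).2 (Bdd.dx hb hx) (by
          have : q' - n - (b : ℤ) = q - n - (b + 1 : ℕ) := by push_cast; omega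
          rw [this]; exact hk)⟩ := dif_pos ⟨Bdd.dx hb hx, by
          have : q' - n - (b : ℤ) = q - n - (b + 1 : ℕ) := by push_cast; omega
          rw [this]; exact hk⟩
    rw [hW, h7]
    exact Subtype.ext (funext fun f => th_dx hx f)
  rw [h4, h5, pow_zero, one_smul, Finset.sum_congr rfl (fun x hx => by
    rw [h6 x (by have := Finset.mem_range.mp hx; omega)])] at h1
  rw [← h1]
  abel

end Sgn

/-- Levelwise bijective homomorphisms can be inverted. -/
theorem Map.lift_bij {X : PSp} {G H : GSp} (e : GSp.Hom G H)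
    (he : ∀ q, Function.Bijective (e.f q)) (A : Map X H) : ∃ t : Map X G, Map.post e t = A := by
  choose g hg using fun q => (he q).2
  refine ⟨⟨fun q x => g q (A.f q x), fun q => ?_, fun i q r h x => ?_, fun i q r h x => ?_⟩,
    Map.ext2 fun q x => hg q _⟩
  · apply (he q).1
    rw [hg, A.map_pt, map_zero]
  · apply (he q).1
    rw [hg, A.map_d, e.map_d, hg]
  · apply (he r).1
    rw [hg, A.map_s, e.map_s, hg]

theorem Map.f_congr {M M' : Type} [AddCommGroup M] [AddCommGroup M'] {n m : ℤ}
    (a : Map (EM M n).U (EM M' m)) {q q' : ℤ} (h : q = q') (c : (ℕ → ℕ) → M)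
    (h1 : c ∈ EMG M n q) (h2 : c ∈ EMG M n q') : (a.f q ⟨c, h1⟩).1 = (a.f q' ⟨c, h2⟩).1 := by
  subst h
  rfl

section lin

variable {k : Type} [Field k] {V : Type} [AddCommGroup V] [Module k V]

theorem lin_id {X : PSp} {n : ℤ} (t : Map X (EM V n)) (z : (lin k X).V n) :
    ((Map.lin (L := EML k V n) t).f n z).1 id =
      Fr.lift (x₀ := X.pt n) (fun c => (t.f n c).1 id) z := by
  let ev : EMG V n n →ₗ[k] V :=
    { toFun := fun c => c.1 id, map_add' := fun _ _ => rfl, map_smul' := fun _ _ => rfl }
  refine DFunLike.congr_fun (f := ev.comp ((Map.lin (L := EML k V n) t).f n))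
    (g := Fr.lift (x₀ := X.pt n) (fun c => (t.f n c).1 id)) (Fr.hom_ext fun x => ?_) z
  rw [Fr.lift_of (fun c => (t.f n c).1 id) (by
    change (t.f n (X.pt n)).1 id = 0
    rw [t.map_pt]
    rfl)]
  exact congrArg ev (Map.lin_of (L := EML k V n) t n x)

end lin

end BPN
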