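import Pool.Agent.BPN.L.ModP

/-!
# The convergence lemma (project BPN, module T/CV)

Composites of sufficiently many maps which vanish on mod `p` cohomology are divisible by `p^N` on
homotopy.
-/

namespace BPN

open GSp

/-- Maps which kill mod `p` cohomology. -/
def KillsH (p : ℕ) {G H : GSp} (f : Map G.U H) : Prop :=
  ∀ (m : ℤ) (c : Map H.U (EM (ZMod p) m)), (Map.comp c f).Null

/-- `Len p l T`: `T` is built from `l` mod `p` Eilenberg-MacLane spectra. -/
inductive Len (p : ℕ) : ℕ → GSp → Prop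
  | zero (T : GSp) (h : T.Acyclic) : Len p 0 T
  | succ (l : ℕ) (T : GSp) (m : ℤ) (c : Map T.U (EM (ZMod p) m)) (h : Len p l c.Fib) :
      Len p (l + 1) T

/-- `Chain p l f`: `f` is a composite of `l` maps of strictly bounded below group spectra which kill mod
`p` cohomology. -/
inductive Chain (p : ℕ) : ℕ → ∀ {V W : GSp}, Map V.U W → Prop
  | nil (W : GSp) (hW : W.SBB) : Chain p 0 (Map.id W)
  | cons {l : ℕ} {U V W : GSp} (g : Map V.U W) (f : Map U.U V) (hW : W.SBB) (hg : KillsH p g)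
      (hf : Chain p l f) : Chain p (l + 1) (Map.comp g f)

/-- Chains of length `l` to a spectrum of length `l` are nullhomotopic.  PROOF: induction on `l`, for
all maps `a`: if `T` has length `l + 1` with `c : T → EM`, and the chain is `g ∘ f` with `g : V → W`
killing cohomology, then `c a g` is null, so `a g` lifts to `Fib c`; apply the induction hypothesis to
the lift and `f`. -/
theorem null_of_chain {p l : ℕ} {V W T : GSp} (f : Map V.U W) (hf : Chain p l f)
    (hT : Len p l T) (a : Map W.U T) : (Map.comp a f).Null := by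
  induction hf generalizing T with
  | nil W hW =>
    cases hT with
    | zero _ h => exact Map.null_of_acyclic h _
  | cons g f hW hg hf ih =>
    cases hT with
    | succ _ _ m c h =>
      obtain ⟨a', ha'⟩ := Map.exists_fib_lift c (Map.comp a g) (hg m (Map.comp c a))
      have h1 := (ih h a').post c.fibP
      have h2 : Map.post c.fibP (Map.comp a' f) = Map.comp (Map.post c.fibP a') f := rfl
      rw [h2, ha'] at h1
      exact h1

/-- Finite type: `π_q / p^N` and the `p^N`-torsion of `π_q` are finite. -/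
def FT (p : ℕ) (W : GSp) : Prop := ∀ (q : ℤ) (N : ℕ),
  Finite (W.pi q ⧸ (zsmulAddGroupHom ((p : ℤ) ^ N) : W.pi q →+ W.pi q).range) ∧
  Finite (zsmulAddGroupHom ((p : ℤ) ^ N) : W.pi q →+ W.pi q).ker

/-! Auxiliary facts. -/

private theorem cv_pi_zsmul {G H : GSp} (z : ℤ) (c : Map G.U H) (q : ℤ) (x : G.pi q) :
    (z • c).pi q x = z • c.pi q x := by
  let φ : Map G.U H →+ H.pi q :=
    AddMonoidHom.mk' (fun c => c.pi q x) (fun a b => Map.pi_add a b q x)
  exact map_zsmul φ z c

private theorem cv_comp_zsmul {X : PSp} {G H : GSp} (z : ℤ) (b : Map G.U H) (a : Map X G) :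
    Map.comp (z • b) a = z • Map.comp b a := by
  let φ : Map G.U H →+ Map X H :=
    AddMonoidHom.mk' (fun b => Map.comp b a) (fun b b' => Map.comp_add_left b b' a)
  exact map_zsmul φ z b

private theorem cv_null_om {G H : GSp} {a : Map G.U H} (ha : a.Null) : a.Om.Null := by
  obtain ⟨b, rfl⟩ := ha
  have e : (Map.post H.dP b).Om = Map.comp (Map.ofHom H.dP).Om b.Om := rfl
  rw [e]
  exact Map.Null.comp (Map.null_of_acyclic (Om_acyclic _ H.P_acyclic) b.Om) _

private theorem cv_we_of_bij {A B : GSp} (φ : Hom A B) (h1 : ∀ q, Function.Injective (φ.f q))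
    (h2 : φ.Surj) : (Map.ofHom φ).WE := by
  rw [we_iff φ h2]
  intro q x _
  have h3 : x = 0 := Subtype.ext ((injective_iff_map_eq_zero _).1 (h1 q) x.1 x.2)
  rw [h3]
  exact zero_mem _

private theorem cv_comp_left {X : PSp} {G H : GSp} {b b' : Map G.U H} (h : HC.mk b = HC.mk b')
    (a : Map X G) : HC.mk (Map.comp b a) = HC.mk (Map.comp b' a) := by
  rw [← HC.comp_mk, ← HC.comp_mk, HC.comp_congr h]

private theorem cv_dual0 {k V : Type} [Field k] [AddCommGroup V] [Module k V] {x : V}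
    (hx : x ≠ 0) : ∃ φ : V →+ k, φ x ≠ 0 := by
  by_contra h
  push Not at h
  exact hx ((Module.forall_dual_apply_eq_zero_iff k x).1 (fun ψ => h ψ.toAddMonoidHom))

private theorem cv_dual {p : ℕ} [hp : Fact p.Prime] {V : Type} [AddCommGroup V]
    (hV : ∀ x : V, p • x = 0) {x : V} (hx : x ≠ 0) : ∃ φ : V →+ ZMod p, φ x ≠ 0 :=
  @cv_dual0 (ZMod p) V _ _ (AddCommGroup.zmodModule hV) x hx

private theorem cv_exists_surj {p : ℕ} [hp : Fact p.Prime] {A : Type} [AddCommGroup A] [Finite A]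
    (hA : ∃ x : A, x ≠ 0) (h4 : ∀ x : A, ∃ N : ℕ, (p : ℤ) ^ N • x = 0) :
    ∃ φ : A →+ ZMod p, Function.Surjective φ := by
  obtain ⟨a, ha⟩ : ∃ a : A, ∀ y : A, (p : ℤ) • y ≠ a := by
    by_contra hcon
    push Not at hcon
    have hinj : Function.Injective (fun y : A => (p : ℤ) • y) :=
      Finite.injective_iff_surjective.2 hcon
    obtain ⟨x, hx⟩ := hA
    obtain ⟨N, hN⟩ := h4 x
    induction N with
    | zero =>
      rw [pow_zero, one_smul] at hN
      exact hx hN
    | succ N ih =>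
      refine ih (hinj ?_)
      change (p : ℤ) • ((p : ℤ) ^ N • x) = (p : ℤ) • 0
      rw [smul_zero, ← mul_smul, ← pow_succ']
      exact hN
  obtain ⟨S, hS⟩ : ∃ S : AddSubgroup A, S = (zsmulAddGroupHom (p : ℤ) : A →+ A).range := ⟨_, rfl⟩
  have hne : QuotientAddGroup.mk' S a ≠ 0 := by
    intro h
    rw [← AddMonoidHom.mem_ker, QuotientAddGroup.ker_mk', hS] at h
    obtain ⟨y, hy⟩ := h
    exact ha y hy
  obtain ⟨ψ, hψ⟩ := cv_dual (p := p) (V := A ⧸ S) (by
    intro x
    obtain ⟨x, rfl⟩ := QuotientAddGroup.mk'_surjective S x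
    rw [← map_nsmul, ← AddMonoidHom.mem_ker, QuotientAddGroup.ker_mk', hS]
    exact ⟨x, by rw [zsmulAddGroupHom_apply, natCast_zsmul]⟩) hne
  refine ⟨ψ.comp (QuotientAddGroup.mk' S), fun z => ?_⟩
  refine ⟨(z / ψ (QuotientAddGroup.mk' S a)).val • a, ?_⟩
  rw [map_nsmul, nsmul_eq_mul, ZMod.natCast_val, ZMod.cast_id', id_eq]
  exact div_mul_cancel₀ _ hψ

/-- A bounded spectrum with finite `p`-primary homotopy groups has finite length.  PROOF: induction on
`∏ |π_q|`; in the lowest nonzero degree `m` there is a surjection `π_m T → F_p`, realised by a map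
`c : T → EM (ZMod p) m` (`EM.exists_fund` for the cover `T.cover m`, which is weakly equivalent to
`T`); the fibre has smaller homotopy. -/
theorem len_of_finite {p : ℕ} [Fact p.Prime] (T : GSp) (m M : ℤ) (h1 : ∀ q, q < m → T.Vanish q)
    (h2 : ∀ q, M ≤ q → T.Vanish q) (h3 : ∀ q, Finite (T.pi q))
    (h4 : ∀ q (x : T.pi q), ∃ N : ℕ, (p : ℤ) ^ N • x = 0) : ∃ l, Len p l T := by
  suffices H : ∀ (n : ℕ) (T : GSp), (∀ q, q < m → T.Vanish q) → (∀ q, M ≤ q → T.Vanish q) →
      (∀ q, Finite (T.pi q)) → (∀ q (x : T.pi q), ∃ N : ℕ, (p : ℤ) ^ N • x = 0) →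
      ∑ q ∈ Finset.Ico m M, Nat.card (T.pi q) = n → ∃ l, Len p l T from
    H _ T h1 h2 h3 h4 rfl
  clear h1 h2 h3 h4
  intro n
  induction n using Nat.strong_induction_on with
  | _ n ih =>
    intro T h1 h2 h3 h4 hn
    by_cases hac : T.Acyclic
    · exact ⟨0, Len.zero T hac⟩
    have hex : ∃ q, ¬ T.Vanish q := by
      by_contra h
      push Not at h
      exact hac ((acyclic_iff T).2 h)
    obtain ⟨q₀, hq₀, hmin⟩ : ∃ q₀, ¬ T.Vanish q₀ ∧ ∀ q, q < q₀ → T.Vanish q := by
      obtain ⟨q₀, h5, h6⟩ := Int.exists_least_of_bdd (P := fun q => ¬ T.Vanish q)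
        ⟨m, fun q hq => by
          by_contra hlt
          push Not at hlt
          exact hq (h1 q hlt)⟩ hex
      refine ⟨q₀, h5, fun q hq => ?_⟩
      by_contra h7
      exact absurd (h6 q h7) (not_le.2 hq)
    have hwe : (Map.ofHom (T.coverI q₀)).WE := T.coverI_we q₀ hmin
    obtain ⟨v, hv1, hv2⟩ := hwe.exists_inv
    have hinj0 := (hwe q₀).1
    have := h3 q₀
    have : Finite ((T.cover q₀).pi q₀) := Finite.of_injective _ hinj0
    obtain ⟨φ, hφ⟩ : ∃ φ : (T.cover q₀).pi q₀ →+ ZMod p, Function.Surjective φ := by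
      refine cv_exists_surj ?_ ?_
      · rw [vanish_iff] at hq₀
        push Not at hq₀
        obtain ⟨x, hx⟩ := hq₀
        obtain ⟨y, hy⟩ := (hwe q₀).2 x
        refine ⟨y, fun h => hx ?_⟩
        rw [← hy, h, map_zero]
      · intro x
        obtain ⟨N, hN⟩ := h4 q₀ ((Map.ofHom (T.coverI q₀)).pi q₀ x)
        refine ⟨N, hinj0 ?_⟩
        rw [map_zsmul, hN, map_zero]
    obtain ⟨c0, hc0⟩ := EM.exists_fund (T.cover_below q₀) φ
    let c : Map T.U (EM (ZMod p) q₀) := Map.comp c0 v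
    have hcs : Function.Surjective (c.pi q₀) := by
      intro y
      obtain ⟨x, hx⟩ := hφ (EM.piHom (ZMod p) q₀ y)
      refine ⟨(Map.ofHom (T.coverI q₀)).pi q₀ x, ?_⟩
      have e1 : v.pi q₀ ((Map.ofHom (T.coverI q₀)).pi q₀ x) = x := by
        have e2 := DFunLike.congr_fun (Map.pi_congr hv2 q₀) x
        rw [Map.pi_comp, Map.pi_id] at e2
        exact e2
      have e3 : c.pi q₀ ((Map.ofHom (T.coverI q₀)).pi q₀ x) = c0.pi q₀ x := by
        change (Map.comp c0 v).pi q₀ _ = _
        rw [Map.pi_comp, AddMonoidHom.comp_apply, e1]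
      rw [e3]
      exact (EM.piHom_bijective q₀).1 ((hc0 x).trans hx)
    have hinj : ∀ q, Function.Injective ((Map.ofHom c.fibP).pi q) := by
      intro q
      rw [injective_iff_map_eq_zero]
      intro x hx
      obtain ⟨y, rfl⟩ := (c.fib_exact_Fib q x).1 hx
      rw [c.fib_exact_Om]
      by_cases h : q + 1 = q₀
      · subst h
        exact hcs _
      · refine ⟨0, ?_⟩
        rw [map_zero]
        exact ((vanish_iff.1 (EM.vanish h)) _).symm
    have h3' : ∀ q, Finite (c.Fib.pi q) := fun q => by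
      have := h3 q
      exact Finite.of_injective _ (hinj q)
    have hmq : m ≤ q₀ := by
      by_contra h
      push Not at h
      exact hq₀ (h1 q₀ h)
    have hqM : q₀ < M := by
      by_contra h
      push Not at h
      exact hq₀ (h2 q₀ h)
    obtain ⟨l, hl⟩ := ih (∑ q ∈ Finset.Ico m M, Nat.card (c.Fib.pi q)) (by
      rw [← hn]
      refine Finset.sum_lt_sum (fun q _ => ?_) ⟨q₀, Finset.mem_Ico.2 ⟨hmq, hqM⟩, ?_⟩
      · have := h3 q
        exact Nat.card_le_card_of_injective _ (hinj q)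
      · by_contra hlt
        push Not at hlt
        have hb := (hinj q₀).bijective_of_nat_card_le hlt
        have hz : ∀ y : (EM (ZMod p) q₀).pi q₀, y = 0 := by
          intro y
          obtain ⟨x, rfl⟩ := hcs y
          rw [c.fib_exact_G]
          exact hb.2 x
        obtain ⟨y, hy⟩ := (EM.piHom_bijective (M := ZMod p) q₀).2 1
        rw [hz y, map_zero] at hy
        exact zero_ne_one hy) c.Fib
      (fun q hq => by
        rw [vanish_iff]
        intro x
        exact hinj q (by rw [map_zero]; exact (vanish_iff.1 (h1 q hq)) _))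
      (fun q hq => by
        rw [vanish_iff]
        intro x
        exact hinj q (by rw [map_zero]; exact (vanish_iff.1 (h2 q hq)) _))
      h3'
      (fun q x => by
        obtain ⟨N, hN⟩ := h4 q ((Map.ofHom c.fibP).pi q x)
        refine ⟨N, hinj q ?_⟩
        rw [map_zsmul, hN, map_zero]) rfl
    exact ⟨l + 1, Len.succ l T q₀ c hl⟩

/-- The fibre of `p^N` on `W`. -/
noncomputable def pFib (p N : ℕ) (W : GSp) : GSp := (((p : ℤ) ^ N) • Map.id W : Map W.U W).Fib

/-- If `f` kills mod `p` cohomology then so does `Ω f`. -/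
theorem KillsH.om {p : ℕ} [Fact p.Prime] {G H : GSp} {f : Map G.U H} (hf : KillsH p f)
    (hG : G.SBB) (hH : H.SBB) : KillsH p f.Om := by
  intro m c
  have hto : (Map.ofHom (EM.toOm (ZMod p) (rfl : m + 1 = m + 1))).WE :=
    cv_we_of_bij _ (fun q => (EM.toOm_bijective _ q).1) (fun q => (EM.toOm_bijective _ q).2)
  obtain ⟨θ, hθ⟩ := CE.om_surj hH (EML (ZMod p) (ZMod p) (m + 1))
    (Map.post (EM.toOm (ZMod p) (rfl : m + 1 = m + 1)) c)
  have h1 : (Map.comp θ f).Null := hf (m + 1) θ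
  have h2 : (Map.comp θ.Om f.Om).Null := cv_null_om h1
  have h3 : HC.mk (Map.comp (Map.post (EM.toOm (ZMod p) (rfl : m + 1 = m + 1)) c) f.Om) = 0 :=
    (cv_comp_left hθ f.Om).symm.trans (HC.mk_eq_zero.2 h2)
  rw [← HC.mk_eq_zero]
  apply (hto.comp_bijective (X := (Om G).U)).1
  rw [map_zero, HC.comp_mk]
  exact h3

/-- Functoriality of `pFib`; the composite of two maps which kill cohomology induces a map which kills
cohomology. -/
theorem exists_pFib {p N : ℕ} {G H : GSp} (f : Map G.U H) :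
    ∃ F : Map (pFib p N G).U (pFib p N H),
      Map.comp F (Map.ofHom (((p : ℤ) ^ N) • Map.id G : Map G.U G).fibI) =
        Map.comp (Map.ofHom (((p : ℤ) ^ N) • Map.id H : Map H.U H).fibI) f.Om ∧
      Map.post (((p : ℤ) ^ N) • Map.id H : Map H.U H).fibP F =
        Map.comp f (Map.ofHom (((p : ℤ) ^ N) • Map.id G : Map G.U G).fibP) := by
  obtain ⟨F, h1, h2⟩ := Map.exists_fib_map (((p : ℤ) ^ N) • Map.id G : Map G.U G)
    (((p : ℤ) ^ N) • Map.id H : Map H.U H) f f (by
      rw [cv_comp_zsmul, ← HC.comp_mk, map_zsmul, map_zsmul, map_zsmul, HC.comp_mk]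
      rfl)
  exact ⟨F, h2, h1⟩

theorem killsH_pFib {p N : ℕ} [Fact p.Prime] {G H K : GSp} (hG : G.SBB) (hH : H.SBB)
    (hK : K.SBB) {f : Map H.U K} {g : Map G.U H} (hf : KillsH p f) (hg : KillsH p g)
    (F : Map (pFib p N H).U (pFib p N K)) (F' : Map (pFib p N G).U (pFib p N H))
    (h1 : Map.comp F (Map.ofHom (((p : ℤ) ^ N) • Map.id H : Map H.U H).fibI) =
        Map.comp (Map.ofHom (((p : ℤ) ^ N) • Map.id K : Map K.U K).fibI) f.Om)
    (h2 : Map.post (((p : ℤ) ^ N) • Map.id H : Map H.U H).fibP F' =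
        Map.comp g (Map.ofHom (((p : ℤ) ^ N) • Map.id G : Map G.U G).fibP)) :
    KillsH p (Map.comp F F') := by
  intro m c
  have k1 : (Map.comp (Map.comp c F)
      (Map.ofHom (((p : ℤ) ^ N) • Map.id H : Map H.U H).fibI)).Null := by
    have e : Map.comp (Map.comp c F)
        (Map.ofHom (((p : ℤ) ^ N) • Map.id H : Map H.U H).fibI) =
        Map.comp (Map.comp c (Map.ofHom (((p : ℤ) ^ N) • Map.id K : Map K.U K).fibI)) f.Om := by
      rw [← Map.comp_assoc, h1]
      rfl
    rw [e]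
    exact (hf.om hH hK) m _
  obtain ⟨θ, hθ⟩ := CE.exact_Fib _ hH hH (EML (ZMod p) (ZMod p) m) (Map.comp c F) k1
  have k2 := cv_comp_left hθ F'
  have k3 : Map.comp (Map.comp θ (Map.ofHom (((p : ℤ) ^ N) • Map.id H : Map H.U H).fibP)) F' =
      Map.comp (Map.comp θ g) (Map.ofHom (((p : ℤ) ^ N) • Map.id G : Map G.U G).fibP) := by
    have e : Map.comp (Map.comp θ (Map.ofHom (((p : ℤ) ^ N) • Map.id H : Map H.U H).fibP)) F' =
        Map.comp θ (Map.post (((p : ℤ) ^ N) • Map.id H : Map H.U H).fibP F') := rfl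
    rw [e, h2]
    rfl
  rw [k3] at k2
  rw [← HC.mk_eq_zero]
  have k4 : HC.mk (Map.comp (Map.comp θ g)
      (Map.ofHom (((p : ℤ) ^ N) • Map.id G : Map G.U G).fibP)) = 0 :=
    HC.mk_eq_zero.2 (Map.Null.comp_left (hg m θ) _)
  exact k2.symm.trans k4

private theorem Chain.cv_sbb {p l : ℕ} {V W : GSp} {f : Map V.U W} (hf : Chain p l f) :
    W.SBB := by
  cases hf with
  | nil _ hW => exact hW
  | cons _ _ hW _ _ => exact hW

private theorem cv_pFib_sbb {p N : ℕ} {W : GSp} (hW : W.SBB) : (pFib p N W).SBB :=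
  CE.fib_sbb _ hW hW

private theorem cv_chain_pFib {p N : ℕ} [Fact p.Prime] {l l' : ℕ} (hl : l' = 2 * l) {V W : GSp}
    (f : Map V.U W) (hf : Chain p l' f) :
    ∃ F : Map (pFib p N V).U (pFib p N W), Chain p l F ∧
      Map.comp F (Map.ofHom (((p : ℤ) ^ N) • Map.id V : Map V.U V).fibI) =
        Map.comp (Map.ofHom (((p : ℤ) ^ N) • Map.id W : Map W.U W).fibI) f.Om := by
  induction l generalizing l' V W with
  | zero =>
    obtain rfl : l' = 0 := by omega
    cases hf with
    | nil _ hW =>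
      exact ⟨Map.id (pFib p N _), Chain.nil _ (cv_pFib_sbb hW), Map.ext2 fun q x => rfl⟩
  | succ l ih =>
    obtain rfl : l' = 2 * l + 1 + 1 := by omega
    cases hf with
    | cons g f1 hW hg hf1 =>
      cases hf1 with
      | cons g' f2 hW' hg' hf2 =>
        obtain ⟨F', hF', e'⟩ := ih rfl f2 hf2
        obtain ⟨A, hA1, hA2⟩ := exists_pFib (p := p) (N := N) g
        obtain ⟨B, hB1, hB2⟩ := exists_pFib (p := p) (N := N) g'
        refine ⟨Map.comp (Map.comp A B) F', Chain.cons _ _ (cv_pFib_sbb hW)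
          (killsH_pFib hf2.cv_sbb hW' hW hg hg' A B hA1 hB2) hF', ?_⟩
        have k1 := congrArg (fun z => Map.comp A (Map.comp B z)) e'
        have k2 := congrArg (fun z => Map.comp A (Map.comp z f2.Om)) hB1
        have k3 := congrArg (fun z => Map.comp z (Map.comp g'.Om f2.Om)) hA1
        exact (k1.trans k2).trans k3

private theorem cv_pFib_fin {p N : ℕ} {W : GSp} (hF : FT p W) (r : ℤ) :
    Finite ((pFib p N W).pi r) ∧ ∀ x : (pFib p N W).pi r, ((p : ℤ) ^ (N + N)) • x = 0 := by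
  obtain ⟨c, hc'⟩ : ∃ c : Map W.U W, c = ((p : ℤ) ^ N) • Map.id W := ⟨_, rfl⟩
  have hc : ∀ s (x : W.pi s), c.pi s x = (p : ℤ) ^ N • x := by
    intro s x
    rw [hc', cv_pi_zsmul, Map.pi_id]
    rfl
  have hP : pFib p N W = c.Fib := by rw [pFib, hc']
  rw [hP]
  have h1 : ∀ x, (p : ℤ) ^ N • (Map.ofHom c.fibP).pi r x = 0 := by
    intro x
    rw [← hc, c.fib_exact_G]
    exact ⟨x, rfl⟩
  have h2 : ∀ y : (Om W).pi r, (p : ℤ) ^ N • (Map.ofHom c.fibI).pi r y = 0 := by
    intro y
    rw [← map_zsmul, c.fib_exact_Om]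
    exact ⟨omPi W r y, by rw [hc, map_zsmul]⟩
  refine ⟨?_, fun x => ?_⟩
  · have hK : Finite ((Map.ofHom c.fibP).pi r).ker := by
      have hch : ∀ x : ((Map.ofHom c.fibP).pi r).ker, ∃ y : (Om W).pi r,
          (Map.ofHom c.fibI).pi r y = x.1 := fun x => (c.fib_exact_Fib r x.1).1 x.2
      choose g hg using hch
      have := (hF (r + 1) N).1
      refine Finite.of_injective (fun x : ((Map.ofHom c.fibP).pi r).ker =>
        QuotientAddGroup.mk' (zsmulAddGroupHom ((p : ℤ) ^ N) : W.pi (r + 1) →+ W.pi (r + 1)).range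
          (omPi W r (g x))) ?_
      intro x x' hxx
      have h3 : QuotientAddGroup.mk' (zsmulAddGroupHom ((p : ℤ) ^ N) :
          W.pi (r + 1) →+ W.pi (r + 1)).range (omPi W r (g x) - omPi W r (g x')) = 0 := by
        rw [map_sub, sub_eq_zero]
        exact hxx
      rw [← AddMonoidHom.mem_ker, QuotientAddGroup.ker_mk'] at h3
      obtain ⟨w, hw⟩ := h3
      have h4 : (Map.ofHom c.fibI).pi r (g x - g x') = 0 := by
        rw [c.fib_exact_Om]
        exact ⟨w, by rw [hc, map_sub]; exact hw⟩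
      rw [map_sub, hg, hg, sub_eq_zero] at h4
      exact Subtype.ext h4
    have hR : Finite ((Map.ofHom c.fibP).pi r).range := by
      have := (hF r N).2
      refine Finite.of_injective (fun x : ((Map.ofHom c.fibP).pi r).range =>
        (⟨x.1, by
          obtain ⟨y, hy⟩ := x.2
          rw [AddMonoidHom.mem_ker, zsmulAddGroupHom_apply, ← hy]
          exact h1 y⟩ : (zsmulAddGroupHom ((p : ℤ) ^ N) : W.pi r →+ W.pi r).ker)) ?_
      intro x x' hxx
      have h5 := congrArg (fun z => z.1) hxx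
      exact Subtype.ext h5
    have hQ : Finite (c.Fib.pi r ⧸ ((Map.ofHom c.fibP).pi r).ker) :=
      Finite.of_equiv _ (QuotientAddGroup.quotientKerEquivRange
        ((Map.ofHom c.fibP).pi r)).symm.toEquiv
    exact Finite.of_equiv _ (AddSubgroup.addGroupEquivQuotientProdAddSubgroup
      (s := ((Map.ofHom c.fibP).pi r).ker)).symm
  · have h3 : (Map.ofHom c.fibP).pi r ((p : ℤ) ^ N • x) = 0 := by rw [map_zsmul]; exact h1 x
    obtain ⟨y, hy⟩ := (c.fib_exact_Fib r _).1 h3
    rw [pow_add, mul_smul, ← hy]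
    exact h2 y

/-- **Convergence lemma.**  For `W` strictly bounded below of finite type, long chains into `W` are
divisible by `p^N` on `π_t`.  PROOF: let `T` be the Postnikov section of `pFib p N W` with
homotopy in degrees `< t`, `L` its length; a chain of length `2 L` into `W` induces a chain of length
`L` into `pFib p N W`; so the composite to `T` is null, and for `x ∈ π_t V` the image of `x` in
`π_{t-1} (Ω W) → π_{t-1} (pFib p N W) = π_{t-1} T` vanishes: `f x ∈ p^N π_t W`. -/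
theorem chain_divisible {p : ℕ} [Fact p.Prime] (W : GSp) (hW : W.SBB) (hF : FT p W) (t : ℤ)
    (N : ℕ) : ∃ L, ∀ (V : GSp) (f : Map V.U W), Chain p L f → ∀ x : V.pi t,
      ∃ y : W.pi t, f.pi t x = (p : ℤ) ^ N • y := by
  obtain ⟨q, rfl⟩ : ∃ q, t = q + 1 := ⟨t - 1, by omega⟩
  obtain ⟨m₀, hm₀⟩ : (pFib p N W).SBB := cv_pFib_sbb hW
  obtain ⟨l, hl⟩ : ∃ l, Len p l ((pFib p N W).post (q + 1)) := by
    refine len_of_finite _ m₀ (q + 1) (fun r hr => (post_below _ _ _ hm₀).vanish hr)
      (fun r hr => post_vanish _ _ _ hr) (fun r => ?_) (fun r x => ?_)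
    · by_cases hr : r < q + 1
      · have := (cv_pFib_fin (N := N) hF r).1
        exact Finite.of_surjective _ (postP_bijective (pFib p N W) (q + 1) r hr).2
      · push Not at hr
        have : Subsingleton (((pFib p N W).post (q + 1)).pi r) :=
          ⟨fun x y => by
            rw [vanish_iff.1 (post_vanish _ _ _ hr) x, vanish_iff.1 (post_vanish _ _ _ hr) y]⟩
        infer_instance
    · by_cases hr : r < q + 1
      · obtain ⟨y, rfl⟩ := (postP_bijective (pFib p N W) (q + 1) r hr).2 x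
        refine ⟨N + N, ?_⟩
        rw [← map_zsmul, (cv_pFib_fin hF r).2 y, map_zero]
      · push Not at hr
        refine ⟨0, ?_⟩
        rw [pow_zero, one_smul]
        exact vanish_iff.1 (post_vanish _ _ _ hr) x
  refine ⟨2 * l, fun V f hf x => ?_⟩
  obtain ⟨F, hF1, hF2⟩ := cv_chain_pFib (N := N) rfl f hf
  have hnull := null_of_chain F hF1 hl (Map.ofHom ((pFib p N W).postP (q + 1)))
  have hF0 : ∀ z, F.pi q z = 0 := by
    intro z
    have h1 := DFunLike.congr_fun (hnull.pi q) z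
    rw [Map.pi_comp] at h1
    exact (postP_bijective (pFib p N W) (q + 1) q (by omega)).1 (by rw [map_zero]; exact h1)
  obtain ⟨x', rfl⟩ := (omPi_bijective V q).2 x
  have h2 : (Map.ofHom (((p : ℤ) ^ N) • Map.id W : Map W.U W).fibI).pi q (f.Om.pi q x') = 0 := by
    have h3 := congrArg (fun c : Map (Om V).U (pFib p N W) => c.pi q x') hF2
    have h4 : (Map.comp F (Map.ofHom (((p : ℤ) ^ N) • Map.id V : Map V.U V).fibI)).pi q x' =
        F.pi q ((Map.ofHom (((p : ℤ) ^ N) • Map.id V : Map V.U V).fibI).pi q x') := by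
      rw [Map.pi_comp]; rfl
    have h5 : (Map.comp (Map.ofHom (((p : ℤ) ^ N) • Map.id W : Map W.U W).fibI) f.Om).pi q x' =
        (Map.ofHom (((p : ℤ) ^ N) • Map.id W : Map W.U W).fibI).pi q (f.Om.pi q x') := by
      rw [Map.pi_comp]; rfl
    rw [← h5]
    refine h3.symm.trans ?_
    rw [h4]
    exact hF0 _
  rw [Map.fib_exact_Om] at h2
  obtain ⟨z, hz⟩ := h2
  refine ⟨z, ?_⟩
  rw [omPi_nat, cv_pi_zsmul, Map.pi_id] at hz
  exact hz.symm

end BPN
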