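import Pool.Agent.BPN.S.Fib

/-!
# Limits of towers of surjections (project BPN, module T/Lim)
-/

namespace BPN

open GSp

/-- Towers of surjective homomorphisms. -/
structure ITower where
  C : ℕ → GSp
  π : ∀ s, Hom (C (s + 1)) (C s)
  surj : ∀ s, (π s).Surj

namespace ITower

variable (T : ITower)

/-- Compatible families with locally finite faces. -/
def limS (q : ℤ) : AddSubgroup (∀ s, (T.C s).G q) where
  carrier := {x | (∀ s, (T.π s).f q (x (s + 1)) = x s) ∧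
    ∀ {r : ℤ} (h : r + 1 = q), ∃ n : ℕ, ∀ i, n ≤ i → ∀ s, (T.C s).d i h (x s) = 0}
  zero_mem' := ⟨fun s => map_zero _, fun _ => ⟨0, fun _ _ _ => map_zero _⟩⟩
  add_mem' := fun {a b} ha hb => ⟨fun s => by
      rw [Pi.add_apply, map_add, ha.1, hb.1]; rfl, fun h => by
      obtain ⟨n, hn⟩ := ha.2 h
      obtain ⟨m, hm⟩ := hb.2 h
      exact ⟨max n m, fun i hi s => by
        rw [Pi.add_apply, map_add, hn i (le_trans (le_max_left _ _) hi),
          hm i (le_trans (le_max_right _ _) hi), add_zero]⟩⟩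
  neg_mem' := fun {a} ha => ⟨fun s => by
      rw [Pi.neg_apply, map_neg, ha.1]; rfl, fun h => by
      obtain ⟨n, hn⟩ := ha.2 h
      exact ⟨n, fun i hi s => by rw [Pi.neg_apply, map_neg, hn i hi, neg_zero]⟩⟩

theorem limS_d (i : ℕ) {q r : ℤ} (h : q + 1 = r) (x : ∀ s, (T.C s).G r) (hx : x ∈ T.limS r) :
    (fun s => (T.C s).d i h (x s)) ∈ T.limS q := by
  refine ⟨fun s => ((T.π s).map_d i h (x (s + 1))).trans (congrArg _ (hx.1 s)), fun {r'} h' => ?_⟩
  obtain ⟨n, hn⟩ := hx.2 h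
  refine ⟨max n i, fun j hj s => ?_⟩
  have h1 : n ≤ j := le_trans (le_max_left _ _) hj
  have h2 : i ≤ j := le_trans (le_max_right _ _) hj
  change (T.C s).d j h' ((T.C s).d i h (x s)) = 0
  rw [← (T.C s).dd h2 h' h (x s), hn (j + 1) (by omega) s, map_zero]

theorem limS_s (i : ℕ) {q r : ℤ} (h : q + 1 = r) (x : ∀ s, (T.C s).G q) (hx : x ∈ T.limS q) :
    (fun s => (T.C s).s i h (x s)) ∈ T.limS r := by
  refine ⟨fun s => ((T.π s).map_s i h (x (s + 1))).trans (congrArg _ (hx.1 s)), fun {r'} h' => ?_⟩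
  obtain rfl : r' = q := by omega
  obtain ⟨n, hn⟩ := hx.2 (show r' - 1 + 1 = r' by omega)
  refine ⟨max (n + 1) (i + 2), fun j hj s => ?_⟩
  have h1 : n + 1 ≤ j := le_trans (le_max_left _ _) hj
  have h2 : i + 2 ≤ j := le_trans (le_max_right _ _) hj
  obtain ⟨k, rfl⟩ : ∃ k, j = k + 1 := ⟨j - 1, by omega⟩
  change (T.C s).d (k + 1) h' ((T.C s).s i h (x s)) = 0
  rw [(T.C s).ds_gt (show i < k by omega) (show r' - 1 + 1 = r' by omega) h (x s),
    hn k (by omega) s, map_zero]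

/-- The limit. -/
def lim : GSp where
  G := fun q => T.limS q
  d := fun i {q r} h =>
    { toFun := fun x => ⟨fun s => (T.C s).d i h (x.1 s), T.limS_d i h x.1 x.2⟩
      map_zero' := Subtype.ext (funext fun s => map_zero _)
      map_add' := fun x y => Subtype.ext (funext fun s => map_add _ _ _) }
  s := fun i {q r} h =>
    { toFun := fun x => ⟨fun s => (T.C s).s i h (x.1 s), T.limS_s i h x.1 x.2⟩
      map_zero' := Subtype.ext (funext fun s => map_zero _)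
      map_add' := fun x y => Subtype.ext (funext fun s => map_add _ _ _) }
  dd := fun hij _ _ _ h₁ h₂ x => Subtype.ext (funext fun s => (T.C s).dd hij h₁ h₂ (x.1 s))
  ds_lt := fun hij _ _ _ h₁ h₂ x =>
    Subtype.ext (funext fun s => (T.C s).ds_lt hij h₁ h₂ (x.1 s))
  ds_eq := fun i _ _ h x => Subtype.ext (funext fun s => (T.C s).ds_eq i h (x.1 s))
  ds_succ := fun i _ _ h x => Subtype.ext (funext fun s => (T.C s).ds_succ i h (x.1 s))
  ds_gt := fun hij _ _ _ h₁ h₂ x =>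
    Subtype.ext (funext fun s => (T.C s).ds_gt hij h₁ h₂ (x.1 s))
  ss := fun hij _ _ _ h₁ h₂ x => Subtype.ext (funext fun s => (T.C s).ss hij h₁ h₂ (x.1 s))
  fin := fun {q r} h x => by
    obtain ⟨n, hn⟩ := x.2.2 h
    exact ⟨n, fun i hi => Subtype.ext (funext fun s => hn i hi s)⟩

/-- The projections. -/
def pr (s : ℕ) : Hom T.lim (T.C s) where
  f := fun q => (Pi.evalAddMonoidHom (fun s => (T.C s).G q) s).comp (T.limS q).subtype
  map_d := fun _ _ _ _ _ => rfl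
  map_s := fun _ _ _ _ _ => rfl

/-- Maps into the limit. -/
def toLim {X : PSp} (f : ∀ s, Map X (T.C s)) (hf : ∀ s, Map.post (T.π s) (f (s + 1)) = f s) :
    Map X T.lim where
  f := fun q x => ⟨fun s => (f s).f q x, fun s => congrArg (fun z : Map X (T.C s) => z.f q x) (hf s),
    fun {r} h => by
      obtain ⟨n, hn⟩ := X.fin h x
      exact ⟨n, fun i hi s => by rw [← (f s).map_d, hn i hi, (f s).map_pt]⟩⟩
  map_pt := fun q => Subtype.ext (funext fun s => (f s).map_pt q)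
  map_d := fun i _ _ h x => Subtype.ext (funext fun s => (f s).map_d i h x)
  map_s := fun i _ _ h x => Subtype.ext (funext fun s => (f s).map_s i h x)

/-- Homotopy compatible classes come from a map to the limit.  PROOF: `HC.htp_lift` recursively. -/
theorem exists_toLim {X : PSp} (φ : ∀ s, HC X (T.C s))
    (hφ : ∀ s, HC.comp (Map.ofHom (T.π s)) (φ (s + 1)) = φ s) :
    ∃ f : Map X T.lim, ∀ s, HC.mk (Map.post (T.pr s) f) = φ s := by
  have step : ∀ s (f : {f : Map X (T.C s) // HC.mk f = φ s}),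
      ∃ f' : {f : Map X (T.C (s + 1)) // HC.mk f = φ (s + 1)},
        Map.post (T.π s) f'.1 = f.1 := by
    rintro s ⟨f, hf⟩
    obtain ⟨a, ha⟩ := HC.mk_surj (φ (s + 1))
    have h1 := hφ s
    rw [← ha, HC.comp_mk, Map.comp_ofHom, ← hf] at h1
    obtain ⟨a', h2, h3⟩ := HC.htp_lift (T.π s) (T.surj s) a f h1
    exact ⟨⟨a', h2.trans ha⟩, h3⟩
  choose nx hnx using step
  let F : ∀ s, {f : Map X (T.C s) // HC.mk f = φ s} := fun s =>
    Nat.rec (motive := fun s => {f : Map X (T.C s) // HC.mk f = φ s})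
      ⟨(HC.mk_surj (φ 0)).choose, (HC.mk_surj (φ 0)).choose_spec⟩ (fun s f => nx s f) s
  refine ⟨T.toLim (fun s => (F s).1) (fun s => hnx s (F s)), fun s => ?_⟩
  exact (F s).2

/-- Surjectivity on homotopy groups: compatible families of homotopy classes come from the limit. -/
theorem exists_pi (q : ℤ) (x : ∀ s, (T.C s).pi q)
    (hx : ∀ s, (Map.ofHom (T.π s)).pi q (x (s + 1)) = x s) :
    ∃ z : T.lim.pi q, ∀ s, (Map.ofHom (T.pr s)).pi q z = x s := by
  have step : ∀ s (f : {f : (T.C s).Z q // (T.C s).piMk q f = x s}),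
      ∃ f' : {f : (T.C (s + 1)).Z q // (T.C (s + 1)).piMk q f = x (s + 1)},
        (T.π s).f q f'.1.1 = f.1.1 := by
    rintro s ⟨f, hf⟩
    obtain ⟨w, hw⟩ := (T.C (s + 1)).piMk_surj q (x (s + 1))
    have h1 := hx s
    rw [← hw, Map.pi_mk, ← hf] at h1
    obtain ⟨y, hy, hy0⟩ : (T.π s).f q w.1 + -f.1 ∈ (T.C s).B q := piMk_eq.mp h1
    obtain ⟨y', hy', hyy⟩ := exists_N_lift (T.π s) (T.surj s) y hy
    have hB : (T.C (s + 1)).d 0 rfl y' ∈ (T.C (s + 1)).B q := ⟨y', hy', rfl⟩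
    refine ⟨⟨⟨-(T.C (s + 1)).d 0 rfl y' + w.1,
      add_mem (neg_mem ((T.C (s + 1)).B_le_Z q hB)) w.2⟩, ?_⟩, ?_⟩
    · rw [← hw]
      refine piMk_eq.mpr ?_
      change -(T.C (s + 1)).d 0 rfl y' + w.1 + -w.1 ∈ (T.C (s + 1)).B q
      rw [add_neg_cancel_right]
      exact neg_mem hB
    · change (T.π s).f q (-(T.C (s + 1)).d 0 rfl y' + w.1) = f.1
      rw [map_add, map_neg, (T.π s).map_d, hyy, hy0, neg_add_rev, neg_neg, neg_add_cancel_right]
  choose nx hnx using step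
  let F : ∀ s, {f : (T.C s).Z q // (T.C s).piMk q f = x s} := fun s =>
    Nat.rec (motive := fun s => {f : (T.C s).Z q // (T.C s).piMk q f = x s})
      ⟨((T.C 0).piMk_surj q (x 0)).choose, ((T.C 0).piMk_surj q (x 0)).choose_spec⟩
      (fun s f => nx s f) s
  have hF : (fun s => ((F s).1.1 : (T.C s).G q)) ∈ T.limS q :=
    ⟨fun s => hnx s (F s), fun {r} h => ⟨0, fun i _ s => (F s).1.2 i h⟩⟩
  refine ⟨T.lim.piMk q ⟨⟨_, hF⟩, fun i r h => Subtype.ext (funext fun s => (F s).1.2 i h)⟩,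
    fun s => ?_⟩
  exact (F s).2

/-- Injectivity on homotopy groups, if the maps `π_{q+1} C_{s+1} → π_{q+1} C_s` are surjective. -/
theorem pi_inj (q : ℤ) (hs : ∀ s, Function.Surjective ((Map.ofHom (T.π s)).pi (q + 1)))
    (z : T.lim.pi q) (hz : ∀ s, (Map.ofHom (T.pr s)).pi q z = 0) : z = 0 := by
  obtain ⟨ζ, rfl⟩ := T.lim.piMk_surj q z
  have hζ : ∀ s, ((ζ.1.1 s : (T.C s).G q)) ∈ (T.C s).B q := fun s => piMk_eq_zero.mp (hz s)
  have step : ∀ s (f : {f : (T.C s).G (q + 1) // f ∈ (T.C s).N (q + 1) ∧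
      (T.C s).d 0 rfl f = ζ.1.1 s}),
      ∃ f' : {f : (T.C (s + 1)).G (q + 1) // f ∈ (T.C (s + 1)).N (q + 1) ∧
      (T.C (s + 1)).d 0 rfl f = ζ.1.1 (s + 1)}, (T.π s).f (q + 1) f'.1 = f.1 := by
    rintro s ⟨f, hf, hf0⟩
    obtain ⟨y, hy, hy0⟩ := hζ (s + 1)
    have hc : -(T.π s).f (q + 1) y + f ∈ (T.C s).Z (q + 1) := by
      have hN : -(T.π s).f (q + 1) y + f ∈ (T.C s).N (q + 1) :=
        add_mem (neg_mem ((T.π s).map_N hy)) hf
      rintro (_ | i) t ht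
      · obtain rfl : t = q := by omega
        have e1 : (T.C s).d 0 rfl ((T.π s).f (t + 1) y) = ζ.1.1 s := by
          rw [← (T.π s).map_d, hy0]
          exact ζ.1.2.1 s
        rw [map_add, map_neg, e1, hf0, neg_add_cancel]
      · exact hN i ht
    obtain ⟨c, hc'⟩ := hs s ((T.C s).piMk (q + 1) ⟨_, hc⟩)
    obtain ⟨w, rfl⟩ := (T.C (s + 1)).piMk_surj (q + 1) c
    rw [Map.pi_mk] at hc'
    obtain ⟨u, hu, hu0⟩ : (T.π s).f (q + 1) w.1 + -(-(T.π s).f (q + 1) y + f) ∈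
      (T.C s).B (q + 1) := piMk_eq.mp hc'
    obtain ⟨u', hu', huu⟩ := exists_N_lift (T.π s) (T.surj s) u hu
    have hB : (T.C (s + 1)).d 0 rfl u' ∈ (T.C (s + 1)).B (q + 1) := ⟨u', hu', rfl⟩
    have hZ : -(T.C (s + 1)).d 0 rfl u' + w.1 ∈ (T.C (s + 1)).Z (q + 1) :=
      add_mem (neg_mem ((T.C (s + 1)).B_le_Z (q + 1) hB)) w.2
    have hπ : (T.π s).f (q + 1) (-(T.C (s + 1)).d 0 rfl u' + w.1) =
        -(T.π s).f (q + 1) y + f := by
      rw [map_add, map_neg, (T.π s).map_d, huu, hu0, neg_add_rev, neg_neg, neg_add_cancel_right]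
    refine ⟨⟨y + (-(T.C (s + 1)).d 0 rfl u' + w.1), add_mem hy (pi_Z_le_N hZ), ?_⟩, ?_⟩
    · rw [map_add, hy0, hZ 0 rfl, add_zero]
    · change (T.π s).f (q + 1) (y + (-(T.C (s + 1)).d 0 rfl u' + w.1)) = f
      rw [map_add, hπ, add_neg_cancel_left]
  choose nx hnx using step
  let F : ∀ s, {f : (T.C s).G (q + 1) // f ∈ (T.C s).N (q + 1) ∧
      (T.C s).d 0 rfl f = ζ.1.1 s} := fun s =>
    Nat.rec (motive := fun s => {f : (T.C s).G (q + 1) // f ∈ (T.C s).N (q + 1) ∧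
      (T.C s).d 0 rfl f = ζ.1.1 s})
      ⟨(hζ 0).choose, (hζ 0).choose_spec⟩ (fun s f => nx s f) s
  have hF : (fun s => ((F s).1 : (T.C s).G (q + 1))) ∈ T.limS (q + 1) := by
    refine ⟨fun s => hnx s (F s), fun {r} h => ⟨1, fun i hi s => ?_⟩⟩
    obtain ⟨k, rfl⟩ : ∃ k, i = k + 1 := ⟨i - 1, by omega⟩
    exact (F s).2.1 k h
  refine piMk_eq_zero.mpr ⟨⟨_, hF⟩, fun i r h => Subtype.ext (funext fun s => (F s).2.1 i h), ?_⟩
  exact Subtype.ext (funext fun s => (F s).2.2)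

end ITower

end BPN
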