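import Pool.Agent.BPN.T.PiT
import Pool.Agent.BPN.T.CV
import Pool.Agent.BPN.T.Lim

/-!
# Convergence of the Koszul tower (project BPN, module T/Adams)
-/

namespace BPN

open GSp

/-- Hypotheses on the homotopy groups of `Y`. -/
structure YHyp (p : ℕ) (Y : GSp) : Prop where
  sbb : Y.SBB
  odd : ∀ q, Odd q → Y.Vanish q
  comp : ∀ q, IsAdicComplete (Ideal.span {(p : ℤ)}) (Y.pi q)
  fin : ∀ q, Finite (Y.pi q ⧸ (zsmulAddGroupHom ((p : ℤ)) : Y.pi q →+ Y.pi q).range)
  tf : ∀ q (x : Y.pi q), (p : ℤ) • x = 0 → x = 0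

variable {p n : ℕ} [Fact p.Prime] {Q : ∀ i : Fin (n + 1), Op p (2 * p ^ (i : ℕ) - 1)}
  (E : EOut p n Q) {Y : GSp} {v : Map Y.U (KS p n 0 0)} (hv : IsCycK Q Y v)

/-! Auxiliary facts. -/

private theorem ad_fin {A X : Type} [AddCommGroup A] [Finite X] (S : AddSubgroup A) (f : X → A)
    (h : ∀ a, ∃ x, a - f x ∈ S) : Finite (A ⧸ S) := by
  refine Finite.of_surjective (fun x => (QuotientAddGroup.mk (f x) : A ⧸ S)) ?_
  intro c
  obtain ⟨a, rfl⟩ := QuotientAddGroup.mk_surjective c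
  obtain ⟨x, hx⟩ := h a
  refine ⟨x, ?_⟩
  rw [QuotientAddGroup.eq, neg_add_eq_sub]
  exact hx

private theorem ad_rep {A : Type} [AddCommGroup A] (S : AddSubgroup A) :
    ∃ r : A ⧸ S → A, ∀ a, a - r (QuotientAddGroup.mk a) ∈ S := by
  choose r hr using QuotientAddGroup.mk_surjective (s := S)
  refine ⟨r, fun a => ?_⟩
  have h := hr (QuotientAddGroup.mk a)
  rw [QuotientAddGroup.eq, neg_add_eq_sub] at h
  exact h

private theorem ad_fin_pow {A : Type} [AddCommGroup A] {p : ℕ}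
    (h : Finite (A ⧸ (zsmulAddGroupHom ((p : ℤ)) : A →+ A).range)) (N : ℕ) :
    Finite (A ⧸ (zsmulAddGroupHom ((p : ℤ) ^ N) : A →+ A).range) := by
  induction N with
  | zero =>
    refine ad_fin (X := Unit) _ (fun _ => 0) fun a => ⟨(), a, ?_⟩
    change (p : ℤ) ^ 0 • a = a - 0
    rw [pow_zero, one_zsmul, sub_zero]
  | succ N ih =>
    obtain ⟨r, hr⟩ := ad_rep (zsmulAddGroupHom ((p : ℤ)) : A →+ A).range
    obtain ⟨r', hr'⟩ := ad_rep (zsmulAddGroupHom ((p : ℤ) ^ N) : A →+ A).range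
    refine ad_fin (X := (A ⧸ (zsmulAddGroupHom ((p : ℤ)) : A →+ A).range) ×
      (A ⧸ (zsmulAddGroupHom ((p : ℤ) ^ N) : A →+ A).range)) _
      (fun t => r t.1 + (p : ℤ) • r' t.2) fun a => ?_
    obtain ⟨b, hb⟩ := hr a
    obtain ⟨b', hb'⟩ := hr' b
    have hb2 : (p : ℤ) • b = a - r (QuotientAddGroup.mk a) := hb
    have hb3 : (p : ℤ) ^ N • b' = b - r' (QuotientAddGroup.mk b) := hb'
    refine ⟨(QuotientAddGroup.mk a, QuotientAddGroup.mk b), b', ?_⟩
    change (p : ℤ) ^ (N + 1) • b' = a - (r (QuotientAddGroup.mk a) +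
      (p : ℤ) • r' (QuotientAddGroup.mk b))
    rw [pow_succ', mul_smul, hb3, smul_sub, hb2]
    abel

private theorem ad_ft {A B C : Type} [AddCommGroup A] [AddCommGroup B] [AddCommGroup C] {p : ℕ}
    (f : A →+ B) (c : B →+ C) (hex : ∀ x, c x = 0 → ∃ z, f z = x) (hK : Finite f.ker)
    (hC : Finite C) (N : ℕ)
    (hB : Finite (B ⧸ (zsmulAddGroupHom ((p : ℤ) ^ N) : B →+ B).range)) :
    Finite (A ⧸ (zsmulAddGroupHom ((p : ℤ) ^ N) : A →+ A).range) := by
  classical
  obtain ⟨r, hr⟩ := ad_rep (zsmulAddGroupHom ((p : ℤ) ^ N) : B →+ B).range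
  let R : A → (B ⧸ (zsmulAddGroupHom ((p : ℤ) ^ N) : B →+ B).range) → C → Prop := fun a β γ =>
    ∃ b, f a = r β + (p : ℤ) ^ N • b ∧ c b = γ
  let u : (B ⧸ (zsmulAddGroupHom ((p : ℤ) ^ N) : B →+ B).range) → C → A := fun β γ =>
    if h : ∃ a, R a β γ then h.choose else 0
  have hu : ∀ β γ a, R a β γ → R (u β γ) β γ := by
    intro β γ a ha
    have h : ∃ a, R a β γ := ⟨a, ha⟩
    have h2 : u β γ = h.choose := dif_pos h
    rw [h2]
    exact h.choose_spec
  refine ad_fin (X := (B ⧸ (zsmulAddGroupHom ((p : ℤ) ^ N) : B →+ B).range) × C × f.ker) _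
    (fun t => u t.1 t.2.1 + (t.2.2 : A)) fun a => ?_
  obtain ⟨b, hb⟩ := hr (f a)
  have hb2 : (p : ℤ) ^ N • b = f a - r (QuotientAddGroup.mk (f a)) := hb
  have hRa : R a (QuotientAddGroup.mk (f a)) (c b) := ⟨b, by rw [hb2]; abel, rfl⟩
  obtain ⟨b', h1, h2⟩ := hu _ _ _ hRa
  obtain ⟨x, hx⟩ := hex (b - b') (by rw [map_sub, h2, sub_self])
  have h3 : a - u (QuotientAddGroup.mk (f a)) (c b) - (p : ℤ) ^ N • x ∈ f.ker := by
    rw [AddMonoidHom.mem_ker, map_sub, map_sub, map_zsmul, hx, h1, smul_sub, hb2]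
    abel
  refine ⟨(QuotientAddGroup.mk (f a), c b, ⟨_, h3⟩), x, ?_⟩
  change (p : ℤ) ^ N • x = a - (u (QuotientAddGroup.mk (f a)) (c b) +
    (a - u (QuotientAddGroup.mk (f a)) (c b) - (p : ℤ) ^ N • x))
  abel

private theorem ad_mem {A : Type} [AddCommGroup A] (p N : ℕ) (x : A) :
    x ∈ ((Ideal.span {(p : ℤ)}) ^ N • (⊤ : Submodule ℤ A)) ↔ ∃ y, x = (p : ℤ) ^ N • y := by
  rw [Ideal.span_singleton_pow, Submodule.ideal_span_singleton_smul,
    Submodule.mem_smul_pointwise_iff_exists]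
  constructor
  · rintro ⟨b, -, rfl⟩
    exact ⟨b, rfl⟩
  · rintro ⟨y, rfl⟩
    exact ⟨y, trivial, rfl⟩

/-- The loops of a nullhomotopic map. -/
private theorem ad_om_null {G H : GSp} {c : Map G.U H} (h : c.Null) : c.Om.Null := by
  obtain ⟨b, hb⟩ := h
  obtain ⟨β, hβ⟩ : ∃ β : ∀ q, G.G q → H.G (q + 1), ∀ q x, b.f q x = β q x :=
    ⟨b.f, fun _ _ => rfl⟩
  have hb0 : ∀ (q : ℤ) (x : G.G q), H.d 0 rfl (β q x) = c.f q x := fun q x => by
    rw [← hβ]
    exact congrArg (fun m : Map G.U H => m.f q x) hb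
  have hbd : ∀ (i : ℕ) {q r : ℤ} (h : q + 1 = r) (h' : q + 1 + 1 = r + 1) (x : G.G r),
      H.d (i + 1) h' (β r x) = β q (G.d i h x) := fun i q r h h' x => by
    rw [← hβ, ← hβ]
    exact (b.map_d i h x).symm
  have hbs : ∀ (i : ℕ) {q r : ℤ} (h : q + 1 = r) (h' : q + 1 + 1 = r + 1) (x : G.G q),
      H.s (i + 1) h' (β q x) = β r (G.s i h x) := fun i q r h h' x => by
    rw [← hβ, ← hβ]
    exact (b.map_s i h x).symm
  have hcd : ∀ (i : ℕ) {q r : ℤ} (h : q + 1 = r) (x : G.G r),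
      H.d i h (c.f r x) = c.f q (G.d i h x) := fun i q r h x => (c.map_d i h x).symm
  have hcs : ∀ (i : ℕ) {q r : ℤ} (h : q + 1 = r) (x : G.G q),
      H.s i h (c.f q x) = c.f r (G.s i h x) := fun i q r h x => (c.map_s i h x).symm
  have c0 : ∀ q, c.f q (0 : G.G q) = 0 := fun q => c.map_pt q
  have b0 : ∀ q, β q (0 : G.G q) = 0 := fun q => by
    rw [← hβ]
    exact b.map_pt q
  refine ⟨⟨fun q x => ⟨(H.s 0 rfl (c.f (q + 1) x.1) + -β (q + 1) x.1 : H.G (q + 1 + 1)), ?_⟩,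
    ?_, ?_, ?_⟩, ?_⟩
  · rw [AddMonoidHom.mem_ker]
    change H.d 0 rfl (H.s 0 rfl (c.f (q + 1) x.1) + -β (q + 1) x.1) = 0
    rw [map_add, map_neg, H.ds_eq, hb0, add_neg_cancel]
  · intro q
    refine Subtype.ext ?_
    change H.s 0 rfl (c.f (q + 1) (0 : G.G (q + 1))) + -β (q + 1) (0 : G.G (q + 1)) = 0
    rw [c0, b0, map_zero, neg_zero, add_zero]
  · intro i q r h x
    subst h
    refine Subtype.ext ?_
    change H.s 0 rfl (c.f (q + 1) (G.d (i + 1) rfl (x.1 : G.G (q + 1 + 1)))) +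
      -β (q + 1) (G.d (i + 1) rfl (x.1 : G.G (q + 1 + 1))) =
      H.d (i + 1 + 1) rfl (H.s 0 rfl (c.f (q + 1 + 1) x.1) + -β (q + 1 + 1) x.1)
    rw [map_add, map_neg, H.ds_gt (Nat.succ_pos i) rfl rfl, hcd, hbd (i + 1) rfl rfl]
  · intro i q r h x
    subst h
    refine Subtype.ext ?_
    change H.s 0 rfl (c.f (q + 1 + 1) (G.s (i + 1) rfl (x.1 : G.G (q + 1)))) +
      -β (q + 1 + 1) (G.s (i + 1) rfl (x.1 : G.G (q + 1))) =
      H.s (i + 1 + 1) rfl (H.s 0 rfl (c.f (q + 1) x.1) + -β (q + 1) x.1)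
    rw [map_add, map_neg, ← H.ss (Nat.zero_le (i + 1)) rfl rfl, hcs (i + 1),
      hbs (i + 1) rfl rfl]
  · refine Map.ext2 fun q x => Subtype.ext ?_
    change H.d 1 rfl (H.s 0 rfl (c.f (q + 1) x.1) + -β (q + 1) x.1) = c.f (q + 1) x.1
    have hx : G.d 0 rfl (x.1 : G.G (q + 1)) = 0 := x.2
    rw [map_add, map_neg, H.ds_succ, hbd 0 rfl rfl, hx, b0, neg_zero, add_zero]

private theorem ad_om_congr {G H : GSp} {a b : Map G.U H} (h : HC.mk a = HC.mk b) :
    HC.mk a.Om = HC.mk b.Om := by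
  rw [HC.mk_eq] at h ⊢
  exact (congrArg Map.Null (Map.ext2 fun q x => Subtype.ext rfl)).mp (ad_om_null h)

private theorem ad_toOm_we (m : ℤ) {l : ℤ} (h : m + 1 = l) :
    (Map.ofHom (EM.toOm (ZMod p) h)).WE := by
  refine (we_iff _ fun q => (EM.toOm_bijective h q).2).mpr ?_
  intro q z hz
  have h0 : z = 0 := by
    refine Subtype.ext ((EM.toOm_bijective h q).1 ?_)
    exact z.2.trans (map_zero _).symm
  rw [h0]
  exact zero_mem _

theorem YHyp.ft (hY : YHyp p Y) : FT p Y := by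
  intro q N
  refine ⟨ad_fin_pow (hY.fin q) N, ?_⟩
  have h : ∀ (N : ℕ) (x : Y.pi q), (p : ℤ) ^ N • x = 0 → x = 0 := by
    intro N
    induction N with
    | zero =>
      intro x hx
      rwa [pow_zero, one_zsmul] at hx
    | succ N ih =>
      intro x hx
      rw [pow_succ', mul_smul] at hx
      exact ih x (hY.tf q _ hx)
  have h2 : Subsingleton (zsmulAddGroupHom ((p : ℤ) ^ N) : Y.pi q →+ Y.pi q).ker := by
    constructor
    rintro ⟨x, hx⟩ ⟨y, hy⟩
    have hx' : x = 0 := h N x hx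
    have hy' : y = 0 := h N y hy
    exact Subtype.ext (hx'.trans hy'.symm)
  exact Finite.of_subsingleton

/-- The Adams cover `Y_{s+1} = Fib (Y → C_{s+1})`. -/
noncomputable def Yf (s : ℕ) : GSp := (tower E hv s).y.Fib

theorem Yf_sbb (hY : YHyp p Y) (s : ℕ) : (Yf E hv s).SBB :=
  CE.fib_sbb (tower E hv s).y hY.sbb (tower E hv s).sbb

/-- The maps `Y_{s+2} → Y_{s+1}` over `Y`, equal to `Ω (tproj)` on `Ω C`. -/
theorem exists_Yf_map (s : ℕ) :
    ∃ g : Map (Yf E hv (s + 1)).U (Yf E hv s),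
      Map.post (tower E hv s).y.fibP g = Map.ofHom (tower E hv (s + 1)).y.fibP ∧
      Map.comp g (Map.ofHom (tower E hv (s + 1)).y.fibI) =
        Map.comp (Map.ofHom (tower E hv s).y.fibI) (Map.ofHom (tproj E hv s)).Om := by
  obtain ⟨g, h1, h2⟩ := Map.exists_fib_map (tower E hv (s + 1)).y (tower E hv s).y (Map.id Y)
    (Map.ofHom (tproj E hv s)) (by
      rw [Map.comp_ofHom, tproj_y, Map.comp_id])
  exact ⟨g, h1, h2⟩

/-- `Y_1 → Y` kills cohomology: every class of `Y` extends over the tower (`Stage.exists_ext`). -/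
theorem killsH_fibP (hY : YHyp p Y) (s : ℕ) :
    KillsH p (Map.ofHom (tower E hv s).y.fibP) := by
  have _ := hY
  intro m c
  obtain ⟨a, ha⟩ := hv.gen m c
  have h1 := (tower E hv s).by_
  have h2 : HC.mk c = HC.mk (Map.comp a (Map.comp (tower E hv s).b (tower E hv s).y)) := by
    rw [← ha, ← HC.comp_mk a v, ← HC.comp_mk a, h1]
  have h3 := congrArg (HC.pre (Map.ofHom (tower E hv s).y.fibP).toHom) h2
  rw [HC.pre_mk, HC.pre_mk] at h3
  rw [← HC.mk_eq_zero]
  refine Eq.trans h3 ?_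
  rw [HC.mk_eq_zero]
  exact (tower E hv s).y.null_comp_fibP.comp (Map.comp a (tower E hv s).b)

/-- `Y_{s+2} → Y_{s+1}` kills cohomology.  PROOF: for `e : Y_{s+1} → EM m` the restriction to
`Ω C_{s+1}` is `Ω ε` (`CE.om_surj`, `EM m ≅ Ω EM (m + 1)`); `ε y` is null by `CE.trans`; so
`ε = θ κ` (`Stage.im`); the restriction of `e g` to `Ω C_{s+2}` is `Ω (ε tproj) = Ω (θ κ fibP) ≃ 0`, so
`e g` comes from `Y` (`CE.exact_Fib`), where classes extend over the tower, hence it is null. -/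
theorem killsH_Yf_map (hY : YHyp p Y) (s : ℕ) (g : Map (Yf E hv (s + 1)).U (Yf E hv s))
    (h1 : Map.post (tower E hv s).y.fibP g = Map.ofHom (tower E hv (s + 1)).y.fibP)
    (h2 : Map.comp g (Map.ofHom (tower E hv (s + 1)).y.fibI) =
        Map.comp (Map.ofHom (tower E hv s).y.fibI) (Map.ofHom (tproj E hv s)).Om) :
    KillsH p g := by
  have _ := h1
  intro m e
  obtain ⟨ε, hε⟩ := CE.om_surj (tower E hv s).sbb (EML (ZMod p) (ZMod p) (m + 1))
    (Map.comp (Map.ofHom (EM.toOm (ZMod p) (rfl : m + 1 = m + 1)))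
      (Map.comp e (Map.ofHom (tower E hv s).y.fibI)))
  have h3 : (Map.comp ε (tower E hv s).y).Null :=
    CE.trans (tower E hv s).y hY.sbb (tower E hv s).sbb (EML (ZMod p) (ZMod p) (m + 1)) ε
      (Map.comp (Map.ofHom (EM.toOm (ZMod p) (rfl : m + 1 = m + 1))) e) hε.symm
  obtain ⟨θ, hθ⟩ := (tower E hv s).im (m + 1) ε h3
  have h4 : (Map.comp (Map.comp e g) (Map.ofHom (tower E hv (s + 1)).y.fibI)).Null := by
    rw [← HC.mk_eq_zero]
    apply ((ad_toOm_we (p := p) m (rfl : m + 1 = m + 1)).comp_bijective).1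
    rw [map_zero, HC.comp_mk]
    have h5 : Map.comp (Map.ofHom (EM.toOm (ZMod p) (rfl : m + 1 = m + 1)))
        (Map.comp (Map.comp e g) (Map.ofHom (tower E hv (s + 1)).y.fibI)) =
        Map.comp (Map.comp (Map.ofHom (EM.toOm (ZMod p) (rfl : m + 1 = m + 1))) e)
          (Map.comp g (Map.ofHom (tower E hv (s + 1)).y.fibI)) := rfl
    rw [h5, h2]
    have h6 := congrArg (HC.pre ((Map.ofHom (tproj E hv s)).Om).toHom) hε
    rw [HC.pre_mk, HC.pre_mk] at h6
    refine Eq.trans h6.symm ?_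
    have h7 := congrArg (HC.pre ((Map.ofHom (tproj E hv s)).Om).toHom) (ad_om_congr hθ)
    rw [HC.pre_mk, HC.pre_mk] at h7
    refine Eq.trans h7.symm ?_
    rw [HC.mk_eq_zero]
    exact ad_om_null ((tower E hv s).κ.null_comp_fibP.comp θ)
  obtain ⟨θ', hθ'⟩ := CE.exact_Fib (tower E hv (s + 1)).y hY.sbb (tower E hv (s + 1)).sbb
    (EML (ZMod p) (ZMod p) m) (Map.comp e g) h4
  rw [← HC.mk_eq_zero]
  exact hθ'.symm.trans (HC.mk_eq_zero.2 (killsH_fibP E hv hY (s + 1) m θ'))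

private theorem ad_g_surj (s : ℕ) (g : Map (Yf E hv (s + 1)).U (Yf E hv s))
    (h2 : Map.comp g (Map.ofHom (tower E hv (s + 1)).y.fibI) =
        Map.comp (Map.ofHom (tower E hv s).y.fibI) (Map.ofHom (tproj E hv s)).Om)
    (t : ℤ) (ht : Y.Vanish t) : Function.Surjective (g.pi t) := by
  intro z
  have e1 : (Map.ofHom (tower E hv s).y.fibP).pi t z = 0 := vanish_iff.1 ht _
  obtain ⟨w, rfl⟩ := ((tower E hv s).y.fib_exact_Fib t z).1 e1
  obtain ⟨c, hc⟩ := tproj_pi_surj E hv s (t + 1) (omPi _ t w)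
  obtain ⟨w', rfl⟩ := (omPi_bijective (tower E hv (s + 1)).C t).2 c
  have e2 : (Map.ofHom (tproj E hv s)).Om.pi t w' = w := by
    apply (omPi_bijective _ t).1
    rw [omPi_nat, hc]
  refine ⟨(Map.ofHom (tower E hv (s + 1)).y.fibI).pi t w', ?_⟩
  have e3 := congrArg (fun m => Map.pi m t) h2
  have e4 := DFunLike.congr_fun e3 w'
  have e5 : (Map.comp g (Map.ofHom (tower E hv (s + 1)).y.fibI)).pi t w' =
      (Map.comp (Map.ofHom (tower E hv s).y.fibI) (Map.ofHom (tproj E hv s)).Om).pi t w' := e4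
  rw [Map.pi_comp, Map.pi_comp, AddMonoidHom.comp_apply, AddMonoidHom.comp_apply, e2] at e5
  exact e5

private theorem ad_chain (hY : YHyp p Y) (L : ℕ) : ∀ s : ℕ,
    ∃ f : Map (Yf E hv (s + L)).U (Yf E hv s), Chain p L f ∧
      Map.post (tower E hv s).y.fibP f = Map.ofHom (tower E hv (s + L)).y.fibP ∧
      ∀ t, Y.Vanish t → Function.Surjective (f.pi t) := by
  induction L with
  | zero =>
    intro s
    refine ⟨Map.id _, Chain.nil _ (Yf_sbb E hv hY s), rfl, fun t _ => ?_⟩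
    intro x
    exact ⟨x, DFunLike.congr_fun (Map.pi_id (Yf E hv s) t) x⟩
  | succ L ih =>
    intro s
    obtain ⟨g, h1, h2⟩ := exists_Yf_map E hv s
    obtain ⟨f, h3, h4, h5⟩ := ih (s + 1)
    have e : s + 1 + L = s + (L + 1) := by omega
    rw [← e]
    refine ⟨Map.comp g f, Chain.cons g f (Yf_sbb E hv hY s)
      (killsH_Yf_map E hv hY s g h1 h2) h3, ?_, ?_⟩
    · have h6 : Map.post (tower E hv s).y.fibP (Map.comp g f) =
          Map.comp (Map.post (tower E hv s).y.fibP g) f := rfl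
      exact h6.trans ((congrArg (fun z => Map.comp z f) h1).trans h4)
    · intro t ht
      rw [Map.pi_comp]
      exact (ad_g_surj E hv s g h2 t ht).comp (h5 t ht)

/-- Long chains. -/
theorem exists_chain (hY : YHyp p Y) (s L : ℕ) :
    ∃ f : Map (Yf E hv (s + L)).U (Yf E hv s), Chain p L f ∧
      Map.post (tower E hv s).y.fibP f = Map.ofHom (tower E hv (s + L)).y.fibP := by
  obtain ⟨f, h1, h2, -⟩ := ad_chain E hv hY L s
  exact ⟨f, h1, h2⟩

private theorem ad_ker_finite (s : ℕ) (q : ℤ) :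
    Finite ((Map.ofHom (tower E hv s).y.fibP).pi q).ker := by
  have h1 : Finite ((tower E hv s).C.pi (q + 1)) := tower_finite E hv s (q + 1)
  have h2 : Finite ((tower E hv s).C.Om.pi q) :=
    Finite.of_injective _ (omPi_bijective (tower E hv s).C q).1
  refine Finite.of_surjective (fun w : (tower E hv s).C.Om.pi q =>
    (⟨(Map.ofHom (tower E hv s).y.fibI).pi q w,
      ((tower E hv s).y.fib_exact_Fib q _).2 ⟨w, rfl⟩⟩ :
        ((Map.ofHom (tower E hv s).y.fibP).pi q).ker)) ?_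
  rintro ⟨x, hx⟩
  obtain ⟨w, rfl⟩ := ((tower E hv s).y.fib_exact_Fib q x).1 hx
  exact ⟨w, rfl⟩

theorem Yf_ft (hY : YHyp p Y) (s : ℕ) : FT p (Yf E hv s) := by
  intro q N
  have hK := ad_ker_finite E hv s q
  constructor
  · exact ad_ft ((Map.ofHom (tower E hv s).y.fibP).pi q) ((tower E hv s).y.pi q)
      (fun x hx => ((tower E hv s).y.fib_exact_G q x).1 hx) hK (tower_finite E hv s q) N
      (hY.ft q N).1
  · have h : ∀ (N : ℕ) (x : Y.pi q), (p : ℤ) ^ N • x = 0 → x = 0 := by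
      intro N
      induction N with
      | zero =>
        intro x hx
        rwa [pow_zero, one_zsmul] at hx
      | succ N ih =>
        intro x hx
        rw [pow_succ', mul_smul] at hx
        exact ih x (hY.tf q _ hx)
    have h2 : ∀ x : (Yf E hv s).pi q, x ∈ (zsmulAddGroupHom ((p : ℤ) ^ N) :
        (Yf E hv s).pi q →+ (Yf E hv s).pi q).ker →
        x ∈ ((Map.ofHom (tower E hv s).y.fibP).pi q).ker := by
      intro x hx
      have hx' : (p : ℤ) ^ N • x = 0 := hx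
      have h3 : (Map.ofHom (tower E hv s).y.fibP).pi q x = 0 := by
        apply h N
        exact (map_zsmul _ _ _).symm.trans ((congrArg _ hx').trans (map_zero _))
      exact h3
    exact Finite.of_injective (fun x : (zsmulAddGroupHom ((p : ℤ) ^ N) :
        (Yf E hv s).pi q →+ (Yf E hv s).pi q).ker =>
        (⟨x.1, h2 x.1 x.2⟩ : ((Map.ofHom (tower E hv s).y.fibP).pi q).ker))
      (fun x y hxy => by
        have h4 : (⟨x.1, h2 x.1 x.2⟩ : ((Map.ofHom (tower E hv s).y.fibP).pi q).ker) =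
          ⟨y.1, h2 y.1 y.2⟩ := hxy
        have h5 := congrArg Subtype.val h4
        exact Subtype.ext h5)

/-- (P2) The kernel of `π_t Y → π_t C_{L+1}` is divisible by `p^N` for large `L`. -/
theorem ker_divisible (hY : YHyp p Y) (t : ℤ) (N : ℕ) : ∃ L, ∀ x : Y.pi t,
    (tower E hv L).y.pi t x = 0 → ∃ y : Y.pi t, x = (p : ℤ) ^ N • y := by
  obtain ⟨L, hL⟩ := chain_divisible Y hY.sbb hY.ft t N
  rcases L with _ | l
  · refine ⟨0, fun x _ => ?_⟩
    obtain ⟨y, hy⟩ := hL Y (Map.id Y) (Chain.nil Y hY.sbb) x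
    refine ⟨y, ?_⟩
    rw [Map.pi_id] at hy
    exact hy
  · obtain ⟨f, h1, h2⟩ := exists_chain E hv hY 0 l
    refine ⟨0 + l, fun x hx => ?_⟩
    obtain ⟨z, rfl⟩ := ((tower E hv (0 + l)).y.fib_exact_G t x).1 hx
    obtain ⟨y, hy⟩ := hL _ (Map.comp (Map.ofHom (tower E hv 0).y.fibP) f)
      (Chain.cons _ f hY.sbb (killsH_fibP E hv hY 0) h1) z
    refine ⟨y, ?_⟩
    rw [← hy]
    have h3 : Map.comp (Map.ofHom (tower E hv 0).y.fibP) f =
        Map.ofHom (tower E hv (0 + l)).y.fibP := h2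
    rw [h3]
    rfl

/-- (P1) `π_q Y → π_q C_{s+1}` is surjective.  PROOF: `π_{q-1} (Yf s)` is a quotient of `π_q C`
(`π_{q-1} Y = 0` for `q` even) and every element lifts to `π_{q-1} (Yf (s + L))`, so it is divisible
by all `p^N` (`chain_divisible`), hence `0`. -/
theorem y_pi_surj (hY : YHyp p Y) (s : ℕ) (q : ℤ) :
    Function.Surjective ((tower E hv s).y.pi q) := by
  intro c
  rcases Int.even_or_odd q with hq | hq
  · obtain ⟨q', rfl⟩ : ∃ q', q = q' + 1 := ⟨q - 1, by omega⟩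
    have hodd : Odd q' := by
      obtain ⟨a, ha⟩ := hq
      exact ⟨a - 1, by omega⟩
    have hv' : Y.Vanish q' := hY.odd q' hodd
    obtain ⟨w, hw⟩ := (omPi_bijective (tower E hv s).C q').2 c
    have hz : (Map.ofHom (tower E hv s).y.fibI).pi q' w = 0 := by
      obtain ⟨L, hL⟩ := chain_divisible (Yf E hv s) (Yf_sbb E hv hY s) (Yf_ft E hv hY s) q'
        (s + 1)
      obtain ⟨f, hf1, -, hf3⟩ := ad_chain E hv hY L s
      obtain ⟨x, hx⟩ := hf3 q' hv' ((Map.ofHom (tower E hv s).y.fibI).pi q' w)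
      obtain ⟨y, hy⟩ := hL _ f hf1 x
      obtain ⟨w', rfl⟩ := ((tower E hv s).y.fib_exact_Fib q' y).1 (vanish_iff.1 hv' _)
      have h3 : (p : ℤ) ^ (s + 1) • w' = 0 := by
        apply (omPi_bijective _ q').1
        rw [map_zsmul, tower_p_smul, map_zero]
      have h4 : (p : ℤ) ^ (s + 1) • (Map.ofHom (tower E hv s).y.fibI).pi q' w' = 0 :=
        (map_zsmul _ _ _).symm.trans ((congrArg _ h3).trans (map_zero _))
      exact hx.symm.trans (hy.trans h4)
    obtain ⟨x, hx⟩ := ((tower E hv s).y.fib_exact_Om q' w).1 hz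
    exact ⟨x, hx.trans hw⟩
  · refine ⟨0, ?_⟩
    rw [map_zero]
    exact (vanish_iff.1 (tower_odd E hv s q hq) c).symm

/-- Homotopy classes of `Y` are detected by the tower. -/
theorem pi_sep (hY : YHyp p Y) (q : ℤ) (x : Y.pi q) (h : ∀ s, (tower E hv s).y.pi q x = 0) :
    x = 0 := by
  have h1 := hY.comp q
  refine h1.toIsHausdorff.haus' x fun N => ?_
  rw [SModEq.sub_mem, sub_zero, ad_mem]
  obtain ⟨L, hL⟩ := ker_divisible E hv hY q N
  exact hL x (h L)

/-- The tower as an `ITower`. -/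
noncomputable def tow : ITower where
  C := fun s => (tower E hv s).C
  π := tproj E hv
  surj := tproj_surj E hv

/-- The comparison map. -/
noncomputable def yLim : Map Y.U (tow E hv).lim :=
  (tow E hv).toLim (fun s => (tower E hv s).y) (tproj_y E hv)

theorem yLim_we (hY : YHyp p Y) : (yLim E hv).WE := by
  intro q
  have hpr : ∀ (s : ℕ) (x : Y.pi q), (Map.ofHom ((tow E hv).pr s)).pi q ((yLim E hv).pi q x) =
      (tower E hv s).y.pi q x := by
    intro s x
    obtain ⟨z, rfl⟩ := Y.piMk_surj q x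
    rfl
  have hdown : ∀ (x : Y.pi q) (s : ℕ), (Map.ofHom (tproj E hv s)).pi q
      ((tower E hv (s + 1)).y.pi q x) = (tower E hv s).y.pi q x := by
    intro x s
    have h1 : Map.comp (Map.ofHom (tproj E hv s)) (tower E hv (s + 1)).y = (tower E hv s).y :=
      tproj_y E hv s
    have h2 := DFunLike.congr_fun (congrArg (fun m => Map.pi m q) h1) x
    have h3 : (Map.comp (Map.ofHom (tproj E hv s)) (tower E hv (s + 1)).y).pi q x =
      (tower E hv s).y.pi q x := h2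
    rw [Map.pi_comp, AddMonoidHom.comp_apply] at h3
    exact h3
  have hcomp : ∀ (s : ℕ) (z : (tow E hv).lim.pi q), (Map.ofHom (tproj E hv s)).pi q
      ((Map.ofHom ((tow E hv).pr (s + 1))).pi q z) = (Map.ofHom ((tow E hv).pr s)).pi q z := by
    intro s z
    have h1 : Map.comp (Map.ofHom (tproj E hv s)) (Map.ofHom ((tow E hv).pr (s + 1))) =
        Map.ofHom ((tow E hv).pr s) := Map.ext2 fun r x => x.2.1 s
    have h2 := DFunLike.congr_fun (congrArg (fun m => Map.pi m q) h1) z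
    have h3 : (Map.comp (Map.ofHom (tproj E hv s)) (Map.ofHom ((tow E hv).pr (s + 1)))).pi q z =
      (Map.ofHom ((tow E hv).pr s)).pi q z := h2
    rw [Map.pi_comp, AddMonoidHom.comp_apply] at h3
    exact h3
  constructor
  · rw [injective_iff_map_eq_zero]
    intro x hx
    refine pi_sep E hv hY q x fun s => ?_
    exact (hpr s x).symm.trans ((congrArg _ hx).trans (map_zero _))
  · intro z
    choose a ha using fun s => y_pi_surj E hv hY s q ((Map.ofHom ((tow E hv).pr s)).pi q z)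
    have hle : ∀ (x : Y.pi q) (s s' : ℕ), s ≤ s' →
        (tower E hv s').y.pi q x = (Map.ofHom ((tow E hv).pr s')).pi q z →
        (tower E hv s).y.pi q x = (Map.ofHom ((tow E hv).pr s)).pi q z := by
      intro x s s' hss
      induction s', hss using Nat.le_induction with
      | base => exact fun h => h
      | succ s' _ ih =>
        intro h
        apply ih
        rw [← hdown x s', h, hcomp]
    choose L hL using fun N => ker_divisible E hv hY q N
    let M : ℕ → ℕ := fun N => (Finset.range (N + 1)).sup fun i => max (L i) i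
    have hM : ∀ {m n : ℕ}, m ≤ n → L m ≤ M n := fun {m n} hmn =>
      (le_max_left _ _).trans (Finset.le_sup (f := fun i => max (L i) i)
        (Finset.mem_range.2 (Nat.lt_succ_of_le hmn)))
    have hM2 : ∀ n : ℕ, n ≤ M n := fun n =>
      (le_max_right _ _).trans (Finset.le_sup (f := fun i => max (L i) i)
        (Finset.mem_range.2 (Nat.lt_succ_of_le le_rfl)))
    have hdiff : ∀ (N : ℕ) (x y : Y.pi q),
        (tower E hv (L N)).y.pi q x = (Map.ofHom ((tow E hv).pr (L N))).pi q z →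
        (tower E hv (L N)).y.pi q y = (Map.ofHom ((tow E hv).pr (L N))).pi q z →
        ∃ w : Y.pi q, x - y = (p : ℤ) ^ N • w := by
      intro N x y hx hy
      apply hL N
      rw [map_sub, hx, hy, sub_self]
    obtain ⟨b, hb⟩ := (hY.comp q).toIsPrecomplete.prec' (fun N => a (M N)) (by
      intro m n hmn
      rw [SModEq.sub_mem, ad_mem]
      exact hdiff m _ _ (hle _ _ _ (hM le_rfl) (ha _)) (hle _ _ _ (hM hmn) (ha _)))
    have hbs : ∀ s, (tower E hv s).y.pi q b = (Map.ofHom ((tow E hv).pr s)).pi q z := by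
      intro s
      have h1 := hb (s + 1)
      rw [SModEq.sub_mem, ad_mem] at h1
      obtain ⟨w, hw⟩ := h1
      have h2 : (tower E hv s).y.pi q (a (M (s + 1))) =
          (Map.ofHom ((tow E hv).pr s)).pi q z :=
        hle _ _ _ ((Nat.le_succ s).trans (hM2 (s + 1))) (ha _)
      have h3 : b = a (M (s + 1)) - (p : ℤ) ^ (s + 1) • w := by
        rw [← hw]
        abel
      rw [h3, map_sub, map_zsmul, tower_p_smul, sub_zero, h2]
    refine ⟨b, ?_⟩
    rw [← sub_eq_zero]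
    refine (tow E hv).pi_inj q (fun s => tproj_pi_surj E hv s (q + 1)) _ fun s => ?_
    rw [map_sub, hpr, hbs, sub_self]

/-- **Maps to `Y` from compatible classes.** -/
theorem exists_map_Y (hY : YHyp p Y) {X : PSp} (φ : ∀ s, HC X (tower E hv s).C)
    (hφ : ∀ s, HC.comp (Map.ofHom (tproj E hv s)) (φ (s + 1)) = φ s) :
    ∃ f : Map X Y, ∀ s, HC.mk (Map.comp (tower E hv s).y f) = φ s := by
  obtain ⟨F, hF⟩ := (tow E hv).exists_toLim φ hφ
  obtain ⟨x, hx⟩ := ((yLim_we E hv hY).comp_bijective (X := X)).2 (HC.mk F)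
  obtain ⟨f, rfl⟩ := HC.mk_surj x
  refine ⟨f, fun s => ?_⟩
  have h1 := congrArg (HC.comp (Map.ofHom ((tow E hv).pr s))) hx
  rw [HC.comp_mk, HC.comp_mk, HC.comp_mk] at h1
  rw [← hF s]
  exact h1

end BPN
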