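import Pool.Agent.BPN.T.Obs
import Pool.Agent.BPN.D.Out

/-!
# From part (D) to self maps with prescribed leading terms (project BPN, module T/Bridge)
-/

namespace BPN

open GSp

variable {p n : ℕ} [Fact p.Prime] {Q : ∀ i : Fin (n + 1), Op p (2 * p ^ (i : ℕ) - 1)}

/-- The unique monomial of degree `0`. -/
def Mon.zero (n : ℕ) : Mon n 0 := ⟨fun _ => 0, by simp⟩

/-- A monomial as a finitely supported function. -/
noncomputable def Mon.fs {n s : ℕ} (I : Mon n s) : Fin (n + 1) →₀ ℕ := Finsupp.equivFunOnFinite.symm I.1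

/-! ### helpers -/

private theorem br_fs_inj {s : ℕ} {I J : Mon n s} (h : I.fs = J.fs) : I = J :=
  Subtype.ext (funext fun i => DFunLike.congr_fun h i)

private theorem br_zero (I : Mon n 0) : I = Mon.zero n :=
  Subtype.ext (funext fun i => (Finset.sum_eq_zero_iff.1 I.2) i (Finset.mem_univ i))

private theorem br_mdeg_zero (p n : ℕ) : mdeg p (Mon.zero n).1 = 0 := by
  unfold mdeg Mon.zero
  simp

private theorem br_smul_mon (c : ZMod p) (R : ℕ →₀ ℕ) (F : Finset ℕ) :
    c • Mil.mon p R F = Finsupp.single F (MvPolynomial.monomial R c) := by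
  unfold Mil.mon
  rw [Finsupp.smul_single, MvPolynomial.smul_monomial, smul_eq_mul, mul_one]

private theorem br_ext {A : Type} [AddCommGroup A] [Module (ZMod p) A] {f g : Mil p →+ A}
    {F : Finset ℕ} (h : ∀ R, f (Mil.mon p R F) = g (Mil.mon p R F))
    (P : MvPolynomial ℕ (ZMod p)) : f (Finsupp.single F P) = g (Finsupp.single F P) := by
  induction P using MvPolynomial.induction_on' with
  | monomial R c => rw [← br_smul_mon, ZMod.map_smul, ZMod.map_smul, h]
  | add P P' h1 h2 => rw [Finsupp.single_add, map_add, map_add, h1, h2]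

private theorem br_ext2 {A : Type} [AddCommGroup A] [Module (ZMod p) A] {f g : Mil p →+ A}
    (h : ∀ R F, f (Mil.mon p R F) = g (Mil.mon p R F)) (z : Mil p) : f z = g z :=
  DFunLike.congr_fun (Finsupp.addHom_ext fun F P => br_ext (fun R => h R F) P) z

private theorem br_Rop (i : ℕ) (F : Finset ℕ) (P : MvPolynomial ℕ (ZMod p)) :
    Mil.Rop p i (Finsupp.single F P) = if i ∈ F then
      -((-1 : ℤ) ^ (F.filter (· < i)).card • Finsupp.single (F.erase i) P) else 0 := by
  unfold Mil.Rop Mil.contr
  rw [LinearMap.neg_apply, Finsupp.lsum_single]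
  split_ifs
  · rfl
  · rw [LinearMap.zero_apply, neg_zero]

private theorem br_Lop (i : ℕ) (F : Finset ℕ) (P : MvPolynomial ℕ (ZMod p)) :
    Mil.Lop p i (Finsupp.single F P) = -∑ k ∈ F.filter (fun k => i ≤ k),
      Finsupp.single (F.erase k) (Mil.xi p (k - i) ^ p ^ i •
        ((-1 : ℤ) ^ (F.filter (· < k)).card • P)) := by
  unfold Mil.Lop
  rw [Finsupp.lsum_single, LinearMap.neg_apply, LinearMap.sum_apply]
  congr 1
  refine Finset.sum_congr rfl fun k _ => ?_
  rw [LinearMap.smul_apply, LinearMap.smul_apply, Finsupp.lsingle_apply, Finsupp.smul_single,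
    Finsupp.smul_single]

private theorem br_Lop_ext {A : Type} [AddCommGroup A] [Module (ZMod p) A] {f g : Mil p →+ A}
    (h : ∀ R F, (∀ i ∈ F, n < i) → f (Mil.mon p R F) = g (Mil.mon p R F)) (i : ℕ)
    {F : Finset ℕ} (hF : ∀ i ∈ F, n < i) (P : MvPolynomial ℕ (ZMod p)) :
    f (Mil.Lop p i (Finsupp.single F P)) = g (Mil.Lop p i (Finsupp.single F P)) := by
  rw [br_Lop, map_neg, map_neg, map_sum, map_sum]
  congr 1
  refine Finset.sum_congr rfl fun k _ => ?_
  exact br_ext (fun R => h R _ fun j hj => hF j (Finset.mem_of_mem_erase hj)) _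

/-- `g ↦ - g τ_j` on monomials all of whose exterior variables are larger than `j`. -/
private noncomputable def br_T (p : ℕ) (j : ℕ) : Mil p →ₗ[MvPolynomial ℕ (ZMod p)] Mil p :=
  Finsupp.lsum ℕ fun F : Finset ℕ => if ∀ e ∈ F, j < e then -Finsupp.lsingle (insert j F) else 0

private theorem br_T_single (j : ℕ) (F : Finset ℕ) (P : MvPolynomial ℕ (ZMod p)) :
    br_T p j (Finsupp.single F P) = if ∀ e ∈ F, j < e then
      -Finsupp.single (insert j F) P else 0 := by
  unfold br_T
  rw [Finsupp.lsum_single]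
  split_ifs
  · rfl
  · rw [LinearMap.zero_apply]

private theorem br_T_Rop (F : Finset ℕ) (P : MvPolynomial ℕ (ZMod p)) :
    ∑ i : Fin (n + 1), br_T p i (Mil.Rop p i (Finsupp.single F P)) =
      if ∃ i ∈ F, i ≤ n then Finsupp.single F P else 0 := by
  split_ifs with h
  · obtain ⟨i₀, hi₀, hn⟩ := h
    have hne : F.Nonempty := ⟨i₀, hi₀⟩
    have hm := F.min'_mem hne
    have hmn : F.min' hne ≤ n := (F.min'_le i₀ hi₀).trans hn
    rw [Finset.sum_eq_single (⟨F.min' hne, by omega⟩ : Fin (n + 1))]
    · rw [br_Rop, if_pos hm]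
      have h1 : F.filter (· < F.min' hne) = ∅ := by
        rw [Finset.filter_eq_empty_iff]
        intro e he
        exact not_lt.2 (F.min'_le e he)
      rw [h1, Finset.card_empty, pow_zero, one_smul, map_neg, br_T_single, if_pos, neg_neg,
        Finset.insert_erase hm]
      intro e he
      obtain ⟨h2, h3⟩ := Finset.mem_erase.1 he
      exact lt_of_le_of_ne (F.min'_le e h3) (Ne.symm h2)
    · intro i _ hi
      rw [br_Rop]
      split_ifs with h1
      · rw [map_neg, map_zsmul, br_T_single, if_neg, smul_zero, neg_zero]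
        intro h2
        have h3 : F.min' hne ≠ i := fun h4 => hi (Fin.ext h4.symm)
        have h4 := h2 _ (Finset.mem_erase.2 ⟨h3, hm⟩)
        exact absurd h4 (not_lt.2 (F.min'_le _ h1))
      · rw [map_zero]
    · intro h1
      exact absurd (Finset.mem_univ _) h1
  · refine Finset.sum_eq_zero fun i _ => ?_
    rw [br_Rop, if_neg, map_zero]
    intro h1
    exact h ⟨i, h1, Nat.le_of_lt_succ i.2⟩

section maps

variable (E : EOut p n Q)

private theorem br_row_null {s : ℕ} {k m : ℤ} {θ : Map (KS p n s k).U (EM (ZMod p) m)}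
    (h : θ.Null) (I : Mon n s) (z : Mil p) : row E θ I z = 0 := (row_null_iff E θ).1 h I z

private theorem br_row_neg {s : ℕ} {k m : ℤ} (θ : Map (KS p n s k).U (EM (ZMod p) m))
    (I : Mon n s) (z : Mil p) : row E (-θ) I z = -row E θ I z := by
  have h := row_add E θ (-θ) I z
  rw [add_neg_cancel, br_row_null E Map.null_zero] at h
  exact eq_neg_of_add_eq_zero_right h.symm

private theorem br_row_congr {s : ℕ} {k m : ℤ} {θ θ' : Map (KS p n s k).U (EM (ZMod p) m)}
    (h : HC.mk θ = HC.mk θ') (I : Mon n s) (z : Mil p) : row E θ I z = row E θ' I z := by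
  have h1 := br_row_null E (HC.mk_eq.1 h) I z
  rw [row_add, br_row_neg] at h1
  exact eq_of_sub_eq_zero ((sub_eq_add_neg _ _).trans h1)

/-- `row` as a homomorphism. -/
private noncomputable def br_rowH {s : ℕ} {k m : ℤ} (θ : Map (KS p n s k).U (EM (ZMod p) m))
    (I : Mon n s) : Mil p →+ ZMod p :=
  AddMonoidHom.mk' (fun z => row E θ I z) (fun z z' => prO_add_left E z z' _)

/-- `mt` as a homomorphism. -/
private noncomputable def br_mtH {s t : ℕ} {k l : ℤ} (θ : Map (KS p n s k).U (KS p n t l))
    (J : Mon n t) (I : Mon n s) : Mil p →+ ZMod p :=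
  AddMonoidHom.mk' (fun z => mt E θ J I z) (fun z z' => prO_add_left E z z' _)

private theorem br_pred {s : ℕ} (J : Mon n (s + 1)) (i : Fin (n + 1)) (h : 0 < J.1 i) :
    (J.pred i h).fs = J.fs - Finsupp.single i 1 := by
  ext j
  rw [Finsupp.tsub_apply, Finsupp.single_apply]
  change Function.update J.1 i (J.1 i - 1) j = J.1 j - _
  by_cases hj : j = i
  · rw [hj, Function.update_self, if_pos rfl]
  · rw [Function.update_of_ne hj, if_neg (Ne.symm hj), Nat.sub_zero]

private theorem br_one {I : Mon n (0 + 1)} {i : Fin (n + 1)} (h : 0 < I.1 i) :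
    I = (Mon.zero n).succ i := by
  rw [← I.succ_pred i h, br_zero (I.pred i h)]

end maps

variable (E : EOut p n Q) {Y : GSp} {v : Map Y.U (KS p n 0 0)} (hv : IsCycK Q Y v)

include hv in
/-- (B1) A class `e v` on `Y` vanishes iff `e` pairs to zero with all `ξ^R τ^E`, `E` disjoint from
`{0, .., n}` (= the common kernel of the `Rop i`).  PROOF: → by `IsCycK.rel` and `row_comp_qm`;
← the functional `row E e 0` vanishes on the common kernel of the `Rop i`, `i ≤ n`, hence (duality in the
Koszul complex) is `∑ φ_i ∘ Rop i`; realise the `φ_i` by `row_surj`; use `IsCycK.ann`. -/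
theorem cls_null_iff (m : ℤ) (e : Map (KS p n 0 0).U (EM (ZMod p) m)) :
    (Map.comp e v).Null ↔ ∀ (R : ℕ →₀ ℕ) (F : Finset ℕ), (∀ i ∈ F, n < i) →
      row E e (Mon.zero n) (Mil.mon p R F) = 0 := by
  constructor
  · intro he R F hF
    obtain ⟨θ, hθ⟩ := hv.rel m e he
    rw [← br_row_congr E hθ, row_comp_qm]
    refine Finset.sum_eq_zero fun i _ => ?_
    have h1 : Mil.Rop p i (Mil.mon p R F) = 0 := by
      unfold Mil.mon
      rw [br_Rop, if_neg]
      intro h2
      have h3 := hF i h2
      have h4 := i.2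
      omega
    rw [h1]
    exact map_zero (br_rowH E θ ((Mon.zero n).succ i))
  · intro h
    let φ : Mil p →+ ZMod p := br_rowH E e (Mon.zero n)
    let φI : Mon n (0 + 1) → (Mil p →+ ZMod p) := fun I =>
      ∑ i : Fin (n + 1), if 0 < I.1 i then φ.comp (br_T p i).toAddMonoidHom else 0
    have hφI : ∀ i : Fin (n + 1), ∀ z, φI ((Mon.zero n).succ i) z = φ (br_T p i z) := by
      intro i z
      have h1 : φI ((Mon.zero n).succ i) = φ.comp (br_T p i).toAddMonoidHom := by
        change (∑ j : Fin (n + 1), if 0 < ((Mon.zero n).succ i).1 j then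
          φ.comp (br_T p j).toAddMonoidHom else 0) = _
        rw [Finset.sum_eq_single i]
        · rw [if_pos]
          simp [Mon.succ, Mon.zero]
        · intro j _ hj
          rw [if_neg]
          simp [Mon.succ, Mon.zero, hj]
        · intro h2
          exact absurd (Finset.mem_univ i) h2
      rw [h1]
      rfl
    obtain ⟨θ, hθ⟩ := row_surj (k := 0 + 1) (m := m) E φI (by
      intro I R F hdeg
      change (∑ j : Fin (n + 1), if 0 < I.1 j then φ.comp (br_T p j).toAddMonoidHom else 0)
        (Mil.mon p R F) = 0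
      rw [AddMonoidHom.finsetSum_apply]
      refine Finset.sum_eq_zero fun j _ => ?_
      split_ifs with hj
      · change φ (br_T p j (Mil.mon p R F)) = 0
        unfold Mil.mon
        rw [br_T_single]
        split_ifs with hF
        · rw [map_neg, neg_eq_zero]
          have h1 : ((Mil.deg p R (insert (j : ℕ) F) : ℕ) : ℤ) ≠
              m - (mdeg p (Mon.zero n).1 + 0) := by
            intro h2
            apply hdeg
            rw [br_one hj, mdeg_succ, br_mdeg_zero]
            rw [br_mdeg_zero] at h2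
            have h3 : (j : ℕ) ∉ F := fun h4 => lt_irrefl _ (hF _ h4)
            have h4 : Mil.deg p R (insert (j : ℕ) F) = Mil.deg p R F + (2 * p ^ (j : ℕ) - 1) := by
              unfold Mil.deg
              rw [Finset.sum_insert h3]
              ring
            have h5 := deg_cast p (j : ℕ)
            rw [h4, Nat.cast_add, h5] at h2
            linarith
          exact prO_homog E R (insert (j : ℕ) F) h1 _
        · exact map_zero φ
      · rfl)
    have hkey : ∀ z, φ z = ∑ i : Fin (n + 1), φ (br_T p i (Mil.Rop p i z)) := by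
      intro z
      have h1 : ∀ z, φ z = (∑ i : Fin (n + 1), φ.comp ((br_T p i).toAddMonoidHom.comp
          (Mil.Rop p i).toAddMonoidHom)) z := by
        refine br_ext2 fun R F => ?_
        rw [AddMonoidHom.finsetSum_apply]
        change φ (Finsupp.single F (MvPolynomial.monomial R 1)) =
          ∑ i : Fin (n + 1), φ (br_T p i (Mil.Rop p i
            (Finsupp.single F (MvPolynomial.monomial R 1))))
        rw [← map_sum, br_T_Rop]
        split_ifs with h2
        · rfl
        · rw [map_zero]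
          refine h R F fun i hi => ?_
          by_contra h3
          exact h2 ⟨i, hi, not_lt.1 h3⟩
      rw [h1 z, AddMonoidHom.finsetSum_apply]
      rfl
    have h1 : HC.mk e = HC.mk (Map.comp θ (qm Q 0 0)) := by
      rw [HC.mk_eq, row_null_iff E]
      intro I z
      rw [br_zero I, row_add, br_row_neg, row_comp_qm]
      have h2 : ∑ i, row E θ ((Mon.zero n).succ i) (Mil.Rop p i z) = φ z := by
        rw [hkey z]
        exact Finset.sum_congr rfl fun i _ => (hθ _ _).trans (hφI i _)
      rw [h2]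
      exact add_neg_cancel _
    rw [← HC.mk_eq_zero, ← HC.comp_mk, HC.comp_congr h1, HC.comp_mk, HC.mk_eq_zero,
      ← Map.comp_assoc]
    exact hv.ann.comp θ

/-! ### classes -/

/-- The projection to the common kernel of the `Rop i`. -/
private noncomputable def br_pi (p n : ℕ) : Mil p →+ Mil p :=
  (Finsupp.lsum ℕ fun F : Finset ℕ => if ∃ i ∈ F, i ≤ n then (0 : MvPolynomial ℕ (ZMod p)
    →ₗ[MvPolynomial ℕ (ZMod p)] Mil p) else Finsupp.lsingle F).toAddMonoidHom

private theorem br_pi_single (F : Finset ℕ) (P : MvPolynomial ℕ (ZMod p)) :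
    br_pi p n (Finsupp.single F P) = if ∃ i ∈ F, i ≤ n then 0 else Finsupp.single F P := by
  unfold br_pi
  rw [LinearMap.toAddMonoidHom_coe, Finsupp.lsum_single]
  split_ifs <;> rfl

/-- The class `x : Mil → P` of a map `c : KS 0 0 → KS s k`: the `J` coefficient of `x w` is the pairing
of the `J` component with `w`, for `w = ξ^R τ^E`, `E ⊆ {> n}`, and `x (ξ^R τ^E) = 0` otherwise. -/
theorem exists_cls (s : ℕ) (k : ℤ) (c : Map (KS p n 0 0).U (KS p n s k)) :
    ∃ x : Mil p →+ PV p n, DCl p n s k x ∧ ∀ R F, (∀ i ∈ F, n < i) → ∀ J : Mon n s,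
      (x (Mil.mon p R F)).coeff J.fs = mt E c J (Mon.zero n) (Mil.mon p R F) := by
  classical
  let x : Mil p →+ PV p n := ∑ J : Mon n s, (MvPolynomial.monomial J.fs).toAddMonoidHom.comp
    ((br_mtH E c J (Mon.zero n)).comp (br_pi p n))
  have hx : ∀ z, x z = ∑ J : Mon n s, MvPolynomial.monomial J.fs
      (mt E c J (Mon.zero n) (br_pi p n z)) := by
    intro z
    change (∑ J : Mon n s, (MvPolynomial.monomial J.fs).toAddMonoidHom.comp
      ((br_mtH E c J (Mon.zero n)).comp (br_pi p n))) z = _
    rw [AddMonoidHom.finsetSum_apply]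
    rfl
  have hc : ∀ z (J : Mon n s), (x z).coeff J.fs = mt E c J (Mon.zero n) (br_pi p n z) := by
    intro z J
    rw [hx, MvPolynomial.coeff_sum, Finset.sum_eq_single J]
    · rw [MvPolynomial.coeff_monomial, if_pos rfl]
    · intro J' _ hJ
      rw [MvPolynomial.coeff_monomial, if_neg fun h => hJ (br_fs_inj h)]
    · intro h
      exact absurd (Finset.mem_univ J) h
  refine ⟨x, ⟨?_, ?_⟩, ?_⟩
  · intro R F hF
    have h1 : br_pi p n (Mil.mon p R F) = 0 := by
      unfold Mil.mon
      rw [br_pi_single, if_pos hF]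
    rw [hx]
    refine Finset.sum_eq_zero fun J _ => ?_
    rw [h1]
    have h2 : mt E c J (Mon.zero n) (0 : Mil p) = 0 := map_zero (br_mtH E c J (Mon.zero n))
    rw [h2, map_zero]
  · intro R F J hJ
    rw [MvPolynomial.mem_support_iff] at hJ
    obtain ⟨J', hJ', hne⟩ : ∃ J' : Mon n s, J'.fs = J ∧
        mt E c J' (Mon.zero n) (br_pi p n (Mil.mon p R F)) ≠ 0 := by
      rw [hx, MvPolynomial.coeff_sum] at hJ
      obtain ⟨J', -, h1⟩ := Finset.exists_ne_zero_of_sum_ne_zero hJ
      rw [MvPolynomial.coeff_monomial] at h1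
      split_ifs at h1 with h2
      · exact ⟨J', h2, h1⟩
      · exact absurd rfl h1
    subst hJ'
    refine ⟨J'.2, ?_⟩
    have h1 : br_pi p n (Mil.mon p R F) = Mil.mon p R F := by
      by_contra h2
      apply hne
      have h3 : br_pi p n (Mil.mon p R F) = 0 := by
        unfold Mil.mon at h2 ⊢
        rw [br_pi_single] at h2 ⊢
        split_ifs at h2 ⊢ with h4
        · rfl
        · exact absurd rfl h2
      rw [h3]
      exact map_zero (br_mtH E c J' (Mon.zero n))
    rw [h1] at hne
    by_contra h2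
    apply hne
    refine prO_homog E R F ?_ _
    rw [br_mdeg_zero]
    intro h3
    apply h2
    have h4 : mdeg p (fun i => J'.fs i) = mdeg p J'.1 := rfl
    rw [h4]
    linarith
  · intro R F hF J
    rw [hc]
    congr 1
    unfold Mil.mon
    rw [br_pi_single, if_neg]
    rintro ⟨i, hi, h1⟩
    have h2 := hF i hi
    omega

/-- Conversely every class is realised. -/
theorem exists_of_cls (s : ℕ) (k : ℤ) (x : Mil p →+ PV p n) (hx : DCl p n s k x) :
    ∃ c : Map (KS p n 0 0).U (KS p n s k), ∀ R F, ∀ J : Mon n s,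
      mt E c J (Mon.zero n) (Mil.mon p R F) = (x (Mil.mon p R F)).coeff J.fs := by
  have h : ∀ J : Mon n s, ∃ θ : Map (KS p n 0 0).U (EM (ZMod p) (mdeg p J.1 + k)),
      ∀ I z, row E θ I z = (x z).coeff J.fs := by
    intro J
    obtain ⟨θ, hθ⟩ := row_surj (s := 0) (k := 0) (m := mdeg p J.1 + k) E
      (fun _ => (MvPolynomial.coeffAddMonoidHom J.fs).comp x) (by
        intro I R F hdeg
        change (x (Mil.mon p R F)).coeff J.fs = 0
        by_contra h1
        apply hdeg
        obtain ⟨h2, h3⟩ := hx.2 R F J.fs (MvPolynomial.mem_support_iff.2 h1)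
        have h4 : mdeg p (fun i => J.fs i) = mdeg p J.1 := rfl
        rw [h4] at h3
        rw [br_zero I, br_mdeg_zero, ← h3]
        ring)
    exact ⟨θ, hθ⟩
  choose θ hθ using h
  refine ⟨LSp.toPi (L := fun J : Mon n s => EML (ZMod p) (ZMod p) (mdeg p J.1 + k)) θ, ?_⟩
  intro R F J
  exact hθ J (Mon.zero n) (Mil.mon p R F)

/-! ### the differential -/

private theorem br_coeff_dC (x : Mil p →+ PV p n) (w : Mil p) (J : Fin (n + 1) →₀ ℕ) :
    (dC p n x w).coeff J = ∑ i : Fin (n + 1), if i ∈ J.support then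
      (x (Mil.Lop p i w)).coeff (J - Finsupp.single i 1) else 0 := by
  unfold dC
  rw [AddMonoidHom.finsetSum_apply, MvPolynomial.coeff_sum]
  refine Finset.sum_congr rfl fun i _ => ?_
  exact MvPolynomial.coeff_X_mul' J i (x (Mil.Lop p i w))

private theorem br_coeff_dC' (x : Mil p →+ PV p n) {s : ℕ} (w : Mil p) (J : Mon n (s + 1)) :
    (dC p n x w).coeff J.fs = ∑ i : Fin (n + 1), if h : 0 < J.1 i then
      (x (Mil.Lop p i w)).coeff (J.pred i h).fs else 0 := by
  rw [br_coeff_dC]
  refine Finset.sum_congr rfl fun i _ => ?_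
  by_cases h : 0 < J.1 i
  · rw [dif_pos h, if_pos (Finsupp.mem_support_iff.2 h.ne'), br_pred]
  · rw [dif_neg h, if_neg]
    intro h1
    exact h (Nat.pos_of_ne_zero (Finsupp.mem_support_iff.1 h1))

/-- The coefficients of a class are concentrated in degree `s`. -/
private theorem br_deg {s : ℕ} {k : ℤ} {x : Mil p →+ PV p n} (hx : DCl p n s k x) (z : Mil p)
    {J : Fin (n + 1) →₀ ℕ} (hJ : ∑ i, J i ≠ s) : (x z).coeff J = 0 := by
  have h : ∀ z, ((MvPolynomial.coeffAddMonoidHom J).comp x) z = (0 : Mil p →+ ZMod p) z := by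
    refine br_ext2 fun R F => ?_
    change (x (Mil.mon p R F)).coeff J = 0
    by_contra h1
    exact hJ (hx.2 R F J (MvPolynomial.mem_support_iff.2 h1)).1
  exact h z

private theorem br_dC_deg {s : ℕ} {k : ℤ} {x : Mil p →+ PV p n} (hx : DCl p n s k x) (z : Mil p)
    {J : Fin (n + 1) →₀ ℕ} (hJ : ∑ i, J i ≠ s + 1) : (dC p n x z).coeff J = 0 := by
  rw [br_coeff_dC]
  refine Finset.sum_eq_zero fun i _ => ?_
  split_ifs with h
  · refine br_deg hx _ fun h1 => hJ ?_
    have h2 : J = (J - Finsupp.single i 1) + Finsupp.single i 1 := by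
      refine (tsub_add_cancel_of_le ?_).symm
      rw [Finsupp.single_le_iff]
      exact Nat.pos_of_ne_zero (Finsupp.mem_support_iff.1 h)
    rw [h2]
    simp only [Finsupp.add_apply]
    rw [Finset.sum_add_distrib, h1]
    congr 1
    rw [Finset.sum_eq_single i]
    · rw [Finsupp.single_eq_same]
    · intro j _ hj
      exact Finsupp.single_eq_of_ne hj
    · intro h3
      exact absurd (Finset.mem_univ i) h3
  · rfl

/-- The class of `qm c` is the differential of the class of `c`. -/
private theorem br_qm {s : ℕ} {k : ℤ} {c : Map (KS p n 0 0).U (KS p n s k)}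
    {x : Mil p →+ PV p n} (h : ∀ R F, (∀ i ∈ F, n < i) → ∀ J : Mon n s,
      (x (Mil.mon p R F)).coeff J.fs = mt E c J (Mon.zero n) (Mil.mon p R F))
    (R : ℕ →₀ ℕ) (F : Finset ℕ) (hF : ∀ i ∈ F, n < i) (J : Mon n (s + 1)) :
    mt E (Map.comp (qm Q s k) c) J (Mon.zero n) (Mil.mon p R F) =
      (-1 : ZMod p) ^ (k - 0).natAbs * (dC p n x (Mil.mon p R F)).coeff J.fs := by
  rw [mt_qm_comp, br_coeff_dC']
  congr 1
  refine Finset.sum_congr rfl fun i _ => ?_
  split_ifs with hi
  · exact (br_Lop_ext (p := p) (n := n) (f := (MvPolynomial.coeffAddMonoidHom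
      (J.pred i hi).fs).comp x) (g := br_mtH E c (J.pred i hi) (Mon.zero n))
      (fun R' F' hF' => h R' F' hF' _) i hF (MvPolynomial.monomial R 1)).symm
  · rfl

include hv in
private theorem br_clsK {s : ℕ} {k : ℤ} (g : Map (KS p n 0 0).U (KS p n s k)) :
    (Map.comp g v).Null ↔ ∀ (J : Mon n s) (R : ℕ →₀ ℕ) (F : Finset ℕ), (∀ i ∈ F, n < i) →
      mt E g J (Mon.zero n) (Mil.mon p R F) = 0 := by
  refine (LSp.null_pi_iff (L := fun J : Mon n s => EML (ZMod p) (ZMod p) (mdeg p J.1 + k))
    (Map.comp g v)).trans ?_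
  exact forall_congr' fun J => cls_null_iff E hv _ (Map.comp (KS.pr J) g)

private theorem br_mt_sub {s t : ℕ} {k l : ℤ} (g g' : Map (KS p n s k).U (KS p n t l))
    (J : Mon n t) (I : Mon n s) (z : Mil p) :
    mt E (g + -g') J I z = mt E g J I z - mt E g' J I z := by
  have h1 : mt E (g + -g') J I z = row E (Map.comp (KS.pr J) g + -Map.comp (KS.pr J) g') I z := rfl
  rw [h1, row_add, br_row_neg, sub_eq_add_neg]
  rfl

include E hv in
/-- **The obstruction groups vanish.**  PROOF: `van_D`, `exists_cls`, `exists_of_cls`,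
`mt_qm_comp`, `cls_null_iff` componentwise. -/
theorem van_Y : Van Q Y := by
  intro t ht o ho
  obtain ⟨c, hc⟩ := (Stage.zero hv).exists_ext hv o
  have hc' : HC.mk (Map.comp c v) = HC.mk o := hc
  obtain ⟨x, hx, hxc⟩ := exists_cls E (t + 1) 1 c
  have hnull : (Map.comp (Map.comp (qm Q (t + 1) 1) c) v).Null := by
    rw [← Map.comp_assoc, ← HC.mk_eq_zero, ← HC.comp_mk, hc', HC.comp_mk, HC.mk_eq_zero]
    exact ho
  rw [br_clsK E hv] at hnull
  have hd : ∀ R F, (∀ i ∈ F, n < i) → dC p n x (Mil.mon p R F) = 0 := by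
    intro R F hF
    ext J
    rw [MvPolynomial.coeff_zero]
    by_cases hJ : ∑ i, J i = t + 1 + 1
    · have h1 := hnull ⟨fun i => J i, hJ⟩ R F hF
      rw [br_qm E hxc R F hF, mul_eq_zero] at h1
      rcases h1 with h1 | h1
      · exact absurd h1 (pow_ne_zero _ (neg_ne_zero.2 one_ne_zero))
      · have h2 : (Mon.fs ⟨fun i => J i, hJ⟩ : Fin (n + 1) →₀ ℕ) = J := by
          ext i
          rfl
        rw [h2] at h1
        exact h1
    · exact br_dC_deg hx _ hJ
  obtain ⟨y, hy, hyx⟩ := van_D t ht x hx hd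
  obtain ⟨c', hc''⟩ := exists_of_cls E t 0 y hy
  refine ⟨Map.comp c' v, ?_⟩
  have h3 : HC.mk (Map.comp (qm Q t 0) (Map.comp c' v)) = HC.mk (Map.comp c v) := by
    rw [HC.mk_eq]
    let d : Map (KS p n 0 0).U (KS p n (t + 1) 1) := Map.comp (qm Q t 0) c'
    have h4 : (Map.comp (d + -c) v).Null := by
      refine (br_clsK E hv _).2 fun J R F hF => ?_
      refine (br_mt_sub E d c J (Mon.zero n) (Mil.mon p R F)).trans ?_
      rw [sub_eq_zero]
      refine (br_qm E (fun R F _ J => (hc'' R F J).symm) R F hF J).trans ?_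
      rw [hyx R F hF]
      refine Eq.trans ?_ (hxc R F hF J)
      simp
    exact h4
  exact h3.trans hc'

/-! ### leading terms -/

private theorem br_Rop_tau (i j : ℕ) (g : MvPolynomial ℕ (ZMod p)) :
    Mil.Rop p i (Finsupp.single {j} g) = if i = j then -Finsupp.single ∅ g else 0 := by
  rw [br_Rop]
  by_cases h : i = j
  · subst h
    rw [if_pos (Finset.mem_singleton_self i), if_pos rfl, Finset.filter_singleton,
      if_neg (lt_irrefl i), Finset.card_empty, pow_zero, one_smul, Finset.erase_singleton]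
  · rw [if_neg h, if_neg]
    rw [Finset.mem_singleton]
    exact h

private theorem br_Lop_tau (i j : ℕ) (g : MvPolynomial ℕ (ZMod p)) :
    Mil.Lop p i (Finsupp.single {j} g) = -Finsupp.single ∅ (g * rco p j i) := by
  rw [br_Lop, Finset.filter_singleton]
  unfold rco
  by_cases h : i ≤ j
  · rw [if_pos h, if_pos h, Finset.sum_singleton, Finset.filter_singleton,
      if_neg (lt_irrefl j), Finset.card_empty, pow_zero, one_smul, Finset.erase_singleton,
      smul_eq_mul, mul_comm]
  · rw [if_neg h, if_neg h, Finset.sum_empty, mul_zero, Finsupp.single_zero]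

/-- **Leading terms.**  If `θ` is a family as in `exists_theta` and `x` the class of `c ≃ θ 0`, then for a
list `l` with counts `I`, the entry `(J, I)` of `θ t` paired with `g ∈ F_p[ξ]` is the `J` coefficient of
`evR x l g`.  PROOF: induction on the list with `w = g τ_j` in the relation:
`Rop i (g τ_j) = - δ_ij g`, `Lop i (g τ_j) = - ξ_{j-i}^{p^i} g`. -/
theorem theta_evR (s : ℕ) (x : Mil p →+ PV p n) (hx : DCl p n s 0 x)
    (θ : ∀ t, Map (KS p n t 0).U (KS p n (s + t) 0))
    (h0 : ∀ R F, ∀ J : Mon n s, mt E (θ 0) J (Mon.zero n) (Mil.mon p R F) =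
      (x (Mil.mon p R F)).coeff J.fs)
    (h : ∀ t (J : Mon n (s + t + 1)) (I : Mon n t) (w : Mil p),
        ∑ i, mt E (θ (t + 1)) J (I.succ i) (Mil.Rop p i w) =
          ∑ i, if h : 0 < J.1 i then mt E (θ t) (J.pred i h) I (Mil.Lop p i w) else 0)
    (t : ℕ) (I : Mon n t) (l : List (Fin (n + 1))) (hl : ∀ i, l.count i = I.1 i)
    (g : MvPolynomial ℕ (ZMod p)) (J : Mon n (s + t)) :
    mt E (θ t) J I (Finsupp.single ∅ g) = (evR p n x l g).coeff J.fs := by
  have _ := hx
  induction t generalizing l g with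
  | zero =>
    have hl0 : l = [] := by
      rw [List.eq_nil_iff_forall_not_mem]
      intro i hi
      have h1 := List.count_pos_iff.2 hi
      rw [hl, br_zero I] at h1
      exact absurd h1 (by simp [Mon.zero])
    subst hl0
    rw [br_zero I]
    exact br_ext (f := br_mtH E (θ 0) J (Mon.zero n))
      (g := (MvPolynomial.coeffAddMonoidHom J.fs).comp x) (fun R => h0 R ∅ J) g
  | succ t ih =>
    obtain ⟨j, l', rfl⟩ : ∃ j l', l = j :: l' := by
      cases l with
      | nil =>
        exfalso
        have h1 : ∑ i, I.1 i = 0 := Finset.sum_eq_zero fun i _ => by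
          rw [← hl i, List.count_nil]
        have h2 := I.2
        omega
      | cons j l' => exact ⟨j, l', rfl⟩
    have hj : 0 < I.1 j := by
      rw [← hl j, List.count_cons_self]
      exact Nat.succ_pos _
    have hl' : ∀ i, l'.count i = (I.pred j hj).1 i := by
      intro i
      have h1 := hl i
      change _ = Function.update I.1 j (I.1 j - 1) i
      by_cases hi : i = j
      · subst hi
        rw [List.count_cons_self] at h1
        rw [Function.update_self]
        omega
      · rw [List.count_cons_of_ne (Ne.symm hi)] at h1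
        rw [Function.update_of_ne hi, h1]
    have h1 := h t J (I.pred j hj) (Finsupp.single {(j : ℕ)} g)
    have h2 : ∑ i, mt E (θ (t + 1)) J ((I.pred j hj).succ i)
        (Mil.Rop p i (Finsupp.single {(j : ℕ)} g)) =
        -mt E (θ (t + 1)) J I (Finsupp.single ∅ g) := by
      rw [Finset.sum_eq_single j]
      · rw [br_Rop_tau, if_pos rfl, Mon.succ_pred]
        exact map_neg (br_mtH E (θ (t + 1)) J I) _
      · intro i _ hi
        rw [br_Rop_tau, if_neg fun h3 => hi (Fin.ext h3)]
        exact map_zero (br_mtH E (θ (t + 1)) J ((I.pred j hj).succ i))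
      · intro h3
        exact absurd (Finset.mem_univ j) h3
    rw [h2] at h1
    have h3 : ∑ i, (if h : 0 < J.1 i then mt E (θ t) (J.pred i h) (I.pred j hj)
        (Mil.Lop p i (Finsupp.single {(j : ℕ)} g)) else 0) =
        -(evR p n x (j :: l') g).coeff J.fs := by
      change _ = -(∑ i : Fin (n + 1), MvPolynomial.X i * evR p n x l' (g * rco p j i)).coeff J.fs
      rw [MvPolynomial.coeff_sum, ← Finset.sum_neg_distrib]
      refine Finset.sum_congr rfl fun i _ => ?_
      rw [MvPolynomial.coeff_X_mul']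
      by_cases hi : 0 < J.1 i
      · rw [dif_pos hi, if_pos (Finsupp.mem_support_iff.2 hi.ne')]
        rw [br_Lop_tau]
        refine (map_neg (br_mtH E (θ t) (J.pred i hi) (I.pred j hj)) _).trans ?_
        congr 1
        refine (ih (I.pred j hj) l' hl' (g * rco p j i) (J.pred i hi)).trans ?_
        have h4 : (J.pred i hi).fs = J.fs - Finsupp.single i 1 := br_pred J i hi
        rw [← h4]
      · rw [dif_neg hi, if_neg, neg_zero]
        intro h4
        exact hi (Nat.pos_of_ne_zero (Finsupp.mem_support_iff.1 h4))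
    rw [h3] at h1
    exact neg_inj.1 h1

private theorem br_evR_zero (x : Mil p →+ PV p n) (l : List (Fin (n + 1)))
    (g : MvPolynomial ℕ (ZMod p)) :
    evR p n x (0 :: l) g = MvPolynomial.X 0 * evR p n x l g := by
  change ∑ i : Fin (n + 1), MvPolynomial.X i * evR p n x l (g * rco p (0 : Fin (n + 1)) i) = _
  have hz : ∀ l : List (Fin (n + 1)), evR p n x l 0 = 0 := by
    intro l
    induction l with
    | nil =>
      change x (Finsupp.single ∅ 0) = 0
      rw [Finsupp.single_zero, map_zero]
    | cons j l ih =>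
      change ∑ i : Fin (n + 1), MvPolynomial.X i * evR p n x l (0 * rco p j i) = 0
      refine Finset.sum_eq_zero fun i _ => ?_
      rw [zero_mul, ih, mul_zero]
  rw [Finset.sum_eq_single 0]
  · have h1 : rco p (0 : Fin (n + 1)) (0 : Fin (n + 1)) = 1 := by
      simp [rco, Mil.xi]
    rw [h1, mul_one]
  · intro i _ hi
    have h1 : rco p (0 : Fin (n + 1)) i = 0 := by
      unfold rco
      rw [if_neg]
      intro h2
      exact hi (Fin.ext (Nat.le_zero.1 h2))
    rw [h1, mul_zero, hz, mul_zero]
  · intro h1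
    exact absurd (Finset.mem_univ _) h1

private theorem br_evR_replicate (x : Mil p →+ PV p n) (a : ℕ) (l : List (Fin (n + 1)))
    (g : MvPolynomial ℕ (ZMod p)) :
    evR p n x (List.replicate a 0 ++ l) g = MvPolynomial.X 0 ^ a * evR p n x l g := by
  induction a with
  | zero => rw [List.replicate_zero, List.nil_append, pow_zero, one_mul]
  | succ a ih =>
    rw [List.replicate_succ, List.cons_append, br_evR_zero, ih, pow_succ']
    ring

private theorem br_list (I : Fin (n + 1) → ℕ) : ∃ l : List (Fin (n + 1)), ∀ i, l.count i = I i := by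
  classical
  refine ⟨(Finsupp.toMultiset (Finsupp.equivFunOnFinite.symm I)).toList, fun i => ?_⟩
  rw [← Multiset.coe_count, Multiset.coe_toList, Finsupp.count_toMultiset]
  rfl

omit [Fact p.Prime] in
private theorem br_mdeg_update (I : Fin (n + 1) → ℕ) :
    mdeg p (Function.update I 0 0) = mdeg p I := by
  unfold mdeg
  refine Finset.sum_congr rfl fun i _ => ?_
  by_cases hi : i = 0
  · subst hi
    simp
  · rw [Function.update_of_ne hi]

include E in
/-- **Self maps of `Y` with prescribed leading terms.**  For `k` there is `s₀` such that for `s ≥ s₀` and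
every family `c` (`c I` a combination of monomials of degree `s + |I|` and stem `mdeg I`) there is a self
map `f` of `Y` of filtration `s` whose leading term on `v^I`, `mdeg I ≤ 2 k`, is `v_0^{I_0} c(I')`,
`I'` = `I` with `I_0` replaced by `0`. -/
theorem exists_realise (hY : YHyp p Y) (k : ℕ) : ∃ s₀ : ℕ, ∀ s, s₀ ≤ s →
    ∀ c : (Fin (n + 1) → ℕ) → PV p n,
    (∀ I, ∀ J ∈ (c I).support, ∑ i, J i = s + ∑ i, I i ∧ mdeg p (fun i => J i) = mdeg p I) →
    ∃ f : Map Y.U Y, ∀ (t : ℕ) (q : ℤ), q ≤ 2 * k → ∀ (x : Y.pi q) (l : (KS p n t 0).pi q),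
      (tower E hv t).y.pi q x = (tower E hv t).i.pi q l →
      ∃ l' : (KS p n (s + t) 0).pi q,
        (tower E hv (s + t)).y.pi q (f.pi q x) = (tower E hv (s + t)).i.pi q l' ∧
        ∀ J : Mon n (s + t), KS.val (s + t) 0 q l' J = ∑ I : Mon n t,
          (MvPolynomial.X 0 ^ (I.1 0) * c (Function.update I.1 0 0)).coeff J.fs *
            KS.val t 0 q l I := by
  obtain ⟨s₀, hs₀⟩ := pres_D (p := p) (n := n) k
  obtain ⟨a, ha, hval⟩ := KS.val_pi E
  refine ⟨s₀, fun s hs c hc => ?_⟩
  obtain ⟨x, hx, hdx, hev⟩ := hs₀ s hs (fun I => a⁻¹ • c I) (fun I J hJ =>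
    hc I J (MvPolynomial.support_smul hJ))
  obtain ⟨c₀, hc₀⟩ := exists_of_cls E s 0 x hx
  have hz : (Map.comp (qm Q s 0) (Map.comp c₀ v)).Null := by
    have h1 : (Map.comp (Map.comp (qm Q s 0) c₀) v).Null := by
      refine (br_clsK E hv _).2 fun J R F hF => ?_
      refine (br_qm E (fun R F _ J => (hc₀ R F J).symm) R F hF J).trans ?_
      rw [hdx R F hF, MvPolynomial.coeff_zero, mul_zero]
    exact h1
  obtain ⟨f, hf⟩ := exists_self_map E hv hY (van_Y E hv) s (Map.comp c₀ v) hz
  obtain ⟨θ, hθ0, hθ, hθpi⟩ := exists_theta E hv s f c₀ hf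
  refine ⟨f, fun t q hq y l hyl => ⟨(θ t).pi q l, hθpi t q y l hyl, fun J => ?_⟩⟩
  have h0 : ∀ R F, ∀ J : Mon n s, mt E (θ 0) J (Mon.zero n) (Mil.mon p R F) =
      (x (Mil.mon p R F)).coeff J.fs := by
    intro R F J
    rw [← hc₀]
    refine prO_congr E _ ?_
    have h1 : HC.mk (Map.comp (KS.pr J) (θ 0)) = HC.mk (Map.comp (KS.pr J) c₀) := by
      rw [← HC.comp_mk, ← HC.comp_mk]
      exact congrArg _ hθ0
    have h2 := (HC.mk_eq.1 h1).comp_left (KS.inj (Mon.zero n))
    exact HC.mk_eq.2 h2
  have hmt : ∀ I : Mon n t, mdeg p I.1 ≤ 2 * k → a * mt E (θ t) J I (Mil.mon p 0 ∅) =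
      (MvPolynomial.X 0 ^ (I.1 0) * c (Function.update I.1 0 0)).coeff J.fs := by
    intro I hI
    obtain ⟨l', hl'⟩ := br_list (Function.update I.1 0 0)
    have h1 : ∀ i, (List.replicate (I.1 0) 0 ++ l').count i = I.1 i := by
      intro i
      rw [List.count_append, List.count_replicate, hl']
      by_cases hi : i = 0
      · subst hi
        simp
      · rw [Function.update_of_ne hi, if_neg, zero_add]
        simpa using Ne.symm hi
    have h2 := theta_evR E s x hx θ h0 hθ t I _ h1 1 J
    have h3 : Mil.mon p 0 ∅ = Finsupp.single ∅ 1 := rfl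
    rw [h3, h2, br_evR_replicate, hev (Function.update I.1 0 0) l' (Function.update_self _ _ _)
      (by rw [br_mdeg_update]; exact hI) hl', mul_smul_comm, MvPolynomial.coeff_smul, smul_eq_mul,
      ← mul_assoc, mul_inv_cancel₀ ha, one_mul]
  by_cases hJ : mdeg p J.1 + 0 = q
  · rw [hval t (s + t) 0 q (θ t) l J hJ, Finset.mul_sum]
    refine Finset.sum_congr rfl fun I _ => ?_
    by_cases hI : mdeg p I.1 + 0 = q
    · rw [← mul_assoc, hmt I (by linarith)]
    · rw [KS.val_supp t 0 q l I hI, mul_zero, mul_zero, mul_zero]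
  · rw [KS.val_supp (s + t) 0 q _ J hJ]
    symm
    refine Finset.sum_eq_zero fun I _ => ?_
    by_cases hI : mdeg p I.1 + 0 = q
    · have h1 : (MvPolynomial.X 0 ^ (I.1 0) * c (Function.update I.1 0 0)).coeff J.fs = 0 := by
        by_contra h2
        apply hJ
        rw [MvPolynomial.X_pow_eq_monomial, MvPolynomial.coeff_monomial_mul'] at h2
        split_ifs at h2 with h3
        · rw [one_mul] at h2
          have h4 := (hc _ _ (MvPolynomial.mem_support_iff.2 h2)).2
          rw [br_mdeg_update] at h4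
          have h5 : mdeg p (fun i => (J.fs - Finsupp.single 0 (I.1 0) : Fin (n + 1) →₀ ℕ) i) =
              mdeg p J.1 := by
            unfold mdeg
            refine Finset.sum_congr rfl fun i _ => ?_
            by_cases hi : i = 0
            · subst hi
              simp
            · have h6 : (J.fs - Finsupp.single 0 (I.1 0) : Fin (n + 1) →₀ ℕ) i = J.1 i := by
                rw [Finsupp.tsub_apply, Finsupp.single_eq_of_ne hi, Nat.sub_zero]
                rfl
              exact congrArg (fun a : ℕ => (a : ℤ) * (2 * ((p : ℤ) ^ (i : ℕ) - 1))) h6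
          rw [← h5, h4]
          exact hI
        · exact (h2 rfl).elim
      rw [h1, zero_mul]
    · rw [KS.val_supp t 0 q l I hI, mul_zero]

end BPN
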