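import Pool.Agent.BPN.T.Def

/-!
# Interface of part (D) (project BPN, module T/DOut)

`P = F_p[v_0, .., v_n] = MvPolynomial (Fin (n + 1)) (ZMod p)`.
`DCl p n s c x` : `x : Mil p → P` is a class of filtration `s` and shift `c`: it vanishes on
`ξ^R τ^E` if `E` meets `{0, .., n}` and `x (ξ^R τ^E)` is a combination of monomials `v^J` with
`|J| = s` and `mdeg J + c = deg (ξ^R τ^E)`.
`dC x w = ∑ v_i x (L_i w)`.
-/

namespace BPN

/-- The coefficient ring `F_p[v_0, .., v_n]`. -/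
abbrev PV (p n : ℕ) : Type := MvPolynomial (Fin (n + 1)) (ZMod p)

/-- Classes of filtration `s` and shift `c`. -/
def DCl (p n s : ℕ) (c : ℤ) (x : Mil p →+ PV p n) : Prop :=
  (∀ R E, (∃ i ∈ E, i ≤ n) → x (Mil.mon p R E) = 0) ∧
  ∀ R E, ∀ J ∈ (x (Mil.mon p R E)).support,
    ∑ i, J i = s ∧ mdeg p (fun i => J i) + c = Mil.deg p R E

/-- The differential. -/
noncomputable def dC (p n : ℕ) (x : Mil p →+ PV p n) : Mil p →+ PV p n :=
  ∑ i : Fin (n + 1), (AddMonoidHom.mulLeft (MvPolynomial.X i)).comp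
    (x.comp (Mil.Lop p i).toAddMonoidHom)

/-- The polynomial `r_j = ∑_{i ≤ j} v_i ξ_{j-i}^{p^i}` of `P[ξ]` as a formal sum: the `i`-th coefficient
`ξ_{j-i}^{p^i}` for `i ≤ j`. -/
noncomputable def rco (p : ℕ) (j i : ℕ) : MvPolynomial ℕ (ZMod p) :=
  if i ≤ j then Mil.xi p (j - i) ^ p ^ i else 0

/-- The value of (the `P`-linear extension of) `x` on `g · r_{j_1} ⋯ r_{j_m}`. -/
noncomputable def evR (p n : ℕ) (x : Mil p →+ PV p n) :
    List (Fin (n + 1)) → MvPolynomial ℕ (ZMod p) → PV p n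
  | [], g => x (Finsupp.single ∅ g)
  | j :: l, g => ∑ i : Fin (n + 1), MvPolynomial.X i * evR p n x l (g * rco p j i)

end BPN
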