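import Pool.Agent.BPN.T.MatA

/-!
# Matrices of operations and their pairing with the Milnor coalgebra (project BPN, module T/Mat)

`prO E z a` : pairing of `z : Mil p` with a map `a : EM i → EM j` (any `i`, `j`; `0` if `j < i`).
`mt E θ J I z` : pairing of `z` with the `(J, I)` entry of `θ : KS s k → KS t l`.
`row E θ I z` : pairing of `z` with the `I` entry of `θ : KS s k → EM m`.
-/

namespace BPN

open GSp

variable {p n : ℕ} [Fact p.Prime] {Q : ∀ i : Fin (n + 1), Op p (2 * p ^ (i : ℕ) - 1)}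

/-- The homogeneous part of degree `k` (an integer) of an element of `Mil`. -/
def Mil.HomogZ (p : ℕ) (k : ℤ) (z : Mil p) : Prop :=
  ∀ E R, (z E).coeff R ≠ 0 → (Mil.deg p R E : ℤ) = k

/-- Pairing with a map between Eilenberg-MacLane spectra. -/
noncomputable def prO (E : EOut p n Q) {i j : ℤ} (z : Mil p)
    (a : Map (EM (ZMod p) i).U (EM (ZMod p) j)) : ZMod p :=
  if h : 0 ≤ j - i then
    E.P (j - i).toNat z (Map.sh (n' := 0) (m' := ((j - i).toNat : ℤ)) a (by omega)) else 0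

section prO

variable (E : EOut p n Q) {i j l : ℤ}

theorem prO_eq (z : Mil p) (a : Map (EM (ZMod p) i).U (EM (ZMod p) j)) (k : ℕ)
    (hk : (0 : ℤ) - i = (k : ℤ) - j) : prO E z a = E.P k z (Map.sh a hk) := by
  have h : 0 ≤ j - i := by omega
  obtain ⟨k', hk'⟩ : ∃ k', k' = (j - i).toNat := ⟨_, rfl⟩
  obtain rfl : k = k' := by omega
  subst hk'
  unfold prO
  rw [dif_pos h]

theorem prO_neg (z : Mil p) (a : Map (EM (ZMod p) i).U (EM (ZMod p) j)) (h : j < i) :
    prO E z a = 0 := dif_neg (by omega)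

theorem prO_add_left (z z' : Mil p) (a : Map (EM (ZMod p) i).U (EM (ZMod p) j)) :
    prO E (z + z') a = prO E z a + prO E z' a := by
  unfold prO
  split_ifs
  · rw [map_add]
    rfl
  · rw [add_zero]

theorem prO_add_right (z : Mil p) (a b : Map (EM (ZMod p) i).U (EM (ZMod p) j)) :
    prO E z (a + b) = prO E z a + prO E z b := by
  unfold prO
  split_ifs
  · rw [Map.sh_add, map_add]
  · rw [add_zero]

/-- the pairing as an additive map in the first variable -/
noncomputable def prOL (E : EOut p n Q) (a : Map (EM (ZMod p) i).U (EM (ZMod p) j)) :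
    Mil p →+ ZMod p where
  toFun := fun z => prO E z a
  map_zero' := by
    have h := prO_add_left E 0 0 a
    rw [add_zero] at h
    exact left_eq_add.1 h
  map_add' := fun z z' => prO_add_left E z z' a

theorem prOL_apply (a : Map (EM (ZMod p) i).U (EM (ZMod p) j)) (z : Mil p) :
    prOL E a z = prO E z a := rfl

theorem prO_smul_left (c : ZMod p) (z : Mil p) (a : Map (EM (ZMod p) i).U (EM (ZMod p) j)) :
    prO E (c • z) a = c * prO E z a := by
  have h := ZMod.map_smul (prOL E a) c z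
  rw [smul_eq_mul] at h
  exact h

theorem prO_null (z : Mil p) {a : Map (EM (ZMod p) i).U (EM (ZMod p) j)} (ha : a.Null) :
    prO E z a = 0 := by
  unfold prO
  split_ifs
  · exact E.null _ _ _ (ha.sh _)
  · rfl

theorem prO_zero_right (z : Mil p) :
    prO E z (0 : Map (EM (ZMod p) i).U (EM (ZMod p) j)) = 0 := prO_null E z Map.null_zero

theorem prO_neg_right (z : Mil p) (a : Map (EM (ZMod p) i).U (EM (ZMod p) j)) :
    prO E z (-a) = -prO E z a := by
  have h := prO_add_right E z a (-a)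
  rw [add_neg_cancel, prO_zero_right] at h
  exact (neg_eq_of_add_eq_zero_right h.symm).symm

omit Q in
/-- Maps between Eilenberg-MacLane spectra of negative degree are nullhomotopic. -/
theorem null_of_neg (h : j < i) (a : Map (EM (ZMod p) i).U (EM (ZMod p) j)) : a.Null := by
  have h0 : a = 0 := by
    refine EM.map_ext fun x => ?_
    have hx : x = (0 : (EM (ZMod p) i).G j) := EMG.eq_zero_of_lt h x
    have h1 : a.f j x = 0 := by
      rw [hx]
      exact a.map_pt j
    rw [h1]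
    rfl
  rw [h0]
  exact Map.null_zero

/-- The pairing detects nullhomotopic maps. -/
theorem null_of_prO {a : Map (EM (ZMod p) i).U (EM (ZMod p) j)} (h : ∀ z, prO E z a = 0) :
    a.Null := by
  rcases lt_or_ge j i with h1 | h1
  · exact null_of_neg h1 a
  · have hk : (0 : ℤ) - i = ((j - i).toNat : ℤ) - j := by omega
    have h2 : (Map.sh a hk).Null := E.nondeg _ _ fun z => by
      rw [← prO_eq]
      exact h z
    have h3 := h2.sh (n' := i) (m' := j) (by omega)
    rwa [Map.sh_sh (h₃ := by omega), Map.sh_self] at h3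

theorem prO_congr (z : Mil p) {a b : Map (EM (ZMod p) i).U (EM (ZMod p) j)}
    (h : HC.mk a = HC.mk b) : prO E z a = prO E z b := by
  rw [HC.mk_eq] at h
  have h1 := prO_null E z h
  rw [prO_add_right, prO_neg_right] at h1
  exact add_neg_eq_zero.1 h1

/-- Invariance under shift. -/
theorem prO_sh (z : Mil p) {i' j' : ℤ} (a : Map (EM (ZMod p) i).U (EM (ZMod p) j))
    (h : i' - i = j' - j) : prO E z (Map.sh a h) = prO E z a := by
  rcases lt_or_ge j i with h1 | h1
  · rw [prO_neg E z a h1, prO_neg E z _ (by omega)]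
  · have hk : (0 : ℤ) - i = ((j - i).toNat : ℤ) - j := by omega
    rw [prO_eq E z a _ hk, prO_eq E z _ (j - i).toNat (by omega), Map.sh_sh]

theorem prO_homog (R : ℕ →₀ ℕ) (F : Finset ℕ) (h : (Mil.deg p R F : ℤ) ≠ j - i)
    (a : Map (EM (ZMod p) i).U (EM (ZMod p) j)) : prO E (Mil.mon p R F) a = 0 := by
  unfold prO
  split_ifs with h1
  · rw [E.homog _ R F (by omega)]
    rfl
  · rfl

/-- Right multiplication by `Q_l`. -/
theorem prO_comp_Q (m : Fin (n + 1)) (z : Mil p) {i' : ℤ}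
    (h : i' - 0 = i - ((2 * p ^ (m : ℕ) - 1 : ℕ) : ℤ))
    (a : Map (EM (ZMod p) i).U (EM (ZMod p) j)) :
    prO E z (Map.comp a (Map.sh (Q m) h)) = prO E (Mil.Rop p m z) a := by
  rcases lt_or_ge j i with h1 | h1
  · rw [prO_neg E _ a h1]
    exact prO_null E z ((null_of_neg h1 a).comp_left _)
  · obtain ⟨k, hk⟩ : ∃ k : ℕ, (k : ℤ) = j - i := ⟨(j - i).toNat, by omega⟩
    obtain ⟨t, ht⟩ : ∃ t : ℕ, k + (2 * p ^ (m : ℕ) - 1) = t := ⟨_, rfl⟩
    have ht' : (k : ℤ) + ((2 * p ^ (m : ℕ) - 1 : ℕ) : ℤ) = t := by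
      rw [← ht]
      push_cast
      ring
    rw [prO_eq E _ a k (by omega), prO_eq E _ _ t (by omega), ← E.rform m k t ht z]
    congr 1
    unfold Op.mul
    rw [Map.sh_sh (h₃ := by omega), ← Map.sh_comp (m' := ((2 * p ^ (m : ℕ) - 1 : ℕ) : ℤ))
      (h₁ := by omega) (h₂ := by omega), Map.sh_sh (h₃ := by omega), Map.sh_self]

/-- Left multiplication by `Q_l`. -/
theorem prO_Q_comp (m : Fin (n + 1)) (z : Mil p) {j' : ℤ}
    (h : j - 0 = j' - ((2 * p ^ (m : ℕ) - 1 : ℕ) : ℤ))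
    (a : Map (EM (ZMod p) i).U (EM (ZMod p) j)) :
    prO E z (Map.comp (Map.sh (Q m) h) a) =
      (-1 : ZMod p) ^ (j - i).natAbs * prO E (Mil.Lop p m z) a := by
  rcases lt_or_ge j i with h1 | h1
  · rw [prO_neg E _ a h1, mul_zero]
    exact prO_null E z ((null_of_neg h1 a).comp _)
  · obtain ⟨k, hk⟩ : ∃ k : ℕ, (k : ℤ) = j - i := ⟨(j - i).toNat, by omega⟩
    obtain ⟨t, ht⟩ : ∃ t : ℕ, (2 * p ^ (m : ℕ) - 1) + k = t := ⟨_, rfl⟩
    have ht' : (k : ℤ) + ((2 * p ^ (m : ℕ) - 1 : ℕ) : ℤ) = t := by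
      rw [← ht]
      push_cast
      ring
    have hn : (j - i).natAbs = k := by omega
    have hl := E.lform m k t ht z (Map.sh a (by omega))
    rw [hn, prO_eq E _ a k (by omega), prO_eq E _ _ t (by omega)]
    have hs : (-1 : ℤ) ^ k • E.P k (Mil.Lop p m z) (Map.sh a (by omega)) =
        (-1 : ZMod p) ^ k * E.P k (Mil.Lop p m z) (Map.sh a (by omega)) := by
      rw [zsmul_eq_mul]
      push_cast
      rfl
    rw [← hs, ← hl]
    congr 1
    unfold Op.mul
    rw [← Map.sh_comp (m' := (k : ℤ)) (h₁ := by omega) (h₂ := by omega), Map.sh_sh (h₃ := by omega)]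

theorem Mil.mon_coeff (R R' : ℕ →₀ ℕ) (F F' : Finset ℕ) :
    MvPolynomial.coeff R (Mil.mon p R' F' F) = if R' = R ∧ F' = F then 1 else 0 := by
  classical
  unfold Mil.mon
  rw [Finsupp.single_apply]
  by_cases h1 : F' = F
  · rw [if_pos h1, MvPolynomial.coeff_monomial]
    by_cases h2 : R' = R
    · rw [if_pos h2, if_pos ⟨h2, h1⟩]
    · rw [if_neg h2, if_neg (fun h => h2 h.1)]
  · rw [if_neg h1, if_neg (fun h => h1 h.2), MvPolynomial.coeff_zero]

/-- The coefficient of a monomial. -/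
noncomputable def Mil.co (p : ℕ) (R : ℕ →₀ ℕ) (F : Finset ℕ) : Mil p →+ ZMod p where
  toFun := fun z => MvPolynomial.coeff R (z F)
  map_zero' := by simp
  map_add' := fun z z' => by simp

theorem Mil.co_mon (R R' : ℕ →₀ ℕ) (F F' : Finset ℕ) :
    Mil.co p R F (Mil.mon p R' F') = if R' = R ∧ F' = F then 1 else 0 := Mil.mon_coeff R R' F F'

/-- Every functional concentrated in the right degree is realised.  PROOF: the homogeneous part of
degree `k` of `Mil p` is finite dimensional (finitely many monomials) and embeds in the dual of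
`Op p k / null`, onto; so `Op p k / null` is finite dimensional and maps onto the dual of
`Mil_k`. -/
theorem prO_surj (hij : i ≤ j) (φ : Mil p →+ ZMod p)
    (hφ : ∀ R F, (Mil.deg p R F : ℤ) ≠ j - i → φ (Mil.mon p R F) = 0) :
    ∃ a : Map (EM (ZMod p) i).U (EM (ZMod p) j), ∀ z, prO E z a = φ z := by
  classical
  obtain ⟨k, hk⟩ : ∃ k : ℕ, (k : ℤ) = j - i := ⟨(j - i).toNat, by omega⟩
  have hfin : Finite {x : (ℕ →₀ ℕ) × Finset ℕ // Mil.deg p x.1 x.2 = k} :=
    (Mil.deg_finite (p := p) k).to_subtype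
  have hft : Fintype {x : (ℕ →₀ ℕ) × Finset ℕ // Mil.deg p x.1 x.2 = k} := Fintype.ofFinite _
  obtain ⟨W, hW⟩ : ∃ W : Submodule (ZMod p)
      ({x : (ℕ →₀ ℕ) × Finset ℕ // Mil.deg p x.1 x.2 = k} → ZMod p), ∀ v, v ∈ W ↔
      ∃ a : Op p k, ∀ x, E.P k (Mil.mon p x.1.1 x.1.2) a = v x :=
    ⟨{  carrier := {v | ∃ a : Op p k, ∀ x, E.P k (Mil.mon p x.1.1 x.1.2) a = v x}
        zero_mem' := ⟨0, fun x => map_zero _⟩
        add_mem' := fun {v w} ⟨a, ha⟩ ⟨b, hb⟩ => ⟨a + b, fun x => by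
          rw [map_add, ha, hb]
          rfl⟩
        smul_mem' := fun c v ⟨a, ha⟩ => ⟨c.val • a, fun x => by
          rw [map_nsmul, ha, nsmul_eq_mul, ZMod.natCast_zmod_val]
          rfl⟩ }, fun v => Iff.rfl⟩
  have hWt : W = ⊤ := by
    by_contra hne
    obtain ⟨f, hf, hfW⟩ := Submodule.exists_le_ker_of_lt_top W (lt_top_iff_ne_top.2 hne)
    have hfs : ∀ v, f v = ∑ x, v x * f (Pi.single x 1) := by
      intro v
      conv_lhs => rw [pi_eq_sum_univ' v]
      rw [map_sum]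
      refine Finset.sum_congr rfl fun x _ => ?_
      rw [map_smul, smul_eq_mul]
    obtain ⟨z, hz⟩ : ∃ z : Mil p, z = ∑ x : {x : (ℕ →₀ ℕ) × Finset ℕ // Mil.deg p x.1 x.2 = k},
      f (Pi.single x 1) • Mil.mon p x.1.1 x.1.2 := ⟨_, rfl⟩
    have hco : ∀ R F, Mil.co p R F z =
        ∑ x : {x : (ℕ →₀ ℕ) × Finset ℕ // Mil.deg p x.1 x.2 = k},
          f (Pi.single x 1) * (if x.1.1 = R ∧ x.1.2 = F then 1 else 0) := by
      intro R F
      rw [hz, map_sum]
      refine Finset.sum_congr rfl fun x _ => ?_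
      rw [ZMod.map_smul, smul_eq_mul, Mil.co_mon]
    have hhom : Mil.Homog p k z := by
      intro F R hne
      change Mil.co p R F z ≠ 0 at hne
      rw [hco] at hne
      obtain ⟨x, -, hx⟩ := Finset.exists_ne_zero_of_sum_ne_zero hne
      by_cases h1 : x.1.1 = R ∧ x.1.2 = F
      · rw [← h1.1, ← h1.2]
        exact x.2
      · rw [if_neg h1, mul_zero] at hx
        exact absurd rfl hx
    have hP0 : E.P k z = 0 := by
      refine DFunLike.ext _ _ fun a => ?_
      have h1 : E.P k z a = f (fun x => E.P k (Mil.mon p x.1.1 x.1.2) a) := by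
        rw [hfs, hz, map_sum, AddMonoidHom.finsetSum_apply]
        refine Finset.sum_congr rfl fun x _ => ?_
        have h2 := ZMod.map_smul ((AddMonoidHom.eval a).comp (E.P k)) (f (Pi.single x 1))
          (Mil.mon p x.1.1 x.1.2)
        rw [smul_eq_mul, mul_comm] at h2
        exact h2
      rw [h1]
      exact hfW ((hW _).2 ⟨a, fun x => rfl⟩)
    have hz0 := E.inj k z hhom hP0
    apply hf
    refine LinearMap.ext fun v => ?_
    rw [hfs]
    refine Finset.sum_eq_zero fun x _ => ?_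
    have h3 := hco x.1.1 x.1.2
    rw [hz0, map_zero, Finset.sum_eq_single x] at h3
    · rw [if_pos ⟨rfl, rfl⟩, mul_one] at h3
      rw [← h3, mul_zero]
    · intro y _ hy
      rw [if_neg, mul_zero]
      intro h4
      exact hy (Subtype.ext (Prod.ext h4.1 h4.2))
    · intro h4
      exact absurd (Finset.mem_univ x) h4
  have hv : (fun x : {x : (ℕ →₀ ℕ) × Finset ℕ // Mil.deg p x.1 x.2 = k} =>
      φ (Mil.mon p x.1.1 x.1.2)) ∈ W := by
    rw [hWt]
    trivial
  obtain ⟨a, ha⟩ := (hW _).1 hv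
  refine ⟨Map.sh a (by omega), fun z => ?_⟩
  have hh : prOL E (Map.sh (n' := i) (m' := j) a (by omega)) = φ := by
    refine Mil.hom_ext fun R F => ?_
    rw [prOL_apply]
    by_cases h1 : Mil.deg p R F = k
    · rw [prO_eq E _ _ k (by omega), Map.sh_sh (h₃ := by omega), Map.sh_self]
      exact ha ⟨(R, F), h1⟩
    · rw [prO_homog E R F (by omega), hφ R F (by omega)]
  exact DFunLike.congr_fun hh z

/-- `A^0` is one dimensional: the effect on `π_i` of a map of degree `0` is, up to a nonzero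
constant, the pairing with `1`. -/
theorem prO_one : ∃ c : ZMod p, c ≠ 0 ∧ ∀ (i : ℤ) (a : Map (EM (ZMod p) i).U (EM (ZMod p) i))
    (x : (EM (ZMod p) i).pi i), EM.piHom (ZMod p) i (a.pi i x) =
      c * prO E (Mil.mon p 0 ∅) a * EM.piHom (ZMod p) i x := by
  -- the functional
  have hval : ∀ (i : ℤ) (a : Map (EM (ZMod p) i).U (EM (ZMod p) i))
      (x : (EM (ZMod p) i).pi i), EM.piHom (ZMod p) i (a.pi i x) =
        (a.f i (EM.bot (ZMod p) i 1)).1 id * EM.piHom (ZMod p) i x := by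
    intro i a x
    have hb : Function.Bijective (EM.piHom (ZMod p) i) := EM.piHom_bijective i
    let e : (EM (ZMod p) i).pi i ≃+ ZMod p := AddEquiv.ofBijective (EM.piHom (ZMod p) i) hb
    let g : ZMod p →+ ZMod p := (EM.piHom (ZMod p) i).comp ((a.pi i).comp e.symm.toAddMonoidHom)
    have h1 : ∀ m, g m = m * g 1 := by
      intro m
      have h2 := ZMod.map_smul g m 1
      rw [smul_eq_mul, mul_one, smul_eq_mul] at h2
      exact h2
    have h2 : g (e x) = EM.piHom (ZMod p) i (a.pi i x) := by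
      change EM.piHom (ZMod p) i (a.pi i (e.symm (e x))) = _
      rw [e.symm_apply_apply]
    have h3 : e.symm 1 = (EM (ZMod p) i).piMk i ⟨EM.bot (ZMod p) i 1,
        fun j r h => EMG.eq_zero_of_lt (by omega) _⟩ := by
      rw [AddEquiv.symm_apply_eq]
      exact (EM.bot_id i (1 : ZMod p)).symm
    have h4 : g 1 = (a.f i (EM.bot (ZMod p) i 1)).1 id := by
      change EM.piHom (ZMod p) i (a.pi i (e.symm 1)) = _
      rw [h3]
      rfl
    rw [← h2, h1, h4, mul_comm]
    rfl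
  let lam : Op p 0 →+ ZMod p :=
    { toFun := fun a => (a.f 0 (EM.bot (ZMod p) 0 1)).1 id
      map_zero' := rfl
      map_add' := fun _ _ => rfl }
  have hlam : ∀ a : Op p 0, a.Null → lam a = 0 := by
    intro a ha
    have h1 : (a.f 0 (EM.bot (ZMod p) 0 1)).1 id = 0 := by
      have h2 := hval 0 a ((EM (ZMod p) 0).piMk 0 ⟨EM.bot (ZMod p) 0 1,
        fun j r h => EMG.eq_zero_of_lt (by omega) _⟩)
      have h3 : a.pi 0 = 0 := ha.pi 0
      rw [h3] at h2
      have h4 : EM.piHom (ZMod p) 0 ((EM (ZMod p) 0).piMk 0 ⟨EM.bot (ZMod p) 0 1,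
        fun j r h => EMG.eq_zero_of_lt (by omega) _⟩) = 1 := EM.bot_id 0 (1 : ZMod p)
      rw [h4, mul_one] at h2
      rw [← h2]
      exact map_zero _
    exact h1
  obtain ⟨z, hz⟩ := E.surj 0 lam hlam
  have hz' : ∀ a : Op p 0, lam a = Mil.co p 0 ∅ z * E.P 0 (Mil.mon p 0 ∅) a := by
    intro a
    rw [← hz]
    have h1 : (AddMonoidHom.eval a).comp (E.P 0) =
        (AddMonoidHom.mulRight (E.P 0 (Mil.mon p 0 ∅) a)).comp (Mil.co p 0 ∅) := by
      refine Mil.hom_ext fun R F => ?_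
      change E.P 0 (Mil.mon p R F) a = Mil.co p 0 ∅ (Mil.mon p R F) * E.P 0 (Mil.mon p 0 ∅) a
      rw [Mil.co_mon]
      by_cases h2 : R = 0 ∧ F = ∅
      · rw [if_pos h2, one_mul, h2.1, h2.2]
      · rw [if_neg h2, zero_mul, E.homog 0 R F (fun h3 => h2 (Mil.deg_zero h3))]
        rfl
    exact DFunLike.congr_fun h1 z
  refine ⟨Mil.co p 0 ∅ z, ?_, ?_⟩
  · intro h0
    have h1 := hz' (Map.id (EM (ZMod p) 0))
    rw [h0, zero_mul] at h1
    have h2 : lam (Map.id (EM (ZMod p) 0)) = 1 := EM.bot_id 0 (1 : ZMod p)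
    rw [h2] at h1
    exact one_ne_zero h1
  · intro i a x
    rw [hval i a x, prO_eq E _ a 0 (by push_cast; ring), ← hz']
    congr 1
    exact congrFun (a.em_cast (q := i) (q' := 0 - (0 - i)) (by ring)
      (EM.bot (ZMod p) i 1).1 (EM.bot (ZMod p) i 1).2
      (EMG.cast_mem (by ring) (EM.bot (ZMod p) i 1).2)) id

end prO


/-! ### Sums of maps -/

section sums

variable {k : Type} [Field k] {ι : Type}

theorem Map.sum_f {X : PSp} {L : LSp k} (s : Finset ι) (g : ι → Map X L.toG) (q : ℤ) (x : X.X q) :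
    (∑ i ∈ s, g i).f q x = (∑ i ∈ s, ((g i).f q x : L.V q) : L.V q) := by
  let ev : Map X L.toG →+ L.V q :=
    { toFun := fun a => a.f q x
      map_zero' := rfl
      map_add' := fun _ _ => rfl }
  exact map_sum ev g s

theorem Map.sum_comp {X : PSp} {G : GSp} {L : LSp k} (s : Finset ι) (g : ι → Map G.U L.toG)
    (b : Map X G) : Map.comp (∑ i ∈ s, g i) b = ∑ i ∈ s, Map.comp (g i) b := by
  refine Map.ext2 fun q x => ?_
  rw [Map.sum_f]
  exact Map.sum_f s g q (b.f q x)

end sums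

/-- The pairing on homotopy classes. -/
noncomputable def prOH (E : EOut p n Q) {i j : ℤ} (z : Mil p) :
    HC (EM (ZMod p) i).U (EM (ZMod p) j) →+ ZMod p :=
  QuotientAddGroup.lift (Map.NSub _ _)
    { toFun := fun a => prO E z a
      map_zero' := prO_zero_right E z
      map_add' := fun a b => prO_add_right E z a b }
    (fun _ ha => prO_null E z ha)

theorem prOH_mk (E : EOut p n Q) {i j : ℤ} (z : Mil p)
    (a : Map (EM (ZMod p) i).U (EM (ZMod p) j)) : prOH E z (HC.mk a) = prO E z a := rfl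

theorem prO_sum (E : EOut p n Q) {i j : ℤ} {ι : Type} (s : Finset ι) (z : Mil p)
    (g : ι → Map (EM (ZMod p) i).U (EML (ZMod p) (ZMod p) j).toG) :
    prO E z (∑ x ∈ s, g x : Map (EM (ZMod p) i).U (EML (ZMod p) (ZMod p) j).toG) =
      ∑ x ∈ s, prO E z (g x : Map (EM (ZMod p) i).U (EM (ZMod p) j)) := by
  let ev : Map (EM (ZMod p) i).U (EML (ZMod p) (ZMod p) j).toG →+ ZMod p :=
    { toFun := fun a => prO E z a
      map_zero' := prO_zero_right E z
      map_add' := fun a b => prO_add_right E z a b }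
  exact map_sum ev g s

theorem KS.pr_inj {s : ℕ} {k : ℤ} (I : Mon n s) :
    Map.comp (KS.pr (p := p) (k := k) I) (KS.inj I) = Map.id _ := by
  refine Map.ext2 fun q x => ?_
  exact Pi.single_eq_same (M := fun i => (EML (ZMod p) (ZMod p) (mdeg p (i : Mon n s).1 + k)).V q)
    I x

theorem KS.pr_inj_ne {s : ℕ} {k : ℤ} {I J : Mon n s} (h : J ≠ I) :
    Map.comp (KS.pr (p := p) (k := k) J) (KS.inj I) = 0 := by
  refine Map.ext2 fun q x => ?_
  exact Pi.single_eq_of_ne (M := fun i => (EML (ZMod p) (ZMod p) (mdeg p (i : Mon n s).1 + k)).V q)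
    h x

/-- The pairing with an entry of a matrix. -/
noncomputable def mt (E : EOut p n Q) {s t : ℕ} {k l : ℤ}
    (θ : Map (KS p n s k).U (KS p n t l)) (J : Mon n t) (I : Mon n s) (z : Mil p) : ZMod p :=
  prO E z (Map.comp (KS.pr J) (Map.comp θ (KS.inj I)))

/-- The pairing with an entry of a row. -/
noncomputable def row (E : EOut p n Q) {s : ℕ} {k m : ℤ}
    (θ : Map (KS p n s k).U (EM (ZMod p) m)) (I : Mon n s) (z : Mil p) : ZMod p :=
  prO E z (Map.comp θ (KS.inj I))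

section mt

variable (E : EOut p n Q) {s t : ℕ} {k l m : ℤ}

theorem KS.src {H : GSp} (θ : Map (KS p n s k).U H) :
    HC.mk θ = ∑ I, HC.mk (Map.comp (Map.comp θ (KS.inj I)) (KS.pr I)) :=
  LSp.pi_source θ

theorem row_null_iff (θ : Map (KS p n s k).U (EM (ZMod p) m)) :
    θ.Null ↔ ∀ I z, row E θ I z = 0 := by
  constructor
  · intro h I z
    exact prO_null E z (h.comp_left _)
  · intro h
    rw [← HC.mk_eq_zero, KS.src]
    exact Finset.sum_eq_zero fun I _ => HC.mk_eq_zero.2 ((null_of_prO E (h I)).comp_left _)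

theorem mt_null_iff (θ : Map (KS p n s k).U (KS p n t l)) :
    θ.Null ↔ ∀ J I z, mt E θ J I z = 0 := by
  have h1 : θ.Null ↔ ∀ J, (Map.comp (KS.pr J) θ).Null := LSp.null_pi_iff θ
  rw [h1]
  refine forall_congr' fun J => ?_
  exact row_null_iff E (Map.comp (KS.pr J) θ)

/-- Rows with prescribed functionals exist. -/
theorem row_surj (φ : ∀ _ : Mon n s, Mil p →+ ZMod p)
    (hφ : ∀ I R F, (Mil.deg p R F : ℤ) ≠ m - (mdeg p I.1 + k) → φ I (Mil.mon p R F) = 0) :
    ∃ θ : Map (KS p n s k).U (EM (ZMod p) m), ∀ I z, row E θ I z = φ I z := by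
  have hex : ∀ I : Mon n s, ∃ a : Map (EM (ZMod p) (mdeg p I.1 + k)).U (EM (ZMod p) m),
      ∀ z, prO E z a = φ I z := by
    intro I
    rcases le_or_gt (mdeg p I.1 + k) m with h | h
    · exact prO_surj E h (φ I) (hφ I)
    · refine ⟨0, fun z => ?_⟩
      rw [prO_zero_right]
      have h1 : φ I = 0 := Mil.hom_ext fun R F => hφ I R F (by omega)
      rw [h1]
      rfl
  choose a ha using hex
  obtain ⟨θ, hθ⟩ : ∃ θ : Map (KS p n s k).U (EML (ZMod p) (ZMod p) m).toG,
      θ = ∑ I, (Map.comp (a I) (KS.pr I) : Map (KS p n s k).U (EML (ZMod p) (ZMod p) m).toG) :=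
    ⟨_, rfl⟩
  refine ⟨θ, fun I z => ?_⟩
  rw [← ha]
  unfold row
  congr 1
  refine Map.ext2 fun q x => ?_
  change θ.f q ((KS.inj I).f q x) = (a I).f q x
  rw [hθ, Map.sum_f, Finset.sum_eq_single I]
  · change (a I).f q ((Map.comp (KS.pr I) (KS.inj I)).f q x) = (a I).f q x
    rw [KS.pr_inj]
    rfl
  · intro J _ hJ
    change (a J).f q ((Map.comp (KS.pr J) (KS.inj I)).f q x) = 0
    rw [KS.pr_inj_ne hJ]
    exact (a J).map_pt q
  · intro h
    exact absurd (Finset.mem_univ I) h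

theorem row_add (θ θ' : Map (KS p n s k).U (EM (ZMod p) m)) (I : Mon n s) (z : Mil p) :
    row E (θ + θ') I z = row E θ I z + row E θ' I z :=
  prO_add_right E z (Map.comp θ (KS.inj I)) (Map.comp θ' (KS.inj I))

theorem row_neg (θ : Map (KS p n s k).U (EM (ZMod p) m)) (I : Mon n s) (z : Mil p) :
    row E (-θ) I z = -row E θ I z :=
  prO_neg_right E z (Map.comp θ (KS.inj I))

/-- The components of the Koszul map. -/
theorem pr_qm (Q : ∀ i : Fin (n + 1), Op p (2 * p ^ (i : ℕ) - 1)) (s : ℕ) (k : ℤ)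
    (J : Mon n (s + 1)) : Map.comp (KS.pr J) (qm Q s k) =
      (∑ i : Fin (n + 1), if h : 0 < J.1 i then
      (Map.comp (Map.sh (n' := mdeg p (J.pred i h).1 + k) (m' := mdeg p J.1 + (k + 1)) (Q i) (by
        rw [mdeg_pred p J i h, deg_cast]; ring)) (KS.pr (J.pred i h)) :
          Map (KS p n s k).U (EML (ZMod p) (ZMod p) (mdeg p J.1 + (k + 1))).toG) else 0 :
        Map (KS p n s k).U (EML (ZMod p) (ZMod p) (mdeg p J.1 + (k + 1))).toG) := rfl

/-- Rows composed with the Koszul map. -/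
theorem row_comp_qm (θ : Map (KS p n (s + 1) (k + 1)).U (EM (ZMod p) m)) (I : Mon n s)
    (z : Mil p) :
    row E (Map.comp θ (qm Q s k)) I z = ∑ i, row E θ (I.succ i) (Mil.Rop p i z) := by
  classical
  have hsh : ∀ (i : Fin (n + 1)) (J : Mon n (s + 1)), J = I.succ i →
      (mdeg p I.1 + k) - 0 = (mdeg p J.1 + (k + 1)) - ((2 * p ^ (i : ℕ) - 1 : ℕ) : ℤ) := by
    intro i J hJ
    rw [hJ, mdeg_succ, deg_cast]
    ring
  obtain ⟨X, hX⟩ : ∃ X : Map (EM (ZMod p) (mdeg p I.1 + k)).U (KS p n (s + 1) (k + 1)),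
      X = Map.comp (qm Q s k) (KS.inj I) := ⟨_, rfl⟩
  -- the components of `X`
  have hterm : ∀ (J : Mon n (s + 1)) (i : Fin (n + 1)),
      Map.comp (if h : 0 < J.1 i then
      (Map.comp (Map.sh (n' := mdeg p (J.pred i h).1 + k) (m' := mdeg p J.1 + (k + 1)) (Q i) (by
        rw [mdeg_pred p J i h, deg_cast]; ring)) (KS.pr (J.pred i h)) :
          Map (KS p n s k).U (EML (ZMod p) (ZMod p) (mdeg p J.1 + (k + 1))).toG) else 0)
        (KS.inj I) =
      (if h : J = I.succ i then (Map.sh (n' := mdeg p I.1 + k) (m' := mdeg p J.1 + (k + 1)) (Q i)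
        (hsh i J h) : Map (EM (ZMod p) (mdeg p I.1 + k)).U
          (EML (ZMod p) (ZMod p) (mdeg p J.1 + (k + 1))).toG) else 0) := by
    intro J i
    by_cases hJ : J = I.succ i
    · have h0 : 0 < J.1 i := by
        rw [hJ]
        simp [Mon.succ]
      rw [dif_pos h0, dif_pos hJ]
      have hI : J.pred i h0 = I := by
        subst hJ
        exact Mon.pred_succ I i h0
      have gen : ∀ (I' : Mon n s) (e : I' = I)
          (h1 : (mdeg p I'.1 + k) - 0 = (mdeg p J.1 + (k + 1)) -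
            ((2 * p ^ (i : ℕ) - 1 : ℕ) : ℤ)),
          Map.comp (Map.comp (Map.sh (n' := mdeg p I'.1 + k) (m' := mdeg p J.1 + (k + 1)) (Q i) h1)
            (KS.pr (p := p) (k := k) I')) (KS.inj (p := p) (k := k) I) =
          Map.sh (n' := mdeg p I.1 + k) (m' := mdeg p J.1 + (k + 1)) (Q i) (hsh i J hJ) := by
        intro I' e h1
        subst e
        rw [← Map.comp_assoc, KS.pr_inj]
        rfl
      exact gen (J.pred i h0) hI _
    · rw [dif_neg hJ]
      by_cases h0 : 0 < J.1 i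
      · rw [dif_pos h0]
        have hI : J.pred i h0 ≠ I := by
          intro h
          apply hJ
          rw [← h, Mon.succ_pred]
        have e1 : Map.comp (KS.pr (p := p) (k := k) (J.pred i h0)) (KS.inj I) = 0 :=
          KS.pr_inj_ne hI
        have e2 : mdeg p (J.pred i h0).1 + k - 0 =
            mdeg p J.1 + (k + 1) - ((2 * p ^ (i : ℕ) - 1 : ℕ) : ℤ) := by
          rw [mdeg_pred p J i h0, deg_cast]
          ring
        refine Map.ext2 fun q x => ?_
        change (Map.sh (n' := mdeg p (J.pred i h0).1 + k) (m' := mdeg p J.1 + (k + 1)) (Q i) e2).f q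
          ((Map.comp (KS.pr (p := p) (k := k) (J.pred i h0)) (KS.inj I)).f q x) = 0
        rw [e1]
        exact (Map.sh (Q i) e2).map_pt q
      · rw [dif_neg h0]
        rfl
  have hcomp : ∀ J : Mon n (s + 1), Map.comp (KS.pr J) X =
      (∑ i : Fin (n + 1), if h : J = I.succ i then
        (Map.sh (n' := mdeg p I.1 + k) (m' := mdeg p J.1 + (k + 1)) (Q i)
        (hsh i J h) : Map (EM (ZMod p) (mdeg p I.1 + k)).U
          (EML (ZMod p) (ZMod p) (mdeg p J.1 + (k + 1))).toG) else 0 :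
        Map (EM (ZMod p) (mdeg p I.1 + k)).U
          (EML (ZMod p) (ZMod p) (mdeg p J.1 + (k + 1))).toG) := by
    intro J
    rw [hX]
    change Map.comp (Map.comp (KS.pr J) (qm Q s k)) (KS.inj I) = _
    rw [pr_qm]
    exact (Map.sum_comp _ _ _).trans (Finset.sum_congr rfl fun i _ => hterm J i)
  -- the pairing
  have hpair : ∀ J : Mon n (s + 1), prO E z (Map.comp (Map.comp θ (KS.inj J))
      (Map.comp (KS.pr J) X)) = ∑ i : Fin (n + 1), if J = I.succ i then
        row E θ J (Mil.Rop p i z) else 0 := by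
    intro J
    by_cases hJ : ∃ i, J = I.succ i
    · obtain ⟨i₀, hi₀⟩ := hJ
      have hne : ∀ i, i ≠ i₀ → ¬ J = I.succ i := fun i hi h =>
        hi (I.succ_inj (h.symm.trans hi₀))
      rw [hcomp, Finset.sum_eq_single i₀ (fun i _ hi => dif_neg (hne i hi))
        (fun h => absurd (Finset.mem_univ _) h), Finset.sum_eq_single i₀
        (fun i _ hi => if_neg (hne i hi)) (fun h => absurd (Finset.mem_univ _) h), if_pos hi₀,
        dif_pos hi₀]
      exact prO_comp_Q E i₀ z _ (Map.comp θ (KS.inj J))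
    · have hne : ∀ i, ¬ J = I.succ i := fun i h => hJ ⟨i, h⟩
      rw [hcomp, Finset.sum_eq_zero (fun i _ => dif_neg (hne i)), Finset.sum_eq_zero
        (fun i _ => if_neg (hne i))]
      have h0 : Map.comp (Map.comp θ (KS.inj J))
          (0 : Map (EM (ZMod p) (mdeg p I.1 + k)).U (EM (ZMod p) (mdeg p J.1 + (k + 1)))) = 0 :=
        Map.ext2 fun q x => (Map.comp θ (KS.inj J)).map_pt q
      exact (congrArg (prO E z) h0).trans (prO_zero_right E z)
  have h1 : row E (Map.comp θ (qm Q s k)) I z = prOH E z (HC.pre X.toHom (HC.mk θ)) := by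
    rw [hX]
    rfl
  rw [h1, KS.src, map_sum, map_sum]
  have h2 : ∀ J : Mon n (s + 1), prOH E z (HC.pre X.toHom
      (HC.mk (Map.comp (Map.comp θ (KS.inj J)) (KS.pr J)))) =
      prO E z (Map.comp (Map.comp θ (KS.inj J)) (Map.comp (KS.pr J) X)) := fun J => rfl
  rw [Finset.sum_congr rfl (fun J _ => (h2 J).trans (hpair J)), Finset.sum_comm]
  refine Finset.sum_congr rfl fun i _ => ?_
  rw [Finset.sum_ite_eq' Finset.univ (I.succ i), if_pos (Finset.mem_univ _)]

/-- Matrices composed with the Koszul map on the right. -/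
theorem mt_comp_qm (θ : Map (KS p n (s + 1) (k + 1)).U (KS p n t l)) (J : Mon n t) (I : Mon n s)
    (z : Mil p) :
    mt E (Map.comp θ (qm Q s k)) J I z = ∑ i, mt E θ J (I.succ i) (Mil.Rop p i z) :=
  row_comp_qm E (Map.comp (KS.pr J) θ) I z

/-- Matrices composed with the Koszul map on the left. -/
theorem mt_qm_comp (θ : Map (KS p n s k).U (KS p n t l)) (J : Mon n (t + 1)) (I : Mon n s)
    (z : Mil p) :
    mt E (Map.comp (qm Q t l) θ) J I z = (-1 : ZMod p) ^ (l - k).natAbs *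
      ∑ i, if h : 0 < J.1 i then mt E θ (J.pred i h) I (Mil.Lop p i z) else 0 := by
  obtain ⟨Y, hY⟩ : ∃ Y : Map (EM (ZMod p) (mdeg p I.1 + k)).U (KS p n t l),
      Y = Map.comp θ (KS.inj I) := ⟨_, rfl⟩
  have e0 : mt E (Map.comp (qm Q t l) θ) J I z =
      prO E z (Map.comp (Map.comp (KS.pr J) (qm Q t l)) Y) := by
    rw [hY]
    rfl
  rw [e0, pr_qm]
  have e1 : ∀ (g : Fin (n + 1) → Map (KS p n t l).U
      (EML (ZMod p) (ZMod p) (mdeg p J.1 + (l + 1))).toG),
      prO E z (Map.comp (∑ i, g i : Map (KS p n t l).U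
        (EML (ZMod p) (ZMod p) (mdeg p J.1 + (l + 1))).toG) Y) =
      ∑ i, prO E z (Map.comp (g i) Y) := by
    intro g
    exact (congrArg (prO E z) (Map.sum_comp Finset.univ g Y)).trans
      (prO_sum E Finset.univ z fun i => Map.comp (g i) Y)
  rw [e1, Finset.mul_sum]
  refine Finset.sum_congr rfl fun i _ => ?_
  by_cases h : 0 < J.1 i
  · rw [dif_pos h, dif_pos h]
    have e2 : mdeg p (J.pred i h).1 + l - 0 =
        mdeg p J.1 + (l + 1) - ((2 * p ^ (i : ℕ) - 1 : ℕ) : ℤ) := by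
      rw [mdeg_pred p J i h, deg_cast]
      ring
    have e3 := prO_Q_comp E i z e2 (Map.comp (KS.pr (J.pred i h)) Y)
    have e4 : (-1 : ZMod p) ^ (mdeg p (J.pred i h).1 + l - (mdeg p I.1 + k)).natAbs =
        (-1 : ZMod p) ^ (l - k).natAbs := by
      obtain ⟨a, ha⟩ := mdeg_even p (J.pred i h).1
      obtain ⟨b, hb⟩ := mdeg_even p I.1
      rcases Int.even_or_odd (l - k) with he | ho
      · have h1 : Even (mdeg p (J.pred i h).1 + l - (mdeg p I.1 + k)).natAbs := by
          rw [Int.natAbs_even]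
          obtain ⟨c, hc⟩ := he
          exact ⟨a - b + c, by omega⟩
        rw [h1.neg_one_pow, (Int.natAbs_even.2 he).neg_one_pow]
      · have h1 : Odd (mdeg p (J.pred i h).1 + l - (mdeg p I.1 + k)).natAbs := by
          rw [Int.natAbs_odd]
          obtain ⟨c, hc⟩ := ho
          exact ⟨a - b + c, by omega⟩
        rw [h1.neg_one_pow, (Int.natAbs_odd.2 ho).neg_one_pow]
    rw [e4] at e3
    rw [hY] at e3 ⊢
    exact e3
  · rw [dif_neg h, dif_neg h, mul_zero]
    exact prO_zero_right E z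

include E in
/-- The square of the Koszul map is nullhomotopic. -/
theorem qm_qm (s : ℕ) (k : ℤ) : (Map.comp (qm Q (s + 1) (k + 1)) (qm Q s k)).Null := by
  rw [mt_null_iff E]
  intro J I z
  rw [mt_comp_qm]
  have h1 : ∀ i : Fin (n + 1), mt E (qm Q (s + 1) (k + 1)) J (I.succ i) (Mil.Rop p i z) =
      ∑ i' : Fin (n + 1), mt E (Map.id (KS p n (s + 1 + 1) (k + 1 + 1))) J
        ((I.succ i).succ i') (Mil.Rop p i' (Mil.Rop p i z)) := by
    intro i
    exact mt_comp_qm E (Map.id (KS p n (s + 1 + 1) (k + 1 + 1))) J (I.succ i) (Mil.Rop p i z)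
  rw [Finset.sum_congr rfl fun i _ => h1 i, ← Finset.sum_product']
  have hneg : ∀ (K : Mon n (s + 1 + 1)) (w : Mil p),
      mt E (Map.id (KS p n (s + 1 + 1) (k + 1 + 1))) J K (-w) =
      -mt E (Map.id (KS p n (s + 1 + 1) (k + 1 + 1))) J K w := fun K w =>
    map_neg (prOL E (Map.comp (KS.pr J) (Map.comp (Map.id (KS p n (s + 1 + 1) (k + 1 + 1)))
      (KS.inj K)))) w
  have hzero : ∀ (K : Mon n (s + 1 + 1)),
      mt E (Map.id (KS p n (s + 1 + 1) (k + 1 + 1))) J K 0 = 0 := fun K =>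
    map_zero (prOL E (Map.comp (KS.pr J) (Map.comp (Map.id (KS p n (s + 1 + 1) (k + 1 + 1)))
      (KS.inj K))))
  refine Finset.sum_involution (fun x _ => (x.2, x.1)) ?_ ?_ (fun _ _ => Finset.mem_univ _)
    (fun _ _ => rfl)
  · rintro ⟨i, i'⟩ -
    change mt E _ J ((I.succ i).succ i') (Mil.Rop p i' (Mil.Rop p i z)) +
      mt E _ J ((I.succ i').succ i) (Mil.Rop p i (Mil.Rop p i' z)) = 0
    rw [Mon.succ_comm I i' i, Mil.Rop_Rop_all i i', hneg, add_neg_cancel]
  · rintro ⟨i, i'⟩ - hne h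
    have h2 : i = i' := (congrArg Prod.fst h).symm
    subst h2
    apply hne
    change mt E _ J ((I.succ i).succ i) (Mil.Rop p i (Mil.Rop p i z)) = 0
    rw [Mil.Rop_Rop_self_all, hzero]

include E in
/-- **Koszul exactness**: the sequence of rows is exact (`A` is free as a right module over the
exterior algebra on `Q_0, .., Q_n`).  PROOF: by `row_comp_qm`, `row_surj` this is the exactness of
the (dual of the) Koszul complex `Mil ⊗ Γ_s`, `Rop i = - ∂/∂τ_i`. -/
theorem qm_exact (s : ℕ) (k m : ℤ) (e : Map (KS p n (s + 1) (k + 1)).U (EM (ZMod p) m))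
    (he : (Map.comp e (qm Q s k)).Null) :
    ∃ θ : Map (KS p n (s + 1 + 1) (k + 1 + 1)).U (EM (ZMod p) m),
      HC.mk (Map.comp θ (qm Q (s + 1) (k + 1))) = HC.mk e := by
  obtain ⟨Ψ, h1, h2⟩ := kos_exact (fun J : Mon n (s + 1) => prOL E (Map.comp e (KS.inj J)))
    (fun I z => by
      have h3 := (row_null_iff E _).1 he I z
      rw [row_comp_qm] at h3
      exact h3)
  obtain ⟨θ, hθ⟩ := row_surj E (k := k + 1 + 1) (m := m) Ψ (by
    intro K R F hne
    refine h2 K R F fun j hj hjF => ?_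
    refine prO_homog E R (insert (j : ℕ) F) ?_ _
    intro heq
    apply hne
    unfold Mil.deg at heq ⊢
    rw [Finset.sum_insert hjF] at heq
    have e1 := mdeg_pred p K j hj
    have e2 := deg_cast p (j : ℕ)
    push_cast at heq ⊢
    rw [e2] at heq
    rw [e1]
    linarith)
  refine ⟨θ, ?_⟩
  rw [HC.mk_eq, row_null_iff E]
  intro J z
  rw [row_add, row_neg, row_comp_qm, ← sub_eq_add_neg, sub_eq_zero]
  have h3 := h1 J z
  rw [Finset.sum_congr rfl fun i _ => hθ (J.succ i) (Mil.Rop p i z)]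
  exact h3.symm

/-- `u`-multiples of `1`: the row of an element of `A` which kills `u`.  The class of an operation
`a` with `a u` nullhomotopic is a row composed with the first Koszul map: stated for `KS 0`. -/
theorem isCyc_row {Y : GSp} {u : Map Y.U (EM (ZMod p) 0)} (hY : IsCyc Q Y u)
    (v : Map Y.U (KS p n 0 0))
    (hv : ∀ I : Mon n 0, ∀ (h : (0 : ℤ) - 0 = mdeg p I.1 + 0 - 0),
      HC.mk (Map.comp (KS.pr I) v) = HC.mk (Map.comp (Map.sh (Map.id (EM (ZMod p) 0)) h) u))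
    (m : ℤ) (e : Map (KS p n 0 0).U (EM (ZMod p) m)) (he : (Map.comp e v).Null) :
    ∃ θ : Map (KS p n (0 + 1) (0 + 1)).U (EM (ZMod p) m),
      HC.mk (Map.comp θ (qm Q 0 0)) = HC.mk e := by
  obtain ⟨I₀, hI₀⟩ : ∃ I₀ : Mon n 0, I₀.1 = fun _ => 0 := ⟨⟨fun _ => 0, by simp⟩, rfl⟩
  have hI : ∀ I : Mon n 0, I = I₀ := by
    intro I
    refine Subtype.ext (funext fun i => ?_)
    rw [hI₀]
    exact (Finset.sum_eq_zero_iff.1 I.2) i (Finset.mem_univ i)
  have hd : mdeg p I₀.1 = 0 := by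
    rw [hI₀]
    simp [mdeg]
  have hh : (0 : ℤ) - 0 = mdeg p I₀.1 + 0 - 0 := by
    rw [hd]
    rfl
  obtain ⟨a, ha⟩ : ∃ a : Map (EM (ZMod p) 0).U (EM (ZMod p) m),
      a = Map.comp (Map.comp e (KS.inj I₀)) (Map.sh (Map.id (EM (ZMod p) 0)) hh) := ⟨_, rfl⟩
  have hau : (Map.comp a u).Null := by
    rw [← HC.mk_eq_zero]
    have h1 : HC.mk (Map.comp e v) = 0 := HC.mk_eq_zero.2 he
    have h2 : HC.mk (Map.comp e v) = HC.pre v.toHom (HC.mk e) := rfl
    rw [h2, KS.src, map_sum, Finset.sum_eq_single I₀ (fun I _ hne => absurd (hI I) hne)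
      (fun h => absurd (Finset.mem_univ _) h)] at h1
    have h3 : HC.pre v.toHom (HC.mk (Map.comp (Map.comp e (KS.inj I₀)) (KS.pr I₀))) =
        HC.comp (Map.comp e (KS.inj I₀)) (HC.mk (Map.comp (KS.pr I₀) v)) := rfl
    rw [h3, hv I₀ hh] at h1
    rw [ha]
    exact h1
  obtain ⟨b, hb⟩ := (hY.rel m a).1 hau
  have hq : ∀ i : Fin (n + 1), (mdeg p I₀.1 + 0) - 0 =
      (mdeg p (I₀.succ i).1 + (0 + 1)) - ((2 * p ^ (i : ℕ) - 1 : ℕ) : ℤ) := by
    intro i
    rw [mdeg_succ, deg_cast]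
    ring
  have hc : ∀ i : Fin (n + 1), (mdeg p (I₀.succ i).1 + (0 + 1)) -
      ((2 * p ^ (i : ℕ) - 1 : ℕ) : ℤ) = m - m := by
    intro i
    rw [mdeg_succ, hd, deg_cast]
    ring
  have hcomp : ∀ i : Fin (n + 1), Map.comp (KS.pr (I₀.succ i)) (qm Q 0 0) =
      Map.comp (Map.sh (Q i) (hq i)) (KS.pr (p := p) (k := 0) I₀) := by
    intro i
    rw [pr_qm]
    have h0 : 0 < (I₀.succ i).1 i := by simp [Mon.succ]
    refine Eq.trans (Finset.sum_eq_single (M := Map (KS p n 0 0).U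
      (EML (ZMod p) (ZMod p) (mdeg p (I₀.succ i).1 + (0 + 1))).toG) i ?_ ?_) ?_
    · intro j _ hj
      refine dif_neg ?_
      simp only [Mon.succ]
      rw [Function.update_of_ne hj, hI₀]
      exact lt_irrefl 0
    · intro h
      exact absurd (Finset.mem_univ _) h
    · rw [dif_pos h0]
      have gen : ∀ (I' : Mon n 0) (_ : I' = I₀)
          (h1 : (mdeg p I'.1 + 0) - 0 = (mdeg p (I₀.succ i).1 + (0 + 1)) -
            ((2 * p ^ (i : ℕ) - 1 : ℕ) : ℤ)),
          Map.comp (Map.sh (n' := mdeg p I'.1 + 0) (m' := mdeg p (I₀.succ i).1 + (0 + 1)) (Q i) h1)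
            (KS.pr (p := p) (k := 0) I') =
          Map.comp (Map.sh (Q i) (hq i)) (KS.pr (p := p) (k := 0) I₀) := by
        intro I' e1 h1
        subst e1
        rfl
      exact gen ((I₀.succ i).pred i h0) (Mon.pred_succ I₀ i h0) _
  obtain ⟨θ, hθ⟩ : ∃ θ : Map (KS p n (0 + 1) (0 + 1)).U (EML (ZMod p) (ZMod p) m).toG,
      θ = ∑ i : Fin (n + 1), (Map.comp (Map.sh (b i) (hc i)) (KS.pr (I₀.succ i)) :
        Map (KS p n (0 + 1) (0 + 1)).U (EML (ZMod p) (ZMod p) m).toG) := ⟨_, rfl⟩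
  have hjm : mdeg p I₀.1 + 0 - 0 = m - m := by
    rw [hd]
    ring
  have h1 : Map.comp θ (qm Q 0 0) = (∑ i : Fin (n + 1),
      (Map.comp (Map.sh (Map.comp (b i) (Q i)) hjm) (KS.pr (p := p) (k := 0) I₀) :
        Map (KS p n 0 0).U (EML (ZMod p) (ZMod p) m).toG) :
        Map (KS p n 0 0).U (EML (ZMod p) (ZMod p) m).toG) := by
    rw [hθ]
    refine (Map.sum_comp _ _ _).trans (Finset.sum_congr rfl fun i _ => ?_)
    refine Eq.trans (congrArg (Map.comp (Map.sh (b i) (hc i))) (hcomp i)) ?_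
    have h2 := Map.sh_comp (b i) (Q i) (hq i) (hc i) hjm
    exact congrArg (fun w => Map.comp w (KS.pr (p := p) (k := 0) I₀)) h2
  have gen2 : ∀ (j : ℤ) (h : (0 : ℤ) - 0 = j - 0) (h' : j - 0 = m - m)
      (c : Map (EM (ZMod p) j).U (EM (ZMod p) m)) (π : Map (KS p n 0 0).U (EM (ZMod p) j)),
      HC.mk (Map.comp c (Map.sh (Map.id (EM (ZMod p) 0)) h)) =
        ∑ i, HC.mk (Map.comp (b i) (Q i)) →
      HC.mk (Map.comp c π) = ∑ i, HC.mk (Map.comp (Map.sh (Map.comp (b i) (Q i)) h') π) := by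
    intro j h h'
    obtain rfl : j = 0 := by omega
    intro c π hc'
    rw [Map.sh_self] at hc'
    have h2 : HC.mk (Map.comp c π) = HC.pre π.toHom (HC.mk (Map.comp c (Map.id _))) := rfl
    rw [h2, hc', map_sum]
    refine Finset.sum_congr rfl fun i _ => ?_
    rw [Map.sh_self]
    rfl
  refine ⟨θ, ?_⟩
  refine Eq.trans (congrArg HC.mk h1) ?_
  refine Eq.trans (map_sum (HC.mk : Map (KS p n 0 0).U (EML (ZMod p) (ZMod p) m).toG →+ _) _ _) ?_
  refine Eq.trans (gen2 _ hh hjm (Map.comp e (KS.inj I₀)) (KS.pr I₀) ?_).symm ?_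
  · rw [← ha]
    exact hb
  · rw [KS.src e]
    exact (Finset.sum_eq_single (M := HC (KS p n 0 0).U (EM (ZMod p) m))
      (f := fun I => HC.mk (Map.comp (Map.comp e (KS.inj I)) (KS.pr I))) I₀
      (fun I _ hne => absurd (hI I) hne) (fun h => absurd (Finset.mem_univ _) h)).symm

end mt

end BPN
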