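import Pool.Agent.BPN.T.Def

/-!
# Shifts of maps between Eilenberg-MacLane spectra (project BPN, module T/MatA)
-/

namespace BPN

open GSp

section sh

variable {M M' M'' : Type} [AddCommGroup M] [AddCommGroup M'] [AddCommGroup M'']

/-- transport of the argument -/
theorem Map.em_cast {n m : ℤ} (a : Map (EM M n).U (EM M' m)) {q q' : ℤ} (h : q = q')
    (c : (ℕ → ℕ) → M) (hc : c ∈ EMG M n q) (hc' : c ∈ EMG M n q') :
    (a.f q ⟨c, hc⟩).1 = (a.f q' ⟨c, hc'⟩).1 := by
  subst h
  rfl

theorem Map.sh_sh {n m n' m' n'' m'' : ℤ} (a : Map (EM M n).U (EM M' m))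
    (h₁ : n' - n = m' - m) (h₂ : n'' - n' = m'' - m') (h₃ : n'' - n = m'' - m) :
    (a.sh h₁).sh h₂ = a.sh h₃ :=
  Map.ext2 fun q c => Subtype.ext (a.em_cast (by omega) c.1 _ _)

theorem Map.sh_self {n m : ℤ} (a : Map (EM M n).U (EM M' m)) (h : n - n = m - m) :
    a.sh h = a :=
  Map.ext2 fun q c => Subtype.ext (a.em_cast (q := q - (n - n)) (q' := q) (by omega) c.1
    (EMG.cast_mem (by omega) c.2) c.2)

theorem Map.sh_comp {n m l n' m' l' : ℤ} (b : Map (EM M' m).U (EM M'' l))
    (a : Map (EM M n).U (EM M' m)) (h₁ : n' - n = m' - m) (h₂ : m' - m = l' - l)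
    (h₃ : n' - n = l' - l) :
    Map.comp (b.sh h₂) (a.sh h₁) = (Map.comp b a).sh h₃ :=
  Map.ext2 fun q c => Subtype.ext (b.em_cast (by omega) _ _ (a.f (q - (n' - n))
    ⟨c.1, EMG.cast_mem (by omega) c.2⟩).2)

theorem Map.sh_add {n m n' m' : ℤ} (a b : Map (EM M n).U (EM M' m)) (h : n' - n = m' - m) :
    (a + b).sh h = a.sh h + b.sh h := rfl

/-- The shifted map to the path spectrum. -/
def Map.shP {n m n' m' : ℤ} (b : Map (EM M n).U (EM M' m).P) (h : n' - n = m' - m) :
    Map (EM M n').U (EM M' m').P where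
  f := fun q c => (⟨(b.f (q - (n' - n)) ⟨c.1, EMG.cast_mem (by omega) c.2⟩).1,
    EMG.cast_mem (by omega) (b.f (q - (n' - n)) ⟨c.1, EMG.cast_mem (by omega) c.2⟩).2⟩ :
      EMG M' m' (q + 1))
  map_pt := fun q => Subtype.ext (congrArg (fun z : EMG M' m (q - (n' - n) + 1) => z.1)
    (b.map_pt (q - (n' - n))))
  map_d := fun i q r h' x => Subtype.ext (congrArg
    (fun z : EMG M' m (q - (n' - n) + 1) => z.1)
    (b.map_d i (show q - (n' - n) + 1 = r - (n' - n) by omega)
      ⟨x.1, EMG.cast_mem (by omega) x.2⟩))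
  map_s := fun i q r h' x => Subtype.ext (congrArg
    (fun z : EMG M' m (r - (n' - n) + 1) => z.1)
    (b.map_s i (show q - (n' - n) + 1 = r - (n' - n) by omega)
      ⟨x.1, EMG.cast_mem (by omega) x.2⟩))

theorem Map.Null.sh {n m n' m' : ℤ} {a : Map (EM M n).U (EM M' m)} (ha : a.Null)
    (h : n' - n = m' - m) : (a.sh h).Null := by
  obtain ⟨b, rfl⟩ := ha
  refine ⟨b.shP h, Map.ext2 fun q c => Subtype.ext ?_⟩
  rfl

end sh

/-! ### The Milnor coalgebra -/

section mil

variable {p : ℕ} [Fact p.Prime]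

theorem Mil.smul_mon (R : ℕ →₀ ℕ) (F : Finset ℕ) (c : ZMod p) :
    c • Mil.mon p R F = Finsupp.single F (MvPolynomial.monomial R c) := by
  unfold Mil.mon
  rw [Finsupp.smul_single, MvPolynomial.smul_monomial, smul_eq_mul, mul_one]

/-- Additive maps on the Milnor coalgebra are determined by the monomials. -/
theorem Mil.hom_ext {f g : Mil p →+ ZMod p}
    (h : ∀ R F, f (Mil.mon p R F) = g (Mil.mon p R F)) : f = g := by
  refine Finsupp.addHom_ext fun F P => ?_
  induction P using MvPolynomial.induction_on' with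
  | monomial R c => rw [← Mil.smul_mon, ZMod.map_smul, ZMod.map_smul, h]
  | add P P' h1 h2 => rw [Finsupp.single_add, map_add, map_add, h1, h2]

theorem Mil.contr_mon (k : ℕ) (R : ℕ →₀ ℕ) (F : Finset ℕ) :
    Mil.contr p k (Mil.mon p R F) = if k ∈ F then
      ((-1 : ℤ) ^ (F.filter (· < k)).card) • Mil.mon p R (F.erase k) else 0 := by
  unfold Mil.contr Mil.mon
  rw [Finsupp.lsum_single]
  split_ifs
  · rfl
  · rfl

theorem Mil.Rop_mon (k : ℕ) (R : ℕ →₀ ℕ) (F : Finset ℕ) :
    Mil.Rop p k (Mil.mon p R F) = if k ∈ F then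
      -(((-1 : ℤ) ^ (F.filter (· < k)).card) • Mil.mon p R (F.erase k)) else 0 := by
  change -(Mil.contr p k (Mil.mon p R F)) = _
  rw [Mil.contr_mon]
  split_ifs
  · rfl
  · exact neg_zero

/-- An additive map with prescribed values on the monomials. -/
theorem Mil.exists_hom (w : (ℕ →₀ ℕ) → Finset ℕ → ZMod p) :
    ∃ f : Mil p →+ ZMod p, ∀ R F, f (Mil.mon p R F) = w R F := by
  refine ⟨Finsupp.liftAddHom fun F => ((MvPolynomial.basisMonomials ℕ (ZMod p)).constr ℕ
    (fun R => w R F)).toAddMonoidHom, fun R F => ?_⟩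
  unfold Mil.mon
  rw [Finsupp.liftAddHom_apply_single]
  have h := (MvPolynomial.basisMonomials ℕ (ZMod p)).constr_basis ℕ (fun R => w R F) R
  rw [MvPolynomial.coe_basisMonomials] at h
  exact h

/-- The sign. -/
def Mil.sn (k : ℕ) (F : Finset ℕ) : ℤ := (-1 : ℤ) ^ (F.filter (· < k)).card

theorem Mil.sn_mul_self (k : ℕ) (F : Finset ℕ) : Mil.sn k F * Mil.sn k F = 1 := by
  unfold Mil.sn
  rw [← mul_pow]
  norm_num

theorem Mil.sn_erase {k l : ℕ} {F : Finset ℕ} (h : l ∈ F) :
    Mil.sn k (F.erase l) = (if l < k then -1 else 1) * Mil.sn k F := by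
  unfold Mil.sn
  by_cases hlk : l < k
  · rw [if_pos hlk, Finset.filter_erase]
    have h1 : l ∈ F.filter (· < k) := Finset.mem_filter.2 ⟨h, hlk⟩
    have h2 := Finset.card_erase_add_one h1
    rw [← h2, pow_succ]
    ring
  · rw [if_neg hlk, Finset.filter_erase, Finset.erase_eq_of_notMem, one_mul]
    intro h1
    exact hlk (Finset.mem_filter.1 h1).2

theorem Mil.sn_insert {k l : ℕ} {F : Finset ℕ} (h : l ∉ F) :
    Mil.sn k (insert l F) = (if l < k then -1 else 1) * Mil.sn k F := by
  have h1 := Mil.sn_erase (k := k) (Finset.mem_insert_self l F)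
  rw [Finset.erase_insert h] at h1
  rw [h1, ← mul_assoc]
  split_ifs <;> norm_num

theorem Mil.Rop_mon' (k : ℕ) (R : ℕ →₀ ℕ) (F : Finset ℕ) :
    Mil.Rop p k (Mil.mon p R F) = if k ∈ F then
      -(Mil.sn k F • Mil.mon p R (F.erase k)) else 0 := Mil.Rop_mon k R F

theorem Mil.Rop_Rop_self (i : ℕ) (R : ℕ →₀ ℕ) (F : Finset ℕ) :
    Mil.Rop p i (Mil.Rop p i (Mil.mon p R F)) = 0 := by
  rw [Mil.Rop_mon']
  split_ifs with h
  · rw [map_neg, map_zsmul, Mil.Rop_mon', if_neg (Finset.notMem_erase i F), smul_zero, neg_zero]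
  · rw [map_zero]

theorem Mil.Rop_Rop (i j : ℕ) (R : ℕ →₀ ℕ) (F : Finset ℕ) :
    Mil.Rop p i (Mil.Rop p j (Mil.mon p R F)) = -Mil.Rop p j (Mil.Rop p i (Mil.mon p R F)) := by
  rcases eq_or_ne i j with rfl | hij
  · rw [Mil.Rop_Rop_self, neg_zero]
  · rw [Mil.Rop_mon' j, Mil.Rop_mon' i]
    by_cases hj : j ∈ F
    · by_cases hi : i ∈ F
      · rw [if_pos hj, if_pos hi, map_neg, map_neg, map_zsmul, map_zsmul, Mil.Rop_mon',
          Mil.Rop_mon', if_pos (Finset.mem_erase.2 ⟨hij, hi⟩),
          if_pos (Finset.mem_erase.2 ⟨hij.symm, hj⟩), smul_neg, smul_neg, neg_neg, neg_neg,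
          smul_smul, smul_smul, ← neg_smul, Finset.erase_right_comm (a := j) (b := i),
          Mil.sn_erase hj, Mil.sn_erase hi]
        congr 1
        rcases lt_or_gt_of_ne hij with h | h
        · rw [if_neg (by omega), if_pos h]
          ring
        · rw [if_pos h, if_neg (by omega)]
          ring
      · rw [if_pos hj, if_neg hi, map_zero, neg_zero, map_neg, map_zsmul, Mil.Rop_mon',
          if_neg (fun h => hi (Finset.mem_of_mem_erase h)), smul_zero, neg_zero]
    · by_cases hi : i ∈ F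
      · rw [if_neg hj, if_pos hi, map_zero, map_neg, map_zsmul, Mil.Rop_mon',
          if_neg (fun h => hj (Finset.mem_of_mem_erase h)), smul_zero, neg_zero, neg_zero]
      · rw [if_neg hj, if_neg hi, map_zero, map_zero, neg_zero]

theorem Mil.Rop_Rop_all (i j : ℕ) (z : Mil p) :
    Mil.Rop p i (Mil.Rop p j z) = -Mil.Rop p j (Mil.Rop p i z) := by
  have h : (Mil.Rop p i).comp (Mil.Rop p j) = -((Mil.Rop p j).comp (Mil.Rop p i)) :=
    Finsupp.lhom_ext' fun F => LinearMap.ext_ring (Mil.Rop_Rop i j 0 F)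
  exact LinearMap.congr_fun h z

theorem Mil.Rop_Rop_self_all (i : ℕ) (z : Mil p) : Mil.Rop p i (Mil.Rop p i z) = 0 := by
  have h : (Mil.Rop p i).comp (Mil.Rop p i) = 0 :=
    Finsupp.lhom_ext' fun F => LinearMap.ext_ring (Mil.Rop_Rop_self i 0 F)
  exact LinearMap.congr_fun h z

theorem Mil.one_le_pow (e : ℕ) : e + 1 ≤ p ^ e :=
  Nat.lt_pow_self (Fact.out : p.Prime).one_lt

theorem Mil.deg_zero {R : ℕ →₀ ℕ} {F : Finset ℕ} (h : Mil.deg p R F = 0) : R = 0 ∧ F = ∅ := by
  unfold Mil.deg at h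
  obtain ⟨h1, h2⟩ := Nat.add_eq_zero_iff.1 h
  constructor
  · ext j
    by_contra hj
    have hj' : j ∈ R.support := Finsupp.mem_support_iff.2 hj
    have h3 : R j * (2 * (p ^ (j + 1) - 1)) = 0 := (Finset.sum_eq_zero_iff.1 h1) j hj'
    have h4 := Mil.one_le_pow (p := p) (j + 1)
    have h5 : 0 < R j := Nat.pos_of_ne_zero hj
    have h6 : 0 < R j * (2 * (p ^ (j + 1) - 1)) := Nat.mul_pos h5 (by omega)
    omega
  · by_contra hF
    obtain ⟨e, he⟩ := Finset.nonempty_iff_ne_empty.2 hF
    have h3 := (Finset.sum_eq_zero_iff.1 h2) e he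
    have h4 := Mil.one_le_pow (p := p) e
    omega

/-- There are finitely many monomials of a given degree. -/
theorem Mil.deg_finite (k : ℕ) :
    {x : (ℕ →₀ ℕ) × Finset ℕ | Mil.deg p x.1 x.2 = k}.Finite := by
  classical
  have h1 : (Set.Icc (0 : ℕ →₀ ℕ) (∑ j ∈ Finset.range k, Finsupp.single j k)).Finite :=
    Set.finite_Icc _ _
  have h2 : {F : Finset ℕ | F ⊆ Finset.range (k + 1)}.Finite := by
    refine ((Finset.range (k + 1)).powerset.finite_toSet).subset fun F hF => ?_
    exact Finset.mem_coe.2 (Finset.mem_powerset.2 hF)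
  refine (h1.prod h2).subset ?_
  rintro ⟨R, F⟩ hx
  have hx' : Mil.deg p R F = k := hx
  unfold Mil.deg at hx'
  refine ⟨⟨fun j => Nat.zero_le _, ?_⟩, ?_⟩
  · intro j
    change R j ≤ (∑ j ∈ Finset.range k, Finsupp.single j k) j
    rcases Nat.eq_zero_or_pos (R j) with h0 | h0
    · omega
    · have hj' : j ∈ R.support := Finsupp.mem_support_iff.2 (by omega)
      have h3 : R j * (2 * (p ^ (j + 1) - 1)) ≤
          R.sum fun j r => r * (2 * (p ^ (j + 1) - 1)) :=
        Finset.single_le_sum (f := fun j => R j * (2 * (p ^ (j + 1) - 1)))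
          (fun _ _ => Nat.zero_le _) hj'
      have h4 := Mil.one_le_pow (p := p) (j + 1)
      have h5 : R j ≤ R j * (2 * (p ^ (j + 1) - 1)) := Nat.le_mul_of_pos_right _ (by omega)
      have h6 : 2 * (p ^ (j + 1) - 1) ≤ R j * (2 * (p ^ (j + 1) - 1)) :=
        Nat.le_mul_of_pos_left _ h0
      have h7 : j < k := by omega
      rw [Finsupp.finsetSum_apply]
      have h8 : (Finsupp.single j k : ℕ →₀ ℕ) j ≤
          ∑ i ∈ Finset.range k, (Finsupp.single i k : ℕ →₀ ℕ) j :=
        Finset.single_le_sum (f := fun i => (Finsupp.single i k : ℕ →₀ ℕ) j)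
          (fun _ _ => Nat.zero_le _) (Finset.mem_range.2 h7)
      rw [Finsupp.single_eq_same] at h8
      omega
  · intro e he
    have h3 : 2 * p ^ e - 1 ≤ ∑ e ∈ F, (2 * p ^ e - 1) :=
      Finset.single_le_sum (f := fun e => 2 * p ^ e - 1) (fun _ _ => Nat.zero_le _) he
    have h4 := Mil.one_le_pow (p := p) e
    rw [Finset.mem_range]
    omega

end mil

/-! ### Koszul exactness -/

section kos

variable {p n : ℕ} [Fact p.Prime]

theorem Mon.succ_pred_comm {s : ℕ} (J : Mon n (s + 1)) {i j : Fin (n + 1)} (hij : i ≠ j)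
    (h : 0 < J.1 j) (h' : 0 < (J.succ i).1 j) : (J.succ i).pred j h' = (J.pred j h).succ i := by
  refine Subtype.ext ?_
  simp only [Mon.succ, Mon.pred]
  rw [Function.update_of_ne hij.symm, Function.update_of_ne hij, Function.update_comm hij]

theorem Mon.succ_comm {s : ℕ} (J : Mon n s) (i j : Fin (n + 1)) :
    (J.succ i).succ j = (J.succ j).succ i := by
  rcases eq_or_ne i j with rfl | hij
  · rfl
  · refine Subtype.ext ?_
    simp only [Mon.succ]
    rw [Function.update_of_ne hij.symm, Function.update_of_ne hij, Function.update_comm hij]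

theorem Mon.succ_inj {s : ℕ} (J : Mon n s) {i j : Fin (n + 1)} (h : J.succ i = J.succ j) :
    i = j := by
  by_contra hij
  have h1 := congrFun (congrArg Subtype.val h) i
  simp only [Mon.succ] at h1
  rw [Function.update_self, Function.update_of_ne hij] at h1
  omega

theorem Mon.exists_pos {s : ℕ} (J : Mon n (s + 1)) : ∃ j, 0 < J.1 j := by
  by_contra hn
  push Not at hn
  have h1 := J.2
  rw [Finset.sum_eq_zero (fun j _ => Nat.le_zero.1 (hn j))] at h1
  omega

theorem kos_exact {s : ℕ} (Φ : Mon n (s + 1) → Mil p →+ ZMod p)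
    (h : ∀ I : Mon n s, ∀ z, ∑ i : Fin (n + 1), Φ (I.succ i) (Mil.Rop p i z) = 0) :
    ∃ Ψ : Mon n (s + 1 + 1) → Mil p →+ ZMod p,
      (∀ J z, Φ J z = ∑ i : Fin (n + 1), Ψ (J.succ i) (Mil.Rop p i z)) ∧
      ∀ K R F, (∀ (j : Fin (n + 1)) (hj : 0 < K.1 j), (j : ℕ) ∉ F →
        Φ (K.pred j hj) (Mil.mon p R (insert (j : ℕ) F)) = 0) → Ψ K (Mil.mon p R F) = 0 := by
  classical
  -- the chosen index
  obtain ⟨ch, hch⟩ : ∃ ch : (Fin (n + 1) → Prop) → Fin (n + 1),
      ∀ P : Fin (n + 1) → Prop, (∃ j, P j) → P (ch P) :=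
    ⟨fun P => Classical.epsilon P, fun P hP => Classical.epsilon_spec hP⟩
  choose Ψ hΨ using fun K : Mon n (s + 1 + 1) => Mil.exists_hom (p := p) (fun R F =>
    if hh : ((ch fun j => 0 < K.1 j ∨ (j : ℕ) ∈ F : Fin (n + 1)) : ℕ) ∉ F ∧
        0 < K.1 (ch fun j => 0 < K.1 j ∨ (j : ℕ) ∈ F) then
      -(Mil.sn (ch fun j => 0 < K.1 j ∨ (j : ℕ) ∈ F : Fin (n + 1)) F •
        Φ (K.pred (ch fun j => 0 < K.1 j ∨ (j : ℕ) ∈ F) hh.2)
        (Mil.mon p R (insert ((ch fun j => 0 < K.1 j ∨ (j : ℕ) ∈ F : Fin (n + 1)) : ℕ) F)))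
    else 0)
  refine ⟨Ψ, ?_, ?_⟩
  · intro J z
    have key : Φ J = ∑ i : Fin (n + 1), (Ψ (J.succ i)).comp (Mil.Rop p i).toAddMonoidHom := by
      refine Mil.hom_ext fun R F => ?_
      rw [AddMonoidHom.finsetSum_apply]
      change Φ J (Mil.mon p R F) = ∑ i : Fin (n + 1), Ψ (J.succ i) (Mil.Rop p i (Mil.mon p R F))
      obtain ⟨j, hj⟩ : ∃ j, j = ch fun j => 0 < J.1 j ∨ (j : ℕ) ∈ F := ⟨_, rfl⟩
      have hPj : 0 < J.1 j ∨ (j : ℕ) ∈ F := by
        rw [hj]
        refine hch (fun j => 0 < J.1 j ∨ (j : ℕ) ∈ F) ?_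
        obtain ⟨j', hj'⟩ := J.exists_pos
        exact ⟨j', Or.inl hj'⟩
      have hP : ∀ i : Fin (n + 1), (i : ℕ) ∈ F →
          (ch fun j => 0 < (J.succ i).1 j ∨ (j : ℕ) ∈ F.erase i) = j := by
        intro i hi
        rw [hj]
        congr 1
        funext j'
        refine propext ?_
        rcases eq_or_ne j' i with rfl | hne
        · have e1 : 0 < (J.succ j').1 j' := by
            simp [Mon.succ]
          exact ⟨fun _ => Or.inr hi, fun _ => Or.inl e1⟩
        · have e1 : (J.succ i).1 j' = J.1 j' := by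
            simp only [Mon.succ]
            rw [Function.update_of_ne hne]
          rw [e1, Finset.mem_erase]
          have e2 : (j' : ℕ) ≠ i := fun h => hne (Fin.ext h)
          exact ⟨fun h => h.imp_right fun h => h.2, fun h => h.imp_right fun h => ⟨e2, h⟩⟩
      have hw : ∀ i : Fin (n + 1), (i : ℕ) ∈ F → Ψ (J.succ i) (Mil.mon p R (F.erase i)) =
          if hh : (j : ℕ) ∉ F.erase i ∧ 0 < (J.succ i).1 j then
            -(Mil.sn j (F.erase i) • Φ ((J.succ i).pred j hh.2)
              (Mil.mon p R (insert (j : ℕ) (F.erase i)))) else 0 := by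
        intro i hi
        rw [hΨ]
        simp only [hP i hi]
      have hsum : ∑ i : Fin (n + 1), Ψ (J.succ i) (Mil.Rop p i (Mil.mon p R F)) =
          ∑ i : Fin (n + 1), if (i : ℕ) ∈ F then
            -(Mil.sn i F • Ψ (J.succ i) (Mil.mon p R (F.erase i))) else 0 := by
        refine Finset.sum_congr rfl fun i _ => ?_
        rw [Mil.Rop_mon']
        split_ifs
        · rw [map_neg, map_zsmul]
        · rw [map_zero]
      rw [hsum]
      by_cases hjF : (j : ℕ) ∈ F
      · -- case A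
        rw [Finset.sum_eq_single j]
        · rw [if_pos hjF, hw j hjF]
          have e1 : 0 < (J.succ j).1 j := by simp [Mon.succ]
          rw [dif_pos ⟨Finset.notMem_erase _ _, e1⟩, Mon.pred_succ, Finset.insert_erase hjF,
            Mil.sn_erase hjF, if_neg (lt_irrefl _), one_mul, smul_neg, neg_neg, smul_smul,
            Mil.sn_mul_self, one_smul]
        · intro i _ hij
          split_ifs with hi
          · rw [hw i hi, dif_neg, smul_zero, neg_zero]
            rintro ⟨h1, -⟩
            exact h1 (Finset.mem_erase.2 ⟨fun h => hij (Fin.ext h.symm), hjF⟩)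
          · rfl
        · intro hne
          exact absurd (Finset.mem_univ j) hne
      · -- case B
        have hJj : 0 < J.1 j := hPj.resolve_right hjF
        have hcyc := h (J.pred j hJj) (Mil.mon p R (insert (j : ℕ) F))
        have hterm : ∀ i : Fin (n + 1), Φ ((J.pred j hJj).succ i)
            (Mil.Rop p i (Mil.mon p R (insert (j : ℕ) F))) =
            (if i = j then -(Mil.sn j F • Φ J (Mil.mon p R F)) else 0) +
            (if (i : ℕ) ∈ F then -(Mil.sn i (insert (j : ℕ) F) • Φ ((J.pred j hJj).succ i)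
              (Mil.mon p R (insert (j : ℕ) (F.erase i)))) else 0) := by
          intro i
          rw [Mil.Rop_mon']
          rcases eq_or_ne i j with rfl | hij
          · rw [if_pos (Finset.mem_insert_self _ _), if_pos rfl, if_neg hjF, add_zero,
              map_neg, map_zsmul, Mon.succ_pred, Finset.erase_insert hjF, Mil.sn_insert hjF,
              if_neg (lt_irrefl _), one_mul]
          · have hij' : (i : ℕ) ≠ j := fun h => hij (Fin.ext h)
            rw [if_neg hij, zero_add]
            by_cases hi : (i : ℕ) ∈ F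
            · rw [if_pos (Finset.mem_insert_of_mem hi), if_pos hi, map_neg, map_zsmul,
                Finset.erase_insert_of_ne hij'.symm]
            · rw [if_neg (fun h => (Finset.mem_insert.1 h).elim hij' hi), if_neg hi, map_zero]
        rw [Finset.sum_congr rfl (fun i _ => hterm i), Finset.sum_add_distrib,
          Finset.sum_ite_eq' Finset.univ j, if_pos (Finset.mem_univ j)] at hcyc
        have h3 : Mil.sn j F • Φ J (Mil.mon p R F) =
            ∑ i : Fin (n + 1), (if (i : ℕ) ∈ F then -(Mil.sn i (insert (j : ℕ) F) •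
              Φ ((J.pred j hJj).succ i) (Mil.mon p R (insert (j : ℕ) (F.erase i)))) else 0) := by
          exact (neg_add_eq_zero.1 hcyc)
        have h4 := congrArg (fun v => Mil.sn j F • v) h3
        simp only [smul_smul, Mil.sn_mul_self, one_smul] at h4
        rw [h4, Finset.smul_sum]
        refine Finset.sum_congr rfl fun i _ => ?_
        by_cases hi : (i : ℕ) ∈ F
        · have hij' : (i : ℕ) ≠ j := fun h => hjF (h ▸ hi)
          have hij : i ≠ j := fun h => hij' (congrArg Fin.val h)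
          have e1 : 0 < (J.succ i).1 j := by
            simp only [Mon.succ]
            rw [Function.update_of_ne hij.symm]
            exact hJj
          rw [if_pos hi, if_pos hi, hw i hi, dif_pos ⟨fun h => hjF (Finset.mem_of_mem_erase h), e1⟩,
            J.succ_pred_comm hij hJj, smul_neg, smul_neg, neg_neg, smul_smul, smul_smul,
            ← neg_smul]
          congr 1
          rw [Mil.sn_insert hjF, Mil.sn_erase hi]
          rcases lt_or_gt_of_ne hij' with h5 | h5
          · rw [if_neg (by omega), if_pos h5]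
            ring
          · rw [if_pos h5, if_neg (by omega)]
            ring
        · rw [if_neg hi, if_neg hi, smul_zero]
    have h1 := DFunLike.congr_fun key z
    rw [AddMonoidHom.finsetSum_apply] at h1
    exact h1
  · intro K R F hK
    rw [hΨ]
    split_ifs with hh
    · rw [hK _ hh.2 hh.1, smul_zero, neg_zero]
    · rfl

end kos

end BPN
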