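import Pool.Agent.BPN.T.Adams

/-!
# Obstruction theory and maps of towers (project BPN, module T/Obs)
-/

namespace BPN

open GSp

variable {p n : ℕ} [Fact p.Prime] {Q : ∀ i : Fin (n + 1), Op p (2 * p ^ (i : ℕ) - 1)}

/-- The vanishing of the obstruction groups `E_2^{t+1,t}`, `t ≥ 1`. -/
def Van (Q : ∀ i : Fin (n + 1), Op p (2 * p ^ (i : ℕ) - 1)) (Y : GSp) : Prop :=
  ∀ t, 1 ≤ t → ∀ o : Map Y.U (KS p n (t + 1) 1), (Map.comp (qm Q (t + 1) 1) o).Null →
    ∃ w : Map Y.U (KS p n t 0), HC.mk (Map.comp (qm Q t 0) w) = HC.mk o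

variable (E : EOut p n Q) {Y : GSp} {v : Map Y.U (KS p n 0 0)} (hv : IsCycK Q Y v)

/-! ### Auxiliary facts -/

private theorem ob_comp_left {X : PSp} {G H : GSp} {b b' : Map G.U H} (h : HC.mk b = HC.mk b')
    (a : Map X G) : HC.mk (Map.comp b a) = HC.mk (Map.comp b' a) := by
  rw [← HC.comp_mk, ← HC.comp_mk, HC.comp_congr h]

private theorem ob_comp_right {X : PSp} {G H : GSp} (b : Map G.U H) {a a' : Map X G}
    (h : HC.mk a = HC.mk a') : HC.mk (Map.comp b a) = HC.mk (Map.comp b a') := by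
  rw [← HC.comp_mk, ← HC.comp_mk, h]

/-- the inclusion of the layer, unfolded -/
private theorem ob_i (t : ℕ) : (tower E hv (t + 1)).i =
    Map.comp (Map.ofHom (tower E hv t).κ.fibI)
      (Map.ofHom (KS.toOm (t + 1) (show (0 : ℤ) + 1 = 1 by norm_num))) := rfl

private theorem ob_tproj_i (t : ℕ) {X : PSp} (w : Map X (KS p n (t + 1) 0)) :
    Map.post (tproj E hv t) (Map.comp (tower E hv (t + 1)).i w) = 0 := by
  have h : Map.post (tproj E hv t) (Map.comp (tower E hv (t + 1)).i w) =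
      Map.comp (Map.post (tower E hv t).κ.fibP (Map.ofHom (tower E hv t).κ.fibI))
        (Map.comp (Map.ofHom (KS.toOm (t + 1) (show (0 : ℤ) + 1 = 1 by norm_num))) w) := rfl
  rw [h, Map.fibP_fibI]
  rfl

/-- a class with values in a layer which vanishes on `Y` is a multiple of the k-invariant -/
private theorem ob_im {s : ℕ} (S : Stage Q Y v s) {t : ℕ} {k : ℤ}
    (c : Map S.C.U (KS p n t k)) (hc : (Map.comp c S.y).Null) :
    ∃ θ : Map (KS p n (s + 1) 1).U (KS p n t k), HC.mk (Map.comp θ S.κ) = HC.mk c := by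
  have h : ∀ J : Mon n t, ∃ θ : Map (KS p n (s + 1) 1).U
      (EML (ZMod p) (ZMod p) (mdeg p J.1 + k)).toG,
      HC.mk (Map.comp θ S.κ) = HC.mk (Map.comp (KS.pr J) c) := fun J =>
    S.im _ (Map.comp (KS.pr J) c) (hc.comp (KS.pr J))
  choose θ hθ using h
  refine ⟨LSp.toPi (L := fun J : Mon n t => EML (ZMod p) (ZMod p) (mdeg p J.1 + k)) θ, ?_⟩
  rw [HC.mk_eq]
  refine (LSp.null_pi_iff _).2 fun J => ?_
  exact HC.mk_eq.1 (hθ J)

/-- compatible families in a tower with liftings -/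
private theorem ob_fam : ∀ (s : ℕ) (A : ℕ → Type) (ρ : ∀ t, A (t + 1) → A t)
    (D : ∀ t, A t → Prop) (_ : ∀ t a, D t a → ∃ a', D (t + 1) a' ∧ ρ t a' = a) (a : A s)
    (_ : D s a), ∃ φ : ∀ t, A t, (∀ t, ρ t (φ (t + 1)) = φ t) ∧ φ s = a := by
  intro s
  induction s with
  | zero =>
    intro A ρ D h a ha
    have h' : ∀ t (a : {a : A t // D t a}), ∃ a' : {a : A (t + 1) // D (t + 1) a},
        ρ t a'.1 = a.1 := fun t a => by
      obtain ⟨a', h1, h2⟩ := h t a.1 a.2
      exact ⟨⟨a', h1⟩, h2⟩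
    choose nx hnx using h'
    let F : ∀ t, {a : A t // D t a} := fun t =>
      Nat.rec (motive := fun t => {a : A t // D t a}) ⟨a, ha⟩ (fun t a => nx t a) t
    exact ⟨fun t => (F t).1, fun t => hnx t (F t), rfl⟩
  | succ s ih =>
    intro A ρ D h a ha
    obtain ⟨φ, h1, h2⟩ := ih (fun t => A (t + 1)) (fun t => ρ (t + 1)) (fun t => D (t + 1))
      (fun t => h (t + 1)) a ha
    refine ⟨fun t => Nat.casesOn t (ρ 0 (φ 0)) φ, fun t => ?_, h2⟩
    cases t with
    | zero => rfl
    | succ t => exact h1 t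

/-- One step of the obstruction theory.  PROOF: lift `g` to `g'` (`exists_fib_lift`); the class
`κ g'` is killed by the Koszul map (`Stage.qm_κ`), so it is `qm ∘ w`; replace `g'` by `g' - i w`,
which has the same projection (`fibP ∘ fibI = 0`). -/
theorem obs_step (hV : Van Q Y) (t : ℕ) (g : Map Y.U (tower E hv t).C)
    (hg : (Map.comp (tower E hv t).κ g).Null) :
    ∃ g' : Map Y.U (tower E hv (t + 1)).C, HC.mk (Map.post (tproj E hv t) g') = HC.mk g ∧
      (Map.comp (tower E hv (t + 1)).κ g').Null := by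
  obtain ⟨g0', hg0'⟩ := (tower E hv t).κ.exists_fib_lift g hg
  obtain ⟨g0, hg0⟩ : ∃ g0 : Map Y.U (tower E hv (t + 1)).C, Map.post (tproj E hv t) g0 = g :=
    ⟨g0', hg0'⟩
  have h1 : (Map.comp (qm Q (t + 1 + 1) 1) (Map.comp (tower E hv (t + 1)).κ g0)).Null :=
    ((tower E hv (t + 1)).qm_κ E).comp_left g0
  obtain ⟨w, hw⟩ := hV (t + 1) (Nat.succ_le_succ (Nat.zero_le t)) _ h1
  refine ⟨g0 + -(Map.comp (tower E hv (t + 1)).i w), ?_, ?_⟩
  · rw [map_add, map_neg, ob_tproj_i, neg_zero, add_zero, hg0]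
  · rw [← HC.mk_eq_zero, ← HC.comp_mk, map_add, map_neg, map_add, map_neg, HC.comp_mk, HC.comp_mk,
      Map.comp_assoc, ob_comp_left (tower E hv (t + 1)).κi w, hw, add_neg_cancel]

/-- **Realisation of cocycles**: every `z : Y → K_s` with `qm z ≃ 0` comes from a self map `f` of `Y`
with `y_s f ≃ i z`.  PROOF: `obs_step` starting from `i z`, zero below, then `exists_map_Y`. -/
theorem exists_self_map (hY : YHyp p Y) (hV : Van Q Y) (s : ℕ) (z : Map Y.U (KS p n s 0))
    (hz : (Map.comp (qm Q s 0) z).Null) :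
    ∃ f : Map Y.U Y, HC.mk (Map.comp (tower E hv s).y f) =
      HC.mk (Map.comp (tower E hv s).i z) := by
  obtain ⟨φ, h1, h2⟩ := ob_fam s (fun t => HC Y.U (tower E hv t).C)
    (fun t => HC.comp (Map.ofHom (tproj E hv t)))
    (fun t a => HC.comp (tower E hv t).κ a = 0) (fun t a ha => by
      obtain ⟨g, rfl⟩ := HC.mk_surj a
      rw [HC.comp_mk, HC.mk_eq_zero] at ha
      obtain ⟨g', h3, h4⟩ := obs_step E hv hV t g ha
      refine ⟨HC.mk g', ?_, h3⟩
      rw [HC.comp_mk, HC.mk_eq_zero]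
      exact h4) (HC.mk (Map.comp (tower E hv s).i z)) (by
      rw [HC.comp_mk, Map.comp_assoc, ob_comp_left (tower E hv s).κi z, HC.mk_eq_zero]
      exact hz)
  obtain ⟨f, hf⟩ := exists_map_Y E hv hY φ h1
  exact ⟨f, (hf s).trans h2⟩

/-- One step of a map of towers.  PROOF: `κ F` vanishes on `Y`, hence is `θp κ` (`Stage.im`,
componentwise); `exists_fib_map` gives `F'`, equal to `Ω θp` on the layer, `θ'` by `mt_om`;
`F' y` and `y f` are two lifts of the same map, so they differ by a map `Y → K`, which extends to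
`C_{t+2}` by a class from the bottom stage (`Stage.exists_ext`), vanishing on the last layer: correct
`F'` by it. -/
theorem tower_map_step (s t : ℕ) (f : Map Y.U Y)
    (F : Map (tower E hv t).C.U (tower E hv (s + t)).C)
    (hF : HC.mk (Map.comp F (tower E hv t).y) = HC.mk (Map.comp (tower E hv (s + t)).y f))
    (θ : Map (KS p n t 0).U (KS p n (s + t) 0))
    (hθ : HC.mk (Map.comp F (tower E hv t).i) = HC.mk (Map.comp (tower E hv (s + t)).i θ)) :
    ∃ (F' : Map (tower E hv (t + 1)).C.U (tower E hv (s + (t + 1))).C)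
      (θ' : Map (KS p n (t + 1) 0).U (KS p n (s + (t + 1)) 0)),
      HC.mk (Map.comp F' (tower E hv (t + 1)).y) =
        HC.mk (Map.comp (tower E hv (s + (t + 1))).y f) ∧
      HC.mk (Map.comp F' (tower E hv (t + 1)).i) =
        HC.mk (Map.comp (tower E hv (s + (t + 1))).i θ') ∧
      ∀ (J : Mon n (s + t + 1)) (I : Mon n t) (w : Mil p),
        ∑ i, mt E θ' J (I.succ i) (Mil.Rop p i w) =
          ∑ i, if h : 0 < J.1 i then mt E θ (J.pred i h) I (Mil.Lop p i w) else 0 := by
  -- the map of k-invariants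
  have h0 : (Map.comp (Map.comp (tower E hv (s + t)).κ F) (tower E hv t).y).Null := by
    rw [← HC.mk_eq_zero, ← Map.comp_assoc, ob_comp_right _ hF, Map.comp_assoc, HC.mk_eq_zero]
    exact (tower E hv (s + t)).κy.comp_left f
  obtain ⟨θp, hθp⟩ := ob_im (tower E hv t) (t := s + t + 1) (k := 1)
    (Map.comp (tower E hv (s + t)).κ F) h0
  -- the map of fibres
  obtain ⟨F0', hF1', hF2'⟩ := Map.exists_fib_map (tower E hv t).κ (tower E hv (s + t)).κ F θp hθp
  obtain ⟨F0, hF1, hF2⟩ : ∃ F0 : Map (tower E hv (t + 1)).C.U (tower E hv (s + t + 1)).C,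
      Map.post (tproj E hv (s + t)) F0 = Map.comp F (Map.ofHom (tproj E hv t)) ∧
      Map.comp F0 (Map.ofHom (tower E hv t).κ.fibI) =
        Map.comp (Map.ofHom (tower E hv (s + t)).κ.fibI) θp.Om := ⟨F0', hF1', hF2'⟩
  obtain ⟨θ', hθ1, hθ2⟩ := mt_om E (s := t + 1) (t := s + t + 1) (k := 0) (l := 0)
    (by simp) θp
  have hi : HC.mk (Map.comp F0 (tower E hv (t + 1)).i) =
      HC.mk (Map.comp (tower E hv (s + t + 1)).i θ') := by
    have e1 : Map.comp F0 (tower E hv (t + 1)).i =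
        Map.comp (Map.comp F0 (Map.ofHom (tower E hv t).κ.fibI))
          (Map.ofHom (KS.toOm (t + 1) (show (0 : ℤ) + 1 = 1 by norm_num))) := rfl
    have e3 := congrArg (fun z => HC.mk (Map.comp z
      (Map.ofHom (KS.toOm (t + 1) (show (0 : ℤ) + 1 = 1 by norm_num))))) hF2
    have e4 := ob_comp_right (Map.ofHom (tower E hv (s + t)).κ.fibI) hθ1
    exact (congrArg HC.mk e1).trans (e3.trans e4)
  -- the correction
  have hd : (Map.post (tproj E hv (s + t))
      (Map.comp (tower E hv (s + t + 1)).y f + -(Map.comp F0 (tower E hv (t + 1)).y))).Null := by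
    rw [← HC.mk_eq_zero, map_add, map_neg, map_add, map_neg]
    have e1 : Map.post (tproj E hv (s + t)) (Map.comp (tower E hv (s + t + 1)).y f) =
        Map.comp (tower E hv (s + t)).y f :=
      congrArg (fun z => Map.comp z f) (tproj_y E hv (s + t))
    have e2 : Map.post (tproj E hv (s + t)) (Map.comp F0 (tower E hv (t + 1)).y) =
        Map.comp F (tower E hv t).y := by
      have e3 : Map.post (tproj E hv (s + t)) (Map.comp F0 (tower E hv (t + 1)).y) =
          Map.comp (Map.post (tproj E hv (s + t)) F0) (tower E hv (t + 1)).y := rfl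
      rw [e3, hF1, ← Map.comp_assoc]
      exact congrArg (fun z => Map.comp F z) (tproj_y E hv t)
    rw [e1, e2, hF, add_neg_cancel]
  obtain ⟨w, hw⟩ := Map.exists_om_lift (tower E hv (s + t)).κ _ hd
  obtain ⟨w0, hw0⟩ := ((KS.toOm_we (p := p) (n := n) (s + t + 1)
    (show (0 : ℤ) + 1 = 1 by norm_num)).comp_bijective (X := Y.U)).2 (HC.mk w)
  obtain ⟨w', rfl⟩ := HC.mk_surj w0
  obtain ⟨c, hc⟩ := (tower E hv (t + 1)).exists_ext hv w'
  have hw2 : HC.mk (Map.comp (tower E hv (s + t + 1)).i w') =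
      HC.mk (Map.comp (tower E hv (s + t + 1)).y f + -(Map.comp F0 (tower E hv (t + 1)).y)) := by
    refine Eq.trans ?_ hw
    exact congrArg (HC.comp (Map.ofHom (tower E hv (s + t)).κ.fibI)) hw0
  refine ⟨F0 + Map.comp (tower E hv (s + t + 1)).i (Map.comp c (tower E hv (t + 1)).b), θ',
    ?_, ?_, ?_⟩
  · have e1 : HC.mk (Map.comp (F0 + Map.comp (tower E hv (s + t + 1)).i
        (Map.comp c (tower E hv (t + 1)).b)) (tower E hv (t + 1)).y) =
        HC.mk (Map.comp F0 (tower E hv (t + 1)).y) + HC.mk (Map.comp (tower E hv (s + t + 1)).i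
          (Map.comp (Map.comp c (tower E hv (t + 1)).b) (tower E hv (t + 1)).y)) := by
      rw [Map.comp_add_left, map_add]
      rfl
    refine e1.trans ?_
    rw [ob_comp_right _ hc, hw2, map_add, map_neg]
    exact add_add_neg_cancel'_right _ _
  · have e1 : HC.mk (Map.comp (F0 + Map.comp (tower E hv (s + t + 1)).i
        (Map.comp c (tower E hv (t + 1)).b)) (tower E hv (t + 1)).i) =
        HC.mk (Map.comp F0 (tower E hv (t + 1)).i) + HC.mk (Map.comp
          (Map.comp (tower E hv (s + t + 1)).i c)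
            (Map.comp (tower E hv (t + 1)).b (tower E hv (t + 1)).i)) := by
      rw [Map.comp_add_left, map_add]
      rfl
    have e2 : HC.mk (Map.comp (Map.comp (tower E hv (s + t + 1)).i c)
        (Map.comp (tower E hv (t + 1)).b (tower E hv (t + 1)).i)) = 0 :=
      HC.mk_eq_zero.2 (((tower E hv (t + 1)).bi (Nat.succ_pos t)).comp _)
    refine e1.trans ?_
    rw [e2, add_zero]
    exact hi
  · intro J I w
    have e1 : HC.mk (Map.comp θp (qm Q t 0)) = HC.mk (Map.comp (qm Q (s + t) 0) θ) := by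
      have e2 := ob_comp_right θp (tower E hv t).κi
      have e3 := ob_comp_left hθp (tower E hv t).i
      have e4 := ob_comp_right (tower E hv (s + t)).κ hθ
      have e5 := ob_comp_left (tower E hv (s + t)).κi θ
      exact e2.symm.trans (e3.trans (e4.trans e5))
    have e6 : mt E (Map.comp θp (qm Q t 0)) J I w = mt E (Map.comp (qm Q (s + t) 0) θ) J I w :=
      prO_congr E w (ob_comp_right (KS.pr J) (ob_comp_left e1 (KS.inj I)))
    have e7 := mt_comp_qm E (s := t) (k := 0) θp J I w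
    have e8 := mt_qm_comp E θ J I w
    have e9 : ∀ i : Fin (n + 1), mt E θ' J (I.succ i) (Mil.Rop p i w) =
        mt E θp J (I.succ i) (Mil.Rop p i w) := fun i => hθ2 J (I.succ i) _
    rw [sub_self, Int.natAbs_zero, pow_zero, one_mul] at e8
    rw [Finset.sum_congr rfl fun i _ => e9 i]
    exact e7.symm.trans (e6.trans e8)

/-- **The action of a self map of filtration `s` on leading terms.** -/
theorem exists_theta (s : ℕ) (f : Map Y.U Y) (c : Map (KS p n 0 0).U (KS p n s 0))
    (hf : HC.mk (Map.comp (tower E hv s).y f) =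
      HC.mk (Map.comp (tower E hv s).i (Map.comp c v))) :
    ∃ θ : ∀ t, Map (KS p n t 0).U (KS p n (s + t) 0), HC.mk (θ 0) = HC.mk c ∧
      (∀ t (J : Mon n (s + t + 1)) (I : Mon n t) (w : Mil p),
        ∑ i, mt E (θ (t + 1)) J (I.succ i) (Mil.Rop p i w) =
          ∑ i, if h : 0 < J.1 i then mt E (θ t) (J.pred i h) I (Mil.Lop p i w) else 0) ∧
      ∀ t q (x : Y.pi q) (l : (KS p n t 0).pi q),
        (tower E hv t).y.pi q x = (tower E hv t).i.pi q l →
        (tower E hv (s + t)).y.pi q (f.pi q x) =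
          (tower E hv (s + t)).i.pi q ((θ t).pi q l) := by
  have step : ∀ t (A : {A : Map (tower E hv t).C.U (tower E hv (s + t)).C ×
      Map (KS p n t 0).U (KS p n (s + t) 0) //
      HC.mk (Map.comp A.1 (tower E hv t).y) = HC.mk (Map.comp (tower E hv (s + t)).y f) ∧
      HC.mk (Map.comp A.1 (tower E hv t).i) = HC.mk (Map.comp (tower E hv (s + t)).i A.2)}),
      ∃ B : {A : Map (tower E hv (t + 1)).C.U (tower E hv (s + (t + 1))).C ×
      Map (KS p n (t + 1) 0).U (KS p n (s + (t + 1)) 0) //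
      HC.mk (Map.comp A.1 (tower E hv (t + 1)).y) =
        HC.mk (Map.comp (tower E hv (s + (t + 1))).y f) ∧
      HC.mk (Map.comp A.1 (tower E hv (t + 1)).i) =
        HC.mk (Map.comp (tower E hv (s + (t + 1))).i A.2)},
      ∀ (J : Mon n (s + t + 1)) (I : Mon n t) (w : Mil p),
        ∑ i, mt E B.1.2 J (I.succ i) (Mil.Rop p i w) =
          ∑ i, if h : 0 < J.1 i then mt E A.1.2 (J.pred i h) I (Mil.Lop p i w) else 0 := by
    rintro t ⟨⟨F, θ⟩, hF, hθ⟩
    obtain ⟨F', θ', h1, h2, h3⟩ := tower_map_step E hv s t f F hF θ hθ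
    exact ⟨⟨⟨F', θ'⟩, h1, h2⟩, h3⟩
  choose nx hnx using step
  let F : ∀ t, {A : Map (tower E hv t).C.U (tower E hv (s + t)).C ×
      Map (KS p n t 0).U (KS p n (s + t) 0) //
      HC.mk (Map.comp A.1 (tower E hv t).y) = HC.mk (Map.comp (tower E hv (s + t)).y f) ∧
      HC.mk (Map.comp A.1 (tower E hv t).i) = HC.mk (Map.comp (tower E hv (s + t)).i A.2)} :=
    fun t => Nat.rec (motive := fun t => {A : Map (tower E hv t).C.U (tower E hv (s + t)).C ×
      Map (KS p n t 0).U (KS p n (s + t) 0) //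
      HC.mk (Map.comp A.1 (tower E hv t).y) = HC.mk (Map.comp (tower E hv (s + t)).y f) ∧
      HC.mk (Map.comp A.1 (tower E hv t).i) = HC.mk (Map.comp (tower E hv (s + t)).i A.2)})
      ⟨⟨Map.comp (tower E hv s).i c, c⟩, hf.symm, rfl⟩ (fun t A => nx t A) t
  refine ⟨fun t => (F t).1.2, rfl, fun t => hnx t (F t), fun t q x l hx => ?_⟩
  have e1 := DFunLike.congr_fun (Map.pi_congr (F t).2.1 q) x
  have e2 := DFunLike.congr_fun (Map.pi_congr (F t).2.2 q) l
  rw [Map.pi_comp, Map.pi_comp] at e1 e2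
  have e3 : (F t).1.1.pi q ((tower E hv t).y.pi q x) =
      (F t).1.1.pi q ((tower E hv t).i.pi q l) := congrArg _ hx
  exact e1.symm.trans (e3.trans e2)

end BPN
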