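import Pool.Agent.BPN.T.Bridge

/-!
# Open image (project BPN, module T/Open)
-/

namespace BPN

open GSp

variable {p n : ℕ} [Fact p.Prime] {Q : ∀ i : Fin (n + 1), Op p (2 * p ^ (i : ℕ) - 1)}

/-- The number of monomials in `v_1, .., v_n` of degree `q`: the rank of `π_q`. -/
noncomputable def rk (p n : ℕ) (q : ℤ) : ℕ :=
  Nat.card {I : Fin n → ℕ // ∑ i, (I i : ℤ) * (2 * ((p : ℤ) ^ ((i : ℕ) + 1) - 1)) = q}

/-- The rank hypothesis. -/
def RkHyp (p n : ℕ) (Y : GSp) : Prop := ∀ q,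
  Nat.card (Y.pi q ⧸ (zsmulAddGroupHom ((p : ℤ)) : Y.pi q →+ Y.pi q).range) = p ^ rk p n q

variable (E : EOut p n Q) {Y : GSp} {v : Map Y.U (KS p n 0 0)} (hv : IsCycK Q Y v)

/-- The homomorphism of homotopy groups induced by a homotopy class. -/
private noncomputable def hpi (G H : GSp) (q : ℤ) : HC G.U H →+ (G.pi q →+ H.pi q) :=
  QuotientAddGroup.lift (Map.NSub G.U H)
    { toFun := fun a => a.pi q
      map_zero' := by
        refine AddMonoidHom.ext fun x => ?_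
        obtain ⟨z, rfl⟩ := G.piMk_surj q x
        rfl
      map_add' := fun a b => AddMonoidHom.ext fun x => Map.pi_add a b q x }
    (fun _ ha => Map.Null.pi ha q)

private theorem hpi_mk {G H : GSp} (q : ℤ) (a : Map G.U H) : hpi G H q (HC.mk a) = a.pi q := rfl

private theorem hpi_comp {G H K : GSp} (q : ℤ) (c : Map H.U K) (x : HC G.U H) (z : G.pi q) :
    hpi G K q (HC.comp c x) z = c.pi q (hpi G H q x z) := by
  obtain ⟨a, rfl⟩ := HC.mk_surj x
  rw [HC.comp_mk, hpi_mk, hpi_mk, Map.pi_comp]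
  rfl

private theorem tproj_pi (s : ℕ) (q : ℤ) (x : Y.pi q) :
    (Map.ofHom (tproj E hv s)).pi q ((tower E hv (s + 1)).y.pi q x) =
      (tower E hv s).y.pi q x := by
  have h1 : Map.comp (Map.ofHom (tproj E hv s)) (tower E hv (s + 1)).y = (tower E hv s).y := by
    rw [Map.comp_ofHom]
    exact tproj_y E hv s
  have h2 := Map.pi_comp (Map.ofHom (tproj E hv s)) (tower E hv (s + 1)).y q
  rw [h1] at h2
  rw [h2]
  rfl

private theorem y_zero_mono (q : ℤ) (x : Y.pi q) (L k : ℕ)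
    (h : (tower E hv (L + k)).y.pi q x = 0) : (tower E hv L).y.pi q x = 0 := by
  induction k with
  | zero => exact h
  | succ k ih =>
    refine ih ?_
    rw [← tproj_pi]
    have h' : (tower E hv (L + k + 1)).y.pi q x = 0 := h
    rw [h', map_zero]

include E hv in
/-- **Completeness of `[Y, Y]`**: infinite sums `∑ p^j g_j` exist.  PROOF: the classes of
`y_s ∘ ∑_{j ≤ s} p^j g_j` are compatible (`tower_HC_smul`); `exists_map_Y`; then use
`ker_divisible` and `pi_sep`. -/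
theorem exists_sum (hY : YHyp p Y) (g : ℕ → Map Y.U Y) :
    ∃ f : Map Y.U Y, ∀ (q : ℤ) (x : Y.pi q) (N : ℕ), ∃ y : Y.pi q,
      f.pi q x = ∑ j ∈ Finset.range N, (p : ℤ) ^ j • (g j).pi q x + (p : ℤ) ^ N • y := by
  have hcomp : ∀ (s : ℕ) (u : Map Y.U Y), HC.comp (Map.ofHom (tproj E hv s))
      (HC.comp (tower E hv (s + 1)).y (HC.mk u)) = HC.comp (tower E hv s).y (HC.mk u) := by
    intro s u
    rw [HC.comp_comp]
    have h1 : Map.comp (Map.ofHom (tproj E hv s)) (tower E hv (s + 1)).y =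
        (tower E hv s).y := by
      rw [Map.comp_ofHom]
      exact tproj_y E hv s
    rw [h1]
  obtain ⟨f, hf⟩ := exists_map_Y E hv hY (X := Y.U)
    (fun s => ∑ j ∈ Finset.range (s + 1), (p : ℤ) ^ j • HC.comp (tower E hv s).y (HC.mk (g j)))
    (fun s => by
      rw [map_sum, Finset.sum_range_succ]
      have h1 : HC.comp (Map.ofHom (tproj E hv s)) ((p : ℤ) ^ (s + 1) •
          HC.comp (tower E hv (s + 1)).y (HC.mk (g (s + 1)))) = 0 := by
        rw [map_zsmul, hcomp, tower_HC_smul]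
      rw [h1, add_zero]
      refine Finset.sum_congr rfl fun j _ => ?_
      rw [map_zsmul, hcomp])
  refine ⟨f, fun q x N => ?_⟩
  obtain ⟨L, hL⟩ := ker_divisible E hv hY q N
  have h1 : ∀ s, (tower E hv s).y.pi q (f.pi q x) =
      ∑ j ∈ Finset.range (s + 1), (p : ℤ) ^ j • (tower E hv s).y.pi q ((g j).pi q x) := by
    intro s
    have h2 := congrArg (fun c => hpi Y (tower E hv s).C q c x) (hf s)
    simp only [hpi_mk, map_sum, map_zsmul, AddMonoidHom.finsetSum_apply] at h2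
    have h3 : (Map.comp (tower E hv s).y f).pi q x = (tower E hv s).y.pi q (f.pi q x) := by
      rw [Map.pi_comp]
      rfl
    rw [← h3, h2]
    refine Finset.sum_congr rfl fun j _ => ?_
    have h4 := hpi_comp q (tower E hv s).y (HC.mk (g j)) x
    rw [hpi_mk] at h4
    rw [← h4]
    rfl
  obtain ⟨S, hS⟩ : ∃ S : Y.pi q, S = ∑ j ∈ Finset.range (L + N + 1),
    (p : ℤ) ^ j • (g j).pi q x := ⟨_, rfl⟩
  have h2 : (tower E hv (L + N)).y.pi q (f.pi q x - S) = 0 := by
    rw [map_sub, h1, hS, map_sum, sub_eq_zero]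
    exact Finset.sum_congr rfl fun j _ => (map_zsmul _ _ _).symm
  obtain ⟨y, hy⟩ := hL _ (y_zero_mono E hv q _ L N h2)
  obtain ⟨k, hk⟩ : ∃ k, L + N + 1 = N + k := ⟨L + 1, by omega⟩
  rw [hk, Finset.sum_range_add] at hS
  refine ⟨y + ∑ j ∈ Finset.range k, (p : ℤ) ^ j • (g (N + j)).pi q x, ?_⟩
  have h3 : ∑ j ∈ Finset.range k, (p : ℤ) ^ (N + j) • (g (N + j)).pi q x =
      (p : ℤ) ^ N • ∑ j ∈ Finset.range k, (p : ℤ) ^ j • (g (N + j)).pi q x := by
    rw [Finset.smul_sum]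
    exact Finset.sum_congr rfl fun j _ => by rw [pow_add, mul_smul]
  rw [h3] at hS
  rw [smul_add, ← hy, hS]
  abel

/-- The Adams filtration: `Fil 0 = π_q Y`, `Fil (t + 1) = ker (π_q Y → π_q C_{t+1})`. -/
noncomputable def Fil (q : ℤ) : ℕ → AddSubgroup (Y.pi q)
  | 0 => ⊤
  | t + 1 => ((tower E hv t).y.pi q).ker

/-- Elements of `Fil t` have a leading term in `π_q K_t`. -/
theorem exists_lead (q : ℤ) (t : ℕ) (x : Y.pi q) (hx : x ∈ Fil E hv q t) :
    ∃ l : (KS p n t 0).pi q, (tower E hv t).y.pi q x = (tower E hv t).i.pi q l := by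
  cases t with
  | zero =>
    obtain ⟨l, hl⟩ := tower_i_zero_surj E hv q ((tower E hv 0).y.pi q x)
    exact ⟨l, hl.symm⟩
  | succ t =>
    have h1 : (tower E hv t).y.pi q x = 0 := hx
    rw [← tproj_pi] at h1
    obtain ⟨l, hl⟩ := (tower_exact E hv t q _).mp h1
    exact ⟨l, hl.symm⟩

private theorem mem_Fil_of_lead (q : ℤ) (t : ℕ) (x : Y.pi q) (l : (KS p n t 0).pi q)
    (h : (tower E hv t).y.pi q x = (tower E hv t).i.pi q l) : x ∈ Fil E hv q t := by
  cases t with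
  | zero => exact AddSubgroup.mem_top x
  | succ t =>
    change (tower E hv t).y.pi q x = 0
    rw [← tproj_pi, h]
    exact (tower_exact E hv t q _).mpr ⟨l, rfl⟩

/-- All leading terms occur. -/
theorem exists_of_lead (hY : YHyp p Y) (q : ℤ) (t : ℕ) (l : (KS p n t 0).pi q) :
    ∃ x ∈ Fil E hv q t, (tower E hv t).y.pi q x = (tower E hv t).i.pi q l := by
  obtain ⟨x, hx⟩ := y_pi_surj E hv hY t q ((tower E hv t).i.pi q l)
  exact ⟨x, mem_Fil_of_lead E hv q t x l hx, hx⟩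

private theorem y_p_smul (q : ℤ) (t : ℕ) (x : Y.pi q) (hx : x ∈ Fil E hv q t) :
    (p : ℤ) • (tower E hv t).y.pi q x = 0 := by
  obtain ⟨l, hl⟩ := exists_lead E hv q t x hx
  rw [hl, ← map_zsmul, KS.p_smul, map_zero]

theorem p_mem_Fil (q : ℤ) (t : ℕ) (x : Y.pi q) (hx : x ∈ Fil E hv q t) :
    (p : ℤ) • x ∈ Fil E hv q (t + 1) := by
  change (tower E hv t).y.pi q ((p : ℤ) • x) = 0
  rw [map_zsmul, y_p_smul E hv q t x hx]

theorem p_pow_mem_Fil (q : ℤ) (t : ℕ) (x : Y.pi q) : (p : ℤ) ^ t • x ∈ Fil E hv q t := by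
  induction t with
  | zero => exact AddSubgroup.mem_top _
  | succ t ih =>
    have h1 := p_mem_Fil E hv q t _ ih
    rwa [smul_smul, ← pow_succ'] at h1

private theorem Fil_anti (q : ℤ) (t : ℕ) : Fil E hv q (t + 1) ≤ Fil E hv q t := by
  intro x hx
  have h1 : (tower E hv t).y.pi q x = 0 := hx
  exact mem_Fil_of_lead E hv q t x 0 (by rw [h1, map_zero])

private theorem wt_pos (p : ℕ) [Fact p.Prime] (i : ℕ) : (1 : ℤ) ≤ 2 * ((p : ℤ) ^ (i + 1) - 1) := by
  have h1 : 2 ≤ p := (Fact.out : p.Prime).two_le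
  have h2 : (2 : ℤ) ≤ (p : ℤ) := by exact_mod_cast h1
  have h3 : (2 : ℤ) ≤ (p : ℤ) ^ (i + 1) := by
    calc (2 : ℤ) ≤ (p : ℤ) := h2
      _ = (p : ℤ) ^ 1 := (pow_one _).symm
      _ ≤ (p : ℤ) ^ (i + 1) := pow_le_pow_right₀ (by omega) (by omega)
  omega

private theorem mdeg_tail (p : ℕ) {n : ℕ} (I : Fin (n + 1) → ℕ) :
    mdeg p I = ∑ i : Fin n, (I i.succ : ℤ) * (2 * ((p : ℤ) ^ ((i : ℕ) + 1) - 1)) := by
  unfold mdeg
  rw [Fin.sum_univ_succ]
  simp

/-- the total degree without `v_0` is bounded by the stem -/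
private theorem tail_le (p : ℕ) [Fact p.Prime] {n : ℕ} (I : Fin (n + 1) → ℕ) :
    ((∑ i : Fin n, I i.succ : ℕ) : ℤ) ≤ mdeg p I := by
  rw [mdeg_tail]
  push_cast
  refine Finset.sum_le_sum fun i _ => ?_
  have h1 := wt_pos p (i : ℕ)
  have h2 : (0 : ℤ) ≤ (I i.succ : ℤ) := Int.natCast_nonneg _
  nlinarith

/-- For `a ≥ a₀(q)` the number of monomials of degree `a` in `v_0, .., v_n` and stem `q` is the
rank. -/
theorem card_mon (q : ℤ) (a : ℕ) (ha : q ≤ a) :
    Nat.card {I : Mon n a // mdeg p I.1 = q} = rk p n q := by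
  refine Nat.card_congr (Equiv.ofBijective (fun I : {I : Mon n a // mdeg p I.1 = q} =>
    (⟨fun i => I.1.1 i.succ, by rw [← mdeg_tail p I.1.1]; exact I.2⟩ :
      {I : Fin n → ℕ // ∑ i, (I i : ℤ) * (2 * ((p : ℤ) ^ ((i : ℕ) + 1) - 1)) = q})) ⟨?_, ?_⟩)
  · intro I J h
    have h1 : ∀ i : Fin n, I.1.1 i.succ = J.1.1 i.succ := fun i =>
      congrFun (congrArg Subtype.val h) i
    have h2 := I.1.2
    have h3 := J.1.2
    rw [Fin.sum_univ_succ] at h2 h3
    have h4 : ∑ i : Fin n, I.1.1 i.succ = ∑ i : Fin n, J.1.1 i.succ :=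
      Finset.sum_congr rfl fun i _ => h1 i
    refine Subtype.ext (Subtype.ext (funext fun i => ?_))
    refine Fin.cases ?_ h1 i
    omega
  · rintro ⟨J, hJ⟩
    have h1 : mdeg p (Fin.cons 0 J : Fin (n + 1) → ℕ) = q := by
      rw [mdeg_tail]
      simpa using hJ
    have h2 := tail_le p (Fin.cons 0 J : Fin (n + 1) → ℕ)
    rw [h1] at h2
    simp only [Fin.cons_succ] at h2
    have h3 : ∑ i, J i ≤ a := by
      have h4 : ((∑ i, J i : ℕ) : ℤ) ≤ (a : ℤ) := h2.trans ha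
      exact_mod_cast h4
    refine ⟨⟨⟨Fin.cons (a - ∑ i, J i) J, ?_⟩, ?_⟩, ?_⟩
    · rw [Fin.sum_univ_succ]
      simp only [Fin.cons_zero, Fin.cons_succ]
      omega
    · rw [mdeg_tail]
      simpa using hJ
    · refine Subtype.ext (funext fun i => ?_)
      simp

private theorem card_piK (q : ℤ) (a : ℕ) :
    Nat.card ((KS p n a 0).pi q) = p ^ Nat.card {I : Mon n a // mdeg p I.1 = q} := by
  classical
  have h : Function.Bijective (fun (x : (KS p n a 0).pi q)
      (I : {I : Mon n a // mdeg p I.1 = q}) => KS.val a 0 q x I.1) := by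
    constructor
    · intro x y hxy
      apply KS.val_inj a 0 q
      funext I
      by_cases hI : mdeg p I.1 = q
      · exact congrFun hxy ⟨I, hI⟩
      · rw [KS.val_supp a 0 q x I (by rwa [add_zero]), KS.val_supp a 0 q y I (by rwa [add_zero])]
    · intro f
      obtain ⟨x, hx⟩ := KS.val_surj a 0 q
        (fun I => if h : mdeg p I.1 = q then f ⟨I, h⟩ else 0)
        (fun I hI => dif_neg (by rwa [add_zero] at hI))
      refine ⟨x, funext fun I => ?_⟩
      have h2 := congrFun hx I.1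
      rw [dif_pos I.2] at h2
      exact h2
  rw [Nat.card_congr (Equiv.ofBijective _ h), Nat.card_fun, Nat.card_zmod]

private theorem relIndex_Fil (hY : YHyp p Y) (q : ℤ) (a : ℕ) :
    (Fil E hv q (a + 1)).relIndex (Fil E hv q a) = Nat.card ((KS p n a 0).pi q) := by
  have h1 : (Fil E hv q (a + 1)) = ((tower E hv a).y.pi q).ker := rfl
  rw [h1, AddSubgroup.relIndex_ker]
  have h2 : (Fil E hv q a).map ((tower E hv a).y.pi q) = ((tower E hv a).i.pi q).range := by
    ext z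
    constructor
    · rintro ⟨x, hx, rfl⟩
      obtain ⟨l, hl⟩ := exists_lead E hv q a x hx
      exact ⟨l, hl.symm⟩
    · rintro ⟨l, rfl⟩
      obtain ⟨x, hx, hxl⟩ := exists_of_lead E hv hY q a l
      exact ⟨x, hx, hxl⟩
  rw [h2]
  exact (Nat.card_congr (AddMonoidHom.ofInjective (tower_i_inj E hv a q)).toEquiv).symm

private theorem index_Fil_ne (q : ℤ) (a : ℕ) : (Fil E hv q a).index ≠ 0 := by
  cases a with
  | zero =>
    change (⊤ : AddSubgroup (Y.pi q)).index ≠ 0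
    rw [AddSubgroup.index_top]
    exact one_ne_zero
  | succ a =>
    change ((tower E hv a).y.pi q).ker.index ≠ 0
    rw [AddSubgroup.index_ker]
    have := tower_finite E hv a q
    have : Finite ((tower E hv a).y.pi q).range := inferInstance
    exact Nat.card_pos.ne'

/-- For large `a`, `Fil (a + 1) = p Fil a`.  PROOF: `p Fil a ⊆ Fil (a+1) ⊆ Fil a`, the index of
`p Fil a` in `Fil a` is `p^rank` (as `Fil a` has finite index in the torsion free group `π_q`) and the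
index of `Fil (a+1)` in `Fil a` is the number of elements of `π_q K_a`, which is the same. -/
theorem Fil_succ (hY : YHyp p Y) (hr : RkHyp p n Y) (q : ℤ) (a : ℕ) (ha : q ≤ a)
    (x : Y.pi q) (hx : x ∈ Fil E hv q (a + 1)) : ∃ y ∈ Fil E hv q a, x = (p : ℤ) • y := by
  obtain ⟨M, hM⟩ : ∃ M : Y.pi q →+ Y.pi q, M = zsmulAddGroupHom ((p : ℤ)) := ⟨_, rfl⟩
  have hMx : ∀ x, M x = (p : ℤ) • x := fun x => by rw [hM]; rfl
  have hMinj : Function.Injective M := by
    rw [injective_iff_map_eq_zero]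
    intro x hx
    rw [hMx] at hx
    exact hY.tf q x hx
  have h1 : ((Fil E hv q a).map M).index = (Fil E hv q a).index * M.range.index :=
    AddSubgroup.index_map_of_injective _ hMinj
  have h2 : M.range.index = p ^ rk p n q := by
    rw [hM]
    exact hr q
  have hle1 : (Fil E hv q a).map M ≤ Fil E hv q (a + 1) := by
    rintro _ ⟨x, hx, rfl⟩
    rw [hMx]
    exact p_mem_Fil E hv q a x hx
  have hle2 := Fil_anti E hv q a
  have h3 := AddSubgroup.relIndex_mul_index (hle1.trans hle2)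
  have h4 : ((Fil E hv q a).map M).relIndex (Fil E hv q a) = p ^ rk p n q := by
    rw [h1, h2, mul_comm] at h3
    exact Nat.eq_of_mul_eq_mul_left (Nat.pos_of_ne_zero (index_Fil_ne E hv q a)) h3
  have h5 := AddSubgroup.relIndex_mul_relIndex _ _ _ hle1 hle2
  rw [relIndex_Fil E hv hY, card_piK, card_mon q a ha, h4] at h5
  have hp : 0 < p ^ rk p n q := pow_pos (Fact.out : p.Prime).pos _
  have h6 : ((Fil E hv q a).map M).relIndex (Fil E hv q (a + 1)) = 1 :=
    Nat.eq_of_mul_eq_mul_right hp (by rw [h5, one_mul])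
  obtain ⟨y, hy, hyx⟩ := (AddSubgroup.relIndex_eq_one.mp h6) hx
  exact ⟨y, hy, by rw [← hMx, hyx]⟩

/-- The matrix of an additive map on leading terms. -/
private theorem exists_matrix (hY : YHyp p Y) (hr : RkHyp p n Y) (q : ℤ) (a b : ℕ) (ha : q ≤ a)
    (r : Fil E hv q a →+ Y.pi q) (hrb : ∀ x, r x ∈ Fil E hv q b) :
    ∃ H : Mon n b → Mon n a → ZMod p, (∀ J, mdeg p J.1 ≠ q → ∀ I, H J I = 0) ∧
      ∀ (x : Fil E hv q a) (l : (KS p n a 0).pi q),
        (tower E hv a).y.pi q x.1 = (tower E hv a).i.pi q l →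
        ∃ l' : (KS p n b 0).pi q, (tower E hv b).y.pi q (r x) = (tower E hv b).i.pi q l' ∧
          ∀ J, KS.val b 0 q l' J = ∑ I, H J I * KS.val a 0 q l I := by
  classical
  have h1 : ∀ I : Mon n a, ∃ (xI : Fil E hv q a) (lI : (KS p n a 0).pi q)
      (mI : (KS p n b 0).pi q),
      (tower E hv a).y.pi q xI.1 = (tower E hv a).i.pi q lI ∧
      (tower E hv b).y.pi q (r xI) = (tower E hv b).i.pi q mI ∧
      KS.val a 0 q lI = if mdeg p I.1 = q then Pi.single I 1 else 0 := by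
    intro I
    obtain ⟨lI, hlI⟩ := KS.val_surj (p := p) a 0 q (if mdeg p I.1 = q then Pi.single I 1 else 0) (by
      intro J hJ
      rw [add_zero] at hJ
      split_ifs with hI
      · rw [Pi.single_eq_of_ne]
        rintro rfl
        exact hJ hI
      · rw [Pi.zero_apply])
    obtain ⟨x, hx, hxl⟩ := exists_of_lead E hv hY q a lI
    obtain ⟨mI, hmI⟩ := exists_lead E hv q b (r ⟨x, hx⟩) (hrb _)
    exact ⟨⟨x, hx⟩, lI, mI, hxl, hmI, hlI⟩
  choose X L M hX hM hL using h1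
  refine ⟨fun J I => KS.val b 0 q (M I) J,
    fun J hJ I => KS.val_supp b 0 q _ J (by rwa [add_zero]), fun x l hxl => ?_⟩
  obtain ⟨m, hm⟩ : ∃ m : Mon n a → ℤ, ∀ I, ((m I : ℤ) : ZMod p) = KS.val a 0 q l I :=
    ⟨fun I => ((KS.val a 0 q l I).val : ℤ), fun I => by simp⟩
  have hl : l = ∑ I, m I • L I := by
    apply KS.val_inj a 0 q
    rw [map_sum]
    funext I₀
    rw [Finset.sum_apply]
    have h2 : ∀ I, (KS.val a 0 q (m I • L I)) I₀ =
        if I = I₀ then (if mdeg p I₀.1 = q then KS.val a 0 q l I₀ else 0) else 0 := by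
      intro I
      rw [map_zsmul, hL, Pi.smul_apply]
      by_cases hI : I = I₀
      · subst hI
        rw [if_pos rfl]
        split_ifs
        · rw [Pi.single_eq_same, zsmul_one, hm]
        · rw [Pi.zero_apply, smul_zero]
      · rw [if_neg hI]
        split_ifs
        · rw [Pi.single_eq_of_ne (Ne.symm hI), smul_zero]
        · rw [Pi.zero_apply, smul_zero]
    rw [Finset.sum_congr rfl fun I _ => h2 I, Finset.sum_ite_eq' Finset.univ I₀,
      if_pos (Finset.mem_univ _)]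
    split_ifs with h3
    · rfl
    · exact KS.val_supp a 0 q l I₀ (by rwa [add_zero])
  have hx' : (x - ∑ I, m I • X I).1 ∈ Fil E hv q (a + 1) := by
    change (tower E hv a).y.pi q (x - ∑ I, m I • X I).1 = 0
    rw [AddSubgroup.coe_sub, map_sub, AddSubgroup.val_finsetSum, map_sum, hxl, sub_eq_zero]
    conv_lhs => rw [hl, map_sum]
    refine Finset.sum_congr rfl fun I _ => ?_
    rw [map_zsmul, ← hX, AddSubgroup.coe_zsmul, map_zsmul]
  obtain ⟨z, hz, hxz⟩ := Fil_succ E hv hY hr q a ha _ hx'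
  have hx2 : x = ∑ I, m I • X I + (p : ℤ) • (⟨z, hz⟩ : Fil E hv q a) := by
    have h3 : x - ∑ I, m I • X I = (p : ℤ) • (⟨z, hz⟩ : Fil E hv q a) := Subtype.ext hxz
    rw [← h3]
    abel
  refine ⟨∑ I, m I • M I, ?_, fun J => ?_⟩
  · rw [hx2, map_add, map_add, map_sum, map_sum, map_sum, map_zsmul, map_zsmul,
      y_p_smul E hv q b _ (hrb _), add_zero]
    refine Finset.sum_congr rfl fun I _ => ?_
    rw [map_zsmul, map_zsmul, map_zsmul, hM]
  · rw [map_sum, Finset.sum_apply]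
    refine Finset.sum_congr rfl fun I _ => ?_
    rw [map_zsmul, Pi.smul_apply, zsmul_eq_mul, hm, mul_comm]

private theorem mdeg_update {n : ℕ} (I : Fin (n + 1) → ℕ) (d : ℕ) :
    mdeg p (Function.update I 0 d) = mdeg p I := by
  rw [mdeg_tail, mdeg_tail]
  refine Finset.sum_congr rfl fun i _ => ?_
  rw [Function.update_of_ne (Fin.succ_ne_zero i)]

private theorem sum_update_zero {n : ℕ} (I : Fin (n + 1) → ℕ) (d : ℕ) :
    (∑ i, Function.update I 0 d i) + I 0 = d + ∑ i, I i := sum_update_add I 0 d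

/-- The exponent `J - d ε_0`. -/
private noncomputable def shf {n b : ℕ} (J : Mon n b) (d : ℕ) : Fin (n + 1) →₀ ℕ :=
  Finsupp.equivFunOnFinite.symm (Function.update J.1 0 (J.1 0 - d))

private theorem le_J0 {a s b : ℕ} (hb : b = s + a) (J : Mon n b) (hJ : mdeg p J.1 ≤ s) :
    a ≤ J.1 0 := by
  have h1 := tail_le p J.1
  have h2 := J.2
  rw [Fin.sum_univ_succ] at h2
  have h3 : ((∑ i : Fin n, J.1 i.succ : ℕ) : ℤ) ≤ (s : ℤ) := h1.trans hJ
  have h4 : ∑ i : Fin n, J.1 i.succ ≤ s := by exact_mod_cast h3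
  omega

private theorem mon_shf {b : ℕ} (J : Mon n b) (d : ℕ) (hd : d ≤ J.1 0) (z : ZMod p) :
    MvPolynomial.X 0 ^ d * MvPolynomial.monomial (shf J d) z =
      (MvPolynomial.monomial J.fs z : PV p n) := by
  rw [MvPolynomial.X_pow_eq_monomial, MvPolynomial.monomial_mul, one_mul]
  congr 2
  ext i
  rw [Finsupp.add_apply]
  by_cases hi : i = 0
  · subst hi
    simp only [shf, Mon.fs, Finsupp.single_eq_same, Finsupp.equivFunOnFinite_symm_apply_apply,
      Function.update_self]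
    omega
  · rw [Finsupp.single_eq_of_ne hi, zero_add]
    simp only [shf, Mon.fs, Finsupp.equivFunOnFinite_symm_apply_apply]
    rw [Function.update_of_ne hi]

private theorem fs_inj {b : ℕ} {J J' : Mon n b} (h : J.fs = J'.fs) : J = J' :=
  Subtype.ext (Finsupp.equivFunOnFinite.symm.injective h)

/-- The polynomials which realise a family of matrices. -/
private theorem exists_poly (k a s : ℕ) (hks : 2 * k ≤ s)
    (H : ℤ → Mon n (s + a) → Mon n a → ZMod p)
    (hH : ∀ q : ℤ, q ≤ 2 * k → ∀ J, mdeg p J.1 ≠ q → ∀ I, H q J I = 0) :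
    ∃ c : (Fin (n + 1) → ℕ) → PV p n,
      (∀ I, ∀ J ∈ (c I).support, ∑ i, J i = s + ∑ i, I i ∧
        mdeg p (fun i => J i) = mdeg p I) ∧
      ∀ (I : Mon n a), mdeg p I.1 ≤ 2 * k → ∀ J : Mon n (s + a),
        (MvPolynomial.X 0 ^ (I.1 0) * c (Function.update I.1 0 0)).coeff J.fs =
          H (mdeg p I.1) J I := by
  classical
  have hmon : ∀ K : Fin (n + 1) → ℕ, K 0 = 0 → ∑ i, K i ≤ a →
      ∑ i, Function.update K 0 (a - ∑ i, K i) i = a := by
    intro K h1 h2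
    have h3 := sum_update_zero K (a - ∑ i, K i)
    omega
  have hks' : (2 * (k : ℤ)) ≤ s := by exact_mod_cast hks
  refine ⟨fun K => if h : K 0 = 0 ∧ ∑ i, K i ≤ a ∧ mdeg p K ≤ 2 * k then
    ∑ J : Mon n (s + a), if mdeg p J.1 = mdeg p K then
      MvPolynomial.monomial (shf J (a - ∑ i, K i))
        (H (mdeg p K) J ⟨Function.update K 0 (a - ∑ i, K i), hmon K h.1 h.2.1⟩) else 0
    else 0, fun K J' hJ' => ?_, fun I hI J₀ => ?_⟩
  · by_cases h : K 0 = 0 ∧ ∑ i, K i ≤ a ∧ mdeg p K ≤ 2 * k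
    · simp only [dif_pos h] at hJ'
      obtain ⟨J, -, hJ⟩ := Finset.mem_biUnion.mp (MvPolynomial.support_sum hJ')
      by_cases hd : mdeg p J.1 = mdeg p K
      · rw [if_pos hd] at hJ
        have h1 : J' = shf J (a - ∑ i, K i) := by
          have := MvPolynomial.support_monomial_subset hJ
          exact Finset.mem_singleton.mp this
        have h2 : a ≤ J.1 0 := le_J0 rfl J (by rw [hd]; exact h.2.2.trans hks')
        have h3 : ∀ i, J' i = Function.update J.1 0 (J.1 0 - (a - ∑ i, K i)) i := fun i => by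
          rw [h1]; rfl
        constructor
        · obtain ⟨Z, hZ⟩ : ∃ Z, Z = ∑ i, Function.update J.1 0 (J.1 0 - (a - ∑ i, K i)) i :=
            ⟨_, rfl⟩
          have h4 : (∑ i, Function.update J.1 0 (J.1 0 - (a - ∑ i, K i)) i) + J.1 0 =
            (J.1 0 - (a - ∑ i, K i)) + ∑ i, J.1 i :=
            sum_update_zero J.1 (J.1 0 - (a - ∑ i, K i))
          have h7 : ∑ i, J' i = Z := by
            rw [hZ]
            exact Finset.sum_congr rfl fun i _ => h3 i
          rw [← hZ] at h4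
          rw [h7]
          have h5 := J.2
          have h6 := h.2.1
          omega
        · rw [funext h3, mdeg_update, hd]
      · rw [if_neg hd] at hJ
        simp at hJ
    · simp only [dif_neg h] at hJ'
      simp at hJ'
  · obtain ⟨K, hK⟩ : ∃ K, K = Function.update I.1 0 0 := ⟨_, rfl⟩
    rw [← hK]
    have hK0 : K 0 = 0 := by rw [hK, Function.update_self]
    have hKs : (∑ i, K i) + I.1 0 = a := by
      have h1 := sum_update_zero I.1 0
      rw [← hK, I.2, zero_add] at h1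
      exact h1
    have hKd : mdeg p K = mdeg p I.1 := by rw [hK, mdeg_update]
    have h : K 0 = 0 ∧ ∑ i, K i ≤ a ∧ mdeg p K ≤ 2 * k := ⟨hK0, by omega, by rw [hKd]; exact hI⟩
    have hd : a - ∑ i, K i = I.1 0 := by omega
    have hI' : (⟨Function.update K 0 (a - ∑ i, K i), hmon K h.1 h.2.1⟩ : Mon n a) = I := by
      refine Subtype.ext ?_
      change Function.update K 0 (a - ∑ i, K i) = I.1
      rw [hd, hK, Function.update_idem, Function.update_eq_self]
    simp only [dif_pos h]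
    rw [hI', hd, Finset.mul_sum, MvPolynomial.coeff_sum]
    have h2 : ∀ J : Mon n (s + a), (MvPolynomial.X 0 ^ I.1 0 *
        (if mdeg p J.1 = mdeg p K then MvPolynomial.monomial (shf J (I.1 0))
          (H (mdeg p K) J I) else 0) : PV p n).coeff J₀.fs =
        if J = J₀ then H (mdeg p I.1) J₀ I else 0 := by
      intro J
      by_cases hJ : mdeg p J.1 = mdeg p K
      · have h3 : a ≤ J.1 0 := le_J0 rfl J (by rw [hJ]; exact h.2.2.trans hks')
        rw [if_pos hJ, mon_shf J _ (by omega), MvPolynomial.coeff_monomial]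
        by_cases hJJ : J = J₀
        · subst hJJ
          rw [if_pos rfl, if_pos rfl, hKd]
        · rw [if_neg (fun h => hJJ (fs_inj h)), if_neg hJJ]
      · rw [if_neg hJ, mul_zero, MvPolynomial.coeff_zero]
        by_cases hJJ : J = J₀
        · subst hJJ
          rw [if_pos rfl]
          exact (hH _ hI J (by rw [← hKd]; exact hJ) I).symm
        · rw [if_neg hJJ]
    rw [Finset.sum_congr rfl fun J _ => h2 J, Finset.sum_ite_eq' Finset.univ J₀,
      if_pos (Finset.mem_univ _)]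

private theorem open_step (hY : YHyp p Y) (hr : RkHyp p n Y) (k a s : ℕ) (hka : 2 * k ≤ a)
    (hks : 2 * k ≤ s)
    (hs : ∀ c : (Fin (n + 1) → ℕ) → PV p n,
      (∀ I, ∀ J ∈ (c I).support, ∑ i, J i = s + ∑ i, I i ∧
        mdeg p (fun i => J i) = mdeg p I) →
      ∃ f : Map Y.U Y, ∀ (t : ℕ) (q : ℤ), q ≤ 2 * k → ∀ (x : Y.pi q) (l : (KS p n t 0).pi q),
        (tower E hv t).y.pi q x = (tower E hv t).i.pi q l →
        ∃ l' : (KS p n (s + t) 0).pi q,
          (tower E hv (s + t)).y.pi q (f.pi q x) = (tower E hv (s + t)).i.pi q l' ∧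
          ∀ J : Mon n (s + t), KS.val (s + t) 0 q l' J = ∑ I : Mon n t,
            (MvPolynomial.X 0 ^ (I.1 0) * c (Function.update I.1 0 0)).coeff J.fs *
              KS.val t 0 q l I)
    (r : ∀ q : ℤ, Fil E hv q a →+ Y.pi q)
    (hrb : ∀ q : ℤ, q ≤ 2 * k → ∀ x, r q x ∈ Fil E hv q (s + a)) :
    ∃ (g : Map Y.U Y) (r' : ∀ q : ℤ, Fil E hv q a →+ Y.pi q),
      (∀ q : ℤ, q ≤ 2 * k → ∀ x, r' q x ∈ Fil E hv q (s + a)) ∧
      ∀ q : ℤ, q ≤ 2 * k → ∀ x, r q x = g.pi q x.1 + (p : ℤ) • r' q x := by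
  have hka' : (2 * (k : ℤ)) ≤ a := by exact_mod_cast hka
  have hmat : ∀ q : ℤ, ∃ H : Mon n (s + a) → Mon n a → ZMod p, q ≤ 2 * k →
      (∀ J, mdeg p J.1 ≠ q → ∀ I, H J I = 0) ∧
      ∀ (x : Fil E hv q a) (l : (KS p n a 0).pi q),
        (tower E hv a).y.pi q x.1 = (tower E hv a).i.pi q l →
        ∃ l' : (KS p n (s + a) 0).pi q,
          (tower E hv (s + a)).y.pi q (r q x) = (tower E hv (s + a)).i.pi q l' ∧
          ∀ J, KS.val (s + a) 0 q l' J = ∑ I, H J I * KS.val a 0 q l I := by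
    intro q
    by_cases hq : q ≤ 2 * k
    · obtain ⟨H, h1, h2⟩ := exists_matrix E hv hY hr q a (s + a) (hq.trans hka') (r q) (hrb q hq)
      exact ⟨H, fun _ => ⟨h1, h2⟩⟩
    · exact ⟨fun _ _ => 0, fun h => absurd h hq⟩
  choose H hH using hmat
  obtain ⟨c, hc1, hc2⟩ := exists_poly k a s hks H (fun q hq => (hH q hq).1)
  obtain ⟨g, hg⟩ := hs c hc1
  have key : ∀ q : ℤ, q ≤ 2 * k → ∀ x : Fil E hv q a, ∃ z ∈ Fil E hv q (s + a),
      r q x - g.pi q x.1 = (p : ℤ) • z := by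
    intro q hq x
    obtain ⟨l, hl⟩ := exists_lead E hv q a x.1 x.2
    obtain ⟨l1, h1, h2⟩ := (hH q hq).2 x l hl
    obtain ⟨l2, h3, h4⟩ := hg a q hq x.1 l hl
    have h5 : l1 = l2 := by
      apply KS.val_inj (s + a) 0 q
      funext J
      rw [h2, h4]
      refine Finset.sum_congr rfl fun I _ => ?_
      by_cases hI : mdeg p I.1 = q
      · rw [hc2 I (by rw [hI]; exact hq) J, hI]
      · rw [KS.val_supp a 0 q l I (by rwa [add_zero]), mul_zero, mul_zero]
    refine Fil_succ E hv hY hr q (s + a) (by push_cast; omega) _ ?_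
    change (tower E hv (s + a)).y.pi q (r q x - g.pi q x.1) = 0
    rw [map_sub, h1, h3, h5, sub_self]
  have hr' : ∀ q : ℤ, ∃ r'q : Fil E hv q a →+ Y.pi q, q ≤ 2 * k → ∀ x,
      r'q x ∈ Fil E hv q (s + a) ∧ r q x = g.pi q x.1 + (p : ℤ) • r'q x := by
    intro q
    by_cases hq : q ≤ 2 * k
    · choose z hz1 hz2 using key q hq
      refine ⟨AddMonoidHom.mk' z fun x y => ?_, fun _ x => ⟨hz1 x, ?_⟩⟩
      · rw [← sub_eq_zero]
        refine hY.tf q _ ?_
        rw [smul_sub, smul_add, ← hz2, ← hz2, ← hz2, AddSubgroup.coe_add, map_add, map_add]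
        abel
      · change r q x = g.pi q x.1 + (p : ℤ) • z x
        rw [← hz2]
        abel
    · exact ⟨0, fun h => absurd h hq⟩
  choose r' h1 using hr'
  exact ⟨g, r', fun q hq x => (h1 q hq x).1, fun q hq x => (h1 q hq x).2⟩

private theorem eq_zero_of_div (hY : YHyp p Y) (q : ℤ) (x : Y.pi q)
    (h : ∀ N : ℕ, ∃ y, x = (p : ℤ) ^ N • y) : x = 0 := by
  have h1 : IsHausdorff (Ideal.span {(p : ℤ)}) (Y.pi q) := (hY.comp q).toIsHausdorff
  refine h1.haus x fun N => ?_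
  obtain ⟨y, hy⟩ := h N
  rw [SModEq.zero, hy]
  exact Submodule.smul_mem_smul (Ideal.pow_mem_pow (Ideal.mem_span_singleton_self _) N)
    Submodule.mem_top

private theorem eq_zero_of_pow (hY : YHyp p Y) (q : ℤ) (x : Y.pi q) (N : ℕ)
    (h : (p : ℤ) ^ N • x = 0) : x = 0 := by
  induction N with
  | zero => rwa [pow_zero, one_smul] at h
  | succ N ih =>
    rw [pow_succ', mul_smul] at h
    exact ih (hY.tf q _ h)

include E hv in
/-- **Open image.**  For `k` there is `N₀` such that every family of endomorphisms `p^{N₀} h_q` of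
`π_q Y`, `q ≤ 2 k`, is induced by a self map of `Y`.
PROOF.  Let `a ≥ 2 k`, `M_q = Fil a`, `N_q = Fil (a + s) = p^s M_q`, `s` large.  By
`exists_realise` there are self maps `f_{I,J}` (`I, J : Mon n a`, `mdeg I = mdeg J ≤ 2 k`) with leading
term `v^I ↦ v_0^s v^J`, `v^{I'} ↦ 0` for the other `I'` of degree `a`.  So every additive
`h : M → N` is congruent mod `p N` to an integral combination of the `f_{I,J}`; iterate and use
`exists_sum`.  For `N₀ = a + s`, `p^{N₀} π_q ⊆ N_q`; two endomorphisms which agree on `M_q` agree. -/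
theorem open_image_int (hY : YHyp p Y) (hr : RkHyp p n Y) (k : ℕ) : ∃ N₀ : ℕ,
    ∀ h : ∀ q : ℤ, Y.pi q →+ Y.pi q, ∃ f : Map Y.U Y, ∀ q : ℤ, q ≤ 2 * k → ∀ x : Y.pi q,
      f.pi q x = (p : ℤ) ^ N₀ • h q x := by
  obtain ⟨s₀, hs₀⟩ := exists_realise E hv hY k
  obtain ⟨s, hs⟩ : ∃ s, s = max s₀ (2 * k) := ⟨_, rfl⟩
  have hs1 : s₀ ≤ s := by rw [hs]; exact le_max_left _ _
  have hs2 : 2 * k ≤ s := by rw [hs]; exact le_max_right _ _
  obtain ⟨a, ha⟩ : ∃ a, a = 2 * k := ⟨_, rfl⟩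
  refine ⟨s + a, fun h => ?_⟩
  have hstep : ∀ R : {r : ∀ q : ℤ, Fil E hv q a →+ Y.pi q //
      ∀ q : ℤ, q ≤ 2 * k → ∀ x, r q x ∈ Fil E hv q (s + a)},
      ∃ (g : Map Y.U Y) (R' : {r : ∀ q : ℤ, Fil E hv q a →+ Y.pi q //
        ∀ q : ℤ, q ≤ 2 * k → ∀ x, r q x ∈ Fil E hv q (s + a)}),
        ∀ q : ℤ, q ≤ 2 * k → ∀ x, R.1 q x = g.pi q x.1 + (p : ℤ) • R'.1 q x := by
    rintro ⟨r, hrr⟩
    obtain ⟨g, r', h1, h2⟩ := open_step E hv hY hr k a s ha.ge hs2 (hs₀ s hs1) r hrr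
    exact ⟨g, ⟨r', h1⟩, h2⟩
  choose G R' hG using hstep
  let r₀ : ∀ q : ℤ, Fil E hv q a →+ Y.pi q := fun q =>
    ((p : ℤ) ^ (s + a) • h q).comp (Fil E hv q a).subtype
  let S : ℕ → {r : ∀ q : ℤ, Fil E hv q a →+ Y.pi q //
      ∀ q : ℤ, q ≤ 2 * k → ∀ x, r q x ∈ Fil E hv q (s + a)} := fun j =>
    Nat.rec ⟨r₀, fun q _ x => p_pow_mem_Fil E hv q (s + a) (h q x.1)⟩ (fun _ R => R' R) j
  have hS0 : (S 0).1 = r₀ := rfl
  have hS : ∀ j, S (j + 1) = R' (S j) := fun j => rfl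
  have hsum : ∀ (N : ℕ) (q : ℤ), q ≤ 2 * k → ∀ x : Fil E hv q a, r₀ q x =
      ∑ j ∈ Finset.range N, (p : ℤ) ^ j • (G (S j)).pi q x.1 + (p : ℤ) ^ N • (S N).1 q x := by
    intro N q hq x
    induction N with
    | zero =>
      rw [Finset.sum_range_zero, pow_zero, one_smul, zero_add, hS0]
    | succ N ih =>
      rw [ih, Finset.sum_range_succ, hG (S N) q hq x, hS, smul_add, smul_smul, ← pow_succ]
      abel
  obtain ⟨f, hf⟩ := exists_sum E hv hY (fun j => G (S j))
  refine ⟨f, fun q hq x => ?_⟩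
  have hM : ∀ x : Fil E hv q a, f.pi q x.1 = (p : ℤ) ^ (s + a) • h q x.1 := by
    intro x
    have hr0 : r₀ q x = (p : ℤ) ^ (s + a) • h q x.1 := rfl
    rw [← hr0, ← sub_eq_zero]
    refine eq_zero_of_div hY q _ fun N => ?_
    obtain ⟨y, hy⟩ := hf q x.1 N
    refine ⟨y - (S N).1 q x, ?_⟩
    rw [hy, hsum N q hq x, smul_sub]
    abel
  have h1 := hM ⟨(p : ℤ) ^ a • x, p_pow_mem_Fil E hv q a x⟩
  have h2 : (p : ℤ) ^ a • (f.pi q x - (p : ℤ) ^ (s + a) • h q x) = 0 := by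
    rw [smul_sub, ← map_zsmul]
    have h3 : f.pi q ((p : ℤ) ^ a • x) = (p : ℤ) ^ (s + a) • h q ((p : ℤ) ^ a • x) := h1
    rw [h3, map_zsmul, smul_comm, sub_self]
  exact sub_eq_zero.mp (eq_zero_of_pow hY q _ a h2)

include E hv in
/-- **Open image** (`open_image_int` for natural numbers `q`). -/
theorem open_image (hY : YHyp p Y) (hr : RkHyp p n Y) (k : ℕ) : ∃ N₀ : ℕ,
    ∀ h : ∀ q : ℤ, Y.pi q →+ Y.pi q, ∃ f : Map Y.U Y, ∀ q, q ≤ 2 * k → ∀ x : Y.pi q,
      f.pi q x = (p : ℤ) ^ N₀ • h q x := by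
  obtain ⟨N₀, hN⟩ := open_image_int E hv hY hr k
  refine ⟨N₀, fun h => ?_⟩
  obtain ⟨f, hf⟩ := hN h
  exact ⟨f, fun q hq x => hf q (by exact_mod_cast hq) x⟩

end BPN
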