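import Pool.Agent.BPN.T.Stage

/-!
# Homotopy groups of the Koszul tower (project BPN, module T/PiT)
-/

namespace BPN

open GSp

theorem Shift.id_eq {k : ℤ} (h : Shift id k) : k = 0 := by
  obtain ⟨N, hN⟩ := h
  have h1 := hN N le_rfl
  have h2 : ((id N : ℕ) : ℤ) = (N : ℤ) := rfl
  omega

theorem EM.id_eq_zero {M : Type} [AddCommGroup M] {n q : ℤ} (h : q ≠ n) (z : (EM M n).G q) :
    (z.1 : (ℕ → ℕ) → M) id = 0 := by
  by_contra hne
  have h1 := (z.2.1 _ hne).2.id_eq
  omega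

/-- The value at `id` on homotopy groups, for all degrees (`0` unless `q = n`). -/
noncomputable def EM.val (M : Type) [AddCommGroup M] (n q : ℤ) : (EM M n).pi q →+ M :=
  QuotientAddGroup.lift _
    { toFun := fun z : (EM M n).Z q => (z.1.1 : (ℕ → ℕ) → M) id
      map_zero' := rfl
      map_add' := fun _ _ => rfl }
    (fun z hz => by
      change (z.1.1 : (ℕ → ℕ) → M) id = 0
      by_cases h : q = n
      · subst h
        have h1 : (EM M q).piMk q z = 0 := piMk_eq_zero.mpr hz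
        have h2 := EM.piHom_mk q z
        rw [h1, map_zero] at h2
        exact h2.symm
      · exact EM.id_eq_zero h z.1)

theorem EM.val_mk (M : Type) [AddCommGroup M] (n q : ℤ) (z : (EM M n).Z q) :
    EM.val M n q ((EM M n).piMk q z) = (z.1.1 : (ℕ → ℕ) → M) id := rfl

theorem EM.val_eq_piHom (M : Type) [AddCommGroup M] (n : ℤ) : EM.val M n n = EM.piHom M n := rfl

theorem EM.pi_eq_zero {M : Type} [AddCommGroup M] {n q : ℤ} (h : q ≠ n) (x : (EM M n).pi q) :
    x = 0 := vanish_iff.mp (EM.vanish h) x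

theorem EM.val_inj (M : Type) [AddCommGroup M] (n q : ℤ) : Function.Injective (EM.val M n q) := by
  by_cases h : q = n
  · subst h
    exact (EM.piHom_bijective q).1
  · intro x y _
    rw [EM.pi_eq_zero h x, EM.pi_eq_zero h y]

theorem EM.val_surj (M : Type) [AddCommGroup M] {n q : ℤ} (h : n = q) (m : M) :
    ∃ x, EM.val M n q x = m := by
  subst h
  exact (EM.piHom_bijective n).2 m

variable {p n : ℕ} [Fact p.Prime]

/-- The components of an element of the homotopy of a layer. -/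
noncomputable def KS.val (s : ℕ) (k q : ℤ) : (KS p n s k).pi q →+ (Mon n s → ZMod p) :=
  QuotientAddGroup.lift _
    { toFun := fun z : (KS p n s k).Z q => fun I =>
        (((z.1 : ∀ I : Mon n s, EMG (ZMod p) (mdeg p I.1 + k) q) I).1 : (ℕ → ℕ) → ZMod p) id
      map_zero' := rfl
      map_add' := fun _ _ => rfl }
    (fun z hz => by
      funext I
      have h1 : (KS.pr I).f q z.1 ∈ (EM (ZMod p) (mdeg p I.1 + k)).B q := (KS.pr I).map_B hz
      have h2 : (EM (ZMod p) (mdeg p I.1 + k)).piMk q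
          ⟨(KS.pr I).f q z.1, (KS.pr I).map_Z z.2⟩ = 0 := piMk_eq_zero.mpr h1
      have h3 := congrArg (EM.val (ZMod p) (mdeg p I.1 + k) q) h2
      rw [map_zero] at h3
      exact h3)

theorem KS.val_apply (s : ℕ) (k q : ℤ) (x : (KS p n s k).pi q) (I : Mon n s) :
    KS.val s k q x I = EM.val (ZMod p) (mdeg p I.1 + k) q ((KS.pr I).pi q x) := by
  obtain ⟨z, rfl⟩ := (KS p n s k).piMk_surj q x
  rfl

theorem KS.pi_ext {s : ℕ} {k q : ℤ} {x y : (KS p n s k).pi q}
    (h : ∀ I, (KS.pr I).pi q x = (KS.pr I).pi q y) : x = y :=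
  (LSp.pi_pi_bijective (L := fun I : Mon n s => EML (ZMod p) (ZMod p) (mdeg p I.1 + k)) q).1
    (funext fun I => h I)

theorem KS.val_inj (s : ℕ) (k q : ℤ) : Function.Injective (KS.val (p := p) (n := n) s k q) := by
  intro x y hxy
  refine KS.pi_ext fun I => EM.val_inj _ _ _ ?_
  rw [← KS.val_apply, ← KS.val_apply, hxy]

theorem KS.val_supp (s : ℕ) (k q : ℤ) (x : (KS p n s k).pi q) (I : Mon n s)
    (h : mdeg p I.1 + k ≠ q) : KS.val s k q x I = 0 := by
  rw [KS.val_apply, EM.pi_eq_zero (Ne.symm h) ((KS.pr I).pi q x), map_zero]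

theorem KS.val_surj (s : ℕ) (k q : ℤ) (f : Mon n s → ZMod p)
    (hf : ∀ I, mdeg p I.1 + k ≠ q → f I = 0) : ∃ x, KS.val s k q x = f := by
  have h1 : ∀ I : Mon n s, ∃ y, EM.val (ZMod p) (mdeg p I.1 + k) q y = f I := by
    intro I
    by_cases h : mdeg p I.1 + k = q
    · exact EM.val_surj (ZMod p) h (f I)
    · exact ⟨0, by rw [map_zero, hf I h]⟩
  choose y hy using h1
  obtain ⟨x, hx⟩ := (LSp.pi_pi_bijective
    (L := fun I : Mon n s => EML (ZMod p) (ZMod p) (mdeg p I.1 + k)) q).2 y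
  refine ⟨x, funext fun I => ?_⟩
  rw [KS.val_apply, ← hy I]
  exact congrArg _ (congrFun hx I)

theorem KS.pr_inj_same {s : ℕ} {k : ℤ} (I : Mon n s) :
    Map.comp (KS.pr (p := p) (k := k) I) (KS.inj I) = Map.id _ := by
  refine Map.ext2 fun q x => ?_
  classical
  exact Pi.single_eq_same (M := fun I : Mon n s => (EM (ZMod p) (mdeg p I.1 + k)).G q) I x

theorem KS.pi_comp_apply {G H K : GSp} (c : Map H.U K) (b : Map G.U H) (q : ℤ) (x : G.pi q) :
    (Map.comp c b).pi q x = c.pi q (b.pi q x) := by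
  rw [Map.pi_comp]
  rfl

theorem Map.pi_zero' {G H : GSp} (q : ℤ) (x : G.pi q) : (0 : Map G.U H).pi q x = 0 := by
  rw [Map.Null.pi Map.null_zero q]
  rfl

theorem KS.decomp {s : ℕ} {k q : ℤ} (x : (KS p n s k).pi q) :
    x = ∑ I, (KS.inj I).pi q ((KS.pr I).pi q x) := by
  refine KS.pi_ext fun J => ?_
  rw [map_sum, Finset.sum_eq_single J]
  · rw [← KS.pi_comp_apply, KS.pr_inj_same, Map.pi_id]
    rfl
  · intro I _ hI
    rw [← KS.pi_comp_apply, KS.pr_inj_ne (Ne.symm hI), Map.pi_zero']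
  · intro h
    exact absurd (Finset.mem_univ J) h

theorem prO_val {Q : ∀ i : Fin (n + 1), Op p (2 * p ^ (i : ℕ) - 1)} (E : EOut p n Q) :
    ∃ c : ZMod p, c ≠ 0 ∧ ∀ (i j q : ℤ), i = q → j = q →
      ∀ (a : Map (EM (ZMod p) i).U (EM (ZMod p) j)) (x : (EM (ZMod p) i).pi q),
      EM.val (ZMod p) j q (a.pi q x) =
        c * prO E (Mil.mon p 0 ∅) a * EM.val (ZMod p) i q x := by
  obtain ⟨c, hc, h⟩ := prO_one E
  refine ⟨c, hc, fun i j q hi hj a x => ?_⟩
  subst hi
  subst hj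
  exact h j a x

/-- The effect of a matrix of degree-preserving entries on homotopy: only the entries of degree `0`
contribute. -/
theorem KS.val_pi {Q : ∀ i : Fin (n + 1), Op p (2 * p ^ (i : ℕ) - 1)} (E : EOut p n Q) :
    ∃ c : ZMod p, c ≠ 0 ∧ ∀ (s t : ℕ) (k q : ℤ) (θ : Map (KS p n s k).U (KS p n t k))
      (x : (KS p n s k).pi q) (J : Mon n t), mdeg p J.1 + k = q →
      KS.val t k q (θ.pi q x) J =
        c * ∑ I : Mon n s, mt E θ J I (Mil.mon p 0 ∅) * KS.val s k q x I := by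
  obtain ⟨c, hc, h1⟩ := prO_val E
  refine ⟨c, hc, fun s t k q θ x J hJ => ?_⟩
  have h2 : (KS.pr J).pi q (θ.pi q x) =
      ∑ I, (Map.comp (KS.pr J) (Map.comp θ (KS.inj I))).pi q ((KS.pr I).pi q x) := by
    conv_lhs => rw [KS.decomp x]
    rw [map_sum, map_sum]
    refine Finset.sum_congr rfl fun I _ => ?_
    rw [KS.pi_comp_apply, KS.pi_comp_apply]
  rw [KS.val_apply, h2, map_sum, Finset.mul_sum]
  refine Finset.sum_congr rfl fun I _ => ?_
  by_cases hI : mdeg p I.1 + k = q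
  · rw [h1 _ _ q hI hJ, KS.val_apply, mul_assoc]
    rfl
  · rw [KS.val_apply, EM.pi_eq_zero (Ne.symm hI) ((KS.pr I).pi q x), map_zero, map_zero,
      map_zero, mul_zero, mul_zero]

theorem mdeg_nonneg {n : ℕ} (I : Fin (n + 1) → ℕ) : 0 ≤ mdeg p I := by
  unfold mdeg
  refine Finset.sum_nonneg fun i _ => ?_
  have h1 : (1 : ℤ) ≤ (p : ℤ) ^ (i : ℕ) := by
    have h2 : 0 < p ^ (i : ℕ) := pow_pos (Fact.out : p.Prime).pos _
    exact_mod_cast h2
  have h3 : (0 : ℤ) ≤ (I i : ℤ) := Int.natCast_nonneg _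
  have h4 : (0 : ℤ) ≤ 2 * ((p : ℤ) ^ (i : ℕ) - 1) := by omega
  exact mul_nonneg h3 h4

theorem KS.vanish_of (s : ℕ) (k q : ℤ) (h : ∀ I : Mon n s, mdeg p I.1 + k ≠ q) :
    (KS p n s k).Vanish q := by
  rw [vanish_iff]
  intro x
  apply KS.val_inj
  rw [map_zero]
  exact funext fun I => KS.val_supp s k q x I (h I)

theorem KS.vanish_odd (s : ℕ) (k q : ℤ) (h : Odd (q - k)) : (KS p n s k).Vanish q := by
  refine KS.vanish_of s k q fun I hI => ?_
  have h1 : Even (q - k) := by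
    have h2 : q - k = mdeg p I.1 := by omega
    rw [h2]
    exact mdeg_even p I.1
  exact (Int.not_even_iff_odd.mpr h) h1

theorem KS.vanish_neg (s : ℕ) (k q : ℤ) (h : q < k) : (KS p n s k).Vanish q := by
  refine KS.vanish_of s k q fun I hI => ?_
  have h1 := mdeg_nonneg (p := p) I.1
  omega

theorem KS.finite_pi (s : ℕ) (k q : ℤ) : Finite ((KS p n s k).pi q) := by
  haveI : NeZero p := ⟨(Fact.out : p.Prime).ne_zero⟩
  haveI : Finite (ZMod p) := inferInstance
  exact Finite.of_injective _ (KS.val_inj (p := p) (n := n) s k q)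

theorem KS.p_smul (s : ℕ) (k q : ℤ) (x : (KS p n s k).pi q) : (p : ℤ) • x = 0 := by
  apply KS.val_inj
  rw [map_zsmul, map_zero]
  refine funext fun I => ?_
  rw [Pi.smul_apply, zsmul_eq_mul]
  simp

theorem fib_vanish {G H : GSp} (c : Map G.U H) (q : ℤ) (hG : G.Vanish q)
    (hH : H.Vanish (q + 1)) : c.Fib.Vanish q := by
  rw [vanish_iff]
  intro x
  obtain ⟨y, rfl⟩ := (c.fib_exact_Fib q x).mp (vanish_iff.mp hG _)
  have h1 : omPi H q y = 0 := vanish_iff.mp hH _
  have h2 : y = 0 := (omPi_bijective H q).1 (by rw [h1, map_zero])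
  rw [h2, map_zero]

theorem finite_of_exact {A B C : Type} [AddGroup A] [AddGroup B] [AddGroup C] [Finite A]
    [Finite C] (i : A →+ B) (f : B →+ C) (h : ∀ x, f x = 0 → ∃ a, i a = x) : Finite B := by
  classical
  let g : C → B := fun c => if h : ∃ b, f b = c then h.choose else 0
  have hg : ∀ x, f (g (f x)) = f x := by
    intro x
    have h1 : ∃ b, f b = f x := ⟨x, rfl⟩
    have h2 : g (f x) = h1.choose := dif_pos h1
    rw [h2]
    exact h1.choose_spec
  refine Finite.of_surjective (fun z : A × C => i z.1 + g z.2) fun x => ?_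
  obtain ⟨a, ha⟩ := h (x - g (f x)) (by rw [map_sub, hg, sub_self])
  refine ⟨(a, f x), ?_⟩
  change i a + g (f x) = x
  rw [ha, sub_add_cancel]

theorem KS.zsmul_G (s : ℕ) (k q : ℤ) (y : (KS p n s k).G q) : (p : ℤ) • y = 0 := by
  have h1 : (((p : ℤ) : ZMod p)) • (y : (KL p n s k).V q) = (p : ℤ) • (y : (KL p n s k).V q) :=
    Int.cast_smul_eq_zsmul (ZMod p) (p : ℤ) (y : (KL p n s k).V q)
  have h2 : (((p : ℤ) : ZMod p)) = 0 := by simp
  rw [h2, zero_smul] at h1
  exact h1.symm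

theorem KS.zsmul_Om (s : ℕ) (k q : ℤ) (y : (KS p n s k).Om.G q) : (p : ℤ) • y = 0 := by
  apply Subtype.ext
  exact KS.zsmul_G s k (q + 1) y.1

/-- Evaluation of maps. -/
def Map.evH {X : PSp} {G : GSp} (q : ℤ) (x : X.X q) : Map X G →+ G.G q where
  toFun := fun a => a.f q x
  map_zero' := rfl
  map_add' := fun _ _ => rfl

theorem Map.zsmul_eq_zero {X : PSp} {G : GSp} (m : ℤ) (h : ∀ q (y : G.G q), m • y = 0)
    (a : Map X G) : m • a = 0 := by
  refine Map.ext2 fun q x => ?_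
  have h1 := map_zsmul (Map.evH q x) m a
  change (m • a).f q x = m • (a.f q x) at h1
  rw [h1, h]
  rfl

section tower

variable {Q : ∀ i : Fin (n + 1), Op p (2 * p ^ (i : ℕ) - 1)} (E : EOut p n Q) {Y : GSp}
  {v : Map Y.U (KS p n 0 0)} (hv : IsCycK Q Y v)

theorem tower_odd (s : ℕ) (q : ℤ) (h : Odd q) : (tower E hv s).C.Vanish q := by
  induction s with
  | zero =>
    refine KS.vanish_odd 0 0 q ?_
    rw [sub_zero]
    exact h
  | succ s ih =>
    refine fib_vanish (tower E hv s).κ q ih ?_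
    refine KS.vanish_odd (s + 1) 1 (q + 1) ?_
    rw [add_sub_cancel_right]
    exact h

theorem tower_neg (s : ℕ) (q : ℤ) (h : q < 0) : (tower E hv s).C.Vanish q := by
  induction s with
  | zero => exact KS.vanish_neg 0 0 q h
  | succ s ih =>
    refine fib_vanish (tower E hv s).κ q ih ?_
    exact KS.vanish_neg (s + 1) 1 (q + 1) (by omega)

theorem tower_κ (s : ℕ) (q : ℤ) : (tower E hv s).κ.pi q = 0 := by
  ext x
  change (tower E hv s).κ.pi q x = 0
  rcases Int.even_or_odd q with h | h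
  · have h1 : Odd (q - 1) := h.sub_odd odd_one
    exact vanish_iff.mp (KS.vanish_odd (s + 1) 1 q h1) _
  · have h1 : x = 0 := vanish_iff.mp (tower_odd E hv s q h) x
    rw [h1, map_zero]

theorem tproj_pi_surj (s : ℕ) (q : ℤ) :
    Function.Surjective ((Map.ofHom (tproj E hv s)).pi q) := by
  intro x
  refine ((tower E hv s).κ.fib_exact_G q x).mp ?_
  rw [tower_κ E hv s q]
  rfl

theorem tower_i_inj (s : ℕ) (q : ℤ) : Function.Injective ((tower E hv s).i.pi q) := by
  cases s with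
  | zero =>
    change Function.Injective ((Map.id (KS p n 0 0)).pi q)
    rw [Map.pi_id]
    exact fun _ _ h => h
  | succ s =>
    change Function.Injective ((Map.comp (Map.ofHom (tower E hv s).κ.fibI)
      (Map.ofHom (KS.toOm (s + 1) (show (0 : ℤ) + 1 = 1 by norm_num)))).pi q)
    rw [Map.pi_comp, AddMonoidHom.coe_comp]
    refine Function.Injective.comp ?_ (KS.toOm_we (s + 1) (show (0 : ℤ) + 1 = 1 by norm_num) q).1
    rw [injective_iff_map_eq_zero]
    intro y hy
    obtain ⟨x, hx⟩ := ((tower E hv s).κ.fib_exact_Om q y).mp hy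
    rw [tower_κ E hv s (q + 1)] at hx
    apply (omPi_bijective _ q).1
    rw [← hx, map_zero]
    rfl

theorem tower_exact (s : ℕ) (q : ℤ) (x : (tower E hv (s + 1)).C.pi q) :
    (Map.ofHom (tproj E hv s)).pi q x = 0 ↔
      ∃ l : (KS p n (s + 1) 0).pi q, (tower E hv (s + 1)).i.pi q l = x := by
  have h0 : ∀ l : (KS p n (s + 1) 0).pi q, (tower E hv (s + 1)).i.pi q l =
      (Map.ofHom (tower E hv s).κ.fibI).pi q ((Map.ofHom (KS.toOm (p := p) (n := n) (s + 1)
        (show (0 : ℤ) + 1 = 1 by norm_num))).pi q l) := fun l =>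
    KS.pi_comp_apply (Map.ofHom (tower E hv s).κ.fibI) (Map.ofHom (KS.toOm (p := p) (n := n)
      (s + 1) (show (0 : ℤ) + 1 = 1 by norm_num))) q l
  constructor
  · intro h
    obtain ⟨y, hy⟩ := ((tower E hv s).κ.fib_exact_Fib q x).mp h
    obtain ⟨l, hl⟩ := (KS.toOm_we (p := p) (n := n) (s + 1)
      (show (0 : ℤ) + 1 = 1 by norm_num) q).2 y
    exact ⟨l, by rw [h0, hl]; exact hy⟩
  · rintro ⟨l, hl⟩
    rw [h0] at hl
    exact ((tower E hv s).κ.fib_exact_Fib q x).mpr ⟨_, hl⟩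

theorem tower_i_zero_surj (q : ℤ) : Function.Surjective ((tower E hv 0).i.pi q) := by
  change Function.Surjective ((Map.id (KS p n 0 0)).pi q)
  rw [Map.pi_id]
  exact fun x => ⟨x, rfl⟩

theorem tower_finite (s : ℕ) (q : ℤ) : Finite ((tower E hv s).C.pi q) := by
  induction s with
  | zero => exact KS.finite_pi 0 0 q
  | succ s ih =>
    haveI := ih
    haveI := KS.finite_pi (p := p) (n := n) (s + 1) 0 q
    exact finite_of_exact ((tower E hv (s + 1)).i.pi q) ((Map.ofHom (tproj E hv s)).pi q)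
      fun x hx => (tower_exact E hv s q x).mp hx

theorem tower_p_smul (s : ℕ) (q : ℤ) (x : (tower E hv s).C.pi q) :
    (p : ℤ) ^ (s + 1) • x = 0 := by
  induction s with
  | zero =>
    rw [zero_add, pow_one]
    exact KS.p_smul 0 0 q x
  | succ s ih =>
    have h1 : (Map.ofHom (tproj E hv s)).pi q ((p : ℤ) ^ (s + 1) • x) = 0 := by
      rw [map_zsmul]
      exact ih _
    obtain ⟨l, hl⟩ := (tower_exact E hv s q _).mp h1
    rw [pow_succ', mul_smul, ← hl, ← map_zsmul, KS.p_smul, map_zero]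

/-- The exponent of the groups `[X, C_s]`. -/
theorem tower_HC_smul (s : ℕ) {X : PSp} (x : HC X (tower E hv s).C) :
    (p : ℤ) ^ (s + 1) • x = 0 := by
  induction s with
  | zero =>
    obtain ⟨a, rfl⟩ := HC.mk_surj x
    rw [zero_add, pow_one, ← map_zsmul]
    have h1 : (p : ℤ) • a = 0 := Map.zsmul_eq_zero (p : ℤ) (fun q y => KS.zsmul_G 0 0 q y) a
    rw [h1, map_zero]
  | succ s ih =>
    obtain ⟨a, rfl⟩ := HC.mk_surj x
    have h1 := ih (HC.mk (Map.post (tproj E hv s) a))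
    rw [← map_zsmul, ← map_zsmul, HC.mk_eq_zero] at h1
    obtain ⟨w, hw⟩ := (tower E hv s).κ.exists_om_lift _ h1
    have h2 : (p : ℤ) • w = 0 :=
      Map.zsmul_eq_zero (p : ℤ) (fun q y => KS.zsmul_Om (s + 1) 1 q y) w
    have h3 : (p : ℤ) ^ (s + 1 + 1) • HC.mk a = (p : ℤ) • HC.mk ((p : ℤ) ^ (s + 1) • a) := by
      rw [pow_succ', mul_smul, map_zsmul]
    refine h3.trans ?_
    have h4 : (p : ℤ) • HC.mk ((p : ℤ) ^ (s + 1) • a) =
        (p : ℤ) • HC.mk (Map.post (tower E hv s).κ.fibI w) := congrArg _ hw.symm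
    refine h4.trans ?_
    rw [← map_zsmul, ← map_zsmul, h2, map_zero, map_zero]
    rfl

end tower

end BPN
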