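import Pool.Agent.BPN.S.HC
import Pool.Agent.BPN.Pull

/-!
# Additivity of the action of operations (project BPN, module T/SignA)
-/

namespace BPN

open CategoryTheory SSet Simplicial Opposite GSp

/-- Operations act additively and compatibly with coboundaries, relative version: `X` a simplicial set
and `A m` a predicate on `X_m` closed under all operators (a simplicial subset); cochains are taken
relative to `A`, i.e. vanishing on `A`. -/
structure RelBd (X : SSet.{0}) (A : ∀ m : ℕ, X.obj (op ⦋m⦌) → Prop) {l : ℕ} {M : Type}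
    [AddCommGroup M] (z : X.obj (op ⦋l⦌) → M) : Prop where
  bd : z = 0 ∨ ∃ (m : ℕ) (h : m + 1 = l) (e : X.obj (op ⦋m⦌) → M), e ∈ CoC X M m ∧
    (∀ σ, A m σ → e σ = 0) ∧ z = cobd h e

/-- A family of simplices of a pointed-set spectrum indexed by the simplices of a simplicial set,
compatible with faces and degeneracies. -/
structure Fam (X : SSet.{0}) (m : ℕ) (Y : PSp) where
  f : ∀ (j : ℕ) (q : ℤ), q = j - m → X.obj (op ⦋j⦌) → Y.X q
  fc' : ∀ {j' j : ℕ} (hj : j' + 1 = j) {q r : ℤ} (hr : q + 1 = r) (h : r = j - m)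
    (h' : q = j' - m) (i : ℕ) (_ : i ≤ j) (σ : X.obj (op ⦋j⦌)),
    Y.d i hr (f j r h σ) = f j' q h' (fc X i hj σ)
  big : ∀ {j : ℕ} {q r : ℤ} (hr : q + 1 = r) (h : r = j - m) (i : ℕ) (_ : j < i ∨ j = 0)
    (σ : X.obj (op ⦋j⦌)), Y.d i hr (f j r h σ) = Y.pt q
  dg' : ∀ {j' j : ℕ} (hj : j' + 1 = j) {q r : ℤ} (hr : q + 1 = r) (h : r = j - m)
    (h' : q = j' - m) (i : ℕ) (hi : i ≤ j') (τ : X.obj (op ⦋j'⦌)),
    Y.s i hr (f j' q h' τ) = f j r h (dg X i hj hi τ)

namespace Fam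

variable {X : SSet.{0}} {m : ℕ} {Y Z : PSp}

/-- Image under a map. -/
def map {G : GSp} (F : Fam X m Y) (a : Map Y G) : Fam X m G.U where
  f := fun j q h σ => a.f q (F.f j q h σ)
  fc' := fun hj q r hr h h' i hi σ => by
    rw [← F.fc' hj hr h h' i hi σ]
    exact (a.map_d i hr _).symm
  big := fun hr h i hi σ => (a.map_d i hr _).symm.trans (by
    rw [F.big hr h i hi σ]
    exact a.map_pt _)
  dg' := fun hj q r hr h h' i hi τ => by
    rw [← F.dg' hj hr h h' i hi τ]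
    exact (a.map_s i hr _).symm

/-- Pairing. -/
noncomputable def pair (F : Fam X m Y) (F' : Fam X m Z) : Fam X m (Y.smash Z) where
  f := fun j q h σ => nrm _ _ (F.f j q h σ) (F'.f j q h σ)
  fc' := fun hj q r hr h h' i hi σ => by
    rw [← F.fc' hj hr h h' i hi σ, ← F'.fc' hj hr h h' i hi σ]
    exact nrm_nrm (Y.d i hr) (Z.d i hr) (Y.d_pt _ _) (Z.d_pt _ _) _ _
  big := fun hr h i hi σ => by
    refine (nrm_nrm (Y.d i hr) (Z.d i hr) (Y.d_pt _ _) (Z.d_pt _ _) _ _).trans ?_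
    rw [F.big hr h i hi σ, nrm_left]
    rfl
  dg' := fun hj q r hr h h' i hi τ => by
    rw [← F.dg' hj hr h h' i hi τ, ← F'.dg' hj hr h h' i hi τ]
    exact nrm_nrm (Y.s i hr) (Z.s i hr) (Y.s_pt _ _) (Z.s_pt _ _) _ _

end Fam

/-- A family with values in the path spectrum of an Eilenberg-MacLane spectrum gives a cochain. -/
theorem Fam.relBd {X : SSet.{0}} {M' : Type} [AddCommGroup M'] {k m l : ℕ} (h : m + k = l)
    (F : Fam X m (EM M' k).P.U) (A : ∀ m : ℕ, X.obj (op ⦋m⦌) → Prop)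
    (hA : ∀ j q hq σ, A j σ → F.f j q hq σ = 0) :
    RelBd X A (fun σ : X.obj (op ⦋l⦌) =>
      ((EM M' k).dP.f k (F.f l k (by omega) σ)).1 id) := by
  have hk : (k : ℤ) - 1 + 1 = k := by omega
  have h0 : ∀ σ : X.obj (op ⦋l⦌), ∃ K₀ : ℕ, ∀ K, K₀ ≤ K →
      ((EM M' k).dP.f k (F.f l k (by omega) σ)).1 id =
        ∑ i ∈ Finset.range K, (-1 : ℤ) ^ i •
          ((EM M' k).P.d i hk (F.f l k (by omega) σ) : (EM M' k).G ((k : ℤ) - 1 + 1)).1 id := by
    intro σ
    obtain ⟨K₀, hK⟩ := (F.f l k (by omega) σ : (EM M' k).G ((k : ℤ) + 1)).2.2.2 id monotone_id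
      ⟨0, fun i _ => by rw [id_eq]; omega⟩
    refine ⟨K₀, fun K hKK => ?_⟩
    have h1 := hK (K + 1) (by omega)
    rw [Finset.sum_range_succ', pow_zero, one_smul, add_comm, add_eq_zero_iff_eq_neg,
      ← Finset.sum_neg_distrib] at h1
    refine Eq.trans h1 ?_
    refine Finset.sum_congr rfl fun i _ => ?_
    rw [pow_succ, mul_neg_one, neg_smul, neg_neg]
    rfl
  rcases Nat.eq_zero_or_pos l with hl | hl
  · subst hl
    refine ⟨Or.inl (funext fun σ => ?_)⟩
    obtain ⟨K₀, hK⟩ := h0 σ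
    rw [hK K₀ le_rfl]
    refine Finset.sum_eq_zero fun i _ => ?_
    have h2 := F.big hk (show (k : ℤ) = ((0 : ℕ) : ℤ) - m by omega) i (Or.inr rfl) σ
    have h3 := congrArg (fun z : (EM M' k).G ((k : ℤ) - 1 + 1) => z.1 id) h2
    exact (congrArg ((-1 : ℤ) ^ i • ·) h3).trans (smul_zero _)
  · obtain ⟨l', rfl⟩ : ∃ l', l = l' + 1 := ⟨l - 1, by omega⟩
    have hq : (k : ℤ) - 1 = l' - m := by push_cast at *; omega
    refine ⟨Or.inr ⟨l', rfl,
      fun τ => (F.f l' ((k : ℤ) - 1) hq τ : (EM M' k).G ((k : ℤ) - 1 + 1)).1 id,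
      fun i a ha hi τ => ?_, fun σ hσ => ?_, funext fun σ => ?_⟩⟩
    · have h2 := F.dg' ha (show (k : ℤ) - 2 + 1 = k - 1 by omega) hq (by push_cast at *; omega) i hi τ
      have h3 : (F.f a ((k : ℤ) - 2) (by push_cast at *; omega) τ :
          (EM M' k).G ((k : ℤ) - 2 + 1)) = 0 := EMG.eq_zero_of_lt (by omega) _
      have h4 : (EM M' k).P.U.s i (show (k : ℤ) - 2 + 1 = k - 1 by omega)
          (F.f a ((k : ℤ) - 2) (by push_cast at *; omega) τ) = 0 := by
        have h5 : F.f a ((k : ℤ) - 2) (by push_cast at *; omega) τ = (EM M' k).P.U.pt _ := h3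
        rw [h5]
        exact (EM M' k).P.U.s_pt i _
      have h5 := congrArg (fun z : (EM M' k).G ((k : ℤ) - 1 + 1) => z.1 id) (h2.symm.trans h4)
      exact h5
    · exact congrArg (fun z : (EM M' k).G ((k : ℤ) - 1 + 1) => z.1 id) (hA _ _ hq σ hσ)
    · obtain ⟨K₀, hK⟩ := h0 σ
      rw [hK (l' + 1 + 1 + K₀) (by omega), Finset.sum_range_add,
        Finset.sum_eq_zero (s := Finset.range K₀) (fun i _ => by
          have h2 := F.big hk (show (k : ℤ) = ((l' + 1 : ℕ) : ℤ) - m by omega) (l' + 1 + 1 + i)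
            (Or.inl (by omega)) σ
          have h3 := congrArg (fun z : (EM M' k).G ((k : ℤ) - 1 + 1) => z.1 id) h2
          exact (congrArg ((-1 : ℤ) ^ (l' + 1 + 1 + i) • ·) h3).trans (smul_zero _)), add_zero]
      refine Finset.sum_congr rfl fun i hi => ?_
      have h2 := F.fc' (rfl : l' + 1 = l' + 1) hk (show (k : ℤ) = ((l' + 1 : ℕ) : ℤ) - m by omega)
        hq i (by have := Finset.mem_range.mp hi; omega) σ
      have h3 := congrArg (fun z : (EM M' k).G ((k : ℤ) - 1 + 1) => z.1 id) h2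
      exact congrArg ((-1 : ℤ) ^ i • ·) h3

/-- Maps from a levelwise smash product are nullhomotopic. -/
theorem Map.null_smash {X Y : PSp} {G : GSp} (c : Map (X.smash Y) G) : c.Null := by
  obtain ⟨b, hb⟩ := Map.null_of_acyclic (smash_acyclic X Y) (X.smash Y).eta
  refine ⟨Map.comp (Map.mapP (Map.ofHom c.ext')) b, ?_⟩
  refine Map.ext2 fun q x => ?_
  have h1 : G.d 0 rfl (c.ext'.f (q + 1) (b.f q x)) =
      c.ext'.f q ((X.smash Y).F.d 0 rfl (b.f q x)) := (c.ext'.map_d 0 rfl _).symm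
  have h2 : (X.smash Y).F.d 0 rfl (b.f q x) = (X.smash Y).eta.f q x :=
    congrArg (fun m : Map (X.smash Y) (X.smash Y).F => m.f q x) hb
  refine h1.trans ?_
  rw [h2]
  exact c.ext'_of q _

variable {M M' : Type} [AddCommGroup M] [AddCommGroup M']

/-- The family of a cocycle. -/
noncomputable def pullF {X : SSet.{0}} {m : ℕ} (c : CoZ X M m) : Fam X m (EM M 0).U where
  f := fun j q h σ => pull c σ (n := 0) (q := q) (by omega)
  fc' := fun hj q r hr h h' i hi σ => pull_fc c σ hr hj _ _ hi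
  big := fun {j q r} hr h i hi σ => by
    rcases hi with hi | hi
    · exact pull_fc_big c σ hr _ hi
    · exact EMG.eq_zero_of_lt (by omega) _
  dg' := fun hj q r hr h h' i hi τ => pull_dg c τ hr hj _ _ hi

theorem pull_add {X : SSet.{0}} {m j : ℕ} (c c' : CoZ X M m) (σ : X.obj (op ⦋j⦌)) {n q : ℤ}
    (hq : q - n = j - m) : pull (c + c') σ hq = pull c σ hq + pull c' σ hq := by
  refine Subtype.ext (funext fun f => ?_)
  change pullFun (c.1 + c'.1) σ hq f = pullFun c.1 σ hq f + pullFun c'.1 σ hq f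
  unfold pullFun
  split_ifs
  · rfl
  · rw [add_zero]

theorem pullFun_zero_of {X : SSet.{0}} (A : ∀ m : ℕ, X.obj (op ⦋m⦌) → Prop)
    (hA : ∀ (f : ℕ → ℕ) (hf : Monotone f) (a b : ℕ) (hb : ∀ i, i ≤ a → f i ≤ b) σ, A b σ →
      A a (opr X f hf hb σ)) {m j : ℕ} (c : X.obj (op ⦋m⦌) → M) (hc : ∀ σ, A m σ → c σ = 0)
    (σ : X.obj (op ⦋j⦌)) (hσ : A j σ) {n q : ℤ} (hq : q - n = j - m) : pullFun c σ hq = 0 := by
  funext f
  unfold pullFun
  split_ifs
  · exact hc _ (hA _ _ _ _ _ _ hσ)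
  · rfl

/-- (S1) Additivity of the action, relative version. -/
theorem act_add_rel {X : SSet.{0}} (A : ∀ m : ℕ, X.obj (op ⦋m⦌) → Prop)
    (hA : ∀ (f : ℕ → ℕ) (hf : Monotone f) (a b : ℕ) (hb : ∀ i, i ≤ a → f i ≤ b) σ, A b σ →
      A a (opr X f hf hb σ)) {k m l : ℕ} (a : Map (EM M 0).U (EM M' k)) (h : m + k = l)
    (c c' : CoZ X M m) (hc : ∀ σ, A m σ → c.1 σ = 0) :
    RelBd X A (act a h (c + c') - act a h c' - act a h c) := by
  have h0 : ∀ q : ℤ, a.f q (0 : (EM M 0).G q) = 0 := fun q => a.map_pt q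
  have hl : ∀ (q : ℤ) (y : (EM M 0).G q),
      a.f q ((0 : (EM M 0).G q) + y) + -a.f q y + -a.f q (0 : (EM M 0).G q) = 0 :=
    fun q y => by rw [zero_add, h0, neg_zero, add_zero, add_neg_cancel]
  have hr : ∀ (q : ℤ) (x : (EM M 0).G q),
      a.f q (x + (0 : (EM M 0).G q)) + -a.f q (0 : (EM M 0).G q) + -a.f q x = 0 :=
    fun q x => by rw [add_zero, h0, neg_zero, add_zero, add_neg_cancel]
  have hcd : ∀ (i : ℕ) {q r : ℤ} (h : q + 1 = r) (x : (EM M 0).G r),
      a.f q ((EM M 0).d i h x) = (EM M' k).d i h (a.f r x) := fun i q r h x => a.map_d i h x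
  have hcs : ∀ (i : ℕ) {q r : ℤ} (h : q + 1 = r) (x : (EM M 0).G q),
      a.f r ((EM M 0).s i h x) = (EM M' k).s i h (a.f q x) := fun i q r h x => a.map_s i h x
  obtain ⟨D, hD⟩ : ∃ D : Map ((EM M 0).U.smash (EM M 0).U) (EM M' k),
      ∀ q x y, D.f q (nrm ((EM M 0).U.pt q) ((EM M 0).U.pt q) x y) =
        a.f q (x + y) + -a.f q y + -a.f q x :=
    ⟨Map.ofSmash (X := (EM M 0).U) (Y := (EM M 0).U) (G := EM M' k)
      (fun q x y => a.f q (x + y) + -a.f q y + -a.f q x) hl hr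
      (fun i q r h x y => by
        change a.f q ((EM M 0).d i h x + (EM M 0).d i h y) + -a.f q ((EM M 0).d i h y) +
          -a.f q ((EM M 0).d i h x) = (EM M' k).d i h (a.f r (x + y) + -a.f r y + -a.f r x)
        rw [← map_add ((EM M 0).d i h), hcd, hcd, hcd, map_add, map_add, map_neg, map_neg])
      (fun i q r h x y => by
        change a.f r ((EM M 0).s i h x + (EM M 0).s i h y) + -a.f r ((EM M 0).s i h y) +
          -a.f r ((EM M 0).s i h x) = (EM M' k).s i h (a.f q (x + y) + -a.f q y + -a.f q x)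
        rw [← map_add ((EM M 0).s i h), hcs, hcs, hcs, map_add, map_add, map_neg, map_neg]),
      fun q x y => Map.ofSmash_nrm (X := (EM M 0).U) (Y := (EM M 0).U) (G := EM M' k)
        (fun q x y => a.f q (x + y) + -a.f q y + -a.f q x) hl hr q x y⟩
  obtain ⟨b, hb⟩ := D.null_smash
  have key := Fam.relBd h (((pullF c).pair (pullF c')).map b) A (fun j q hq σ hσ => by
    change b.f q (nrm _ _ (pull c σ (n := 0) (q := q) (by omega)) _) = 0
    have hq' : q - 0 = (j : ℤ) - m := by omega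
    have h1 : pull c σ (n := 0) (q := q) hq' = (EM M 0).U.pt q :=
      Subtype.ext (pullFun_zero_of A hA c.1 hc σ hσ hq')
    rw [h1, nrm_left]
    exact b.map_pt q)
  have e : act a h (c + c') - act a h c' - act a h c = fun σ : X.obj (op ⦋l⦌) =>
      ((EM M' k).dP.f k ((((pullF c).pair (pullF c')).map b).f l k (by omega) σ)).1 id := by
    funext σ
    have h1 : (EM M' k).dP.f k ((((pullF c).pair (pullF c')).map b).f l k (by omega) σ) =
        D.f k (nrm _ _ (pull c σ (n := 0) (q := k) (by omega))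
          (pull c' σ (n := 0) (q := k) (by omega))) :=
      congrArg (fun m : Map ((EM M 0).U.smash (EM M 0).U) (EM M' k) => m.f k _) hb
    rw [h1, hD]
    simp only [Pi.sub_apply, act, pull_add]
    rw [sub_eq_add_neg, sub_eq_add_neg]
    rfl
  rw [e]
  exact key

end BPN
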