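import Pool.Agent.BPN.T.SignA

/-!
# Coboundaries go to coboundaries (project BPN, module T/SignB)

`coneFun e c σ`, `c = δ e`: the simplex of the path spectrum of `EM M 0` given by a cochain `e` and a
simplex `σ`; its end point is `pull (δ e) σ`.
-/

namespace BPN

open CategoryTheory SSet Simplicial Opposite GSp

section

variable {X : SSet.{0}} {M : Type} [AddCommGroup M]

omit [AddCommGroup M] in
theorem nstr_dl {f : ℕ → ℕ} (hf : ¬ StrictMono f) (x : ℕ) : ¬ StrictMono (dl x ∘ f) :=
  fun h => hf fun _ _ hij => (dl_strictMono x).lt_iff_lt.mp (h hij)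

omit [AddCommGroup M] in
theorem nstr_sg {f : ℕ → ℕ} (hf : ¬ StrictMono f) (x : ℕ) : ¬ StrictMono (sg x ∘ f) :=
  fun h => hf fun a b hab => by
    by_contra hn
    exact absurd (h hab) (not_lt.mpr (sg_mono x (not_lt.mp hn)))

theorem pullFun_strict {m j : ℕ} {c : X.obj (op ⦋m⦌) → M} {σ : X.obj (op ⦋j⦌)} {n q : ℤ}
    {hq : q - n = j - m} {f : ℕ → ℕ} (h : pullFun c σ hq f ≠ 0) :
    StrictMono f ∧ ∀ t : ℕ, m < t → (f t : ℤ) = t + (q - n) := by
  by_contra hn
  exact h (dif_neg hn)

theorem pullFun_fc {m j j' : ℕ} (c : X.obj (op ⦋m⦌) → M) (σ : X.obj (op ⦋j⦌)) {n q r : ℤ}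
    (hr : q + 1 = r) (hj : j' + 1 = j) (hq : r - n = j - m) (hq' : q - n = j' - m) {i : ℕ}
    (hi : i ≤ j) (f : ℕ → ℕ) : pullFun c σ hq (dl i ∘ f) = pullFun c (fc X i hj σ) hq' f := by
  unfold pullFun
  by_cases h : StrictMono f ∧ ∀ t : ℕ, m < t → (f t : ℤ) = t + (q - n)
  · have h' : StrictMono (dl i ∘ f) ∧ ∀ t : ℕ, m < t → ((dl i ∘ f) t : ℤ) = t + (r - n) := by
      refine ⟨(dl_strictMono i).comp h.1, fun t ht => ?_⟩
      have := h.2 t ht
      simp only [Function.comp_apply, dl]
      split_ifs <;> push_cast <;> omega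
    rw [dif_pos h, dif_pos h']
    unfold fc
    rw [opr_opr]
  · have h' : ¬ (StrictMono (dl i ∘ f) ∧ ∀ t : ℕ, m < t → ((dl i ∘ f) t : ℤ) = t + (r - n)) := by
      intro h'
      refine h ⟨fun a b hab => ?_, fun t ht => ?_⟩
      · by_contra hn
        exact absurd (h'.1 hab) (not_lt.mpr ((dl_strictMono i).monotone (not_lt.mp hn)))
      · have := h'.2 t ht
        simp only [Function.comp_apply, dl] at this
        split_ifs at this <;> push_cast at this <;> omega
    rw [dif_neg h, dif_neg h']

theorem pullFun_big {m j : ℕ} (c : X.obj (op ⦋m⦌) → M) (σ : X.obj (op ⦋j⦌)) {n r : ℤ}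
    (hq : r - n = j - m) {i : ℕ} (hi : j < i) (f : ℕ → ℕ) :
    pullFun c σ hq (dl i ∘ f) = 0 := by
  unfold pullFun
  rw [dif_neg]
  rintro ⟨_, h⟩
  have := h (i + m - j) (by omega)
  simp only [Function.comp_apply, dl] at this
  split_ifs at this <;> push_cast at this <;> omega

theorem pullFun_dg {m j j' : ℕ} {c : X.obj (op ⦋m⦌) → M} (hc : c ∈ CoC X M m)
    (τ : X.obj (op ⦋j'⦌)) {n q r : ℤ} (hr : q + 1 = r)
    (hj : j' + 1 = j) (hq : r - n = j - m) (hq' : q - n = j' - m) {i : ℕ} (hi : i ≤ j')
    (f : ℕ → ℕ) : pullFun c τ hq' (sg i ∘ f) = pullFun c (dg X i hj hi τ) hq f := by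
  unfold pullFun
  by_cases h : StrictMono f ∧ ∀ t : ℕ, m < t → (f t : ℤ) = t + (r - n)
  · rw [dif_pos h]
    by_cases h' : StrictMono (sg i ∘ f) ∧ ∀ t : ℕ, m < t → ((sg i ∘ f) t : ℤ) = t + (q - n)
    · rw [dif_pos h']
      unfold dg
      rw [opr_opr]
    · rw [dif_neg h']
      symm
      have h2 : ∀ t : ℕ, m < t → ((sg i ∘ f) t : ℤ) = t + (q - n) := by
        intro t ht
        have := h.2 t ht
        simp only [Function.comp_apply, sg]
        split_ifs <;> push_cast <;> omega
      have h3 : ¬ StrictMono (sg i ∘ f) := fun hs => h' ⟨hs, h2⟩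
      obtain ⟨a, ha⟩ : ∃ a, (sg i ∘ f) a = (sg i ∘ f) (a + 1) := by
        by_contra hn
        push Not at hn
        exact h3 (strictMono_nat_of_lt_succ fun a =>
          lt_of_le_of_ne ((sg_mono i).comp h.1.monotone (Nat.le_succ a)) (hn a))
      have ham : a + 1 ≤ m := by
        by_contra hn
        have h4 := h2 (a + 1) (by omega)
        rcases Nat.lt_or_ge m a with h5 | h5
        · have h6 := h2 a h5
          rw [ha] at h6
          push_cast at h4
          omega
        · have h7 : a = m := by omega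
          subst h7
          have h8 := h.2 (a + 1) (by omega)
          have h9 : f a < f (a + 1) := h.1 (by omega)
          rw [← ha] at h4
          simp only [Function.comp_apply, sg] at h4 ha
          split_ifs at h4 ha <;> push_cast at * <;> omega
      unfold dg
      rw [opr_opr]
      exact CoC.opr_eq_zero hc _ _ _ ham ha
  · have h' : ¬ (StrictMono (sg i ∘ f) ∧ ∀ t : ℕ, m < t → ((sg i ∘ f) t : ℤ) = t + (q - n)) := by
      intro h'
      refine h ⟨fun a b hab => ?_, fun t ht => ?_⟩
      · by_contra hn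
        exact absurd (h'.1 hab) (not_lt.mpr (sg_mono i (not_lt.mp hn)))
      · have := h'.2 t ht
        simp only [Function.comp_apply, sg] at this
        split_ifs at this <;> push_cast at this <;> omega
    rw [dif_neg h, dif_neg h']

/-- The coboundary of a pulled back cochain. -/
theorem pullFun_sum {m' m j : ℕ} (hm : m' + 1 = m) (e : X.obj (op ⦋m'⦌) → M)
    (σ : X.obj (op ⦋j⦌)) {n q q' : ℤ} (hq : q - n = j - m') (hq' : q' - n = j - m) {g : ℕ → ℕ}
    (hg : StrictMono g) (K : ℕ) (hK : m + 1 ≤ K) :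
    ∑ i ∈ Finset.range K, (-1 : ℤ) ^ i • pullFun e σ hq (g ∘ dl i) =
      pullFun (cobd hm e) σ hq' g := by
  subst hm
  by_cases hA : ∀ i : ℕ, m' + 1 < i → (g i : ℤ) = i + (q' - n)
  · have hgb : ∀ i, i ≤ m' + 1 → g i ≤ j := by
      intro i hi
      have h1 : g i < g (m' + 2) := hg (by omega)
      have h2 := hA (m' + 2) (by omega)
      push_cast at h2
      omega
    have h3 : pullFun (cobd rfl e) σ hq' g = cobd rfl e (opr X g hg.monotone hgb σ) :=
      dif_pos ⟨hg, hA⟩
    rw [h3]
    obtain ⟨K', rfl⟩ : ∃ K', K = m' + 1 + 1 + K' := ⟨K - (m' + 2), by omega⟩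
    rw [Finset.sum_range_add]
    have hz : ∑ x ∈ Finset.range K', (-1 : ℤ) ^ (m' + 1 + 1 + x) •
        pullFun e σ hq (g ∘ dl (m' + 1 + 1 + x)) = 0 := by
      refine Finset.sum_eq_zero fun x _ => ?_
      have : pullFun e σ hq (g ∘ dl (m' + 1 + 1 + x)) = 0 := by
        by_contra hne
        have h1 := (pullFun_strict hne).2 (m' + 1) (by omega)
        simp only [Function.comp_apply, dl] at h1
        rw [if_pos (by omega)] at h1
        have h2 := hgb (m' + 1) le_rfl
        push_cast at h1
        omega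
      rw [this, smul_zero]
    rw [hz, add_zero]
    unfold cobd
    refine Finset.sum_congr rfl fun i hi => ?_
    have hi' : i ≤ m' + 1 := by have := Finset.mem_range.mp hi; omega
    congr 1
    have hcond : StrictMono (g ∘ dl i) ∧
        ∀ i' : ℕ, m' < i' → ((g ∘ dl i) i' : ℤ) = i' + (q - n) := by
      refine ⟨hg.comp (dl_strictMono i), fun i' hi'' => ?_⟩
      simp only [Function.comp_apply, dl]
      rw [if_neg (by omega), hA (i' + 1) (by omega)]
      push_cast
      push_cast at hq'
      linarith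
    have h4 : pullFun e σ hq (g ∘ dl i) =
        e (opr X (g ∘ dl i) hcond.1.monotone (pull_bd hq hcond.1 hcond.2) σ) := dif_pos hcond
    rw [h4]
    unfold fc
    rw [opr_opr]
  · have h3 : pullFun (cobd rfl e) σ hq' g = 0 := dif_neg fun h => hA h.2
    rw [h3]
    refine Finset.sum_eq_zero fun i _ => ?_
    have : pullFun e σ hq (g ∘ dl i) = 0 := by
      by_contra hne
      have h1 := (pullFun_strict hne).2
      by_cases hi : i ≤ m' + 1
      · apply hA
        intro t ht
        have := h1 (t - 1) (by omega)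
        simp only [Function.comp_apply, dl] at this
        rw [if_neg (by omega), show t - 1 + 1 = t by omega] at this
        rw [this]
        have : ((t - 1 : ℕ) : ℤ) = t - 1 := by omega
        rw [this]
        push_cast at hq'
        linarith
      · have h2 := h1 (i - 1) (by omega)
        have h3 := h1 i (by omega)
        simp only [Function.comp_apply, dl] at h2 h3
        rw [if_pos (by omega)] at h2
        rw [if_neg (by omega)] at h3
        have h4 : g (i - 1) < g i := hg (by omega)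
        have h5 : g i < g (i + 1) := hg (by omega)
        omega
    rw [this, smul_zero]

open Classical in
/-- The underlying function of the cone simplex. -/
noncomputable def coneFun {m' m j : ℕ} (hm : m' + 1 = m) (e : X.obj (op ⦋m'⦌) → M)
    (c : X.obj (op ⦋m⦌) → M) (σ : X.obj (op ⦋j⦌)) {q : ℤ} (hq : q = j - m) (f : ℕ → ℕ) : M :=
  if StrictMono f then
    (if f 0 = 0 then
      pullFun e σ (n := 0) (q := q + 1) (by push_cast [← hm] at *; omega) (fun x => f (x + 1) - 1)
     else pullFun c σ (n := 0) (q := q) (by omega) (fun x => f x - 1))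
  else 0

theorem coneFun_zero {m' m j : ℕ} (hm : m' + 1 = m) (e : X.obj (op ⦋m'⦌) → M)
    (c : X.obj (op ⦋m⦌) → M) (σ : X.obj (op ⦋j⦌)) {q : ℤ} (hq : q = j - m) {f : ℕ → ℕ}
    (hf : StrictMono f) (h0 : f 0 = 0) : coneFun hm e c σ hq f =
      pullFun e σ (n := 0) (q := q + 1) (by push_cast [← hm] at *; omega)
        (fun x => f (x + 1) - 1) := by
  unfold coneFun
  rw [if_pos hf, if_pos h0]

theorem coneFun_pos {m' m j : ℕ} (hm : m' + 1 = m) (e : X.obj (op ⦋m'⦌) → M)
    (c : X.obj (op ⦋m⦌) → M) (σ : X.obj (op ⦋j⦌)) {q : ℤ} (hq : q = j - m) {f : ℕ → ℕ}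
    (hf : StrictMono f) (h0 : 0 < f 0) : coneFun hm e c σ hq f =
      pullFun c σ (n := 0) (q := q) (by omega) (fun x => f x - 1) := by
  unfold coneFun
  rw [if_pos hf, if_neg (by omega)]

theorem coneFun_not {m' m j : ℕ} (hm : m' + 1 = m) (e : X.obj (op ⦋m'⦌) → M)
    (c : X.obj (op ⦋m⦌) → M) (σ : X.obj (op ⦋j⦌)) {q : ℤ} (hq : q = j - m) {f : ℕ → ℕ}
    (hf : ¬ StrictMono f) : coneFun hm e c σ hq f = 0 := if_neg hf

theorem coneFun_mem {m' m j : ℕ} (hm : m' + 1 = m) (e : X.obj (op ⦋m'⦌) → M)
    (c : CoZ X M m) (hc : c.1 = cobd hm e) (σ : X.obj (op ⦋j⦌)) {q : ℤ} (hq : q = j - m) :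
    coneFun hm e c.1 σ hq ∈ EMG M 0 (q + 1) := by
  have hsm : ∀ f, coneFun hm e c.1 σ hq f ≠ 0 → StrictMono f := fun f hf => by
    by_contra h
    exact hf (coneFun_not hm e c.1 σ hq h)
  have hq1 : (q + 1) - 0 = (j : ℤ) - m' := by push_cast [← hm] at *; omega
  have hq2 : q - 0 = (j : ℤ) - m := by omega
  refine ⟨fun f hf => ?_, ⟨j + 2, fun f hf v hv => ?_⟩, fun g hg hs => ?_⟩
  · have hs := hsm f hf
    refine ⟨hs, m + 1, fun i hi => ?_⟩
    rcases Nat.eq_zero_or_pos (f 0) with h0 | h0
    · rw [coneFun_zero hm e c.1 σ hq hs h0] at hf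
      obtain ⟨i, rfl⟩ : ∃ i', i = i' + 1 := ⟨i - 1, by omega⟩
      have h1 : ((f (i + 1) - 1 : ℕ) : ℤ) = i + (q + 1 - 0) :=
        (pullFun_strict hf).2 i (by omega)
      have h2 : f 0 < f (i + 1) := hs (by omega)
      push_cast
      omega
    · rw [coneFun_pos hm e c.1 σ hq hs h0] at hf
      have h1 : ((f i - 1 : ℕ) : ℤ) = i + (q - 0) := (pullFun_strict hf).2 i (by omega)
      have h2 : f 0 ≤ f i := hs.monotone (Nat.zero_le i)
      omega
  · have hs := hsm f hf
    rcases Nat.eq_zero_or_pos (f 0) with h0 | h0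
    · rw [coneFun_zero hm e c.1 σ hq hs h0] at hf
      have h1 : ((f (v - 1 + m' - j + 1) - 1 : ℕ) : ℤ) = (v - 1 + m' - j : ℕ) + (q + 1 - 0) :=
        (pullFun_strict hf).2 (v - 1 + m' - j) (by omega)
      refine ⟨v - 1 + m' - j + 1, ?_⟩
      omega
    · rw [coneFun_pos hm e c.1 σ hq hs h0] at hf
      have h1 : ((f (v - 1 + m - j) - 1 : ℕ) : ℤ) = (v - 1 + m - j : ℕ) + (q - 0) :=
        (pullFun_strict hf).2 (v - 1 + m - j) (by omega)
      refine ⟨v - 1 + m - j, ?_⟩
      omega
  · by_cases hgs : StrictMono g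
    swap
    · exact EMG.auto hsm hg hgs
    obtain ⟨N, hN⟩ := hs
    rcases Nat.eq_zero_or_pos (g 0) with h0 | h0
    swap
    · have h1 : ∀ x, 0 < g x := fun x => lt_of_lt_of_le h0 (hgs.monotone (Nat.zero_le x))
      obtain ⟨K, hK⟩ := (pullFun_mem c.2 σ hq2).2.2 (fun x => g x - 1)
        (fun x y hxy => Nat.sub_le_sub_right (hg hxy) 1)
        ⟨N, fun i hi => by
          have := hN i hi
          have := h1 i
          simp only
          omega⟩
      refine ⟨K, fun T hT => ?_⟩
      rw [← hK T hT]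
      refine Finset.sum_congr rfl fun i _ => ?_
      rw [coneFun_pos hm e c.1 σ hq (hgs.comp (dl_strictMono i)) (h1 _)]
      rfl
    have h1 : ∀ x, 0 < g (x + 1) := fun x => by
      have : g 0 < g (x + 1) := hgs (Nat.succ_pos x)
      omega
    obtain ⟨g2, hg2⟩ : ∃ g2 : ℕ → ℕ, g2 = fun x => g (x + 1) - 1 := ⟨_, rfl⟩
    have hg2' : ∀ x, g2 x + 1 = g (x + 1) := fun x => by
      rw [hg2]
      have := h1 x
      simp only
      omega
    have hg2s : StrictMono g2 := fun x y hxy => by
      have h2 := hg2' x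
      have h3 := hg2' y
      have h4 : g (x + 1) < g (y + 1) := hgs (by omega)
      omega
    have key0 : coneFun hm e c.1 σ hq (g ∘ dl 0) = pullFun c.1 σ hq2 g2 := by
      rw [coneFun_pos hm e c.1 σ hq (hgs.comp (dl_strictMono 0)) (by
        have := h1 0
        simpa [dl] using this)]
      congr 1
      rw [hg2]
      funext x
      simp [dl]
    have keyS : ∀ i, coneFun hm e c.1 σ hq (g ∘ dl (i + 1)) =
        pullFun e σ hq1 (g2 ∘ dl i) := by
      intro i
      rw [coneFun_zero hm e c.1 σ hq (hgs.comp (dl_strictMono _)) (by simp [dl, h0])]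
      congr 1
      funext x
      have h2 : dl (i + 1) (x + 1) = dl i x + 1 := by unfold dl; split_ifs <;> omega
      simp only [Function.comp_apply, h2]
      rw [← hg2']
      rfl
    refine ⟨m + 2, fun T hT => ?_⟩
    obtain ⟨T, rfl⟩ : ∃ T', T = T' + 1 := ⟨T - 1, by omega⟩
    rw [Finset.sum_range_succ', key0, pow_zero, one_smul,
      Finset.sum_congr rfl (fun i _ => by rw [keyS]), hc,
      ← pullFun_sum hm e σ hq1 hq2 hg2s T (by omega), ← Finset.sum_add_distrib]
    refine Finset.sum_eq_zero fun i _ => ?_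
    rw [pow_succ, mul_neg_one, neg_smul, neg_add_cancel]

/-- The cone family. -/
noncomputable def coneF {m' m : ℕ} (hm : m' + 1 = m) (e : X.obj (op ⦋m'⦌) → M)
    (he : e ∈ CoC X M m') (c : CoZ X M m) (hc : c.1 = cobd hm e) : Fam X m (EM M 0).P.U where
  f := fun j q h σ => (⟨coneFun hm e c.1 σ h, coneFun_mem hm e c hc σ h⟩ : (EM M 0).G (q + 1))
  fc' := fun {j' j} hj {q r} hr h h' i hi σ => by
    refine Subtype.ext (funext fun f => ?_)
    change coneFun hm e c.1 σ h (dl (i + 1) ∘ f) = coneFun hm e c.1 (fc X i hj σ) h' f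
    by_cases hf : StrictMono f
    swap
    · rw [coneFun_not _ _ _ _ _ hf, coneFun_not _ _ _ _ _ (nstr_dl hf _)]
    have hs := (dl_strictMono (i + 1)).comp hf
    rcases Nat.eq_zero_or_pos (f 0) with h0 | h0
    · rw [coneFun_zero _ _ _ _ _ hf h0, coneFun_zero _ _ _ _ _ hs (by simp [dl, h0]),
        ← pullFun_fc e σ (show q + 1 + 1 = r + 1 by omega) hj (by push_cast [← hm] at *; omega)
        _ hi]
      congr 1
      funext x
      have h1 : f 0 < f (x + 1) := hf (by omega)
      simp only [Function.comp_apply, dl]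
      split_ifs <;> omega
    · rw [coneFun_pos _ _ _ _ _ hf h0, coneFun_pos _ _ _ _ _ hs (by
        simp only [Function.comp_apply, dl]
        split_ifs <;> omega), ← pullFun_fc c.1 σ hr hj (by omega) _ hi]
      congr 1
      funext x
      have h1 : f 0 ≤ f x := hf.monotone (Nat.zero_le x)
      simp only [Function.comp_apply, dl]
      split_ifs <;> omega
  big := fun {j q r} hr h i hi σ => by
    rcases Nat.eq_zero_or_pos j with hj | hj
    · exact EMG.eq_zero_of_lt (M := M) (n := 0) (q := q + 1) (by push_cast [← hm, hj] at *; omega) _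
    have hi' : j < i := by omega
    refine Subtype.ext (funext fun f => ?_)
    change coneFun hm e c.1 σ h (dl (i + 1) ∘ f) = 0
    by_cases hf : StrictMono f
    swap
    · rw [coneFun_not _ _ _ _ _ (nstr_dl hf _)]
    have hs := (dl_strictMono (i + 1)).comp hf
    rcases Nat.eq_zero_or_pos (f 0) with h0 | h0
    · rw [coneFun_zero _ _ _ _ _ hs (by simp [dl, h0]), ← pullFun_big e σ (n := 0) (r := r + 1)
        (by push_cast [← hm] at *; omega) hi' (fun x => f (x + 1) - 1)]
      congr 1
      funext x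
      have h1 : f 0 < f (x + 1) := hf (by omega)
      simp only [Function.comp_apply, dl]
      split_ifs <;> omega
    · rw [coneFun_pos _ _ _ _ _ hs (by
        simp only [Function.comp_apply, dl]
        split_ifs <;> omega), ← pullFun_big c.1 σ (n := 0) (r := r) (by omega) hi'
        (fun x => f x - 1)]
      congr 1
      funext x
      have h1 : f 0 ≤ f x := hf.monotone (Nat.zero_le x)
      simp only [Function.comp_apply, dl]
      split_ifs <;> omega
  dg' := fun {j' j} hj {q r} hr h h' i hi τ => by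
    refine Subtype.ext (funext fun f => ?_)
    change coneFun hm e c.1 τ h' (sg (i + 1) ∘ f) = coneFun hm e c.1 (dg X i hj hi τ) h f
    by_cases hf : StrictMono f
    swap
    · rw [coneFun_not _ _ _ _ _ hf, coneFun_not _ _ _ _ _ (nstr_sg hf _)]
    rcases Nat.eq_zero_or_pos (f 0) with h0 | h0
    · have h2 : (fun x => (sg (i + 1) ∘ f) (x + 1) - 1) = sg i ∘ fun x => f (x + 1) - 1 := by
        funext x
        simp only [Function.comp_apply, sg]
        split_ifs <;> omega
      rw [coneFun_zero _ _ _ _ _ hf h0, ← pullFun_dg he τ (show q + 1 + 1 = r + 1 by omega) hj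
        _ (by push_cast [← hm] at *; omega) hi]
      by_cases hs : StrictMono (sg (i + 1) ∘ f)
      · rw [coneFun_zero _ _ _ _ _ hs (by simp [sg, h0]), h2]
      · rw [coneFun_not _ _ _ _ _ hs]
        by_contra hne
        have h3 := (pullFun_strict (Ne.symm hne)).1
        refine hs (strictMono_nat_of_lt_succ fun x => ?_)
        rcases Nat.eq_zero_or_pos x with hx | hx
        · subst hx
          have h4 : f 0 < f (0 + 1) := hf (by omega)
          simp only [Function.comp_apply, sg]
          split_ifs <;> omega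
        · obtain ⟨x, rfl⟩ : ∃ x', x = x' + 1 := ⟨x - 1, by omega⟩
          have h4 : (sg i ∘ fun x => f (x + 1) - 1) x < (sg i ∘ fun x => f (x + 1) - 1) (x + 1) :=
            h3 (by omega)
          simp only [Function.comp_apply, sg] at h4 ⊢
          split_ifs at h4 ⊢ <;> omega
    · have h2 : (fun x => (sg (i + 1) ∘ f) x - 1) = sg i ∘ fun x => f x - 1 := by
        funext x
        have h1 : f 0 ≤ f x := hf.monotone (Nat.zero_le x)
        simp only [Function.comp_apply, sg]
        split_ifs <;> omega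
      rw [coneFun_pos _ _ _ _ _ hf h0, ← pullFun_dg c.2.1 τ hr hj _ (by omega) hi]
      by_cases hs : StrictMono (sg (i + 1) ∘ f)
      · rw [coneFun_pos _ _ _ _ _ hs (by
          simp only [Function.comp_apply, sg]
          split_ifs <;> omega), h2]
      · rw [coneFun_not _ _ _ _ _ hs]
        by_contra hne
        have h3 := (pullFun_strict (Ne.symm hne)).1
        refine hs (strictMono_nat_of_lt_succ fun x => ?_)
        have h4 : (sg i ∘ fun x => f x - 1) x < (sg i ∘ fun x => f x - 1) (x + 1) :=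
          h3 (by omega)
        have h5 : f 0 ≤ f x := hf.monotone (Nat.zero_le x)
        simp only [Function.comp_apply, sg] at h4 ⊢
        split_ifs at h4 ⊢ <;> omega

end

variable {M M' : Type} [AddCommGroup M] [AddCommGroup M']

/-- (S2) Coboundaries go to coboundaries, relative version. -/
theorem act_cobd_rel {X : SSet.{0}} (A : ∀ m : ℕ, X.obj (op ⦋m⦌) → Prop)
    (hA : ∀ (f : ℕ → ℕ) (hf : Monotone f) (a b : ℕ) (hb : ∀ i, i ≤ a → f i ≤ b) σ, A b σ →
      A a (opr X f hf hb σ)) {k m l : ℕ} (a : Map (EM M 0).U (EM M' k)) (h : m + k = l)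
    (c : CoZ X M m) (hc : RelBd X A c.1) : RelBd X A (act a h c) := by
  rcases hc.bd with h0 | ⟨m', hm, e, he, heA, hce⟩
  · refine ⟨Or.inl (funext fun σ => ?_)⟩
    unfold act
    have hk0 : (k : ℤ) - 0 = l - m := by omega
    have h1 : pull c σ (n := 0) (q := k) hk0 = (EM M 0).U.pt k := by
      refine Subtype.ext (funext fun f => ?_)
      change pullFun c.1 σ hk0 f = 0
      unfold pullFun
      split_ifs
      · rw [h0]
        rfl
      · rfl
    rw [h1, a.map_pt]
    rfl
  · have hcA : ∀ σ, A m σ → c.1 σ = 0 := by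
      intro σ hσ
      rw [hce]
      refine Finset.sum_eq_zero fun i _ => ?_
      have h1 : e (fc X i hm σ) = 0 := heA _ (hA _ _ _ _ _ _ hσ)
      rw [h1, smul_zero]
    have key := Fam.relBd h ((coneF hm e he c hce).map (Map.mapP a)) A (fun j q hq σ hσ => by
      have h1 : (coneF hm e he c hce).f j q hq σ = (EM M 0).P.U.pt q := by
        refine Subtype.ext (funext fun f => ?_)
        change coneFun hm e c.1 σ hq f = 0
        unfold coneFun
        rw [pullFun_zero_of A hA e heA σ hσ, pullFun_zero_of A hA c.1 hcA σ hσ]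
        split_ifs <;> rfl
      change (Map.mapP a).f q ((coneF hm e he c hce).f j q hq σ) = 0
      rw [h1]
      exact (Map.mapP a).map_pt q)
    have e' : act a h c = fun σ : X.obj (op ⦋l⦌) =>
        ((EM M' k).dP.f k (((coneF hm e he c hce).map (Map.mapP a)).f l k (by omega) σ)).1 id := by
      funext σ
      have hk0 : (k : ℤ) - 0 = l - m := by omega
      have hk1 : (k : ℤ) = l - m := by omega
      have h1 : (EM M 0).U.d 0 (rfl : (k : ℤ) + 1 = k + 1)
          (⟨coneFun hm e c.1 σ hk1, coneFun_mem hm e c hce σ _⟩ :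
            (EM M 0).G ((k : ℤ) + 1)) = pull c σ (n := 0) (q := k) hk0 := by
        refine Subtype.ext (funext fun f => ?_)
        change coneFun hm e c.1 σ hk1 (dl 0 ∘ f) = pullFun c.1 σ hk0 f
        by_cases hf : StrictMono f
        · rw [coneFun_pos _ _ _ _ _ ((dl_strictMono 0).comp hf) (by simp [dl])]
          congr 1
        · rw [coneFun_not _ _ _ _ _ (nstr_dl hf _)]
          by_contra hne
          exact hf (pullFun_strict (Ne.symm hne)).1
      unfold act
      rw [← h1, a.map_d]
      rfl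
    rw [e']
    exact key

end BPN
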