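import Pool.Agent.BPN.T.SignD

/-!
# The sign lemma, direct proof, end (project BPN, module T/SignE)
-/

namespace BPN

open GSp

namespace Sgn

variable {k : Type} [Field k] {V : Type} [AddCommGroup V] [Module k V]

theorem lift_d {n q q' : ℤ} (hq : q' + 1 = q) (x : ℕ) (χ : (EM V n).G q' → V)
    (h0 : χ 0 = 0) (z : (lin k (EM V n).U).V q) :
    Fr.lift (k := k) (x₀ := (0 : (EM V n).G q)) (fun c => χ ((EM V n).d x hq c)) z =
      Fr.lift (k := k) (x₀ := (0 : (EM V n).G q')) χ ((lin k (EM V n).U).d x hq z) := by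
  refine DFunLike.congr_fun
    (f := Fr.lift (k := k) (x₀ := (0 : (EM V n).G q)) (fun c => χ ((EM V n).d x hq c)))
    (g := (Fr.lift (k := k) (x₀ := (0 : (EM V n).G q')) χ).comp
      (Fr.map (x₀ := (0 : (EM V n).G q)) (y₀ := (0 : (EM V n).G q')) ((EM V n).d x hq)))
    (Fr.hom_ext fun y => ?_) z
  rw [Fr.lift_of _ (by rw [map_zero, h0]), LinearMap.comp_apply, Fr.map_of _ (map_zero _),
    Fr.lift_of _ h0]

omit [Module k V] in
theorem lift_add {T : Type} {x₀ : T} {W : Type} [AddCommGroup W] [Module k W] (F G : T → W)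
    (z : Fr k T x₀) : Fr.lift (k := k) (x₀ := x₀) (fun c => F c + G c) z =
      Fr.lift (k := k) (x₀ := x₀) F z + Fr.lift (k := k) (x₀ := x₀) G z := by
  simp only [Fr.lift, Finsupp.linearCombination_apply, Finsupp.sum, smul_add,
    Finset.sum_add_distrib]

omit [Module k V] in
theorem lift_neg {T : Type} {x₀ : T} {W : Type} [AddCommGroup W] [Module k W] (F : T → W)
    (z : Fr k T x₀) : Fr.lift (k := k) (x₀ := x₀) (fun c => -F c) z =
      -Fr.lift (k := k) (x₀ := x₀) F z := by
  simp only [Fr.lift, Finsupp.linearCombination_apply, Finsupp.sum, smul_neg,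
    Finset.sum_neg_distrib]

theorem Th_zero {n n' q r : ℤ} (hn : n + 1 = n') (hr : q + 2 = r) (b : ℕ) :
    Th (M := V) hn hr b 0 = 0 := by
  unfold Th
  split_ifs
  · refine Subtype.ext (funext fun f => ?_)
    change th b (0 : (ℕ → ℕ) → V) f = 0
    unfold th
    split_ifs <;> rfl
  · rfl

omit [Module k V] in
theorem exists_bd {n q : ℤ} (z : (lin k (EM V n).U).V q) :
    ∃ b : ℕ, Even (q - n - (b + 1 : ℕ)) ∧ ∀ x ∈ z.support, Bdd x.1.1 (b + 1) := by
  have h1 : ∀ x : {x : (EM V n).G q // x ≠ 0}, ∃ D : ℕ, Bdd x.1.1 D := fun x => x.1.2.2.1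
  choose D hD using h1
  obtain ⟨b, hb, hE⟩ : ∃ b : ℕ, z.support.sup D ≤ b + 1 ∧ Even (q - n - (b + 1 : ℕ)) := by
    rcases Int.even_or_odd (q - n - (z.support.sup D + 1 : ℕ)) with h | h
    · exact ⟨z.support.sup D, Nat.le_succ _, h⟩
    · refine ⟨z.support.sup D + 1, by omega, ?_⟩
      have : q - n - ((z.support.sup D + 1 + 1 : ℕ) : ℤ) =
          q - n - ((z.support.sup D + 1 : ℕ) : ℤ) - 1 := by push_cast; ring
      rw [this]
      exact h.sub_odd odd_one
  refine ⟨b, hE, fun x hx => (hD x).mono (le_trans (Finset.le_sup hx) hb)⟩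

theorem cyc {n n' q m r : ℤ} (hn : n + 1 = n') (hm : q + 1 = m) (hr : q + 2 = r)
    (a : Map (EM V n').U (EM V m)) (z : (lin k (EM V n).U).V q)
    (hz : z ∈ (lin k (EM V n).U).Zs q) :
    Fr.lift (k := k) (x₀ := (0 : (EM V n).G q)) (fun c => (a.f m (toE hn hm c)).1 id) z =
      ((-1 : ℤ) ^ (q - n).natAbs) •
        Fr.lift (k := k) (x₀ := (0 : (EM V n).G q)) (fun c => (a.f m (shE hn hm c)).1 id) z := by
  obtain ⟨b, hE, hb⟩ := exists_bd z
  obtain ⟨q', hq⟩ : ∃ q' : ℤ, q' + 1 = q := ⟨q - 1, by omega⟩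
  have hr' : m + 1 = r := by omega
  have hq' : q' + 2 = m := by omega
  have hG : ∀ x, Fr.lift (k := k) (x₀ := (0 : (EM V n).G q))
      (fun c => (a.f m (Th hn hq' b ((EM V n).d x hq c))).1 id) z = 0 := by
    intro x
    have h0 : (fun y : (EM V n).G q' => (a.f m (Th hn hq' b y)).1 id) 0 = 0 := by
      simp only [Th_zero]
      have h1 : a.f m (0 : (EM V n').G m) = 0 := a.map_pt m
      rw [h1]
      rfl
    rw [lift_d hq x (fun y => (a.f m (Th hn hq' b y)).1 id) h0 z, hz x hq]
    exact LinearMap.map_zero (Fr.lift (k := k) (x₀ := (0 : (EM V n).G q'))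
      (fun y => (a.f m (Th hn hq' b y)).1 id))
  have hk : Fr.lift (k := k) (x₀ := (0 : (EM V n).G q)) (fun c => (a.f m (shE hn hm c)).1 id) z +
      ((-1 : ℤ) ^ (b + 2) • Fr.lift (k := k) (x₀ := (0 : (EM V n).G q))
        (fun c => (a.f m (toE hn hm c)).1 id) z +
      ∑ x ∈ Finset.range (b + 1), (-1 : ℤ) ^ (x + 1) •
        Fr.lift (k := k) (x₀ := (0 : (EM V n).G q))
          (fun c => (a.f m (Th hn hq' b ((EM V n).d x hq c))).1 id) z) = 0 := by
    simp only [Fr.lift, Finsupp.linearCombination_apply, Finsupp.sum, Finset.smul_sum]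
    rw [Finset.sum_comm, ← Finset.sum_add_distrib, ← Finset.sum_add_distrib]
    refine Finset.sum_eq_zero fun y hy => ?_
    have h1 := key hn hm hr hq hr' hq' rfl a y.1 (hb y hy) hE
    have h2 := congrArg
      (fun v => (show {x : (EM V n).G q // x ≠ 0} →₀ k from z) y • v) h1
    simp only [smul_add, smul_zero, Finset.smul_sum] at h2
    rw [← h2]
    congr 2
    · exact smul_comm _ _ _
    · exact Finset.sum_congr rfl fun x _ => smul_comm _ _ _
  rw [Finset.sum_eq_zero (fun x _ => by rw [hG, smul_zero]), add_zero] at hk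
  rcases Nat.even_or_odd (q - n).natAbs with h | h
  · have h1 : Even (q - n) := Int.natAbs_even.mp h
    have h2 : Even ((b + 1 : ℕ) : ℤ) := by
      have := h1.sub hE
      rwa [sub_sub_cancel] at this
    have h3 : Even (b + 1) := by exact_mod_cast h2
    rw [h.neg_one_pow, one_smul]
    rw [pow_succ, h3.neg_one_pow, one_mul, neg_smul, one_smul, add_neg_eq_zero] at hk
    exact hk.symm
  · have h1 : Odd (q - n) := Int.natAbs_odd.mp h
    have h2 : Odd ((b + 1 : ℕ) : ℤ) := by
      have := h1.sub_even hE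
      rwa [sub_sub_cancel] at this
    have h3 : Odd (b + 1) := by exact_mod_cast h2
    rw [h.neg_one_pow, neg_smul, one_smul]
    rw [pow_succ, h3.neg_one_pow, neg_one_mul, neg_neg, one_smul] at hk
    exact (neg_eq_of_add_eq_zero_right hk).symm

end Sgn

open Sgn in
/-- **Sign lemma** (proved directly on the level of cycles of the linearisation). -/
theorem sign_lemma {p : ℕ} [Fact p.Prime] {i j i' j' : ℤ} (hi : i + 1 = i') (hj : j + 1 = j')
    (a : Map (EM (ZMod p) i').U (EM (ZMod p) j')) :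
    HC.mk (Map.comp a.Om (Map.ofHom (EM.toOm (ZMod p) hi))) =
      ((-1 : ℤ) ^ (j - i).natAbs) •
        HC.mk (Map.comp (Map.ofHom (EM.toOm (ZMod p) hj))
          (Map.sh a (show i - i' = j - j' by omega))) := by
  obtain ⟨t, ht⟩ := Map.lift_bij (EM.toOm (ZMod p) hj) (EM.toOm_bijective hj)
    (Map.comp a.Om (Map.ofHom (EM.toOm (ZMod p) hi)))
  have hval : ∀ c : (EM (ZMod p) i).G j, (t.f j c).1 id = (a.f j' (toE hi hj c)).1 id := by
    intro c
    subst hj
    have h1 : (EM.toOm (ZMod p) rfl).f j (t.f j c) =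
        (Map.comp a.Om (Map.ofHom (EM.toOm (ZMod p) hi))).f j c :=
      congrArg (fun m : Map (EM (ZMod p) i).U (EM (ZMod p) (j + 1)).Om => m.f j c) ht
    have h2 := congrArg (fun v : (EM (ZMod p) (j + 1)).Om.G j =>
      ((v.1 : (EM (ZMod p) (j + 1)).G (j + 1)).1 : (ℕ → ℕ) → ZMod p) id) h1
    simp only at h2
    rw [EM.toOm_apply] at h2
    rw [if_pos ⟨rfl, Nat.one_pos⟩] at h2
    exact h2
  have hsh : ∀ c : (EM (ZMod p) i).G j,
      ((Map.sh a (show i - i' = j - j' by omega)).f j c).1 id = (a.f j' (shE hi hj c)).1 id :=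
    fun c => congrFun (Map.f_congr a (show j - (i - i') = j' by omega) c.1 _ _) id
  have hmk : HC.mk t = ((-1 : ℤ) ^ (j - i).natAbs) •
      HC.mk (Map.sh a (show i - i' = j - j' by omega)) := by
    have hcyc : ∀ z ∈ (lin (ZMod p) (EM (ZMod p) i).U).Zs j,
        ((Map.lin (L := EML (ZMod p) (ZMod p) j) t).f j z).1 id =
        ((-1 : ℤ) ^ (j - i).natAbs) • ((Map.lin (L := EML (ZMod p) (ZMod p) j)
          (Map.sh a (show i - i' = j - j' by omega))).f j z).1 id := by
      intro z hz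
      rw [lin_id, lin_id]
      simp only [hval, hsh]
      exact cyc hi hj (show j + 2 = j' + 1 by omega) a z hz
    rcases Nat.even_or_odd (j - i).natAbs with h | h
    · rw [h.neg_one_pow, one_smul, HC.mk_eq]
      refine (LSp.null_iff (k := ZMod p) _ j _).mpr fun z hz => ?_
      have h1 := hcyc z hz
      rw [h.neg_one_pow, one_smul, lin_id, lin_id] at h1
      rw [lin_id]
      refine (lift_add (k := ZMod p) (x₀ := (0 : (EM (ZMod p) i).G j)) (fun c => (t.f j c).1 id)
        (fun c => -((Map.sh a (show i - i' = j - j' by omega)).f j c).1 id) z).trans ?_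
      rw [lift_neg, add_neg_eq_zero]
      exact h1
    · rw [h.neg_one_pow, neg_smul, one_smul, ← map_neg, HC.mk_eq, neg_neg]
      refine (LSp.null_iff (k := ZMod p) _ j _).mpr fun z hz => ?_
      have h1 := hcyc z hz
      rw [h.neg_one_pow, neg_smul, one_smul, lin_id, lin_id] at h1
      rw [lin_id]
      refine (lift_add (k := ZMod p) (x₀ := (0 : (EM (ZMod p) i).G j)) (fun c => (t.f j c).1 id)
        (fun c => ((Map.sh a (show i - i' = j - j' by omega)).f j c).1 id) z).trans ?_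
      rw [add_eq_zero_iff_eq_neg]
      exact h1
  have h1 := congrArg (HC.comp (Map.ofHom (EM.toOm (ZMod p) hj))) hmk
  rw [map_zsmul, HC.comp_mk, HC.comp_mk] at h1
  rw [← h1, ← ht]
  rfl

end BPN
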