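import Pool.Agent.BPN.T.Mat
import Pool.Agent.BPN.T.Sign

/-!
# Looping matrices of operations (project BPN, module T/SignK)
-/

namespace BPN

open GSp

variable {p n : ℕ} [Fact p.Prime] {Q : ∀ i : Fin (n + 1), Op p (2 * p ^ (i : ℕ) - 1)}

/-! ### Levelwise bijective homomorphisms -/

section inv

variable {X Y : PSp} {G H K : GSp}

/-- Inverse of a levelwise bijective homomorphism. -/
private noncomputable def skInv (φ : GSp.Hom G H) (h : ∀ q, Function.Bijective (φ.f q)) :
    GSp.Hom H G where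
  f := fun q => (AddEquiv.ofBijective (φ.f q) (h q)).symm.toAddMonoidHom
  map_d := fun i q r h' x => by
    obtain ⟨y, rfl⟩ := (h r).2 x
    have h1 : (AddEquiv.ofBijective (φ.f r) (h r)).symm (φ.f r y) = y :=
      (AddEquiv.ofBijective (φ.f r) (h r)).symm_apply_apply y
    have h2 : (AddEquiv.ofBijective (φ.f q) (h q)).symm (φ.f q (G.d i h' y)) = G.d i h' y :=
      (AddEquiv.ofBijective (φ.f q) (h q)).symm_apply_apply _
    change (AddEquiv.ofBijective (φ.f q) (h q)).symm (H.d i h' (φ.f r y)) =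
      G.d i h' ((AddEquiv.ofBijective (φ.f r) (h r)).symm (φ.f r y))
    rw [h1, ← φ.map_d, h2]
  map_s := fun i q r h' x => by
    obtain ⟨y, rfl⟩ := (h q).2 x
    have h1 : (AddEquiv.ofBijective (φ.f q) (h q)).symm (φ.f q y) = y :=
      (AddEquiv.ofBijective (φ.f q) (h q)).symm_apply_apply y
    have h2 : (AddEquiv.ofBijective (φ.f r) (h r)).symm (φ.f r (G.s i h' y)) = G.s i h' y :=
      (AddEquiv.ofBijective (φ.f r) (h r)).symm_apply_apply _
    change (AddEquiv.ofBijective (φ.f r) (h r)).symm (H.s i h' (φ.f q y)) =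
      G.s i h' ((AddEquiv.ofBijective (φ.f q) (h q)).symm (φ.f q y))
    rw [h1, ← φ.map_s, h2]

private theorem skInv_left (φ : GSp.Hom G H) (h : ∀ q, Function.Bijective (φ.f q)) (q : ℤ)
    (x : G.G q) : (skInv φ h).f q (φ.f q x) = x :=
  (AddEquiv.ofBijective (φ.f q) (h q)).symm_apply_apply x

private theorem skInv_right (φ : GSp.Hom G H) (h : ∀ q, Function.Bijective (φ.f q)) (q : ℤ)
    (x : H.G q) : φ.f q ((skInv φ h).f q x) = x :=
  (AddEquiv.ofBijective (φ.f q) (h q)).apply_symm_apply x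

private theorem sk_null (φ : GSp.Hom G H) (h : ∀ q, Function.Bijective (φ.f q)) {a : Map X G}
    (ha : (Map.post φ a).Null) : a.Null := by
  have h1 := ha.post (skInv φ h)
  have h2 : Map.post (skInv φ h) (Map.post φ a) = a :=
    Map.ext2 fun q x => skInv_left φ h q (a.f q x)
  rwa [h2] at h1

private theorem sk_cancel (φ : GSp.Hom G H) (h : ∀ q, Function.Bijective (φ.f q))
    {a b : Map X G} (hab : HC.mk (Map.comp (Map.ofHom φ) a) = HC.mk (Map.comp (Map.ofHom φ) b)) :
    HC.mk a = HC.mk b := by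
  rw [HC.mk_eq] at hab ⊢
  refine sk_null φ h ?_
  rw [map_add, map_neg]
  exact hab

/-- Lift a map along a levelwise bijective homomorphism. -/
private theorem sk_lift (φ : GSp.Hom G H) (h : ∀ q, Function.Bijective (φ.f q)) (a : Map X H) :
    ∃ b : Map X G, Map.comp (Map.ofHom φ) b = a :=
  ⟨Map.comp (Map.ofHom (skInv φ h)) a, Map.ext2 fun q x => skInv_right φ h q (a.f q x)⟩

private theorem sk_pre {a b : Map G.U H} (hab : HC.mk a = HC.mk b) (c : Map X G) :
    HC.mk (Map.comp a c) = HC.mk (Map.comp b c) := by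
  have h := congrArg (HC.pre c.toHom) hab
  exact h

/-- Looping and precomposing, as a homomorphism to homotopy classes. -/
private noncomputable def skF {k : Type} [Field k] (L : LSp k) (c : Map X G.Om) :
    Map G.U L.toG →+ HC X L.toG.Om where
  toFun := fun a => HC.mk (Map.comp a.Om c)
  map_zero' := by
    have h1 : Map.comp (0 : Map G.U L.toG).Om c = 0 :=
      Map.ext2 fun q x => Subtype.ext rfl
    rw [h1, map_zero]
  map_add' := fun a b => by
    rw [← map_add]
    congr 1

private noncomputable def skG {k : Type} [Field k] (L : LSp k) (φ : GSp.Hom L.toG H) :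
    Map X L.toG →+ HC X H where
  toFun := fun a => HC.mk (Map.comp (Map.ofHom φ) a)
  map_zero' := by
    have h1 : Map.comp (Map.ofHom φ) (0 : Map X L.toG) = 0 :=
      Map.ext2 fun q x => map_zero (φ.f q)
    rw [h1, map_zero]
  map_add' := fun a b => by
    rw [← map_add]
    congr 1
    exact Map.ext2 fun q x => map_add (φ.f q) _ _

end inv

private theorem sk_cast {M M' : Type} [AddCommGroup M] [AddCommGroup M'] {n m : ℤ}
    (a : Map (EM M n).U (EM M' m)) (c : (ℕ → ℕ) → M) {u v : ℤ} (h : u = v)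
    (hu : c ∈ EMG M n u) (hv : c ∈ EMG M n v) :
    (a.f u (⟨c, hu⟩ : EMG M n u) : EMG M' m u).1 = (a.f v (⟨c, hv⟩ : EMG M n v) : EMG M' m v).1 := by
  subst h
  rfl

private theorem sk_sh_sh {M M' : Type} [AddCommGroup M] [AddCommGroup M']
    {n m n' m' n'' m'' : ℤ} (a : Map (EM M n).U (EM M' m)) (h : n' - n = m' - m)
    (h' : n'' - n' = m'' - m') (h'' : n'' - n = m'' - m) :
    Map.sh (Map.sh a h) h' = Map.sh a h'' := by
  refine Map.ext2 fun q c => Subtype.ext ?_
  exact sk_cast a c.1 (by omega) _ _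

/-- Projections commute with `toOm`. -/
private theorem sk_pr (t : ℕ) {k l : ℤ} (h : k + 1 = l) (J : Mon n t)
    (hj : mdeg p J.1 + k + 1 = mdeg p J.1 + l) :
    Map.comp (KS.pr (p := p) (k := l) J).Om (Map.ofHom (KS.toOm t h)) =
      Map.comp (Map.ofHom (EM.toOm (ZMod p) hj)) (KS.pr (p := p) (k := k) J) :=
  Map.ext2 fun q c => Subtype.ext (KS.toOm_apply t h q c J)

/-- Inclusions commute with `toOm`. -/
private theorem sk_inj (s : ℕ) {k l : ℤ} (h : k + 1 = l) (I : Mon n s)
    (hi : mdeg p I.1 + k + 1 = mdeg p I.1 + l) :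
    Map.comp (KS.inj (p := p) (k := l) I).Om (Map.ofHom (EM.toOm (ZMod p) hi)) =
      Map.comp (Map.ofHom (KS.toOm s h)) (KS.inj (p := p) (k := k) I) := by
  classical
  refine Map.ext2 fun q c => Subtype.ext (funext fun I' => ?_)
  refine Eq.trans ?_ (KS.toOm_apply s h q ((KS.inj (p := p) (k := k) I).f q c) I').symm
  by_cases hI : I' = I
  · subst hI
    have h1 : ((KS.inj (p := p) (k := k) I').f q c : (KS p n s k).G q) I' = c := by
      change (Pi.single I' c : ∀ I'' : Mon n s,
        (EML (ZMod p) (ZMod p) (mdeg p I''.1 + k)).V q) I' = c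
      exact Pi.single_eq_same I' _
    have h2 : ((KS.inj (p := p) (k := l) I').f (q + 1)
        (((EM.toOm (ZMod p) hi).f q c).1 : (EM (ZMod p) (mdeg p I'.1 + l)).G (q + 1)) :
        (KS p n s l).G (q + 1)) I' = ((EM.toOm (ZMod p) hi).f q c).1 := by
      change (Pi.single I' (((EM.toOm (ZMod p) hi).f q c).1) : ∀ I'' : Mon n s,
        (EML (ZMod p) (ZMod p) (mdeg p I''.1 + l)).V (q + 1)) I' = _
      exact Pi.single_eq_same I' _
    rw [h1]
    exact h2
  · have h1 : ((KS.inj (p := p) (k := k) I).f q c : (KS p n s k).G q) I' = 0 := by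
      change (Pi.single I c : ∀ I'' : Mon n s,
        (EML (ZMod p) (ZMod p) (mdeg p I''.1 + k)).V q) I' = 0
      exact Pi.single_eq_of_ne hI _
    have h2 : ((KS.inj (p := p) (k := l) I).f (q + 1)
        (((EM.toOm (ZMod p) hi).f q c).1 : (EM (ZMod p) (mdeg p I.1 + l)).G (q + 1)) :
        (KS p n s l).G (q + 1)) I' = 0 := by
      change (Pi.single I (((EM.toOm (ZMod p) hi).f q c).1) : ∀ I'' : Mon n s,
        (EML (ZMod p) (ZMod p) (mdeg p I''.1 + l)).V (q + 1)) I' = 0
      exact Pi.single_eq_of_ne hI _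
    rw [h1]
    refine h2.trans ?_
    exact (congrArg Subtype.val (map_zero ((EM.toOm (ZMod p)
      (show mdeg p I'.1 + k + 1 = mdeg p I'.1 + l by omega)).f q))).symm

/-- Looping the Koszul map gives minus the Koszul map.  (Componentwise by `sign_lemma`: `Q_i` has odd
degree.) -/
theorem qm_om (s : ℕ) (k : ℤ) :
    HC.mk (Map.comp (qm Q s (k + 1)).Om (Map.ofHom (KS.toOm s (rfl : k + 1 = k + 1)))) =
      -HC.mk (Map.comp (Map.ofHom (KS.toOm (p := p) (n := n) (s + 1)
        (rfl : (k + 1) + 1 = (k + 1) + 1))) (qm Q s k)) := by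
  refine Eq.trans ?_ (map_neg HC.mk _)
  -- lift the left hand side along `toOm`
  obtain ⟨b, hb⟩ := sk_lift (KS.toOm (p := p) (n := n) (s + 1) (rfl : (k + 1) + 1 = (k + 1) + 1))
    (KS.toOm_bijective (s + 1) rfl)
    (Map.comp (qm Q s (k + 1)).Om (Map.ofHom (KS.toOm s (rfl : k + 1 = k + 1))))
  rw [← hb]
  have key : HC.mk b = -HC.mk (qm Q s k) := by
    rw [← add_eq_zero_iff_eq_neg, ← map_add, HC.mk_eq_zero]
    refine (LSp.null_pi_iff _).2 fun J => ?_
    have hJ : HC.mk (Map.comp (KS.pr J) b) = HC.mk (-(Map.comp (KS.pr J) (qm Q s k))) := by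
      have hj : mdeg p J.1 + (k + 1) + 1 = mdeg p J.1 + (k + 1 + 1) := by omega
      refine sk_cancel (EM.toOm (ZMod p) hj) (EM.toOm_bijective hj) ?_
      have h1 : Map.comp (Map.ofHom (EM.toOm (ZMod p) hj)) (Map.comp (KS.pr J) b) =
          Map.comp (Map.comp (KS.pr J) (qm Q s (k + 1))).Om
            (Map.ofHom (KS.toOm s (rfl : k + 1 = k + 1))) := by
        have h2 : Map.comp (Map.ofHom (EM.toOm (ZMod p) hj)) (Map.comp (KS.pr J) b) =
            Map.comp (Map.comp (KS.pr J).Om (Map.ofHom (KS.toOm (s + 1) rfl))) b := by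
          rw [sk_pr (s + 1) rfl J hj]
          rfl
        rw [h2]
        have h3 : Map.comp (Map.comp (KS.pr J).Om (Map.ofHom (KS.toOm (s + 1) rfl))) b =
            Map.comp (KS.pr J).Om (Map.comp (Map.ofHom (KS.toOm (s + 1) rfl)) b) := rfl
        rw [h3, hb]
        rfl
      have h2 : HC.mk (Map.comp (Map.ofHom (EM.toOm (ZMod p) hj))
          (-(Map.comp (KS.pr J) (qm Q s k)))) =
          -HC.mk (Map.comp (Map.ofHom (EM.toOm (ZMod p) hj)) (Map.comp (KS.pr J) (qm Q s k))) := by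
        rw [← map_neg]
        congr 1
        exact Map.ext2 fun q x => map_neg ((EM.toOm (ZMod p) hj).f q) _
      rw [h1, h2]
      -- both sides are sums over `i`
      have hL := map_sum (skF (EML (ZMod p) (ZMod p) (mdeg p J.1 + (k + 1 + 1)))
        (Map.ofHom (KS.toOm (p := p) (n := n) s (rfl : k + 1 = k + 1))))
        (fun i : Fin (n + 1) => if h : 0 < J.1 i then
          (Map.comp (Map.sh (n' := mdeg p (J.pred i h).1 + (k + 1))
            (m' := mdeg p J.1 + (k + 1 + 1)) (Q i) (by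
              rw [mdeg_pred p J i h, deg_cast]; ring)) (KS.pr (J.pred i h)) :
            Map (KS p n s (k + 1)).U (EML (ZMod p) (ZMod p) (mdeg p J.1 + (k + 1 + 1))).toG)
          else 0) Finset.univ
      have hR := map_sum (skG (X := (KS p n s k).U)
        (EML (ZMod p) (ZMod p) (mdeg p J.1 + (k + 1))) (EM.toOm (ZMod p) hj))
        (fun i : Fin (n + 1) => if h : 0 < J.1 i then
          (Map.comp (Map.sh (n' := mdeg p (J.pred i h).1 + k)
            (m' := mdeg p J.1 + (k + 1)) (Q i) (by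
              rw [mdeg_pred p J i h, deg_cast]; ring)) (KS.pr (J.pred i h)) :
            Map (KS p n s k).U (EML (ZMod p) (ZMod p) (mdeg p J.1 + (k + 1))).toG)
          else 0) Finset.univ
      refine hL.trans (Eq.trans ?_ (congrArg Neg.neg hR).symm)
      rw [← Finset.sum_neg_distrib]
      refine Finset.sum_congr rfl fun i _ => ?_
      by_cases h : 0 < J.1 i
      · rw [dif_pos h, dif_pos h]
        have hi : mdeg p (J.pred i h).1 + k + 1 = mdeg p (J.pred i h).1 + (k + 1) := by omega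
        have hdeg : mdeg p (J.pred i h).1 + (k + 1) - 0 =
            mdeg p J.1 + (k + 1 + 1) - ((2 * p ^ (i : ℕ) - 1 : ℕ) : ℤ) := by
          rw [mdeg_pred p J i h, deg_cast]
          ring
        have hs := sign_lemma hi hj (Map.sh (n' := mdeg p (J.pred i h).1 + (k + 1))
            (m' := mdeg p J.1 + (k + 1 + 1)) (Q i) hdeg)
        have hodd : ((-1 : ℤ) ^ (mdeg p J.1 + (k + 1) - (mdeg p (J.pred i h).1 + k)).natAbs) =
            -1 := by
          refine Odd.neg_one_pow (Int.natAbs_odd.2 ?_)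
          have e : mdeg p J.1 + (k + 1) - (mdeg p (J.pred i h).1 + k) =
              2 * ((p : ℤ) ^ (i : ℕ) - 1) + 1 := by
            rw [mdeg_pred p J i h]
            ring
          rw [e]
          exact ⟨_, rfl⟩
        rw [hodd, neg_one_zsmul] at hs
        rw [sk_sh_sh (Q i) hdeg _ (by rw [mdeg_pred p J i h, deg_cast]; ring)] at hs
        have hpr := sk_pr s (rfl : k + 1 = k + 1) (J.pred i h) hi
        change HC.mk (Map.comp (Map.sh (Q i) hdeg).Om (Map.comp (KS.pr (J.pred i h)).Om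
          (Map.ofHom (KS.toOm s (rfl : k + 1 = k + 1))))) = _
        rw [hpr]
        have h3 := congrArg (HC.pre (KS.pr (p := p) (k := k) (J.pred i h)).toHom) hs
        rw [map_neg] at h3
        exact h3
      · rw [dif_neg h, dif_neg h, map_zero, map_zero, neg_zero]
        rfl
    have h4 : Map.post (LSp.piProj (fun J : Mon n (s + 1) =>
        EML (ZMod p) (ZMod p) (mdeg p J.1 + (k + 1))) J).toG (b + qm Q s k) =
        Map.comp (KS.pr J) b + Map.comp (KS.pr J) (qm Q s k) := rfl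
    have h5 : HC.mk (Map.comp (KS.pr J) b + Map.comp (KS.pr J) (qm Q s k)) = 0 := by
      rw [map_add, hJ, map_neg, neg_add_cancel]
    exact HC.mk_eq_zero.1 h5
  have h6 := congrArg (HC.comp (Map.ofHom (KS.toOm (p := p) (n := n) (s + 1)
    (rfl : (k + 1) + 1 = (k + 1) + 1)))) key
  rw [map_neg] at h6
  rw [map_neg]
  exact h6

/-- Looping a matrix of operations of even degree does not change the pairing. -/
theorem mt_om (E : EOut p n Q) {s t : ℕ} {k l : ℤ} (hkl : Even (l - k))
    (θ : Map (KS p n s (k + 1)).U (KS p n t (l + 1))) :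
    ∃ θ' : Map (KS p n s k).U (KS p n t l),
      HC.mk (Map.comp θ.Om (Map.ofHom (KS.toOm s (rfl : k + 1 = k + 1)))) =
        HC.mk (Map.comp (Map.ofHom (KS.toOm t (rfl : l + 1 = l + 1))) θ') ∧
      ∀ J I z, mt E θ' J I z = mt E θ J I z := by
  obtain ⟨θ', hθ'⟩ := sk_lift (KS.toOm (p := p) (n := n) t (rfl : l + 1 = l + 1))
    (KS.toOm_bijective t rfl)
    (Map.comp θ.Om (Map.ofHom (KS.toOm s (rfl : k + 1 = k + 1))))
  refine ⟨θ', by rw [hθ'], fun J I z => ?_⟩
  have hi : mdeg p I.1 + k + 1 = mdeg p I.1 + (k + 1) := by omega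
  have hj : mdeg p J.1 + l + 1 = mdeg p J.1 + (l + 1) := by omega
  have h1 : Map.comp (Map.ofHom (EM.toOm (ZMod p) hj))
      (Map.comp (KS.pr J) (Map.comp θ' (KS.inj I))) =
      Map.comp (Map.comp (KS.pr J) (Map.comp θ (KS.inj I))).Om
        (Map.ofHom (EM.toOm (ZMod p) hi)) := by
    have h2 : Map.comp (Map.ofHom (EM.toOm (ZMod p) hj))
        (Map.comp (KS.pr J) (Map.comp θ' (KS.inj I))) =
        Map.comp (Map.comp (Map.ofHom (EM.toOm (ZMod p) hj)) (KS.pr J))
          (Map.comp θ' (KS.inj I)) := rfl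
    rw [h2, ← sk_pr t (rfl : l + 1 = l + 1) J hj]
    have h3 : Map.comp (Map.comp (KS.pr J).Om (Map.ofHom (KS.toOm t (rfl : l + 1 = l + 1))))
        (Map.comp θ' (KS.inj I)) = Map.comp (KS.pr J).Om (Map.comp (Map.comp
          (Map.ofHom (KS.toOm t (rfl : l + 1 = l + 1))) θ') (KS.inj I)) := rfl
    rw [h3, hθ']
    have h4 : Map.comp (Map.comp θ.Om (Map.ofHom (KS.toOm s (rfl : k + 1 = k + 1)))) (KS.inj I) =
        Map.comp θ.Om (Map.comp (Map.ofHom (KS.toOm s (rfl : k + 1 = k + 1))) (KS.inj I)) := rfl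
    rw [h4, ← sk_inj s (rfl : k + 1 = k + 1) I hi]
    rfl
  have hs := sign_lemma hi hj (Map.comp (KS.pr J) (Map.comp θ (KS.inj I)))
  have hev : ((-1 : ℤ) ^ (mdeg p J.1 + l - (mdeg p I.1 + k)).natAbs) = 1 := by
    refine Even.neg_one_pow (Int.natAbs_even.2 ?_)
    have e : mdeg p J.1 + l - (mdeg p I.1 + k) = mdeg p J.1 - mdeg p I.1 + (l - k) := by ring
    rw [e]
    exact ((mdeg_even p J.1).sub (mdeg_even p I.1)).add hkl
  rw [hev, one_zsmul, ← h1] at hs
  have h5 := sk_cancel (EM.toOm (ZMod p) hj) (EM.toOm_bijective hj) hs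
  unfold mt
  rw [prO_congr E z h5, prO_sh]

end BPN
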