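import Pool.Agent.BPN.T.SignK
import Pool.Agent.BPN.L.ModP

/-!
# The Koszul tower (project BPN, module T/Stage)

`Stage E Y v s` : the stage `C_{s+1}` of the tower, with last layer `K_s = KS p n s 0`.
-/

namespace BPN

open GSp

variable {p n : ℕ} [Fact p.Prime] {Q : ∀ i : Fin (n + 1), Op p (2 * p ^ (i : ℕ) - 1)}

/-- A stage of the Koszul tower of `Y`; `v : Y → KS 0 0` is the fundamental class. -/
structure Stage (Q : ∀ i : Fin (n + 1), Op p (2 * p ^ (i : ℕ) - 1)) (Y : GSp)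
    (v : Map Y.U (KS p n 0 0)) (s : ℕ) where
  C : GSp
  sbb : C.SBB
  y : Map Y.U C
  /-- the map to the bottom stage -/
  b : Map C.U (KS p n 0 0)
  /-- the inclusion of the last layer -/
  i : Map (KS p n s 0).U C
  /-- the k-invariant -/
  κ : Map C.U (KS p n (s + 1) 1)
  by_ : HC.mk (Map.comp b y) = HC.mk v
  bi : 0 < s → (Map.comp b i).Null
  κy : (Map.comp κ y).Null
  κi : HC.mk (Map.comp κ i) = HC.mk (qm Q s 0)
  /-- a class which vanishes on `Y` and on the last layer is `0` -/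
  inj : ∀ (m : ℤ) (c : Map C.U (EM (ZMod p) m)), (Map.comp c y).Null → (Map.comp c i).Null →
    c.Null
  /-- a class which vanishes on `Y` is a multiple of the k-invariant -/
  im : ∀ (m : ℤ) (c : Map C.U (EM (ZMod p) m)), (Map.comp c y).Null →
    ∃ θ : Map (KS p n (s + 1) 1).U (EM (ZMod p) m), HC.mk (Map.comp θ κ) = HC.mk c

/-- The hypothesis on `(Y, v)`: `H^*(Y) = A / A (Q_0, .., Q_n)` in terms of `v : Y → KS 0 0`. -/
structure IsCycK (Q : ∀ i : Fin (n + 1), Op p (2 * p ^ (i : ℕ) - 1)) (Y : GSp)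
    (v : Map Y.U (KS p n 0 0)) : Prop where
  gen : ∀ (m : ℤ) (x : Map Y.U (EM (ZMod p) m)),
    ∃ a : Map (KS p n 0 0).U (EM (ZMod p) m), HC.mk (Map.comp a v) = HC.mk x
  rel : ∀ (m : ℤ) (e : Map (KS p n 0 0).U (EM (ZMod p) m)), (Map.comp e v).Null →
    ∃ θ : Map (KS p n (0 + 1) (0 + 1)).U (EM (ZMod p) m),
      HC.mk (Map.comp θ (qm Q 0 0)) = HC.mk e
  ann : (Map.comp (qm Q 0 0) v).Null


/-! Auxiliary facts. -/

section aux

variable {X : PSp} {A B C D : GSp}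

private theorem sg_left {c c' : Map B.U C} (h : HC.mk c = HC.mk c') (a : Map X B) :
    HC.mk (Map.comp c a) = HC.mk (Map.comp c' a) := by
  rw [← HC.comp_mk, ← HC.comp_mk, HC.comp_congr h]

private theorem sg_right {a a' : Map X B} (h : HC.mk a = HC.mk a') (c : Map B.U C) :
    HC.mk (Map.comp c a) = HC.mk (Map.comp c a') := by
  rw [← HC.comp_mk, ← HC.comp_mk, h]

private theorem sg_null {a b : Map X B} (h : HC.mk a = HC.mk b) (hb : b.Null) : a.Null := by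
  rw [← HC.mk_eq_zero] at hb ⊢
  rw [h, hb]

private theorem sg_pi_eq {ι : Type} [Fintype ι] {L : ι → LSp (ZMod p)}
    {a b : Map X (LSp.pi L).toG}
    (h : ∀ i, HC.mk (Map.post (LSp.piProj L i).toG a) = HC.mk (Map.post (LSp.piProj L i).toG b)) :
    HC.mk a = HC.mk b := by
  rw [HC.mk_eq, LSp.null_pi_iff]
  intro i
  rw [map_add, map_neg, ← HC.mk_eq]
  exact h i

private def sgF (b : Map A.U B.P) (q : ℤ) (x : A.G q) : B.G (q + 1) := b.f q x

/-- Looping nullhomotopies. -/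
private theorem sg_null_om {c : Map A.U B} (hc : c.Null) : c.Om.Null := by
  obtain ⟨b, rfl⟩ := hc
  have hb0 : ∀ q (x : A.Om.G q), B.d 1 rfl (sgF b (q + 1) x.1) = 0 := by
    intro q x
    have h1 : b.f q (A.d 0 rfl x.1) = B.P.d 0 rfl (b.f (q + 1) x.1) := b.map_d 0 rfl x.1
    have h2 : A.d 0 rfl x.1 = 0 := x.2
    rw [h2] at h1
    exact h1.symm.trans (b.map_pt q)
  refine ⟨⟨fun q x => ⟨-(sgF b (q + 1) x.1) + B.s 0 rfl (B.d 0 rfl (sgF b (q + 1) x.1)), ?_⟩,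
    ?_, ?_, ?_⟩, ?_⟩
  · change B.d 0 rfl (-(sgF b (q + 1) x.1) + B.s 0 rfl (B.d 0 rfl (sgF b (q + 1) x.1))) = 0
    rw [map_add, map_neg, B.ds_eq, neg_add_cancel]
  · intro q
    apply Subtype.ext
    change -(sgF b (q + 1) 0) + B.s 0 rfl (B.d 0 rfl (sgF b (q + 1) 0)) = 0
    have h1 : sgF b (q + 1) 0 = 0 := b.map_pt (q + 1)
    rw [h1, map_zero, map_zero, neg_zero, add_zero]
  · intro i q r h x
    subst h
    apply Subtype.ext
    change -(sgF b (q + 1) (A.d (i + 1) rfl x.1)) +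
      B.s 0 rfl (B.d 0 rfl (sgF b (q + 1) (A.d (i + 1) rfl x.1))) =
      B.d (i + 1 + 1) rfl (-(sgF b (q + 1 + 1) x.1) +
        B.s 0 rfl (B.d 0 rfl (sgF b (q + 1 + 1) x.1)))
    have h1 : sgF b (q + 1) (A.d (i + 1) rfl x.1) =
        B.d (i + 1 + 1) rfl (sgF b (q + 1 + 1) x.1) := b.map_d (i + 1) rfl x.1
    rw [h1, map_add, map_neg, B.ds_gt (Nat.succ_pos i) rfl rfl]
    congr 2
    exact B.dd (Nat.zero_le (i + 1)) rfl rfl _
  · intro i q r h x
    subst h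
    apply Subtype.ext
    change -(sgF b (q + 1 + 1) (A.s (i + 1) rfl x.1)) +
      B.s 0 rfl (B.d 0 rfl (sgF b (q + 1 + 1) (A.s (i + 1) rfl x.1))) =
      B.s (i + 1 + 1) rfl (-(sgF b (q + 1) x.1) + B.s 0 rfl (B.d 0 rfl (sgF b (q + 1) x.1)))
    have h1 : sgF b (q + 1 + 1) (A.s (i + 1) rfl x.1) =
        B.s (i + 1 + 1) rfl (sgF b (q + 1) x.1) := b.map_s (i + 1) rfl x.1
    have h2 : B.d 0 rfl (B.s (i + 1 + 1) rfl (sgF b (q + 1) x.1)) =
        B.s (i + 1) rfl (B.d 0 rfl (sgF b (q + 1) x.1)) :=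
      B.ds_lt (Nat.zero_le (i + 1)) rfl rfl (sgF b (q + 1) x.1)
    rw [h1, map_add, map_neg, h2, B.ss (Nat.zero_le (i + 1)) rfl rfl]
  · refine Map.ext2 fun q x => ?_
    apply Subtype.ext
    change B.d (0 + 1) rfl (-(sgF b (q + 1) x.1) + B.s 0 rfl (B.d 0 rfl (sgF b (q + 1) x.1))) =
      B.d 0 rfl (sgF b (q + 1) x.1)
    rw [map_add, map_neg, B.ds_succ]
    have h1 := hb0 q x
    rw [h1, neg_zero, zero_add]

private theorem sg_om_congr {c c' : Map A.U B} (h : HC.mk c = HC.mk c') :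
    HC.mk c.Om = HC.mk c'.Om := by
  rw [HC.mk_eq] at h ⊢
  exact sg_null_om h

private theorem sg_toOm_we (m : ℤ) :
    (Map.ofHom (EM.toOm (ZMod p) (rfl : m + 1 = m + 1))).WE := by
  have h2 : (EM.toOm (ZMod p) (rfl : m + 1 = m + 1)).Surj := fun q =>
    (EM.toOm_bijective (M := ZMod p) (rfl : m + 1 = m + 1) q).2
  rw [GSp.we_iff _ h2]
  intro q x _
  have hx : x = 0 := Subtype.ext ((EM.toOm_bijective (M := ZMod p) (rfl : m + 1 = m + 1) q).1
    ((x.2 : (EM.toOm (ZMod p) (rfl : m + 1 = m + 1)).f q x.1 = 0).trans (map_zero _).symm))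
  rw [hx]
  exact zero_mem _

private theorem sg_sum {ι : Type} [Fintype ι] {L : LSp (ZMod p)} (f : ι → Map A.U L.toG)
    (v : Map X A) (S : Finset ι := Finset.univ) (h : ∀ i, (Map.comp (f i) v).Null) :
    (Map.comp (∑ i ∈ S, f i) v).Null := by
  classical
  induction S using Finset.induction_on with
  | empty => exact Map.null_zero
  | insert a S ha ih =>
    rw [Finset.sum_insert ha]
    exact (h a).add ih

omit [Fact p.Prime] in
private theorem sg_mdeg0 (I : Mon n 0) : mdeg p I.1 = 0 := by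
  have h1 : ∀ i, I.1 i = 0 := by
    intro i
    have h2 := Finset.single_le_sum (f := I.1) (fun _ _ => Nat.zero_le _) (Finset.mem_univ i)
    rw [I.2] at h2
    exact Nat.le_zero.1 h2
  unfold mdeg
  refine Finset.sum_eq_zero fun i _ => ?_
  rw [h1, Nat.cast_zero, zero_mul]

private theorem sg_f_congr {i j : ℤ} (a : Map (EM (ZMod p) i).U (EM (ZMod p) j)) {q q' : ℤ}
    (h : q = q') (c : (ℕ → ℕ) → ZMod p) (hc : c ∈ EMG (ZMod p) i q)
    (hc' : c ∈ EMG (ZMod p) i q') : (a.f q ⟨c, hc⟩).1 = (a.f q' ⟨c, hc'⟩).1 := by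
  subst h
  rfl

private theorem sg_sh_sh {i j i' j' : ℤ} (a : Map (EM (ZMod p) i).U (EM (ZMod p) j))
    (h : i' - i = j' - j) (h0 : i - i = i' - i) (h1 : j - j = j' - j) :
    Map.comp (Map.sh a h) (Map.sh (Map.id (EM (ZMod p) i)) h0) =
      Map.comp (Map.sh (Map.id (EM (ZMod p) j)) h1) a := by
  refine Map.ext2 fun q c => Subtype.ext ?_
  exact sg_f_congr a (by omega) c.1 _ c.2

private theorem sg_sh_id {i j : ℤ} (a : Map (EM (ZMod p) i).U (EM (ZMod p) j))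
    (h : j - j = j - j) : Map.comp (Map.sh (Map.id (EM (ZMod p) j)) h) a = a :=
  Map.ext2 fun _ _ => Subtype.ext rfl

end aux

/-- From `IsCyc` to `IsCycK`. -/
theorem IsCyc.toK (E : EOut p n Q) {Y : GSp} {u : Map Y.U (EM (ZMod p) 0)} (hY : IsCyc Q Y u) :
    ∃ v : Map Y.U (KS p n 0 0), IsCycK Q Y v ∧ ∀ q (x : Y.pi q), v.pi q x = 0 ↔ u.pi q x = 0 := by
  classical
  have hI0 : ∀ I : Mon n 0, (0 : ℤ) - 0 = mdeg p I.1 + 0 - 0 := by
    intro I
    rw [sg_mdeg0]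
    rfl
  let v : Map Y.U (KS p n 0 0) := LSp.toPi
    (L := fun I : Mon n 0 => EML (ZMod p) (ZMod p) (mdeg p I.1 + 0))
    (fun I => (Map.comp (Map.sh (Map.id (EM (ZMod p) 0)) (hI0 I)) u :
      Map Y.U (EML (ZMod p) (ZMod p) (mdeg p I.1 + 0)).toG))
  have hv : ∀ I : Mon n 0, Map.comp (KS.pr I) v =
      Map.comp (Map.sh (Map.id (EM (ZMod p) 0)) (hI0 I)) u := fun I => rfl
  have I0 : Mon n 0 := ⟨0, by simp⟩
  have hann : ∀ i : Fin (n + 1), (Map.comp (Q i) u).Null := by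
    intro i
    rw [hY.rel]
    refine ⟨Function.update (fun j => (0 : Map (EM (ZMod p) (2 * p ^ (j : ℕ) - 1 : ℕ)).U
      (EM (ZMod p) (2 * p ^ (i : ℕ) - 1 : ℕ)))) i (Map.id _), ?_⟩
    rw [Finset.sum_eq_single i]
    · rw [Function.update_self]
      rfl
    · intro j _ hj
      rw [Function.update_of_ne hj]
      exact HC.mk_eq_zero.2 Map.null_zero
    · intro h
      exact absurd (Finset.mem_univ i) h
  refine ⟨v, ⟨?_, ?_, ?_⟩, ?_⟩
  · intro m x
    obtain ⟨a, ha⟩ := hY.gen m x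
    have hm : mdeg p I0.1 + 0 - 0 = m - m := by
      rw [sg_mdeg0]
      omega
    refine ⟨Map.comp (Map.sh a hm) (KS.pr I0), ?_⟩
    rw [← ha]
    have h1 : Map.comp (Map.comp (Map.sh a hm) (KS.pr I0)) v =
        Map.comp (Map.comp (Map.sh a hm) (Map.sh (Map.id (EM (ZMod p) 0)) (hI0 I0))) u := rfl
    rw [h1, sg_sh_sh a hm (hI0 I0) rfl, sg_sh_id]
  · intro m e he
    exact isCyc_row hY v (fun I h => rfl) m e he
  · refine (LSp.null_pi_iff (L := fun J : Mon n (0 + 1) =>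
      EML (ZMod p) (ZMod p) (mdeg p J.1 + (0 + 1))) (Map.comp (qm Q 0 0) v)).2 fun J => ?_
    change (Map.comp (∑ i : Fin (n + 1), if h : 0 < J.1 i then
      (Map.comp (Map.sh (n' := mdeg p (J.pred i h).1 + 0) (m' := mdeg p J.1 + (0 + 1)) (Q i) (by
        rw [mdeg_pred p J i h, deg_cast]; ring)) (KS.pr (J.pred i h)) :
          Map (KS p n 0 0).U (EML (ZMod p) (ZMod p) (mdeg p J.1 + (0 + 1))).toG) else 0) v).Null
    refine sg_sum _ _ _ fun i => ?_
    by_cases h : 0 < J.1 i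
    · rw [dif_pos h]
      change (Map.comp (Map.comp (Map.sh (n' := mdeg p (J.pred i h).1 + 0)
        (m' := mdeg p J.1 + (0 + 1)) (Q i) _)
        (Map.sh (Map.id (EM (ZMod p) 0)) (hI0 (J.pred i h)))) u).Null
      rw [sg_sh_sh (Q i) _ (hI0 (J.pred i h)) (show ((2 * p ^ (i : ℕ) - 1 : ℕ) : ℤ) -
        ((2 * p ^ (i : ℕ) - 1 : ℕ) : ℤ) = mdeg p J.1 + (0 + 1) -
        ((2 * p ^ (i : ℕ) - 1 : ℕ) : ℤ) by
          rw [mdeg_pred p J i h, deg_cast, sg_mdeg0]; ring)]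
      rw [← Map.comp_assoc]
      exact (hann i).comp _
    · rw [dif_neg h]
      exact Map.null_zero
  · intro q x
    have hinj : ∀ (I : Mon n 0) (y : (EM (ZMod p) 0).pi q),
        (Map.sh (Map.id (EM (ZMod p) 0)) (hI0 I)).pi q y = 0 → y = 0 := by
      intro I y hy
      have h1 : Map.comp (Map.sh (Map.id (EM (ZMod p) (mdeg p I.1 + 0)))
          (show mdeg p I.1 + 0 - (mdeg p I.1 + 0) = 0 - (mdeg p I.1 + 0) by
            rw [sg_mdeg0]; rfl)) (Map.sh (Map.id (EM (ZMod p) 0)) (hI0 I)) =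
          Map.id (EM (ZMod p) 0) := Map.ext2 fun q c => Subtype.ext rfl
      have h2 := congrArg (fun m : Map (EM (ZMod p) 0).U (EM (ZMod p) 0) => m.pi q y) h1
      beta_reduce at h2
      rw [Map.pi_comp, AddMonoidHom.comp_apply, hy, map_zero, Map.pi_id] at h2
      exact h2.symm
    have hcomp : ∀ I : Mon n 0, (KS.pr I).pi q (v.pi q x) =
        (Map.sh (Map.id (EM (ZMod p) 0)) (hI0 I)).pi q (u.pi q x) := by
      intro I
      have h1 : (Map.comp (KS.pr I) v).pi q x = (Map.comp (Map.sh (Map.id (EM (ZMod p) 0))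
        (hI0 I)) u).pi q x := rfl
      rw [Map.pi_comp, Map.pi_comp] at h1
      exact h1
    constructor
    · intro h
      have h1 := hcomp I0
      rw [h, map_zero] at h1
      exact hinj I0 _ h1.symm
    · intro h
      apply (LSp.pi_pi_bijective (L := fun I : Mon n 0 =>
        EML (ZMod p) (ZMod p) (mdeg p I.1 + 0)) q).1
      funext I
      refine (hcomp I).trans ?_
      rw [h, map_zero]
      exact (map_zero _).symm

variable {Y : GSp} {v : Map Y.U (KS p n 0 0)}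

/-- The bottom stage `C_1 = K_0`. -/
noncomputable def Stage.zero (hv : IsCycK Q Y v) : Stage Q Y v 0 where
  C := KS p n 0 0
  sbb := KS.sbb 0 0
  y := v
  b := Map.id _
  i := Map.id _
  κ := qm Q 0 0
  by_ := rfl
  bi := fun h => absurd h (lt_irrefl 0)
  κy := hv.ann
  κi := rfl
  inj := fun _ _ _ h => h
  im := fun m c hc => hv.rel m c hc

variable {s : ℕ}

/-- (N1) The k-invariant composed with the Koszul map is nullhomotopic.  PROOF: `S.inj`
componentwise: on `Y` by `κy`, on the last layer by `κi` and `qm_qm`. -/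
theorem Stage.qm_κ (E : EOut p n Q) (S : Stage Q Y v s) :
    (Map.comp (qm Q (s + 1) 1) S.κ).Null := by
  refine (LSp.null_pi_iff (L := fun J : Mon n (s + 1 + 1) =>
    EML (ZMod p) (ZMod p) (mdeg p J.1 + (1 + 1))) (Map.comp (qm Q (s + 1) 1) S.κ)).2 fun J => ?_
  refine S.inj (mdeg p J.1 + (1 + 1)) (Map.comp (KS.pr J) (Map.comp (qm Q (s + 1) 1) S.κ)) ?_ ?_
  · exact (S.κy.comp (qm Q (s + 1) 1)).comp (KS.pr J)
  · have h1 : (Map.comp (qm Q (s + 1) 1) (Map.comp S.κ S.i)).Null :=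
      sg_null (sg_right S.κi (qm Q (s + 1) 1)) (qm_qm E s 0)
    exact h1.comp (KS.pr J)

/-- (N2) Extension of classes from `Y` by classes vanishing on the new layer. -/
theorem Stage.exists_ext (S : Stage Q Y v s) (hv : IsCycK Q Y v) {t : ℕ} {k : ℤ}
    (x : Map Y.U (KS p n t k)) :
    ∃ c : Map (KS p n 0 0).U (KS p n t k), HC.mk (Map.comp (Map.comp c S.b) S.y) = HC.mk x := by
  choose a ha using fun I : Mon n t => hv.gen (mdeg p I.1 + k) (Map.comp (KS.pr I) x)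
  let c : Map (KS p n 0 0).U (KS p n t k) := LSp.toPi
    (L := fun I : Mon n t => EML (ZMod p) (ZMod p) (mdeg p I.1 + k)) a
  refine ⟨c, ?_⟩
  have h1 : HC.mk (Map.comp c v) = HC.mk x :=
    sg_pi_eq (L := fun I : Mon n t => EML (ZMod p) (ZMod p) (mdeg p I.1 + k))
      (a := Map.comp c v) (b := x) fun I => ha I
  rw [← h1]
  exact sg_right S.by_ c

/-- (N3) Existence of the next k-invariant.  PROOF: `exists_fib_ext` for `θ = qm Q (s+1) 1` and
(N1), transported along `KS (s+2) 1 ≅ Ω KS (s+2) 2`, up to the sign of `qm_om`; then subtract a class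
pulled back from the bottom stage to make it vanish on `Y`. -/
theorem Stage.exists_next_κ (E : EOut p n Q) (S : Stage Q Y v s) (hv : IsCycK Q Y v)
    (y' : Map Y.U S.κ.Fib) (hy' : Map.post S.κ.fibP y' = S.y) :
    ∃ κ' : Map S.κ.Fib.U (KS p n (s + 1 + 1) 1), (Map.comp κ' y').Null ∧
      HC.mk (Map.comp κ' (Map.comp (Map.ofHom S.κ.fibI)
        (Map.ofHom (KS.toOm (s + 1) (show (0 : ℤ) + 1 = 1 by norm_num))))) =
      HC.mk (qm Q (s + 1) 0) := by
  obtain ⟨e, he⟩ := S.κ.exists_fib_ext (qm Q (s + 1) 1) (S.qm_κ E)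
  obtain ⟨e₁', he₁'⟩ := ((KS.toOm_we (p := p) (n := n) (s + 1 + 1)
    (rfl : (1 : ℤ) + 1 = 1 + 1)).comp_bijective (X := S.κ.Fib.U)).2 (HC.mk e)
  obtain ⟨e₁, rfl⟩ := HC.mk_surj e₁'
  rw [HC.comp_mk] at he₁'
  have h2 : HC.mk (Map.comp (-e₁) (Map.comp (Map.ofHom S.κ.fibI)
      (Map.ofHom (KS.toOm (s + 1) (show (0 : ℤ) + 1 = 1 by norm_num))))) =
      HC.mk (qm Q (s + 1) 0) := by
    apply ((KS.toOm_we (p := p) (n := n) (s + 1 + 1)
      (rfl : (1 : ℤ) + 1 = 1 + 1)).comp_bijective (X := (KS p n (s + 1) 0).U)).1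
    have h3 : HC.mk (Map.comp (-e₁) (Map.comp (Map.ofHom S.κ.fibI)
      (Map.ofHom (KS.toOm (s + 1) (show (0 : ℤ) + 1 = 1 by norm_num))))) =
      -HC.mk (Map.comp e₁ (Map.comp (Map.ofHom S.κ.fibI)
      (Map.ofHom (KS.toOm (s + 1) (show (0 : ℤ) + 1 = 1 by norm_num))))) := by
      rw [← map_neg]
      rfl
    have h4 := sg_left he₁' (Map.comp (Map.ofHom S.κ.fibI)
      (Map.ofHom (KS.toOm (s + 1) (show (0 : ℤ) + 1 = 1 by norm_num))))
    have h5 : Map.comp e (Map.comp (Map.ofHom S.κ.fibI)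
      (Map.ofHom (KS.toOm (s + 1) (show (0 : ℤ) + 1 = 1 by norm_num)))) =
      Map.comp (qm Q (s + 1) 1).Om
        (Map.ofHom (KS.toOm (s + 1) (show (0 : ℤ) + 1 = 1 by norm_num))) := by
      rw [← he]
      rfl
    have h6 := qm_om (Q := Q) (s + 1) 0
    rw [h3, map_neg, HC.comp_mk, HC.comp_mk]
    rw [Map.comp_assoc, h4, h5]
    refine (congrArg Neg.neg h6).trans ?_
    rw [neg_neg]
  obtain ⟨c₀, hc₀⟩ := S.exists_ext hv (Map.comp (-e₁) y')
  refine ⟨-e₁ + -(Map.comp (Map.comp c₀ S.b) (Map.ofHom S.κ.fibP)), ?_, ?_⟩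
  · rw [← HC.mk_eq_zero]
    have h7 : Map.comp (-e₁ + -(Map.comp (Map.comp c₀ S.b) (Map.ofHom S.κ.fibP))) y' =
        Map.comp (-e₁) y' + -(Map.comp (Map.comp c₀ S.b) (Map.post S.κ.fibP y')) := rfl
    rw [h7, hy', map_add, map_neg, hc₀, add_neg_cancel]
  · have h8 : Map.comp (-e₁ + -(Map.comp (Map.comp c₀ S.b) (Map.ofHom S.κ.fibP)))
        (Map.comp (Map.ofHom S.κ.fibI)
        (Map.ofHom (KS.toOm (s + 1) (show (0 : ℤ) + 1 = 1 by norm_num)))) =
        Map.comp (-e₁) (Map.comp (Map.ofHom S.κ.fibI)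
        (Map.ofHom (KS.toOm (s + 1) (show (0 : ℤ) + 1 = 1 by norm_num)))) +
        -(Map.comp (Map.comp c₀ S.b) (Map.comp (Map.post S.κ.fibP (Map.ofHom S.κ.fibI))
        (Map.ofHom (KS.toOm (s + 1) (show (0 : ℤ) + 1 = 1 by norm_num))))) := rfl
    have h9 : (Map.comp (Map.comp c₀ S.b) (Map.comp (Map.post S.κ.fibP (Map.ofHom S.κ.fibI))
        (Map.ofHom (KS.toOm (s + 1) (show (0 : ℤ) + 1 = 1 by norm_num))))).Null := by
      rw [S.κ.fibP_fibI]
      exact (Map.null_zero.comp_left _).comp _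
    rw [h8, map_add, map_neg, HC.mk_eq_zero.2 h9, neg_zero, add_zero, h2]

/-- (N4) INJ for the next stage.  PROOF: `CE.exact_Fib`, then `S.im`, then `null_comp_fibP`. -/
theorem Stage.next_inj (S : Stage Q Y v s) (y' : Map Y.U S.κ.Fib)
    (hy' : Map.post S.κ.fibP y' = S.y) (m : ℤ) (c : Map S.κ.Fib.U (EM (ZMod p) m))
    (h1 : (Map.comp c y').Null)
    (h2 : (Map.comp c (Map.comp (Map.ofHom S.κ.fibI)
        (Map.ofHom (KS.toOm (s + 1) (show (0 : ℤ) + 1 = 1 by norm_num))))).Null) : c.Null := by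
  have h3 : (Map.comp c (Map.ofHom S.κ.fibI)).Null := by
    rw [← HC.mk_eq_zero]
    apply ((KS.toOm_we (p := p) (n := n) (s + 1)
      (show (0 : ℤ) + 1 = 1 by norm_num)).pre_bijective (K := EM (ZMod p) m)).1
    rw [HC.pre_mk, map_zero, HC.mk_eq_zero]
    exact h2
  obtain ⟨θ, hθ⟩ := CE.exact_Fib S.κ S.sbb (KS.sbb _ _) (EML (ZMod p) (ZMod p) m) c h3
  have h4 : (Map.comp θ S.y).Null := by
    rw [← hy']
    exact sg_null (sg_left hθ y') h1
  obtain ⟨θ', hθ'⟩ := S.im m θ h4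
  refine sg_null hθ.symm ?_
  refine sg_null (sg_left hθ'.symm (Map.ofHom S.κ.fibP)) ?_
  exact S.κ.null_comp_fibP.comp θ'

/-- (N5) IM for the next stage.  PROOF: the restriction `e` of `c` to the layer is `Ω e'`
(`CE.om_surj`), `e' κ` is null by `CE.trans`, so `e' ∘ qm Q s 0` is null; by `qm_exact`
`e' = θ' ∘ qm Q (s+1) 1`, hence `e = ± Ω θ' ∘ qm Q (s+1) 0 = θ κ' i'`; `c - θ κ'` vanishes by
(N4). -/
theorem Stage.next_im (E : EOut p n Q) (S : Stage Q Y v s) (y' : Map Y.U S.κ.Fib)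
    (hy' : Map.post S.κ.fibP y' = S.y)
    (κ' : Map S.κ.Fib.U (KS p n (s + 1 + 1) 1)) (hκ : (Map.comp κ' y').Null)
    (hκi : HC.mk (Map.comp κ' (Map.comp (Map.ofHom S.κ.fibI)
        (Map.ofHom (KS.toOm (s + 1) (show (0 : ℤ) + 1 = 1 by norm_num))))) =
      HC.mk (qm Q (s + 1) 0)) (m : ℤ) (c : Map S.κ.Fib.U (EM (ZMod p) m))
    (h1 : (Map.comp c y').Null) :
    ∃ θ : Map (KS p n (s + 1 + 1) 1).U (EM (ZMod p) m), HC.mk (Map.comp θ κ') = HC.mk c := by
  have hτ := sg_toOm_we (p := p) m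
  obtain ⟨e', he'⟩ := CE.om_surj (KS.sbb (p := p) (n := n) (s + 1) 1)
    (EML (ZMod p) (ZMod p) (m + 1))
    (Map.comp (Map.ofHom (EM.toOm (ZMod p) (rfl : m + 1 = m + 1)))
      (Map.comp c (Map.ofHom S.κ.fibI)))
  have h2 : (Map.comp e' S.κ).Null := CE.trans S.κ S.sbb (KS.sbb _ _)
    (EML (ZMod p) (ZMod p) (m + 1)) e'
    (Map.comp (Map.ofHom (EM.toOm (ZMod p) (rfl : m + 1 = m + 1))) c) he'.symm
  have h3 : (Map.comp e' (qm Q s 0)).Null :=
    sg_null (sg_right S.κi.symm e') (h2.comp_left S.i)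
  obtain ⟨θ', hθ'⟩ := qm_exact E s 0 (m + 1) e' h3
  obtain ⟨θ₁', hθ₁'⟩ := (hτ.comp_bijective (X := (KS p n (s + 1 + 1) 1).U)).2
    (HC.mk (Map.comp θ'.Om (Map.ofHom (KS.toOm (p := p) (n := n) (s + 1 + 1)
      (rfl : (1 : ℤ) + 1 = 1 + 1)))))
  obtain ⟨θ₁, rfl⟩ := HC.mk_surj θ₁'
  rw [HC.comp_mk] at hθ₁'
  have h4 : HC.mk (Map.comp c (Map.comp (Map.ofHom S.κ.fibI)
      (Map.ofHom (KS.toOm (s + 1) (show (0 : ℤ) + 1 = 1 by norm_num))))) =
      HC.mk (Map.comp (-θ₁) (qm Q (s + 1) 0)) := by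
    apply (hτ.comp_bijective (X := (KS p n (s + 1) 0).U)).1
    rw [HC.comp_mk, HC.comp_mk]
    have e1 : HC.mk (Map.comp (Map.ofHom (EM.toOm (ZMod p) (rfl : m + 1 = m + 1)))
        (Map.comp c (Map.comp (Map.ofHom S.κ.fibI)
        (Map.ofHom (KS.toOm (s + 1) (show (0 : ℤ) + 1 = 1 by norm_num)))))) =
        HC.mk (Map.comp e'.Om
          (Map.ofHom (KS.toOm (s + 1) (show (0 : ℤ) + 1 = 1 by norm_num)))) :=
      sg_left he'.symm (Map.ofHom (KS.toOm (s + 1) (show (0 : ℤ) + 1 = 1 by norm_num)))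
    have e2 : HC.mk (Map.comp e'.Om
        (Map.ofHom (KS.toOm (s + 1) (show (0 : ℤ) + 1 = 1 by norm_num)))) =
        HC.mk (Map.comp θ'.Om (Map.comp (qm Q (s + 1) (0 + 1)).Om
          (Map.ofHom (KS.toOm (s + 1) (rfl : (0 : ℤ) + 1 = 0 + 1))))) :=
      sg_left (sg_om_congr hθ'.symm)
        (Map.ofHom (KS.toOm (s + 1) (show (0 : ℤ) + 1 = 1 by norm_num)))
    have e3 : HC.mk (Map.comp θ'.Om (Map.comp (qm Q (s + 1) (0 + 1)).Om
        (Map.ofHom (KS.toOm (s + 1) (rfl : (0 : ℤ) + 1 = 0 + 1))))) =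
        -HC.mk (Map.comp θ'.Om (Map.comp (Map.ofHom (KS.toOm (p := p) (n := n) (s + 1 + 1)
          (rfl : ((0 : ℤ) + 1) + 1 = (0 + 1) + 1))) (qm Q (s + 1) 0))) := by
      rw [← HC.comp_mk, qm_om, map_neg, HC.comp_mk]
    have e4 : HC.mk (Map.comp (Map.ofHom (EM.toOm (ZMod p) (rfl : m + 1 = m + 1)))
        (Map.comp (-θ₁) (qm Q (s + 1) 0))) =
        -HC.mk (Map.comp (Map.comp (Map.ofHom (EM.toOm (ZMod p) (rfl : m + 1 = m + 1))) θ₁)
          (qm Q (s + 1) 0)) := by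
      rw [← map_neg]
      exact congrArg HC.mk (Map.ext2 fun q x => map_neg _ _)
    have e5 := sg_left hθ₁' (qm Q (s + 1) 0)
    rw [e1, e2, e3, e4, e5]
    rfl
  refine ⟨-θ₁, ?_⟩
  have h5 : (c + -(Map.comp (-θ₁) κ')).Null := by
    refine S.next_inj y' hy' m _ ?_ ?_
    · have h6 : Map.comp (c + -(Map.comp (-θ₁) κ')) y' =
          Map.comp c y' + -(Map.comp (-θ₁) (Map.comp κ' y')) := rfl
      rw [h6]
      exact h1.add (hκ.comp (-θ₁)).neg
    · rw [← HC.mk_eq_zero]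
      have h6 : Map.comp (c + -(Map.comp (-θ₁) κ')) (Map.comp (Map.ofHom S.κ.fibI)
          (Map.ofHom (KS.toOm (s + 1) (show (0 : ℤ) + 1 = 1 by norm_num)))) =
          Map.comp c (Map.comp (Map.ofHom S.κ.fibI)
          (Map.ofHom (KS.toOm (s + 1) (show (0 : ℤ) + 1 = 1 by norm_num)))) +
          -(Map.comp (-θ₁) (Map.comp κ' (Map.comp (Map.ofHom S.κ.fibI)
          (Map.ofHom (KS.toOm (s + 1) (show (0 : ℤ) + 1 = 1 by norm_num)))))) := rfl
      rw [h6, map_add, map_neg, h4, sg_right hκi (-θ₁), add_neg_cancel]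
  exact (HC.mk_eq.2 h5).symm

/-- The next stage. -/
noncomputable def Stage.next (E : EOut p n Q) (hv : IsCycK Q Y v) (S : Stage Q Y v s) :
    Stage Q Y v (s + 1) :=
  let y' := (S.κ.exists_fib_lift S.y S.κy).choose
  let hy' := (S.κ.exists_fib_lift S.y S.κy).choose_spec
  let κ' := (S.exists_next_κ E hv y' hy').choose
  let hκ := (S.exists_next_κ E hv y' hy').choose_spec
  { C := S.κ.Fib
    sbb := CE.fib_sbb S.κ S.sbb (KS.sbb _ _)
    y := y'
    b := Map.comp S.b (Map.ofHom S.κ.fibP)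
    i := Map.comp (Map.ofHom S.κ.fibI)
      (Map.ofHom (KS.toOm (s + 1) (show (0 : ℤ) + 1 = 1 by norm_num)))
    κ := κ'
    by_ := by
      have h : Map.comp (Map.comp S.b (Map.ofHom S.κ.fibP)) y' = Map.comp S.b S.y := by
        rw [← Map.comp_assoc, Map.comp_ofHom, hy']
      rw [h]; exact S.by_
    bi := fun _ => by
      have h : Map.comp (Map.comp S.b (Map.ofHom S.κ.fibP)) (Map.comp (Map.ofHom S.κ.fibI)
          (Map.ofHom (KS.toOm (s + 1) (show (0 : ℤ) + 1 = 1 by norm_num)))) =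
          Map.comp S.b (Map.comp (Map.post S.κ.fibP (Map.ofHom S.κ.fibI))
            (Map.ofHom (KS.toOm (s + 1) (show (0 : ℤ) + 1 = 1 by norm_num)))) := rfl
      rw [h, S.κ.fibP_fibI]
      exact Map.Null.comp Map.null_zero _
    κy := hκ.1
    κi := hκ.2
    inj := S.next_inj y' hy'
    im := S.next_im E y' hy' κ' hκ.1 hκ.2 }

/-- The tower. -/
noncomputable def tower (E : EOut p n Q) (hv : IsCycK Q Y v) : ∀ s, Stage Q Y v s
  | 0 => Stage.zero hv
  | s + 1 => (tower E hv s).next E hv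

/-- The projections of the tower. -/
noncomputable def tproj (E : EOut p n Q) (hv : IsCycK Q Y v) (s : ℕ) :
    Hom (tower E hv (s + 1)).C (tower E hv s).C := (tower E hv s).κ.fibP

theorem tproj_y (E : EOut p n Q) (hv : IsCycK Q Y v) (s : ℕ) :
    Map.post (tproj E hv s) (tower E hv (s + 1)).y = (tower E hv s).y :=
  ((tower E hv s).κ.exists_fib_lift _ (tower E hv s).κy).choose_spec

theorem tproj_surj (E : EOut p n Q) (hv : IsCycK Q Y v) (s : ℕ) : (tproj E hv s).Surj :=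
  (tower E hv s).κ.fibP_surj

end BPN
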